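import Pool.Agent.Lib.MP_a54f13_nt.Sq.Spec
import Pool.Agent.Lib.MP_a54f13_nt.Av.SpecA
import Pool.Agent.Lib.MP_a54f13_nt.Half

/-!
# Package `Sq`, module `Twr`: the tower of a Hecke–Maass form
-/

set_option autoImplicit false

namespace Pool.Agent.A54.Sq

open MeasureTheory Filter Topology Set
open scoped ContDiff ComplexConjugate UpperHalfPlane MatrixGroups
open Pool.Agent.A54.Half (H0 qq ff hh)

namespace TwrM

noncomputable section

/-- the normalising factor -/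
def sk (t : ℝ) (k : ℕ) : ℝ := √(∏ j ∈ Finset.range k, Av.mu j t)

lemma mu_pos {t : ℝ} (ht : 0 < t) (j : ℕ) : 0 < Av.mu j t := by
  unfold Av.mu
  positivity

lemma prod_pos {t : ℝ} (ht : 0 < t) (k : ℕ) : 0 < ∏ j ∈ Finset.range k, Av.mu j t :=
  Finset.prod_pos fun j _ => mu_pos ht j

lemma sk_pos {t : ℝ} (ht : 0 < t) (k : ℕ) : 0 < sk t k := Real.sqrt_pos.2 (prod_pos ht k)

lemma la_nat (t : ℝ) (k : ℕ) : la t (k : ℤ) = √(Av.mu k t) := by
  unfold la Av.mu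
  push_cast
  rfl

lemma la_neg (t : ℝ) (m : ℕ) : la t (Int.negSucc m) = √(Av.mu m t) := by
  unfold la Av.mu
  rw [Int.negSucc_eq]
  congr 1
  push_cast
  ring

lemma sk_succ {t : ℝ} (ht : 0 < t) (k : ℕ) : sk t (k + 1) = sk t k * √(Av.mu k t) := by
  unfold sk
  rw [Finset.prod_range_succ, Real.sqrt_mul (prod_pos ht k).le]

/-- the functions with nonnegative index -/
def gp (χ : ℂ → ℝ) (f : ℍ → ℝ) (t : ℝ) (k : ℕ) (z : ℂ) : ℂ :=
  (χ z : ℂ) * ((((sk t k)⁻¹ : ℝ) : ℂ) * Av.fk f k z)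

/-- the tower -/
def GT (χ : ℂ → ℝ) (f : ℍ → ℝ) (t : ℝ) : ℤ → ℂ → ℂ
  | Int.ofNat k => gp χ f t k
  | Int.negSucc m => fun z => (-1) ^ (m + 1) * conj (gp χ f t (m + 1) z)

variable {χ : ℂ → ℝ} {f : ℍ → ℝ} {t : ℝ} {V : Set ℂ}

lemma GT_nat (k : ℕ) : GT χ f t (k : ℤ) = gp χ f t k := rfl

lemma gp_zero (z : ℂ) : gp χ f t 0 z = ((ff χ f z : ℝ) : ℂ) := by
  have h1 : sk t 0 = 1 := by
    unfold sk
    simp
  have h2 : Av.fk f 0 z = (ext f z : ℂ) := rfl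
  unfold gp ff
  rw [h1, h2]
  push_cast
  ring

lemma GT_neg (n : ℤ) (z : ℂ) : GT χ f t (-n) z = (-1) ^ n * conj (GT χ f t n z) := by
  cases n with
  | ofNat k =>
    cases k with
    | zero =>
      show gp χ f t 0 z = (-1) ^ (0 : ℤ) * conj (gp χ f t 0 z)
      rw [zpow_zero, one_mul, gp_zero, Complex.conj_ofReal]
    | succ m =>
      show (-1) ^ (m + 1) * conj (gp χ f t (m + 1) z) =
        (-1) ^ (((m + 1 : ℕ) : ℤ)) * conj (gp χ f t (m + 1) z)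
      rw [zpow_natCast]
  | negSucc m =>
    show gp χ f t (m + 1) z = (-1) ^ (Int.negSucc m) *
      conj ((-1) ^ (m + 1) * conj (gp χ f t (m + 1) z))
    rw [map_mul, Complex.conj_conj, map_pow, map_neg, map_one, zpow_negSucc, ← mul_assoc,
      inv_mul_cancel₀ (pow_ne_zero _ (by norm_num)), one_mul]

lemma GT_negnat (m : ℕ) : GT χ f t (-(m : ℤ)) = fun z => (-1) ^ m * conj (gp χ f t m z) := by
  funext z
  rw [GT_neg, zpow_natCast]
  rfl

lemma tsupport_ofReal (χ : ℂ → ℝ) : tsupport (fun z => (χ z : ℂ)) ⊆ tsupport χ := by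
  refine closure_mono ?_
  intro z hz
  rw [Function.mem_support] at hz ⊢
  intro h
  exact hz (by simp [h])

lemma gp_smooth (hχ : TestR H0 χ) (hs : ∀ k, ContDiffOn ℝ ∞ (Av.fk f k) H0) (k : ℕ) :
    ContDiff ℝ ∞ (gp χ f t k) :=
  Half.smooth_mulC Half.isOpen_H0 (contDiff_ofReal hχ.smooth)
    ((tsupport_ofReal χ).trans hχ.sub) (contDiffOn_const.mul (hs k))

lemma GT_smooth (hχ : TestR H0 χ) (hs : ∀ k, ContDiffOn ℝ ∞ (Av.fk f k) H0) (n : ℤ) :
    ContDiff ℝ ∞ (GT χ f t n) := by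
  cases n with
  | ofNat k => exact gp_smooth hχ hs k
  | negSucc m => exact contDiff_const.mul (contDiff_conj (gp_smooth hχ hs (m + 1)))

lemma dz_at (c : ℂ) {a : ℂ → ℂ} {z : ℂ} (ha : DifferentiableAt ℝ a z) :
    dz (fun w => c * a w) z = c * dz a z ∧ dzb (fun w => c * a w) z = c * dzb a z := by
  unfold dz dzb
  rw [fderiv_const_mul ha]
  simp only [smul_apply, smul_eq_mul]
  constructor <;> ring

lemma gp_eq (h1 : ∀ z ∈ V, χ z = 1) (k : ℕ) : ∀ w ∈ V, gp χ f t k w =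
    (((sk t k)⁻¹ : ℝ) : ℂ) * Av.fk f k w := by
  intro w hw
  unfold gp
  rw [h1 w hw]
  push_cast
  ring

/-- `up` for nonnegative indices -/
lemma up_nat (ht : 0 < t) (hV : IsOpen V) (hVH : V ⊆ H0) (h1 : ∀ z ∈ V, χ z = 1)
    (hs : ∀ k, ContDiffOn ℝ ∞ (Av.fk f k) H0) (k : ℕ) {z : ℂ} (hz : z ∈ V) :
    Complex.I * (z.im : ℂ) * dz (gp χ f t k) z + (k : ℂ) * gp χ f t k z =
      ((√(Av.mu k t) : ℝ) : ℂ) * gp χ f t (k + 1) z := by
  have hd : DifferentiableAt ℝ (Av.fk f k) z :=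
    ((hs k).contDiffAt (Half.isOpen_H0.mem_nhds (hVH hz))).differentiableAt (by simp)
  rw [dz_congr hV (gp_eq (t := t) h1 k) hz, (dz_at _ hd).1, gp_eq h1 k z hz, gp_eq h1 (k + 1) z hz]
  have e1 : Av.fk f (k + 1) z = Complex.I * (z.im : ℂ) * dz (Av.fk f k) z + (k : ℂ) * Av.fk f k z :=
    rfl
  have e2 : ((sk t (k + 1))⁻¹ : ℝ) = (√(Av.mu k t))⁻¹ * (sk t k)⁻¹ := by
    rw [sk_succ ht, mul_inv, mul_comm]
  have h3 : ((√(Av.mu k t) : ℝ) : ℂ) ≠ 0 := by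
    exact_mod_cast (Real.sqrt_pos.2 (mu_pos ht k)).ne'
  rw [e1, e2]
  push_cast
  field_simp

/-- `down` for nonnegative indices -/
lemma down_nat (ht : 0 < t) (hV : IsOpen V) (hVH : V ⊆ H0) (h1 : ∀ z ∈ V, χ z = 1)
    (hs : ∀ k, ContDiffOn ℝ ∞ (Av.fk f k) H0)
    (hL : ∀ k, ∀ z ∈ H0, Av.LL (k + 1) (Av.fk f (k + 1)) z = -((Av.mu k t : ℝ) : ℂ) * Av.fk f k z)
    (k : ℕ) {z : ℂ} (hz : z ∈ V) :
    -(Complex.I * (z.im : ℂ) * dzb (gp χ f t (k + 1)) z) - ((k : ℂ) + 1) * gp χ f t (k + 1) z =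
      -(((√(Av.mu k t) : ℝ) : ℂ) * gp χ f t k z) := by
  have hd : DifferentiableAt ℝ (Av.fk f (k + 1)) z :=
    ((hs (k + 1)).contDiffAt (Half.isOpen_H0.mem_nhds (hVH hz))).differentiableAt (by simp)
  rw [dzb_congr hV (gp_eq (t := t) h1 (k + 1)) hz, (dz_at _ hd).2, gp_eq h1 k z hz,
    gp_eq h1 (k + 1) z hz]
  have e1 := hL k z (hVH hz)
  unfold Av.LL at e1
  push_cast at e1
  have e2 : ((sk t (k + 1))⁻¹ : ℝ) = (√(Av.mu k t))⁻¹ * (sk t k)⁻¹ := by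
    rw [sk_succ ht, mul_inv, mul_comm]
  have h3 : ((√(Av.mu k t) : ℝ) : ℂ) ≠ 0 := by
    exact_mod_cast (Real.sqrt_pos.2 (mu_pos ht k)).ne'
  have e4 : ((Av.mu k t : ℝ) : ℂ) = ((√(Av.mu k t) : ℝ) : ℂ) * ((√(Av.mu k t) : ℝ) : ℂ) := by
    rw [← Complex.ofReal_mul, Real.mul_self_sqrt (mu_pos ht k).le]
  calc -(Complex.I * (z.im : ℂ) * ((((sk t (k + 1))⁻¹ : ℝ) : ℂ) * dzb (Av.fk f (k + 1)) z)) -
        ((k : ℂ) + 1) * ((((sk t (k + 1))⁻¹ : ℝ) : ℂ) * Av.fk f (k + 1) z)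
      = (((sk t (k + 1))⁻¹ : ℝ) : ℂ) * (-(Complex.I * (z.im : ℂ) * dzb (Av.fk f (k + 1)) z) -
          ((k : ℂ) + 1) * Av.fk f (k + 1) z) := by ring
    _ = (((sk t (k + 1))⁻¹ : ℝ) : ℂ) * (-((Av.mu k t : ℝ) : ℂ) * Av.fk f k z) := by rw [e1]
    _ = -(((√(Av.mu k t) : ℝ) : ℂ) * ((((sk t k)⁻¹ : ℝ) : ℂ) * Av.fk f k z)) := by
        rw [e4, e2]
        push_cast
        field_simp

lemma tow (ht : 0 < t) (hχ : TestR H0 χ) (hV : IsOpen V) (hVH : V ⊆ H0) (h1 : ∀ z ∈ V, χ z = 1)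
    (hs : ∀ k, ContDiffOn ℝ ∞ (Av.fk f k) H0)
    (hL : ∀ k, ∀ z ∈ H0, Av.LL (k + 1) (Av.fk f (k + 1)) z = -((Av.mu k t : ℝ) : ℂ) * Av.fk f k z) :
    Tow V t (GT χ f t) where
  smooth := GT_smooth hχ hs
  neg := GT_neg
  up := by
    intro n z hz
    cases n with
    | ofNat k =>
      have h2 := up_nat ht hV hVH h1 hs k hz
      show Complex.I * (z.im : ℂ) * dz (gp χ f t k) z + (((k : ℕ) : ℤ) : ℂ) * gp χ f t k z =
        ((la t (k : ℤ) : ℝ) : ℂ) * gp χ f t (k + 1) z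
      rw [la_nat, Int.cast_natCast]
      exact h2
    | negSucc m =>
      have h2 := down_nat ht hV hVH h1 hs hL m hz
      have e0 : Int.negSucc m + 1 = -(m : ℤ) := by
        rw [Int.negSucc_eq]
        ring
      rw [e0, la_neg, GT_negnat]
      have hgs := gp_smooth (t := t) hχ hs (m + 1)
      have e1 : dz (GT χ f t (Int.negSucc m)) z = (-1) ^ (m + 1) * conj (dzb (gp χ f t (m + 1)) z) := by
        have e : GT χ f t (Int.negSucc m) =
            fun z => (-1) ^ (m + 1) * (fun w => conj (gp χ f t (m + 1) w)) z := rfl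
        rw [e, dz_const_mul _ (contDiff_conj hgs), dz_conj hgs]
      have e2 : GT χ f t (Int.negSucc m) z = (-1) ^ (m + 1) * conj (gp χ f t (m + 1) z) := rfl
      have e3 : ((Int.negSucc m : ℤ) : ℂ) = -((m : ℂ) + 1) := by
        rw [Int.negSucc_eq]
        push_cast
        ring
      rw [e1, e2, e3]
      have h3 := congrArg (starRingEnd ℂ) h2
      simp only [map_sub, map_neg, map_mul, map_add, Complex.conj_I, Complex.conj_ofReal,
        map_natCast, map_one] at h3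
      linear_combination (-1) ^ (m + 1) * h3
  down := by
    intro n z hz
    cases n with
    | ofNat k =>
      have h2 := down_nat ht hV hVH h1 hs hL k hz
      show -(Complex.I * (z.im : ℂ) * dzb (gp χ f t (k + 1)) z) -
        ((((k : ℕ) : ℤ) : ℂ) + 1) * gp χ f t (k + 1) z = -(((la t (k : ℤ) : ℝ) : ℂ) * gp χ f t k z)
      rw [la_nat, Int.cast_natCast]
      exact h2
    | negSucc m =>
      have h2 := up_nat ht hV hVH h1 hs m hz
      have e0 : Int.negSucc m + 1 = -(m : ℤ) := by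
        rw [Int.negSucc_eq]
        ring
      rw [e0, la_neg, GT_negnat]
      have hgs := gp_smooth (t := t) hχ hs m
      have e1 : dzb (fun z => (-1) ^ m * conj (gp χ f t m z)) z =
          (-1) ^ m * conj (dz (gp χ f t m) z) := by
        have e : (fun z => (-1) ^ m * conj (gp χ f t m z)) =
            fun z => (-1) ^ m * (fun w => conj (gp χ f t m w)) z := rfl
        rw [e, dzb_const_mul _ (contDiff_conj hgs), dzb_conj hgs]
      have e2 : GT χ f t (Int.negSucc m) z = (-1) ^ (m + 1) * conj (gp χ f t (m + 1) z) := rfl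
      have e3 : ((Int.negSucc m : ℤ) : ℂ) = -((m : ℂ) + 1) := by
        rw [Int.negSucc_eq]
        push_cast
        ring
      rw [e1, e2, e3]
      have h3 := congrArg (starRingEnd ℂ) h2
      simp only [map_mul, map_add, Complex.conj_I, Complex.conj_ofReal, map_natCast] at h3
      linear_combination (-1) ^ m * h3

/-- the masses -/
lemma mass (hχ1 : ∀ z, 0 ≤ χ z ∧ χ z ≤ 1) (ht : 0 < t)
    (hs : ∀ k, ContDiffOn ℝ ∞ (Av.fk f k) H0) {ζ : ℂ → ℝ} (hζ : TestP H0 ζ) {C : ℝ}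
    (hC : ∀ k : ℕ, ∫ z, ζ z * ‖Av.fk f k z‖ ^ 2 ≤ C * ∏ j ∈ Finset.range k, Av.mu j t) (k : ℕ) :
    ∫ z, ζ z * ‖gp χ f t k z‖ ^ 2 ≤ C := by
  have hP := prod_pos ht k
  have hsm : ContDiff ℝ ∞ (fun z => ζ z * ‖Av.fk f k z‖ ^ 2) :=
    Half.smooth_mulR Half.isOpen_H0 hζ.test.smooth hζ.test.sub ((hs k).norm_sq ℝ)
  have hint : Integrable (fun z => ζ z * ‖Av.fk f k z‖ ^ 2) :=
    hsm.continuous.integrable_of_hasCompactSupport hζ.test.cpt.mul_right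
  have h2 : ∫ z, ζ z * ‖gp χ f t k z‖ ^ 2 ≤
      ∫ z, (∏ j ∈ Finset.range k, Av.mu j t)⁻¹ * (ζ z * ‖Av.fk f k z‖ ^ 2) := by
    refine integral_mono_of_nonneg (Eventually.of_forall fun z =>
      mul_nonneg (hζ.nonneg z) (by positivity)) (hint.const_mul _) (Eventually.of_forall fun z => ?_)
    simp only
    have e1 : ‖gp χ f t k z‖ ^ 2 = (χ z) ^ 2 * ((∏ j ∈ Finset.range k, Av.mu j t)⁻¹ *
        ‖Av.fk f k z‖ ^ 2) := by
      unfold gp
      rw [norm_mul, norm_mul, Complex.norm_real, Complex.norm_real, mul_pow, mul_pow,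
        Real.norm_eq_abs, Real.norm_eq_abs, sq_abs, sq_abs, inv_pow]
      unfold sk
      rw [Real.sq_sqrt hP.le]
    rw [e1]
    have h3 : (χ z) ^ 2 ≤ 1 := by
      have := hχ1 z
      nlinarith
    have h4 : 0 ≤ (∏ j ∈ Finset.range k, Av.mu j t)⁻¹ * ‖Av.fk f k z‖ ^ 2 := by positivity
    calc ζ z * ((χ z) ^ 2 * ((∏ j ∈ Finset.range k, Av.mu j t)⁻¹ * ‖Av.fk f k z‖ ^ 2))
        ≤ ζ z * (1 * ((∏ j ∈ Finset.range k, Av.mu j t)⁻¹ * ‖Av.fk f k z‖ ^ 2)) :=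
          mul_le_mul_of_nonneg_left (mul_le_mul_of_nonneg_right h3 h4) (hζ.nonneg z)
      _ = (∏ j ∈ Finset.range k, Av.mu j t)⁻¹ * (ζ z * ‖Av.fk f k z‖ ^ 2) := by ring
  refine h2.trans ?_
  rw [integral_const_mul]
  calc (∏ j ∈ Finset.range k, Av.mu j t)⁻¹ * ∫ z, ζ z * ‖Av.fk f k z‖ ^ 2
      ≤ (∏ j ∈ Finset.range k, Av.mu j t)⁻¹ * (C * ∏ j ∈ Finset.range k, Av.mu j t) :=
        mul_le_mul_of_nonneg_left (hC k) (inv_nonneg.2 hP.le)
    _ = C := by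
        field_simp

end

end TwrM

open TwrM in
theorem stmtTwr (hInv : StmtInv) (hWf : Av.StmtWf) : StmtTwr := by
  classical
  intro χ V hχ hχ1 hV hVH h1
  refine ⟨fun ζ => if h : TestP H0 ζ then (hInv ζ h).choose else 0, ?_⟩
  intro f t hf
  have hs : ∀ k, ContDiffOn ℝ ∞ (Av.fk f k) H0 := fun k => (hWf f t hf k).2.1
  have ht := hf.pos
  refine ⟨GT χ f t, tow ht hχ hV hVH h1 hs (fun k => (hWf f t hf k).2.2), ?_, fun z => gp_zero z⟩
  intro ζ hζ n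
  have hζ' : TestP H0 ζ := ⟨⟨hζ.test.smooth, hζ.test.cpt, hζ.test.sub.trans hVH⟩, hζ.nonneg⟩
  simp only [dif_pos hζ']
  have hC := (hInv ζ hζ').choose_spec.2 f t hf
  have hm := mass (χ := χ) hχ1 ht hs hζ' hC
  cases n with
  | ofNat k => exact hm k
  | negSucc m =>
    have e : ∀ z, ‖GT χ f t (Int.negSucc m) z‖ = ‖gp χ f t (m + 1) z‖ := by
      intro z
      show ‖(-1) ^ (m + 1) * conj (gp χ f t (m + 1) z)‖ = _
      rw [norm_mul, norm_pow, norm_neg, norm_one, one_pow, one_mul, RCLike.norm_conj]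
    simp only [e]
    exact hm (m + 1)

end Pool.Agent.A54.Sq
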