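import Pool.Agent.Lib.MP_a54f13_nt.Sq.Spec
import Pool.Agent.Lib.MP_a54f13_nt.Pl.FB
import Pool.Agent.Lib.MP_a54f13_nt.Pl.G1
import Pool.Agent.Lib.MP_a54f13_nt.Pl.G2

/-! The boundedness version. -/

set_option autoImplicit false

namespace Pool.Agent.A54.Sq

open MeasureTheory Filter Topology Set
open scoped ContDiff ComplexConjugate UpperHalfPlane MatrixGroups
open Pool.Agent.A54.Half (H0 qq ff hh)
open Pool.Agent.A54.Pl (Ed mean)

noncomputable section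

namespace BdM

lemma tanh_le {x : ℝ} (h0 : 0 ≤ x) : Real.tanh x ≤ x := by
  have hmono : MonotoneOn (fun y : ℝ => y * Real.cosh y - Real.sinh y) (Ici 0) := by
    apply monotoneOn_of_deriv_nonneg (convex_Ici 0)
    · exact ((continuous_id.mul Real.continuous_cosh).sub Real.continuous_sinh).continuousOn
    · exact ((differentiable_id.mul Real.differentiable_cosh).sub
        Real.differentiable_sinh).differentiableOn
    · intro y hy
      rw [interior_Ici] at hy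
      have h1 : HasDerivAt (fun y : ℝ => y * Real.cosh y - Real.sinh y)
          (1 * Real.cosh y + y * Real.sinh y - Real.cosh y) y :=
        ((hasDerivAt_id y).mul (Real.hasDerivAt_cosh y)).sub (Real.hasDerivAt_sinh y)
      rw [h1.deriv]
      have h2 : 0 ≤ Real.sinh y := Real.sinh_nonneg_iff.2 (le_of_lt hy)
      have h3 : 0 ≤ y * Real.sinh y := mul_nonneg (le_of_lt hy) h2
      linarith
  have h1 := hmono (mem_Ici.mpr (le_refl (0 : ℝ))) (mem_Ici.mpr h0) h0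
  simp only [zero_mul, Real.sinh_zero, sub_zero] at h1
  rw [Real.tanh_eq_sinh_div_cosh, div_le_iff₀ (Real.cosh_pos x)]
  linarith

/-- a sequence which is eventually bounded is bounded -/
lemma bdd_of_ev {a : ℕ → ℝ} {B : ℝ} (h : ∀ᶠ i in atTop, a i ≤ B) : ∃ C : ℝ, ∀ i, a i ≤ C := by
  obtain ⟨i0, hi0⟩ := eventually_atTop.mp h
  refine ⟨|B| + ∑ i ∈ Finset.range i0, |a i|, fun i => ?_⟩
  by_cases hi : i0 ≤ i
  · have h1 := hi0 i hi
    have h2 : 0 ≤ ∑ i ∈ Finset.range i0, |a i| := Finset.sum_nonneg fun _ _ => abs_nonneg _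
    have h3 := le_abs_self B
    linarith
  · have h1 : |a i| ≤ ∑ i ∈ Finset.range i0, |a i| :=
      Finset.single_le_sum (f := fun i => |a i|) (fun _ _ => abs_nonneg _)
        (Finset.mem_range.mpr (not_le.mp hi))
    have h2 := le_abs_self (a i)
    have h3 := abs_nonneg B
    linarith

/-- squares with respect to a finite measure given by a compact set -/
lemma set_sq {K : Set ℍ} (hK : IsCompact K) {g : ℍ → ℝ} (hg : Continuous g) (a b : ℝ) :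
    ∫ z in K, (g z - a) ^ 2 ≤ 2 * (∫ z in K, (g z - b) ^ 2) + 2 * (a - b) ^ 2 * volume.real K := by
  have i1 : IntegrableOn (fun z => (g z - b) ^ 2) K :=
    ((hg.sub continuous_const).pow 2).continuousOn.integrableOn_compact hK
  have i2 : IntegrableOn (fun z => (g z - a) ^ 2) K :=
    ((hg.sub continuous_const).pow 2).continuousOn.integrableOn_compact hK
  have i3 : IntegrableOn (fun _ : ℍ => 2 * (a - b) ^ 2) K :=
    continuous_const.continuousOn.integrableOn_compact hK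
  have h1 : ∫ z in K, (2 * (g z - b) ^ 2 + 2 * (a - b) ^ 2) =
      2 * (∫ z in K, (g z - b) ^ 2) + 2 * (a - b) ^ 2 * volume.real K := by
    rw [integral_add (i1.const_mul 2) i3, integral_const_mul, setIntegral_const, smul_eq_mul]
    ring
  rw [← h1]
  refine setIntegral_mono i2 ((i1.const_mul 2).add i3) fun z => ?_
  show (g z - a) ^ 2 ≤ 2 * (g z - b) ^ 2 + 2 * (a - b) ^ 2
  nlinarith [sq_nonneg (g z - b + (a - b))]

/-- squares with a weight -/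
lemma wt_sq {V : Set ℂ} {φ : ℂ → ℝ} (hφ : TestR V φ) (h0 : ∀ z, 0 ≤ φ z) {g : ℂ → ℝ}
    (hg : Continuous g) (a b : ℝ) :
    ∫ z, φ z * (g z - a) ^ 2 ≤ 2 * (∫ z, φ z * (g z - b) ^ 2) + 2 * (a - b) ^ 2 * ∫ z, φ z := by
  have i1 : Integrable fun z => φ z * (g z - b) ^ 2 :=
    (hφ.smooth.continuous.mul ((hg.sub continuous_const).pow 2)).integrable_of_hasCompactSupport
      hφ.cpt.mul_right
  have i2 : Integrable fun z => φ z * (g z - a) ^ 2 :=
    (hφ.smooth.continuous.mul ((hg.sub continuous_const).pow 2)).integrable_of_hasCompactSupport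
      hφ.cpt.mul_right
  have i3 : Integrable φ := hφ.smooth.continuous.integrable_of_hasCompactSupport hφ.cpt
  rw [← integral_const_mul, ← integral_const_mul, ← integral_add (i1.const_mul 2)
    (i3.const_mul _)]
  refine integral_mono i2 ((i1.const_mul 2).add (i3.const_mul _)) fun z => ?_
  show φ z * (g z - a) ^ 2 ≤ 2 * (φ z * (g z - b) ^ 2) + 2 * (a - b) ^ 2 * φ z
  have h1 : 0 ≤ φ z * (g z - b + (a - b)) ^ 2 := mul_nonneg (h0 z) (sq_nonneg _)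
  nlinarith

/-- the means of the localised form -/
lemma ed_eq {χ : ℂ → ℝ} {V : Set ℂ} (h1 : ∀ z ∈ V, χ z = 1) {φ : ℂ → ℝ} (f : ℍ → ℝ) {ρ : ℝ}
    (hd : ∀ z ∈ tsupport φ, ∀ u ∈ Metric.ball (0 : ℂ) 1, Pl.lin ρ u z ∈ V) (a : ℝ) :
    ∫ z, φ z * (Ed ρ (fun w => ff χ f w ^ 2) z - a) ^ 2 =
      ∫ z, φ z * (Ed ρ (ext fun w => f w ^ 2) z - a) ^ 2 := by
  refine integral_congr_ae (Filter.Eventually.of_forall fun z => ?_)
  by_cases hz : z ∈ tsupport φ
  · have e9 : Ed ρ (fun w => ff χ f w ^ 2) z = Ed ρ (ext fun w => f w ^ 2) z := by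
      refine Pl.Ed_congr fun u hu => ?_
      have hu' := hd z hz u hu
      simp only [ff, h1 _ hu', one_mul, ext]
    simp only [e9]
  · have : φ z = 0 := image_eq_zero_of_notMem_tsupport hz
    simp only [this, zero_mul]

/-- from fourth moments to means -/
lemma forward (hE1 : Pl.StmtE1) (hG0 : Pl.StmtG0) (hInt : StmtInt) {f : ℕ → ℍ → ℝ}
    {t r : ℕ → ℝ} (hf : ∀ i, IsHeckeMaass (f i) (t i)) (hr : ∀ i, 0 < r i)
    (hrl : Tendsto r atTop (𝓝 0))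
    (h4 : ∀ K : Set ℍ, IsCompact K → ∃ C : ℝ, ∀ i, ∫ z in K, f i z ^ 4 ≤ C) (K : Set ℍ)
    (hK : IsCompact K) :
    ∃ C : ℝ, ∀ i, ∫ z in K, mean (fun w => f i w ^ 2) z (r i) ^ 2 ≤ C := by
  obtain ⟨φ, C, r0, hφ, hφ0, hC0, hr0, hG⟩ := Pl.stmtG1 hInt hG0 K hK
  obtain ⟨χ, V, hχ, h01, hV, hVH, h1, hsub⟩ := Half.setup hφ
  have hφV : TestR V φ := ⟨hφ.smooth, hφ.cpt, hsub⟩
  obtain ⟨ζ, C1, r1, hζ, hC1, hr1, hE⟩ := hE1 V hV hVH φ hφV hφ0
  obtain ⟨ρ₀, hρ₀, hdisc⟩ := Pl.FBM.discs hφ.cpt.isCompact hV hsub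
  -- a cutoff
  obtain ⟨ζ', hζ', -, hone⟩ := exists_cutoff hζ.cpt hV hζ.sub
  have hone' : ∀ z ∈ tsupport ζ, ζ' z = 1 := fun z hz => subset_of_mem_nhdsSet hone hz
  obtain ⟨Z, hZ⟩ := hζ.cpt.exists_bound_of_continuous hζ.smooth.continuous
  obtain ⟨B, hB⟩ := Half.l4 hInt hVH h1 hf h4 ζ' hζ'
  have hB2 : ∀ i, ∫ z, ζ z ^ 2 * ff χ (f i) z ^ 4 ≤ Z ^ 2 * B := by
    intro i
    have hs := Half.ff_smooth hχ (hf i).smooth
    have i1 : Integrable fun z => ζ' z ^ 4 * ff χ (f i) z ^ 4 :=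
      ((hζ'.smooth.continuous.pow 4).mul (hs.continuous.pow 4)).integrable_of_hasCompactSupport
        (hζ'.cpt.mono fun z hz hz0 => hz (by simp [hz0]))
    calc ∫ z, ζ z ^ 2 * ff χ (f i) z ^ 4 ≤ ∫ z, Z ^ 2 * (ζ' z ^ 4 * ff χ (f i) z ^ 4) := by
          refine integral_mono_of_nonneg (Filter.Eventually.of_forall fun z => ?_)
            (i1.const_mul _) (Filter.Eventually.of_forall fun z => ?_)
          · show 0 ≤ ζ z ^ 2 * ff χ (f i) z ^ 4
            positivity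
          · show ζ z ^ 2 * ff χ (f i) z ^ 4 ≤ Z ^ 2 * (ζ' z ^ 4 * ff χ (f i) z ^ 4)
            by_cases hz : z ∈ tsupport ζ
            · rw [hone' z hz, one_pow, one_mul]
              refine mul_le_mul_of_nonneg_right ?_ (by positivity)
              rw [← sq_abs]
              exact pow_le_pow_left₀ (abs_nonneg _) (hZ z) 2
            · rw [image_eq_zero_of_notMem_tsupport hz]
              have : 0 ≤ Z ^ 2 * (ζ' z ^ 4 * ff χ (f i) z ^ 4) := by positivity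
              simpa using this
      _ = Z ^ 2 * ∫ z, ζ' z ^ 4 * ff χ (f i) z ^ 4 := integral_const_mul _ _
      _ ≤ Z ^ 2 * B := mul_le_mul_of_nonneg_left (hB i) (sq_nonneg _)
  apply bdd_of_ev (B := 2 * (C * (2 * (C1 * (Z ^ 2 * B)) + 2 * (1 - 0) ^ 2 * ∫ z, φ z) + C * 1) +
    2 * (0 - 1) ^ 2 * volume.real K)
  filter_upwards [hrl.eventually (ge_mem_nhds hr0), hrl.eventually (ge_mem_nhds hr1),
    hrl.eventually (ge_mem_nhds hρ₀), hrl.eventually (ge_mem_nhds one_pos)] with i e1 e2 e3 e4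
  have hri := hr i
  have ht1 : Real.tanh (r i) ≤ r i := tanh_le hri.le
  have ht0 : 0 < Real.tanh (r i) := Pl.FBM.tanh_pos' hri
  have hc := Pl.FBM.cont (hf i)
  have hmc : Continuous fun z : ℍ => mean (fun w => f i w ^ 2) z (r i) :=
    (hG0 (fun w => f i w ^ 2) (hc.pow 2)).1 (r i) hri
  have a1 := set_sq hK hmc 0 1
  have a2 := hG (r i) hri e1 (fun w => f i w ^ 2) (hc.pow 2) fun z => sq_nonneg _
  have a3 := ed_eq h1 (f i) (hdisc (Real.tanh (r i)) ht0 (ht1.trans e3)) 1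
  rw [← a3] at a2
  have hs := Half.ff_smooth hχ (hf i).smooth
  have hEc : Continuous (Ed (Real.tanh (r i)) fun w => ff χ (f i) w ^ 2) :=
    Pl.continuous_Ed (hs.continuous.pow 2) _
  have a4 := wt_sq hφV hφ0 hEc 1 0
  have a5 := hE (Real.tanh (r i)) ht0 (ht1.trans e2) (fun w => ((ff χ (f i) w ^ 2 : ℝ) : ℂ))
    (Complex.continuous_ofReal.comp (hs.continuous.pow 2))
  have a6 : ∫ z, φ z * ‖Ed (Real.tanh (r i)) (fun w => ((ff χ (f i) w ^ 2 : ℝ) : ℂ)) z‖ ^ 2 =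
      ∫ z, φ z * (Ed (Real.tanh (r i)) (fun w => ff χ (f i) w ^ 2) z - 0) ^ 2 := by
    refine integral_congr_ae (Filter.Eventually.of_forall fun z => ?_)
    show φ z * ‖Ed (Real.tanh (r i)) (fun w => ((ff χ (f i) w ^ 2 : ℝ) : ℂ)) z‖ ^ 2 =
      φ z * (Ed (Real.tanh (r i)) (fun w => ff χ (f i) w ^ 2) z - 0) ^ 2
    rw [Pl.Ed_ofReal, Complex.norm_real, Real.norm_eq_abs, sq_abs, sub_zero]
  have a7 : ∫ z, ζ z ^ 2 * ‖((ff χ (f i) z ^ 2 : ℝ) : ℂ)‖ ^ 2 =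
      ∫ z, ζ z ^ 2 * ff χ (f i) z ^ 4 := by
    refine integral_congr_ae (Filter.Eventually.of_forall fun z => ?_)
    show ζ z ^ 2 * ‖((ff χ (f i) z ^ 2 : ℝ) : ℂ)‖ ^ 2 = ζ z ^ 2 * ff χ (f i) z ^ 4
    rw [Complex.norm_real, Real.norm_eq_abs, sq_abs]
    ring
  rw [a6, a7] at a5
  have a8 : C1 * (∫ z, ζ z ^ 2 * ff χ (f i) z ^ 4) ≤ C1 * (Z ^ 2 * B) :=
    mul_le_mul_of_nonneg_left (hB2 i) hC1
  have a9 : C * (∫ z, φ z * (Ed (Real.tanh (r i)) (fun w => ff χ (f i) w ^ 2) z - 1) ^ 2) ≤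
      C * (2 * (C1 * (Z ^ 2 * B)) + 2 * (1 - 0) ^ 2 * ∫ z, φ z) :=
    mul_le_mul_of_nonneg_left (by linarith) hC0
  have a10 : C * r i ^ 2 ≤ C * 1 := mul_le_mul_of_nonneg_left (by nlinarith) hC0
  have a11 : ∫ z in K, mean (fun w => f i w ^ 2) z (r i) ^ 2 =
      ∫ z in K, (mean (fun w => f i w ^ 2) z (r i) - 0) ^ 2 := by simp only [sub_zero]
  rw [a11]
  linarith

/-- the mean squares of the localised forms are bounded -/
lemma var (hG0 : Pl.StmtG0) (hInt : StmtInt) {f : ℕ → ℍ → ℝ} {t r : ℕ → ℝ}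
    (hf : ∀ i, IsHeckeMaass (f i) (t i)) (hr : ∀ i, 0 < r i) (hrl : Tendsto r atTop (𝓝 0))
    (hm : ∀ K : Set ℍ, IsCompact K → ∃ C : ℝ, ∀ i,
      ∫ z in K, mean (fun w => f i w ^ 2) z (r i) ^ 2 ≤ C)
    {χ : ℂ → ℝ} {V : Set ℂ} (hχ : TestR H0 χ) (hV : IsOpen V) (hVH : V ⊆ H0)
    (h1 : ∀ z ∈ V, χ z = 1) {ζ : ℂ → ℝ} (hζ : TestP V ζ) :
    ∃ X : ℝ, ∀ i, ∫ z, ζ z * (Ed (Real.tanh (r i)) (fun w => ff χ (f i) w ^ 2) z - 0) ^ 2 ≤ X := by
  obtain ⟨K, C, r0, hK, hC0, hr0, hG⟩ := Pl.stmtG2 hInt hG0 ζ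
    ⟨hζ.test.smooth, hζ.test.cpt, hζ.test.sub.trans hVH⟩ hζ.nonneg
  obtain ⟨ρ₀, hρ₀, hdisc⟩ := Pl.FBM.discs hζ.test.cpt.isCompact hV hζ.test.sub
  obtain ⟨B, hB⟩ := hm K hK
  apply bdd_of_ev (B := 2 * (C * (2 * B + 2 * (1 - 0) ^ 2 * volume.real K) + C * 1) +
    2 * (0 - 1) ^ 2 * ∫ z, ζ z)
  filter_upwards [hrl.eventually (ge_mem_nhds hr0), hrl.eventually (ge_mem_nhds hρ₀),
    hrl.eventually (ge_mem_nhds one_pos)] with i e1 e3 e4
  have hri := hr i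
  have ht1 : Real.tanh (r i) ≤ r i := tanh_le hri.le
  have ht0 : 0 < Real.tanh (r i) := Pl.FBM.tanh_pos' hri
  have hc := Pl.FBM.cont (hf i)
  have hmc : Continuous fun z : ℍ => mean (fun w => f i w ^ 2) z (r i) :=
    (hG0 (fun w => f i w ^ 2) (hc.pow 2)).1 (r i) hri
  have a1 := set_sq hK hmc 1 0
  have a2 := hG (r i) hri e1 (fun w => f i w ^ 2) (hc.pow 2) fun z => sq_nonneg _
  have a3 := ed_eq h1 (f i) (hdisc (Real.tanh (r i)) ht0 (ht1.trans e3)) 1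
  rw [← a3] at a2
  have hs := Half.ff_smooth hχ (hf i).smooth
  have hEc : Continuous (Ed (Real.tanh (r i)) fun w => ff χ (f i) w ^ 2) :=
    Pl.continuous_Ed (hs.continuous.pow 2) _
  have a4 := wt_sq hζ.test hζ.nonneg hEc 0 1
  have a11 : ∫ z in K, mean (fun w => f i w ^ 2) z (r i) ^ 2 =
      ∫ z in K, (mean (fun w => f i w ^ 2) z (r i) - 0) ^ 2 := by simp only [sub_zero]
  have a12 := hB i
  rw [a11] at a12
  have a9 : C * (∫ z in K, (mean (fun w => f i w ^ 2) z (r i) - 1) ^ 2) ≤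
      C * (2 * B + 2 * (1 - 0) ^ 2 * volume.real K) :=
    mul_le_mul_of_nonneg_left (by linarith) hC0
  have a10 : C * r i ^ 2 ≤ C * 1 := mul_le_mul_of_nonneg_left (by nlinarith) hC0
  linarith

/-- solve the quadratic inequality -/
lemma quad {w C X c : ℝ} (hw : 0 ≤ w) (hX : 0 ≤ X) (hc0 : 0 ≤ c) (hcC : c ≤ C)
    (h : w ≤ 3 * (√X * √(w + c)) + c) : w ≤ 9 * X + 4 * C := by
  set u := √(w + c) with hu
  set v := √X with hv
  have hu2 : u ^ 2 = w + c := Real.sq_sqrt (by linarith)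
  have hv2 : v ^ 2 = X := Real.sq_sqrt hX
  nlinarith [sq_nonneg (u - 3 * v)]

/-- from means to fourth moments -/
lemma backward (hTwr : StmtTwr) (hUpB : StmtUpB) (hG0 : Pl.StmtG0) (hInt : StmtInt)
    {f : ℕ → ℍ → ℝ} {t r : ℕ → ℝ} {δ : ℝ} (hf : ∀ i, IsHeckeMaass (f i) (t i))
    (ht : Tendsto t atTop atTop) (hδ : 0 < δ)
    (hr : ∀ i, 0 < r i ∧ r i ≤ t i ^ (-(1 / 2 + δ))) (hrl : Tendsto r atTop (𝓝 0))
    (hm : ∀ K : Set ℍ, IsCompact K → ∃ C : ℝ, ∀ i,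
      ∫ z in K, mean (fun w => f i w ^ 2) z (r i) ^ 2 ≤ C) (K : Set ℍ) (hK : IsCompact K) :
    ∃ C : ℝ, ∀ i, ∫ z in K, f i z ^ 4 ≤ C := by
  have hK' : IsCompact (UpperHalfPlane.coe '' K) := hK.image UpperHalfPlane.continuous_coe
  have hKH : UpperHalfPlane.coe '' K ⊆ H0 := by
    rintro _ ⟨z, _, rfl⟩
    exact z.im_pos
  obtain ⟨φ, hφ, hφ01, hev⟩ := exists_cutoff hK' Half.isOpen_H0 hKH
  obtain ⟨χ, V, hχ, h01, hV, hVH, h1, hsub⟩ := Half.setup hφ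
  have hφV : TestR V φ := ⟨hφ.smooth, hφ.cpt, hsub⟩
  have hw : TestP V fun z => φ z * (z.im)⁻¹ ^ 2 :=
    ⟨Half.testR_weight hVH hφV, fun z => mul_nonneg (hφ01 z).1 (by positivity)⟩
  obtain ⟨c, hc⟩ := hTwr χ V hχ h01 hV hVH h1
  choose G hG1 hG2 hG3 using fun i => hc (f i) (t i) (hf i)
  have hnorm : ∀ i z, ‖G i 0 z‖ ^ 2 = ff χ (f i) z ^ 2 := by
    intro i z
    rw [hG3, Complex.norm_real, Real.norm_eq_abs, sq_abs]
  have hEd : ∀ i, (Ed (Real.tanh (r i)) fun w => ‖G i 0 w‖ ^ 2) =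
      Ed (Real.tanh (r i)) fun w => ff χ (f i) w ^ 2 := by
    intro i
    congr 1
    funext w
    exact hnorm i w
  have hX : ∀ ζ : ℂ → ℝ, ∃ X : ℝ, TestP V ζ → ∀ i,
      ∫ z, ζ z * (Ed (Real.tanh (r i)) (fun w => ff χ (f i) w ^ 2) z - 0) ^ 2 ≤ X := by
    intro ζ
    by_cases hζ : TestP V ζ
    · obtain ⟨X, hX⟩ := var hG0 hInt hf (fun i => (hr i).1) hrl hm hχ hV hVH h1 hζ
      exact ⟨X, fun _ => hX⟩
    · exact ⟨0, fun h => absurd h hζ⟩
  choose x hx using hX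
  have hδ' : 0 < min δ (1 / 2) := lt_min hδ (by norm_num)
  obtain ⟨C, κ, hC, hκ, hU⟩ := hUpB V hV hVH c x (min δ (1 / 2)) hδ' (min_le_right _ _) _ hw
  have hDat : ∀ i, 1 ≤ t i → Dat V c x (min δ (1 / 2)) (t i) 0 (Real.tanh (r i)) (G i) := by
    intro i hi
    refine ⟨hi, hG1 i, hG2 i, ?_, le_refl 0, zero_le_two, Pl.FBM.tanh_pos' (hr i).1, ?_⟩
    · intro ζ hζ
      rw [hEd i]
      exact hx ζ hζ i
    · refine ((tanh_le (hr i).1.le).trans (hr i).2).trans ?_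
      apply Real.rpow_le_rpow_of_exponent_le hi
      have := min_le_left δ (1 / 2)
      linarith
  apply bdd_of_ev (B := 9 * x (fun z => φ z * (z.im)⁻¹ ^ 2) + 4 * C)
  filter_upwards [ht.eventually_ge_atTop 1] with i hi
  have hD := hDat i hi
  have hu := hU _ _ _ _ hD
  have hvar := hD.var _ hw
  set w := ∫ z, φ z * (z.im)⁻¹ ^ 2 * ‖G i 0 z‖ ^ 4 with hwdef
  have hw0 : 0 ≤ w := integral_nonneg fun z => mul_nonneg (hw.nonneg z) (by positivity)
  have hX0 : 0 ≤ ∫ z, φ z * (z.im)⁻¹ ^ 2 *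
      (Ed (Real.tanh (r i)) (fun w => ‖G i 0 w‖ ^ 2) z - 0) ^ 2 :=
    integral_nonneg fun z => mul_nonneg (hw.nonneg z) (sq_nonneg _)
  have ht1 : t i ^ (-κ) ≤ 1 := Real.rpow_le_one_of_one_le_of_nonpos hi (by linarith)
  have ht0 : 0 ≤ t i ^ (-κ) := Real.rpow_nonneg (by linarith) _
  have hq := quad hw0 hX0 (mul_nonneg hC ht0)
    (mul_le_of_le_one_right hC ht1) (by linarith)
  -- the moment over the compact set
  have hle : ∫ z in K, f i z ^ 4 ≤ ∫ z : ℍ, φ z * f i z ^ 4 := by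
    rw [← integral_indicator hK.isClosed.measurableSet]
    apply integral_mono_of_nonneg
    · refine Filter.Eventually.of_forall fun z => ?_
      simp only [Pi.zero_apply]
      exact Set.indicator_nonneg (fun z _ => by positivity) z
    · exact Pl.FBM.integ hφ ((Pl.FBM.cont (hf i)).pow 4)
    · refine Filter.Eventually.of_forall fun z => ?_
      simp only
      by_cases hz : z ∈ K
      · rw [Set.indicator_of_mem hz]
        have h0 : ∀ᶠ w in 𝓝 (z : ℂ), φ w = 1 :=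
          (mem_nhdsSet_iff_forall.mp hev) z (Set.mem_image_of_mem _ hz)
        have h1 : φ (z : ℂ) = 1 := h0.self_of_nhds
        rw [h1, one_mul]
      · rw [Set.indicator_of_notMem hz]
        exact mul_nonneg (hφ01 _).1 (by positivity)
  have heq : ∫ z : ℍ, φ z * f i z ^ 4 = w := by
    rw [Half.int_eq hInt hVH h1 hφV, hwdef]
    refine integral_congr_ae (Filter.Eventually.of_forall fun z => ?_)
    show φ z * (z.im)⁻¹ ^ 2 * ff χ (f i) z ^ 4 = φ z * (z.im)⁻¹ ^ 2 * ‖G i 0 z‖ ^ 4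
    have h4 : ‖G i 0 z‖ ^ 4 = (‖G i 0 z‖ ^ 2) ^ 2 := by ring
    rw [h4, hnorm]
    ring
  linarith

end BdM

theorem stmtBd (hTwr : StmtTwr) (hUpB : StmtUpB) (hE1 : Pl.StmtE1) (hG0 : Pl.StmtG0)
    (hInt : StmtInt) : StmtBd := by
  intro f t r δ hf ht hδ hr
  have hrl : Tendsto r atTop (𝓝 0) := by
    have h1 : Tendsto (fun i => t i ^ (-(1 / 2 + δ))) atTop (𝓝 0) :=
      (tendsto_rpow_neg_atTop (by linarith : 0 < 1 / 2 + δ)).comp ht
    exact squeeze_zero (fun i => (hr i).1.le) (fun i => (hr i).2) h1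
  constructor
  · intro h4 K hK
    exact BdM.forward hE1 hG0 hInt hf (fun i => (hr i).1) hrl h4 K hK
  · intro hm K hK
    exact BdM.backward hTwr hUpB hG0 hInt hf ht hδ hr hrl hm K hK

end

end Pool.Agent.A54.Sq
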