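import Pool.Agent.Lib.MP_a54f13_nt.Sq.Spec
import Pool.Agent.Lib.MP_a54f13_nt.Pl.FB

/-! From hyperbolic balls to discs. -/

set_option autoImplicit false

namespace Pool.Agent.A54.Sq

open MeasureTheory Filter Topology Set
open scoped ContDiff ComplexConjugate UpperHalfPlane MatrixGroups
open Pool.Agent.A54.Half (H0 qq ff hh)
open Pool.Agent.A54.Pl (Ed mean)

noncomputable section

namespace FDM

lemma tanh_le {x : ℝ} (h0 : 0 ≤ x) : Real.tanh x ≤ x := by
  have hmono : MonotoneOn (fun y : ℝ => y * Real.cosh y - Real.sinh y) (Ici 0) := by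
    apply monotoneOn_of_deriv_nonneg (convex_Ici 0)
    · exact ((continuous_id.mul Real.continuous_cosh).sub Real.continuous_sinh).continuousOn
    · exact ((differentiable_id.mul Real.differentiable_cosh).sub
        Real.differentiable_sinh).differentiableOn
    · intro y hy
      rw [interior_Ici] at hy
      have h1 : HasDerivAt (fun y : ℝ => y * Real.cosh y - Real.sinh y)
          (1 * Real.cosh y + y * Real.sinh y - Real.cosh y) y :=
        ((hasDerivAt_id y).mul (Real.hasDerivAt_cosh y)).sub (Real.hasDerivAt_sinh y)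
      rw [h1.deriv]
      have h2 : 0 ≤ Real.sinh y := Real.sinh_nonneg_iff.2 (le_of_lt hy)
      have h3 : 0 ≤ y * Real.sinh y := mul_nonneg (le_of_lt hy) h2
      linarith
  have h1 := hmono (mem_Ici.mpr (le_refl (0 : ℝ))) (mem_Ici.mpr h0) h0
  simp only [zero_mul, Real.sinh_zero, sub_zero] at h1
  rw [Real.tanh_eq_sinh_div_cosh, div_le_iff₀ (Real.cosh_pos x)]
  linarith

/-- integrals against a test function -/
lemma int_eq (hInt : StmtInt) {φ : ℂ → ℝ} (hφ : TestR H0 φ) (f : ℍ → ℝ) (m : ℕ) :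
    ∫ z : ℍ, φ z * f z ^ m = ∫ z : ℂ, (φ z * (z.im)⁻¹ ^ 2) * ext f z ^ m := by
  have h0 : ∀ z : ℂ, z.im ≤ 0 → φ z * ext f z ^ m = 0 := by
    intro z hz
    rw [hφ.eq_zero (fun h => (not_lt.mpr hz) h), zero_mul]
  have e1 := hInt.1 _ h0
  have e2 : ∫ z : ℍ, φ z * f z ^ m = ∫ z : ℍ, φ z * ext f z ^ m := by
    apply integral_congr_ae
    refine Filter.Eventually.of_forall fun z => ?_
    simp only [Half.ext_coe]
  rw [e2, e1]
  apply integral_congr_ae
  refine Filter.Eventually.of_forall fun z => ?_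
  show φ z * ext f z ^ m / z.im ^ 2 = (φ z * (z.im)⁻¹ ^ 2) * ext f z ^ m
  ring

lemma int_one (hInt : StmtInt) {φ : ℂ → ℝ} (hφ : TestR H0 φ) :
    ∫ z : ℍ, φ z = ∫ z : ℂ, φ z * (z.im)⁻¹ ^ 2 := by
  have h := int_eq hInt hφ (fun _ => 1) 0
  simpa using h

end FDM

theorem stmtFD (hFlt : StmtFlt) (hG2 : Pl.StmtG2) (hInt : StmtInt) : StmtFD := by
  intro f t hf ht hD
  obtain ⟨δ, r, hδ, hr, hK⟩ := hD
  have hrlim : Tendsto r atTop (𝓝 0) := by
    have h1 : Tendsto (fun i => t i ^ (-(1 / 2 + δ))) atTop (𝓝 0) :=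
      (tendsto_rpow_neg_atTop (by linarith : 0 < 1 / 2 + δ)).comp ht
    exact squeeze_zero (fun i => (hr i).1.le) (fun i => (hr i).2) h1
  have hyp : ∀ φ : ℂ → ℝ, TestP H0 φ → Tendsto (fun i => ∫ z, φ z *
      (Ed (Real.tanh (r i)) (fun w => ext (f i) w ^ 2) z - 1) ^ 2) atTop (𝓝 0) := by
    intro φ hφ
    obtain ⟨K, C, r0, hKc, hC, hr0, hG⟩ := hG2 φ hφ.test hφ.nonneg
    have h1 : Tendsto (fun i => C * (∫ z in K, (mean (fun w => f i w ^ 2) z (r i) - 1) ^ 2) +
        C * r i ^ 2) atTop (𝓝 0) := by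
      have h2 := ((hK K hKc).const_mul C).add ((hrlim.pow 2).const_mul C)
      simpa using h2
    refine squeeze_zero' (Filter.Eventually.of_forall fun i => ?_) ?_ h1
    · exact integral_nonneg fun z => mul_nonneg (hφ.nonneg z) (sq_nonneg _)
    · filter_upwards [hrlim.eventually (ge_mem_nhds hr0)] with i hi
      exact hG (r i) (hr i).1 hi (fun w => f i w ^ 2) ((Pl.FBM.cont (hf i)).pow 2)
        fun z => sq_nonneg _
  have key := hFlt f t (fun i => Real.tanh (r i)) (fun _ => 1) δ 1 hf ht hδ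
    (fun i => ⟨Pl.FBM.tanh_pos' (hr i).1, (FDM.tanh_le (hr i).1.le).trans (hr i).2⟩)
    (fun _ => ⟨zero_le_one, one_le_two⟩) tendsto_const_nhds hyp
  intro φ hφ
  have hφ2 : TestR H0 fun z => φ z * (z.im)⁻¹ ^ 2 :=
    Half.testR_mul Half.isOpen_H0 hφ hφ.sub (Half.contDiffOn_weight 2)
  obtain ⟨k2, k4⟩ := key _ hφ2
  constructor
  · rw [FDM.int_one hInt hφ]
    rw [one_mul] at k2
    exact k2.congr fun i => (FDM.int_eq hInt hφ (f i) 2).symm
  · rw [FDM.int_one hInt hφ]
    rw [one_pow, mul_one] at k4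
    exact k4.congr fun i => (FDM.int_eq hInt hφ (f i) 4).symm

end

end Pool.Agent.A54.Sq
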