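import Pool.Agent.Lib.MP_a54f13_nt.Sq.Spec
import Pool.Agent.Lib.MP_a54f13_nt.Calc

/-!
# Module `MsS`: the mass of `S`
-/

set_option autoImplicit false

namespace Pool.Agent.A54.Sq

open MeasureTheory Filter Topology Set
open scoped ContDiff ComplexConjugate
open Pool.Agent.A54.Half (H0)

noncomputable section

namespace MsSM

lemma le_la {t : ℝ} (n : ℤ) : t ≤ la t n := by
  unfold la
  apply Real.le_sqrt_of_sq_le
  nlinarith [sq_nonneg ((n : ℝ) + 1 / 2)]

/-- the local identity -/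
lemma local_id {V : Set ℂ} {t : ℝ} {G : ℤ → ℂ → ℂ} (hT : Tow V t G) (n : ℤ) {z : ℂ}
    (hz : z ∈ V) :
    ((la t n : ℝ) : ℂ) * (((‖G (n + 1) z‖ ^ 2 : ℝ) : ℂ) - ((‖G n z‖ ^ 2 : ℝ) : ℂ)) =
      -(Complex.I * ((z.im : ℂ) * dzb (pp G n) z)) - pp G n z := by
  have e1 : dzb (pp G n) z = dzb (G (n + 1)) z * conj (G n z) +
      G (n + 1) z * conj (dz (G n) z) := by
    have h := dzb_mul (z := z) (hT.smooth (n + 1)) (contDiff_conj (hT.smooth n))
    rw [dzb_conj (hT.smooth n)] at h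
    exact h
  have hup := congrArg (starRingEnd ℂ) (hT.up n z hz)
  simp only [map_add, map_mul, Complex.conj_I, Complex.conj_ofReal, map_intCast] at hup
  have hdn := hT.down n z hz
  have e2 : ∀ w : ℂ, ((‖w‖ ^ 2 : ℝ) : ℂ) = w * conj w := by
    intro w
    rw [Complex.mul_conj']
    push_cast
    rfl
  rw [e1, e2, e2]
  unfold pp
  linear_combination (-conj (G n z)) * hdn - G (n + 1) z * hup

lemma smooth_pp {V : Set ℂ} {t : ℝ} {G : ℤ → ℂ → ℂ} (hT : Tow V t G) (n : ℤ) :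
    ContDiff ℝ ∞ (pp G n) :=
  (hT.smooth (n + 1)).mul (contDiff_conj (hT.smooth n))

/-- one step -/
lemma step {V : Set ℂ} (hV : IsOpen V) {φ : ℂ → ℝ} (hφ : TestR V φ) :
    ∃ (ζ : ℂ → ℝ) (C : ℝ), TestP V ζ ∧ 0 ≤ C ∧ ∀ (t : ℝ) (G : ℤ → ℂ → ℂ), 1 ≤ t → Tow V t G →
      ∀ M : ℝ, (∀ n : ℤ, ∫ z, ζ z * ‖G n z‖ ^ 2 ≤ M) → ∀ n : ℤ,
        |(∫ z, φ z * ‖G (n + 1) z‖ ^ 2) - ∫ z, φ z * ‖G n z‖ ^ 2| ≤ C * M / t := by
  have him : ContDiff ℝ ∞ (fun z : ℂ => ((z.im : ℝ) : ℂ)) := contDiff_ofReal Complex.imCLM.contDiff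
  have hφc := hφ.toTest
  have hψ : Test V (fun z => (φ z : ℂ) * ((z.im : ℝ) : ℂ)) := hφc.mul_right him
  set h : ℂ → ℂ := fun z => Complex.I * dzb (fun z => (φ z : ℂ) * ((z.im : ℝ) : ℂ)) z - φ z
    with hh
  have hcont : Continuous h :=
    (continuous_const.mul hψ.dzb.smooth.continuous).sub hφc.smooth.continuous
  have hsub : tsupport (fun z => (φ z : ℂ) * ((z.im : ℝ) : ℂ)) ⊆ tsupport φ :=
    (tsupport_mul_subset_left (f := fun z => (φ z : ℂ)) (g := fun z : ℂ => ((z.im : ℝ) : ℂ))).trans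
      (tsupport_comp_subset (g := fun x : ℝ => (x : ℂ)) (by simp) φ)
  have hzero : ∀ z, z ∉ tsupport φ → h z = 0 := by
    intro z hz
    have h1 : φ z = 0 := image_eq_zero_of_notMem_tsupport hz
    have h2 : dzb (fun z => (φ z : ℂ) * ((z.im : ℝ) : ℂ)) z = 0 :=
      dzb_eq_zero_of_notMem fun h' => hz (hsub h')
    simp only [hh]
    rw [h1, h2]
    simp
  obtain ⟨C, hC⟩ := hφ.cpt.isCompact.exists_bound_of_continuousOn hcont.continuousOn
  obtain ⟨ζ, hζ, hζ01, hone⟩ := exists_cutoff hφ.cpt.isCompact hV hφ.sub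
  have hone' : ∀ z ∈ tsupport φ, ζ z = 1 := fun z hz => subset_of_mem_nhdsSet hone hz
  have hbound : ∀ z, ‖h z‖ ≤ max C 0 * ζ z := by
    intro z
    by_cases hz : z ∈ tsupport φ
    · rw [hone' z hz, mul_one]
      exact (hC z hz).trans (le_max_left _ _)
    · rw [hzero z hz, norm_zero]
      exact mul_nonneg (le_max_right _ _) (hζ01 z).1
  refine ⟨ζ, max C 0, ⟨hζ, fun z => (hζ01 z).1⟩, le_max_right _ _, ?_⟩
  intro t G ht hT M hM n
  have hsq : ∀ k : ℤ, Continuous (fun z => ‖G k z‖ ^ 2) := fun k =>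
    (hT.smooth k).continuous.norm.pow 2
  have hiφ : ∀ k : ℤ, Integrable (fun z => φ z * ‖G k z‖ ^ 2) := fun k =>
    (hφ.smooth.continuous.mul (hsq k)).integrable_of_hasCompactSupport hφ.cpt.mul_right
  have hiζ : ∀ k : ℤ, Integrable (fun z => ζ z * ‖G k z‖ ^ 2) := fun k =>
    (hζ.smooth.continuous.mul (hsq k)).integrable_of_hasCompactSupport hζ.cpt.mul_right
  have hp := smooth_pp hT n
  have hla : t ≤ la t n := le_la n
  -- the integral identity
  have hid : ((la t n * ((∫ z, φ z * ‖G (n + 1) z‖ ^ 2) - ∫ z, φ z * ‖G n z‖ ^ 2) : ℝ) : ℂ) =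
      ∫ z, h z * pp G n z := by
    rw [← integral_sub (hiφ _) (hiφ _), ← integral_const_mul, ← integral_complex_ofReal]
    have e1 : ∀ z, ((la t n * (φ z * ‖G (n + 1) z‖ ^ 2 - φ z * ‖G n z‖ ^ 2) : ℝ) : ℂ) =
        -Complex.I * (((φ z : ℂ) * ((z.im : ℝ) : ℂ)) * dzb (pp G n) z) - (φ z : ℂ) * pp G n z := by
      intro z
      by_cases hz : z ∈ V
      · have h1 := local_id hT n hz
        have h2 : ((la t n * (φ z * ‖G (n + 1) z‖ ^ 2 - φ z * ‖G n z‖ ^ 2) : ℝ) : ℂ) =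
            (φ z : ℂ) * (((la t n : ℝ) : ℂ) * (((‖G (n + 1) z‖ ^ 2 : ℝ) : ℂ) -
              ((‖G n z‖ ^ 2 : ℝ) : ℂ))) := by
          push_cast
          ring
        rw [h2, h1]
        ring
      · rw [hφ.eq_zero hz]
        simp
    simp only [e1]
    have i1 : Integrable (fun z => -Complex.I * (((φ z : ℂ) * ((z.im : ℝ) : ℂ)) *
        dzb (pp G n) z)) :=
      ((hψ.mul_right (contDiff_dzb hp)).integrable).const_mul _
    have i2 : Integrable (fun z => (φ z : ℂ) * pp G n z) := (hφc.mul_right hp).integrable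
    rw [integral_sub i1 i2, integral_const_mul,
      integral_mul_dzb hψ.smooth hp (Or.inl hψ.cpt)]
    have i3 : Integrable (fun z => Complex.I *
        (dzb (fun z => (φ z : ℂ) * ((z.im : ℝ) : ℂ)) z * pp G n z)) :=
      ((hψ.dzb.mul_right hp).integrable).const_mul _
    have e3 : ∀ z, h z * pp G n z = Complex.I *
        (dzb (fun z => (φ z : ℂ) * ((z.im : ℝ) : ℂ)) z * pp G n z) - (φ z : ℂ) * pp G n z := by
      intro z
      simp only [hh]
      ring
    simp only [e3]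
    rw [integral_sub i3 i2, integral_const_mul]
    ring
  -- the bound
  have hle : ‖∫ z, h z * pp G n z‖ ≤ max C 0 * M := by
    have i4 : Integrable (fun z => max C 0 * (ζ z * ‖G (n + 1) z‖ ^ 2 + ζ z * ‖G n z‖ ^ 2) / 2) :=
      (((hiζ _).add (hiζ _)).const_mul _).div_const _
    refine (norm_integral_le_of_norm_le i4 (Eventually.of_forall fun z => ?_)).trans ?_
    · rw [norm_mul]
      have h1 := hbound z
      have h2 : ‖pp G n z‖ = ‖G (n + 1) z‖ * ‖G n z‖ := by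
        unfold pp
        rw [norm_mul, RCLike.norm_conj]
      rw [h2]
      have h3 : ‖G (n + 1) z‖ * ‖G n z‖ ≤ (‖G (n + 1) z‖ ^ 2 + ‖G n z‖ ^ 2) / 2 := by
        nlinarith [sq_nonneg (‖G (n + 1) z‖ - ‖G n z‖)]
      calc ‖h z‖ * (‖G (n + 1) z‖ * ‖G n z‖) ≤
            (max C 0 * ζ z) * ((‖G (n + 1) z‖ ^ 2 + ‖G n z‖ ^ 2) / 2) :=
            mul_le_mul h1 h3 (by positivity)
              (mul_nonneg (le_max_right _ _) (hζ01 z).1)
        _ = max C 0 * (ζ z * ‖G (n + 1) z‖ ^ 2 + ζ z * ‖G n z‖ ^ 2) / 2 := by ring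
    · have h1 : ∫ z, max C 0 * (ζ z * ‖G (n + 1) z‖ ^ 2 + ζ z * ‖G n z‖ ^ 2) / 2 =
          max C 0 * ((∫ z, ζ z * ‖G (n + 1) z‖ ^ 2) + ∫ z, ζ z * ‖G n z‖ ^ 2) / 2 := by
        rw [integral_div, integral_const_mul, integral_add (hiζ _) (hiζ _)]
      rw [h1]
      have h2 := hM (n + 1)
      have h3 := hM n
      have h4 := mul_le_mul_of_nonneg_left (add_le_add h2 h3) (le_max_right C 0)
      linarith
  rw [← hid, Complex.norm_real, Real.norm_eq_abs, abs_mul, abs_of_nonneg (by linarith)] at hle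
  rw [le_div_iff₀ (by linarith)]
  have h5 := mul_le_mul_of_nonneg_right hla (abs_nonneg
    ((∫ z, φ z * ‖G (n + 1) z‖ ^ 2) - ∫ z, φ z * ‖G n z‖ ^ 2))
  linarith

/-- telescoping -/
lemma tele {a : ℤ → ℝ} {e : ℝ} (h : ∀ n, |a (n + 1) - a n| ≤ e) (hneg : ∀ n, a (-n) = a n)
    (d : ℤ) : |a d - a 0| ≤ |(d : ℝ)| * e := by
  have hk : ∀ k : ℕ, |a k - a 0| ≤ (k : ℝ) * e := by
    intro k
    induction k with
    | zero => simp
    | succ k ih =>
      have h1 := h k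
      have h2 : a ((k + 1 : ℕ) : ℤ) - a 0 = (a (k + 1) - a k) + (a k - a 0) := by
        push_cast
        ring
      rw [h2]
      refine (abs_add_le _ _).trans ?_
      push_cast
      linarith
  obtain ⟨k, rfl | rfl⟩ := Int.eq_nat_or_neg d
  · have := hk k
    simpa using this
  · rw [hneg]
    have := hk k
    simpa using this

end MsSM

open MsSM in
theorem stmtMsS (hK : StmtKSum) : StmtMsS := by
  intro V hV _ φ hφ
  obtain ⟨ζ, C, hζ, hC, hstep⟩ := step hV hφ.test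
  refine ⟨ζ, 2 * C, hζ, by positivity, ?_⟩
  intro t G ht hT N M hM
  obtain ⟨hK0, hK1, -, -⟩ := hK N
  set a : ℤ → ℝ := fun n => ∫ z, φ z * ‖G n z‖ ^ 2 with ha
  have hneg : ∀ n, a (-n) = a n := by
    intro n
    simp only [ha]
    congr 1
    funext z
    rw [hT.neg n z, norm_mul, norm_zpow, norm_neg, norm_one, one_zpow, one_mul, RCLike.norm_conj]
  have hM0 : 0 ≤ M := by
    refine le_trans ?_ (hM 0)
    exact integral_nonneg fun z => mul_nonneg (hζ.nonneg z) (by positivity)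
  have htel : ∀ d, |a d - a 0| ≤ |(d : ℝ)| * (C * M / t) :=
    tele (fun n => hstep t G ht hT M hM n) hneg
  have hsq : ∀ k : ℤ, Continuous (fun z => ‖G k z‖ ^ 2) := fun k =>
    (hT.smooth k).continuous.norm.pow 2
  have hiφ : ∀ k : ℤ, Integrable (fun z => φ z * ‖G k z‖ ^ 2) := fun k =>
    (hφ.test.smooth.continuous.mul (hsq k)).integrable_of_hasCompactSupport hφ.test.cpt.mul_right
  have hsum : ∫ z, φ z * SS G N z =
      ∑ d ∈ Finset.Icc (-(2 * (N : ℤ))) (2 * (N : ℤ)), KK N d * a d := by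
    have e1 : ∀ z, φ z * SS G N z =
        ∑ d ∈ Finset.Icc (-(2 * (N : ℤ))) (2 * (N : ℤ)), KK N d * (φ z * ‖G d z‖ ^ 2) := by
      intro z
      unfold SS
      rw [Finset.mul_sum]
      refine Finset.sum_congr rfl fun d _ => ?_
      ring
    simp only [e1]
    rw [integral_finsetSum _ fun d _ => (hiφ d).const_mul _]
    refine Finset.sum_congr rfl fun d _ => ?_
    rw [integral_const_mul]
  have h0 : a 0 = ∑ d ∈ Finset.Icc (-(2 * (N : ℤ))) (2 * (N : ℤ)), KK N d * a 0 := by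
    rw [← Finset.sum_mul, hK1, one_mul]
  have hdiff : (∫ z, φ z * SS G N z) - ∫ z, φ z * ‖G 0 z‖ ^ 2 =
      ∑ d ∈ Finset.Icc (-(2 * (N : ℤ))) (2 * (N : ℤ)), KK N d * (a d - a 0) := by
    rw [hsum]
    have : ∫ z, φ z * ‖G 0 z‖ ^ 2 = a 0 := rfl
    rw [this]
    conv_lhs => rw [h0]
    rw [← Finset.sum_sub_distrib]
    refine Finset.sum_congr rfl fun d _ => ?_
    ring
  rw [hdiff]
  have hq : 0 ≤ C * M / t := by
    have : 0 < t := by linarith
    positivity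
  calc |∑ d ∈ Finset.Icc (-(2 * (N : ℤ))) (2 * (N : ℤ)), KK N d * (a d - a 0)|
      ≤ ∑ d ∈ Finset.Icc (-(2 * (N : ℤ))) (2 * (N : ℤ)), |KK N d * (a d - a 0)| :=
        Finset.abs_sum_le_sum_abs _ _
    _ ≤ ∑ d ∈ Finset.Icc (-(2 * (N : ℤ))) (2 * (N : ℤ)), KK N d * (2 * N * (C * M / t)) := by
        refine Finset.sum_le_sum fun d hd => ?_
        rw [abs_mul, abs_of_nonneg (hK0 d)]
        refine mul_le_mul_of_nonneg_left ?_ (hK0 d)
        refine (htel d).trans (mul_le_mul_of_nonneg_right ?_ hq)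
        rw [Finset.mem_Icc] at hd
        have h6 : |d| ≤ 2 * (N : ℤ) := abs_le.2 hd
        have h7 : ((|d| : ℤ) : ℝ) ≤ ((2 * (N : ℤ) : ℤ) : ℝ) := by exact_mod_cast h6
        push_cast at h7
        exact h7
    _ = 2 * N * (C * M / t) := by rw [← Finset.sum_mul, hK1, one_mul]
    _ ≤ 2 * C * ((N : ℝ) + 1) * M / t := by
        have h8 : 2 * C * ((N : ℝ) + 1) * M / t = 2 * ((N : ℝ) + 1) * (C * M / t) := by ring
        rw [h8]
        apply mul_le_mul_of_nonneg_right _ hq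
        linarith

end

end Pool.Agent.A54.Sq
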