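import Pool.Agent.Lib.MP_a54f13_nt.Sq.Spec

/-! Bootstrap: induction on the exponents. -/

set_option autoImplicit false

namespace Pool.Agent.A54.Sq

open MeasureTheory Filter Topology Set
open scoped ContDiff ComplexConjugate UpperHalfPlane MatrixGroups
open Pool.Agent.A54.Half (H0 qq ff hh)
open Pool.Agent.A54.Pl (Ed mean)

noncomputable section

namespace BooM

lemma int_nonneg {V : Set ℂ} {φ : ℂ → ℝ} (hφ : TestP V φ) {F : ℂ → ℝ} (hF0 : ∀ z, 0 ≤ F z) :
    0 ≤ ∫ z, φ z * F z :=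
  integral_nonneg fun z => mul_nonneg (hφ.nonneg z) (hF0 z)

lemma EE.mono {V : Set ℂ} {κ s s' : ℝ} (h : EE V κ s) (hs : s ≤ s') : EE V κ s' := by
  intro φ hφ
  obtain ⟨ζ, C, hζ, hC, h1⟩ := h φ hφ
  refine ⟨ζ, C, hζ, hC, fun t G ht hT M hM hm n hn => (h1 t G ht hT M hM hm n hn).trans ?_⟩
  have h2 : t ^ s ≤ t ^ s' := Real.rpow_le_rpow_of_exponent_le ht hs
  have h3 : 0 ≤ ∫ z, ζ z * ‖G 0 z‖ ^ 4 := int_nonneg hζ fun z => by positivity
  gcongr

lemma start (hL : StmtLad) {V : Set ℂ} (hV : IsOpen V) (hVH : V ⊆ H0) {κ : ℝ} (hκ : 0 < κ) :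
    EE V κ 2 := by
  intro φ hφ
  obtain ⟨ζ, C, hζ, hC, h⟩ := hL V hV hVH φ hφ
  refine ⟨ζ, C, hζ, hC, fun t G ht hT M hM hm n hn => ?_⟩
  have hnt : |(n : ℝ)| ≤ t := by
    refine hn.trans ?_
    calc t ^ (1 / 2 - κ) ≤ t ^ (1 : ℝ) := Real.rpow_le_rpow_of_exponent_le ht (by linarith)
      _ = t := Real.rpow_one t
  refine (h t G ht hT M hm n hnt).trans ?_
  have h3 : 0 ≤ ∫ z, ζ z * ‖G 0 z‖ ^ 4 := int_nonneg hζ fun z => by positivity
  have h4 : t ^ (2 : ℝ) = t ^ 2 := by norm_num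
  rw [h4]
  have h5 : 0 ≤ C * M ^ 2 * t ^ 2 := by positivity
  nlinarith

end BooM

theorem stmtBoo (hB : StmtBst) (hL : StmtLad) : StmtBoo := by
  intro V hV hVH κ η hκ hκ2 hη
  set g := min η κ with hg
  have hg0 : 0 < g := lt_min hη hκ
  have hgη : g ≤ η := min_le_left _ _
  have hgκ : g ≤ κ := min_le_right _ _
  have claim : ∀ k : ℕ, ∀ κ' : ℝ, κ / 2 < κ' → κ' ≤ 1 / 2 →
      EE V κ' (max (2 - k * (g / 2)) g) := by
    intro k
    induction k with
    | zero =>
      intro κ' h1 h2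
      apply BooM.EE.mono (BooM.start hL hV hVH (by linarith))
      refine le_trans ?_ (le_max_left _ _)
      norm_num
    | succ k ih =>
      intro κ' h1 h2
      have h3 := ih ((κ' + κ / 2) / 2) (by linarith) (by linarith)
      set s := max (2 - (k : ℝ) * (g / 2)) g with hs
      have hsg : g ≤ s := le_max_right _ _
      have h4 : s - g / 2 ≤ max (2 - ((k + 1 : ℕ) : ℝ) * (g / 2)) g := by
        rcases le_total (2 - (k : ℝ) * (g / 2)) g with h5 | h5
        · have : s = g := max_eq_right h5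
          refine le_trans ?_ (le_max_right _ _)
          linarith
        · have : s = 2 - k * (g / 2) := max_eq_left h5
          refine le_trans ?_ (le_max_left _ _)
          push_cast
          linarith
      exact hB V hV hVH κ' ((κ' + κ / 2) / 2) s _ (by linarith) (by linarith) h2 (by linarith)
        (by linarith) (by linarith) h3
  obtain ⟨k, hk⟩ := exists_nat_gt (2 / (g / 2))
  have h4 : max (2 - (k : ℝ) * (g / 2)) g = g := by
    apply max_eq_right
    rw [div_lt_iff₀ (by linarith)] at hk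
    linarith
  have h5 := claim k κ (by linarith) hκ2
  rw [h4] at h5
  exact BooM.EE.mono h5 hgη

end

end Pool.Agent.A54.Sq
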