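import Pool.Agent.Lib.MP_a54f13_nt.Sq.Spec

/-! One bootstrap step for the statements `E(κ, s)`. -/

set_option autoImplicit false

namespace Pool.Agent.A54.Sq

open MeasureTheory Filter Topology Set
open scoped ContDiff ComplexConjugate UpperHalfPlane MatrixGroups
open Pool.Agent.A54.Half (H0 qq ff hh)
open Pool.Agent.A54.Pl (Ed mean)

noncomputable section

namespace BstM

lemma TestP.add {V : Set ℂ} {φ ψ : ℂ → ℝ} (h1 : TestP V φ) (h2 : TestP V ψ) :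
    TestP V (fun z => φ z + ψ z) := by
  refine ⟨⟨h1.test.smooth.add h2.test.smooth, h1.test.cpt.add h2.test.cpt, ?_⟩,
    fun z => add_nonneg (h1.nonneg z) (h2.nonneg z)⟩
  have h3 : tsupport (fun z => φ z + ψ z) ⊆ tsupport φ ∪ tsupport ψ := by
    apply closure_minimal _ ((isClosed_tsupport φ).union (isClosed_tsupport ψ))
    intro z hz
    by_contra hno
    rw [mem_union, not_or] at hno
    apply hz
    show φ z + ψ z = 0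
    rw [image_eq_zero_of_notMem_tsupport hno.1, image_eq_zero_of_notMem_tsupport hno.2, add_zero]
  exact h3.trans (union_subset h1.test.sub h2.test.sub)

lemma integrable {V : Set ℂ} {φ : ℂ → ℝ} (hφ : TestP V φ) {F : ℂ → ℝ} (hF : Continuous F) :
    Integrable (fun z => φ z * F z) :=
  (hφ.test.smooth.continuous.mul hF).integrable_of_hasCompactSupport hφ.test.cpt.mul_right

lemma mono {V : Set ℂ} {φ ψ : ℂ → ℝ} (h1 : TestP V φ) (h2 : TestP V ψ) (h : ∀ z, φ z ≤ ψ z)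
    {F : ℂ → ℝ} (hF : Continuous F) (hF0 : ∀ z, 0 ≤ F z) :
    ∫ z, φ z * F z ≤ ∫ z, ψ z * F z :=
  integral_mono (integrable h1 hF) (integrable h2 hF)
    fun z => mul_le_mul_of_nonneg_right (h z) (hF0 z)

lemma int_nonneg {V : Set ℂ} {φ : ℂ → ℝ} (hφ : TestP V φ) {F : ℂ → ℝ} (hF0 : ∀ z, 0 ≤ F z) :
    0 ≤ ∫ z, φ z * F z :=
  integral_nonneg fun z => mul_nonneg (hφ.nonneg z) (hF0 z)

lemma cont {V : Set ℂ} {t : ℝ} {G : ℤ → ℂ → ℂ} (hT : Tow V t G) (n : ℤ) (k : ℕ) :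
    Continuous fun z => ‖G n z‖ ^ k := ((hT.smooth n).continuous.norm).pow k

lemma Wi_diag (φ : ℂ → ℝ) (G : ℤ → ℂ → ℂ) (n : ℤ) : Wi φ G n n = ∫ z, φ z * ‖G n z‖ ^ 4 := by
  unfold Wi
  congr 1
  funext z
  ring

/-- `W(m, 0) ≤ (c W(m, m) + W(0, 0) / c) / 2` -/
lemma Wi_le {V : Set ℂ} {t : ℝ} {G : ℤ → ℂ → ℂ} (hT : Tow V t G) {φ : ℂ → ℝ} (hφ : TestP V φ)
    (m : ℤ) {c : ℝ} (hc : 0 < c) :
    Wi φ G m 0 ≤ (c * (∫ z, φ z * ‖G m z‖ ^ 4) + c⁻¹ * ∫ z, φ z * ‖G 0 z‖ ^ 4) / 2 := by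
  have i1 := integrable hφ (cont hT m 4)
  have i2 := integrable hφ (cont hT 0 4)
  have h1 : ∫ z, (c / 2 * (φ z * ‖G m z‖ ^ 4) + c⁻¹ / 2 * (φ z * ‖G 0 z‖ ^ 4)) =
      (c * (∫ z, φ z * ‖G m z‖ ^ 4) + c⁻¹ * ∫ z, φ z * ‖G 0 z‖ ^ 4) / 2 := by
    rw [integral_add (i1.const_mul _) (i2.const_mul _), integral_const_mul, integral_const_mul]
    ring
  rw [← h1]
  unfold Wi
  refine integral_mono (integrable hφ ((cont hT m 2).mul (cont hT 0 2)))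
    ((i1.const_mul _).add (i2.const_mul _)) fun z => ?_
  show φ z * (‖G m z‖ ^ 2 * ‖G 0 z‖ ^ 2) ≤
    c / 2 * (φ z * ‖G m z‖ ^ 4) + c⁻¹ / 2 * (φ z * ‖G 0 z‖ ^ 4)
  have h2 : ‖G m z‖ ^ 2 * ‖G 0 z‖ ^ 2 ≤ c / 2 * ‖G m z‖ ^ 4 + c⁻¹ / 2 * ‖G 0 z‖ ^ 4 := by
    set A := ‖G m z‖ ^ 2 with hA
    set B := ‖G 0 z‖ ^ 2 with hB
    have e1 : ‖G m z‖ ^ 4 = A ^ 2 := by rw [hA]; ring
    have e2 : ‖G 0 z‖ ^ 4 = B ^ 2 := by rw [hB]; ring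
    rw [e1, e2]
    have h3 : 0 ≤ c⁻¹ * (c * A - B) ^ 2 := by positivity
    have h4 : c⁻¹ * (c * A - B) ^ 2 = c * A ^ 2 - 2 * (A * B) + c⁻¹ * B ^ 2 := by
      field_simp
      ring
    rw [h4] at h3
    linarith
  have h5 := mul_le_mul_of_nonneg_left h2 (hφ.nonneg z)
  calc φ z * (‖G m z‖ ^ 2 * ‖G 0 z‖ ^ 2) ≤
        φ z * (c / 2 * ‖G m z‖ ^ 4 + c⁻¹ / 2 * ‖G 0 z‖ ^ 4) := h5
    _ = _ := by ring

/-- the numbers -/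
lemma nums {t κ κ' : ℝ} (ht : 1 ≤ t) (hκ : κ' < κ) (hκ' : 0 < κ') (hκ2 : κ ≤ 1 / 2)
    (h5 : 5 ≤ t ^ (κ - κ')) :
    ∃ N : ℕ, 2 * t ^ (1 / 2 - κ) ≤ N ∧ ((N : ℝ) + 2) ^ 2 ≤ t ∧ (N : ℝ) + 1 ≤ t ^ (1 / 2 - κ') ∧
      ((N : ℝ) + 1) ^ 2 / t ≤ 25 * t ^ (-(2 * κ)) := by
  have ht0 : 0 < t := by linarith
  have h1 : 1 ≤ t ^ (1 / 2 - κ) := Real.one_le_rpow ht (by linarith)
  have hle := Nat.ceil_lt_add_one (a := 2 * t ^ (1 / 2 - κ)) (by positivity)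
  have h2 : (⌈2 * t ^ (1 / 2 - κ)⌉₊ : ℝ) + 2 ≤ 5 * t ^ (1 / 2 - κ) := by linarith
  have h3 : 5 * t ^ (1 / 2 - κ) ≤ t ^ (1 / 2 - κ') := by
    calc 5 * t ^ (1 / 2 - κ) ≤ t ^ (κ - κ') * t ^ (1 / 2 - κ) :=
          mul_le_mul_of_nonneg_right h5 (by positivity)
      _ = t ^ (κ - κ' + (1 / 2 - κ)) := (Real.rpow_add ht0 _ _).symm
      _ = t ^ (1 / 2 - κ') := by congr 1; ring
  have h4 : t ^ (1 / 2 - κ') ≤ t ^ (1 / 2 : ℝ) := Real.rpow_le_rpow_of_exponent_le ht (by linarith)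
  have h6 : (t ^ (1 / 2 : ℝ)) ^ 2 = t := by
    rw [← Real.rpow_natCast, ← Real.rpow_mul ht0.le]
    norm_num
  refine ⟨⌈2 * t ^ (1 / 2 - κ)⌉₊, Nat.le_ceil _, ?_, ?_, ?_⟩
  · calc ((⌈2 * t ^ (1 / 2 - κ)⌉₊ : ℝ) + 2) ^ 2 ≤ (t ^ (1 / 2 : ℝ)) ^ 2 := by
          apply pow_le_pow_left₀ (by positivity)
          linarith
      _ = t := h6
  · linarith
  · rw [div_le_iff₀ ht0]
    calc ((⌈2 * t ^ (1 / 2 - κ)⌉₊ : ℝ) + 1) ^ 2 ≤ (5 * t ^ (1 / 2 - κ)) ^ 2 := by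
          apply pow_le_pow_left₀ (by positivity)
          linarith
      _ = 25 * (t ^ (1 / 2 - κ)) ^ 2 := by ring
      _ = 25 * t ^ (-(2 * κ)) * t := by
          have h7 : (t ^ (1 / 2 - κ)) ^ 2 = t ^ (-(2 * κ)) * t := by
            rw [← Real.rpow_natCast, ← Real.rpow_mul ht0.le]
            conv_rhs => rw [← Real.rpow_one t, ← Real.rpow_mul ht0.le, ← Real.rpow_add ht0]
            congr 1
            push_cast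
            ring
          rw [h7]
          ring

/-- final inequality -/
lemma final {W W2 W0 w2 C1 C2 C3 M J ps p2 ph q E : ℝ} (hC1 : 0 ≤ C1) (hC2 : 0 ≤ C2)
    (hC3 : 0 ≤ C3) (hM : 1 ≤ M) (hJ : 1 ≤ J) (hq1 : 1 ≤ q) (hph : 0 < ph) (hps : ph * ph = ps)
    (hphq : ph ≤ q) (hp2 : ps * p2 ≤ q)
    (h1 : W ≤ (w2 + W0) / 2 + C1 * (E * (C2 * M ^ 2 * ps * J)))
    (hE : E ≤ 25 * p2) (h2 : w2 ≤ (ph⁻¹ * W2 + ph⁻¹⁻¹ * W0) / 2) (hW2 : W2 ≤ C3 * M ^ 2 * ps * J)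
    (hW0 : W0 ≤ J) : W ≤ (C3 + 2 + 25 * C1 * C2) * M ^ 2 * q * J := by
  have hM2 : 1 ≤ M ^ 2 := by nlinarith
  have hps0 : 0 ≤ ps := by rw [← hps]; positivity
  have e1 : C1 * (E * (C2 * M ^ 2 * ps * J)) ≤ 25 * C1 * C2 * M ^ 2 * q * J := by
    calc C1 * (E * (C2 * M ^ 2 * ps * J)) ≤ C1 * (25 * p2 * (C2 * M ^ 2 * ps * J)) := by gcongr
      _ = 25 * C1 * C2 * M ^ 2 * J * (ps * p2) := by ring
      _ ≤ 25 * C1 * C2 * M ^ 2 * J * q := by gcongr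
      _ = _ := by ring
  have e2 : ph⁻¹ * W2 ≤ C3 * M ^ 2 * q * J := by
    calc ph⁻¹ * W2 ≤ ph⁻¹ * (C3 * M ^ 2 * ps * J) := by gcongr
      _ = C3 * M ^ 2 * ph * J := by
          rw [← hps]
          field_simp
      _ ≤ C3 * M ^ 2 * q * J := by gcongr
  have hMqJ : 0 ≤ M ^ 2 * q * J := by positivity
  have e3 : ph⁻¹⁻¹ * W0 ≤ M ^ 2 * q * J := by
    rw [inv_inv]
    calc ph * W0 ≤ ph * J := by gcongr
      _ ≤ q * J := by gcongr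
      _ = 1 * (q * J) := by ring
      _ ≤ M ^ 2 * (q * J) := by gcongr
      _ = _ := by ring
  have e4 : W0 ≤ M ^ 2 * q * J := by
    refine hW0.trans ?_
    calc J = 1 * 1 * J := by ring
      _ ≤ M ^ 2 * q * J := by gcongr
  have e5 : 0 ≤ C3 * M ^ 2 * q * J := by positivity
  nlinarith

end BstM

theorem stmtBst (hCW : StmtCosW) (hL : StmtLad) : StmtBst := by
  intro V hV hVH κ κ' s s' hκ' hκκ hκ2 hs hs1 hs2 hEE φ hφ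
  obtain ⟨ζ₁, C₁, hζ₁, hC₁, hW⟩ := hCW V hV hVH φ hφ.test
  obtain ⟨ζ₂, C₂, hζ₂, hC₂, hE₂⟩ := hEE ζ₁ hζ₁
  obtain ⟨ζ₃, C₃, hζ₃, hC₃, hE₃⟩ := hEE φ hφ
  obtain ⟨ζ₄, C₄, hζ₄, hC₄, hL₄⟩ := hL V hV hVH φ hφ
  have hδ : 0 < κ - κ' := by linarith
  obtain ⟨t0, ht0⟩ := ((tendsto_rpow_atTop hδ).eventually_ge_atTop 5).exists_forall_of_atTop
  set T0 := max t0 1 with hT0
  have hT01 : 1 ≤ T0 := le_max_right _ _
  refine ⟨fun z => φ z + (ζ₂ z + (ζ₃ z + ζ₄ z)), C₃ + 2 + 25 * C₁ * C₂ + C₄ * T0 ^ 2,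
    BstM.TestP.add hφ (BstM.TestP.add hζ₂ (BstM.TestP.add hζ₃ hζ₄)), by positivity,
    fun t G ht hT M hM hmass n hn => ?_⟩
  set ζ : ℂ → ℝ := fun z => φ z + (ζ₂ z + (ζ₃ z + ζ₄ z)) with hζdef
  have hζ : TestP V ζ := BstM.TestP.add hφ (BstM.TestP.add hζ₂ (BstM.TestP.add hζ₃ hζ₄))
  have l0 : ∀ z, φ z ≤ ζ z := fun z => by
    show φ z ≤ φ z + (ζ₂ z + (ζ₃ z + ζ₄ z))
    linarith [hζ₂.nonneg z, hζ₃.nonneg z, hζ₄.nonneg z]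
  have l2 : ∀ z, ζ₂ z ≤ ζ z := fun z => by
    show ζ₂ z ≤ φ z + (ζ₂ z + (ζ₃ z + ζ₄ z))
    linarith [hφ.nonneg z, hζ₃.nonneg z, hζ₄.nonneg z]
  have l3 : ∀ z, ζ₃ z ≤ ζ z := fun z => by
    show ζ₃ z ≤ φ z + (ζ₂ z + (ζ₃ z + ζ₄ z))
    linarith [hφ.nonneg z, hζ₂.nonneg z, hζ₄.nonneg z]
  have l4 : ∀ z, ζ₄ z ≤ ζ z := fun z => by
    show ζ₄ z ≤ φ z + (ζ₂ z + (ζ₃ z + ζ₄ z))
    linarith [hφ.nonneg z, hζ₂.nonneg z, hζ₃.nonneg z]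
  have m2 : ∀ n : ℤ, ∫ z, ζ₂ z * ‖G n z‖ ^ 2 ≤ M := fun n =>
    (BstM.mono hζ₂ hζ l2 (BstM.cont hT n 2) fun z => by positivity).trans (hmass n)
  have m3 : ∀ n : ℤ, ∫ z, ζ₃ z * ‖G n z‖ ^ 2 ≤ M := fun n =>
    (BstM.mono hζ₃ hζ l3 (BstM.cont hT n 2) fun z => by positivity).trans (hmass n)
  have m4 : ∀ n : ℤ, ∫ z, ζ₄ z * ‖G n z‖ ^ 2 ≤ M := fun n =>
    (BstM.mono hζ₄ hζ l4 (BstM.cont hT n 2) fun z => by positivity).trans (hmass n)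
  set I := ∫ z, ζ z * ‖G 0 z‖ ^ 4 with hI
  have hI0 : 0 ≤ I := BstM.int_nonneg hζ fun z => by positivity
  have j0 : ∫ z, φ z * ‖G 0 z‖ ^ 4 ≤ I :=
    BstM.mono hφ hζ l0 (BstM.cont hT 0 4) fun z => by positivity
  have j2 : ∫ z, ζ₂ z * ‖G 0 z‖ ^ 4 ≤ I :=
    BstM.mono hζ₂ hζ l2 (BstM.cont hT 0 4) fun z => by positivity
  have j3 : ∫ z, ζ₃ z * ‖G 0 z‖ ^ 4 ≤ I :=
    BstM.mono hζ₃ hζ l3 (BstM.cont hT 0 4) fun z => by positivity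
  have htpos : 0 < t := by linarith
  have hs'0 : 0 ≤ s' := by linarith
  have hq1 : 1 ≤ t ^ s' := Real.one_le_rpow ht hs'0
  have hJ : 1 ≤ 1 + I := by linarith
  rcases le_total T0 t with htt | htt
  · have h5 : 5 ≤ t ^ (κ - κ') := ht0 t ((le_max_left _ _).trans htt)
    obtain ⟨N, n1, n2, n3, n4⟩ := BstM.nums ht hκκ hκ' hκ2 h5
    have hUp : Up ζ₁ G (N + 1) (C₂ * M ^ 2 * t ^ s * (1 + I)) := by
      intro k hk
      have hk' : |(k : ℝ)| ≤ t ^ (1 / 2 - κ') := by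
        have h6 : ((|k| : ℤ) : ℝ) ≤ (((N + 1 : ℕ) : ℤ) : ℝ) := by exact_mod_cast hk
        push_cast at h6
        linarith
      refine (hE₂ t G ht hT M hM m2 k hk').trans ?_
      have : 0 ≤ C₂ * M ^ 2 * t ^ s := by positivity
      exact mul_le_mul_of_nonneg_left (by linarith) this
    have hn2 : 2 * |(n : ℝ)| ≤ N := by linarith
    have hnN : |n| + |n| ≤ (N : ℤ) := by
      have h6 : (((|n| + |n| : ℤ)) : ℝ) ≤ ((N : ℤ) : ℝ) := by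
        push_cast
        linarith
      exact_mod_cast h6
    have h1 := (abs_le.mp ((hW t G ht hT N _ n2 hUp).1 n n hnN)).2
    rw [sub_self] at h1
    have h2 := BstM.Wi_le hT hφ (n + n) (c := (t ^ (s / 2))⁻¹) (by positivity)
    have h3 := hE₃ t G ht hT M hM m3 (n + n) (by
      push_cast
      have h6 : |(n : ℝ) + n| ≤ |(n : ℝ)| + |(n : ℝ)| := abs_add_le _ _
      linarith)
    have h4 : ∫ z, φ z * ‖G (n + n) z‖ ^ 4 ≤ C₃ * M ^ 2 * t ^ s * (1 + I) :=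
      h3.trans (mul_le_mul_of_nonneg_left (by linarith) (by positivity))
    rw [← BstM.Wi_diag]
    have hW0 : Wi φ G 0 0 ≤ 1 + I := by
      rw [BstM.Wi_diag]
      linarith
    rw [← BstM.Wi_diag φ G 0] at h2
    have key := BstM.final (W := Wi φ G n n) (W2 := ∫ z, φ z * ‖G (n + n) z‖ ^ 4)
      (W0 := Wi φ G 0 0) (w2 := Wi φ G (n + n) 0) (C1 := C₁) (C2 := C₂) (C3 := C₃) (M := M)
      (J := 1 + I) (ps := t ^ s) (p2 := t ^ (-(2 * κ))) (ph := t ^ (s / 2)) (q := t ^ s')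
      (E := ((N : ℝ) + 1) ^ 2 / t) hC₁ hC₂ hC₃ hM hJ hq1 (by positivity)
      (by rw [← Real.rpow_add htpos]; congr 1; ring)
      (Real.rpow_le_rpow_of_exponent_le ht hs1)
      (by
        rw [← Real.rpow_add htpos]
        exact Real.rpow_le_rpow_of_exponent_le ht (by linarith))
      (by
        have h7 : C₁ * (((N : ℝ) + 1) ^ 2 * (C₂ * M ^ 2 * t ^ s * (1 + I)) / t) =
          C₁ * (((N : ℝ) + 1) ^ 2 / t * (C₂ * M ^ 2 * t ^ s * (1 + I))) := by ring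
        rw [h7] at h1
        linarith)
      n4 h2 h4 hW0
    refine key.trans ?_
    have h8 : 0 ≤ M ^ 2 * t ^ s' * (1 + I) := by positivity
    have h9 : 0 ≤ C₄ * T0 ^ 2 := by positivity
    nlinarith [mul_nonneg h9 h8]
  · have hnt : |(n : ℝ)| ≤ t := by
      refine hn.trans ?_
      calc t ^ (1 / 2 - κ) ≤ t ^ (1 : ℝ) := Real.rpow_le_rpow_of_exponent_le ht (by linarith)
        _ = t := Real.rpow_one t
    refine (hL₄ t G ht hT M m4 n hnt).trans ?_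
    have h1 : t ^ 2 ≤ T0 ^ 2 := pow_le_pow_left₀ htpos.le htt 2
    have h2 : C₄ * M ^ 2 * t ^ 2 ≤ C₄ * T0 ^ 2 * M ^ 2 * (t ^ s' * (1 + I)) := by
      calc C₄ * M ^ 2 * t ^ 2 ≤ C₄ * M ^ 2 * T0 ^ 2 := by gcongr
        _ = C₄ * T0 ^ 2 * M ^ 2 * (1 * 1) := by ring
        _ ≤ C₄ * T0 ^ 2 * M ^ 2 * (t ^ s' * (1 + I)) := by gcongr
    have h3 : 0 ≤ (C₃ + 2 + 25 * C₁ * C₂) * M ^ 2 * t ^ s' * (1 + I) := by positivity
    calc C₄ * M ^ 2 * t ^ 2 ≤ C₄ * T0 ^ 2 * M ^ 2 * (t ^ s' * (1 + I)) := h2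
      _ ≤ (C₃ + 2 + 25 * C₁ * C₂) * M ^ 2 * t ^ s' * (1 + I) +
          C₄ * T0 ^ 2 * M ^ 2 * (t ^ s' * (1 + I)) := by linarith
      _ = _ := by ring

end

end Pool.Agent.A54.Sq
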