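import Pool.Agent.Lib.MP_a54f13_nt.Sq.Spec

/-!
# Package `Sq`, module `CosW`: the cosine law and the odd law for the tower
-/

set_option autoImplicit false

namespace Pool.Agent.A54.Sq

open MeasureTheory Filter Topology Set
open scoped ContDiff ComplexConjugate UpperHalfPlane MatrixGroups
open Pool.Agent.A54.Half (H0 qq ff hh)

namespace CosWM

noncomputable section

variable {V : Set ℂ} {t : ℝ} {G : ℤ → ℂ → ℂ} {φ : ℂ → ℝ}

lemma norm_neg_index (hG : Tow V t G) (n : ℤ) (z : ℂ) : ‖G (-n) z‖ = ‖G n z‖ := by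
  rw [hG.neg, norm_mul, norm_zpow, norm_neg, norm_one, one_zpow, one_mul, RCLike.norm_conj]

lemma conj_sign (n : ℤ) : conj ((-1 : ℂ) ^ n) = (-1 : ℂ) ^ n := by
  rw [map_zpow₀, map_neg, map_one]

lemma pp_neg (hG : Tow V t G) (n : ℤ) (z : ℂ) : pp G (-n - 1) z = -pp G n z := by
  unfold pp
  have e1 : -n - 1 + 1 = -n := by ring
  have e2 : -n - 1 = -(n + 1) := by ring
  have e3 : ((-1 : ℂ) ^ n) * ((-1 : ℂ) ^ (n + 1)) = -1 := by
    rw [zpow_add₀ (by norm_num), zpow_one, ← mul_assoc, ← mul_zpow]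
    norm_num
  rw [e1, e2, hG.neg n, hG.neg (n + 1), map_mul, Complex.conj_conj, conj_sign]
  calc (-1 : ℂ) ^ n * conj (G n z) * ((-1 : ℂ) ^ (n + 1) * G (n + 1) z)
      = (((-1 : ℂ) ^ n) * ((-1 : ℂ) ^ (n + 1))) * (G (n + 1) z * conj (G n z)) := by ring
    _ = -(G (n + 1) z * conj (G n z)) := by rw [e3]; ring

/-- the abstract relations hold for the integrals -/
lemma cosH (hG : Tow V t G) {N : ℕ} {e : ℝ}
    (hrel : ∀ n m : ℤ, |n| ≤ N → |m| ≤ N →
      |Pj φ G n m - Pj φ G (n - 1) m + Wi φ G n (m + 1) - Wi φ G n m| ≤ e) :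
    CosH N e (Wi φ G) (Pj φ G) where
  symW := by
    intro n m
    unfold Wi
    refine integral_congr_ae (Eventually.of_forall fun z => ?_)
    simp only
    ring
  symP := by
    intro n m
    unfold Pj
    refine integral_congr_ae (Eventually.of_forall fun z => ?_)
    simp only [Complex.mul_re, Complex.conj_re, Complex.conj_im]
    ring
  negW := by
    intro n m
    unfold Wi
    simp only [norm_neg_index hG]
  negP := by
    intro n m
    unfold Pj
    rw [← integral_neg]
    refine integral_congr_ae (Eventually.of_forall fun z => ?_)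
    simp only [pp_neg hG, neg_mul, Complex.neg_re, mul_neg]
  diag := by
    intro n
    unfold Pj Wi
    refine integral_congr_ae (Eventually.of_forall fun z => ?_)
    simp only
    have h1 : (pp G n z * conj (pp G n z)).re = ‖G (n + 1) z‖ ^ 2 * ‖G n z‖ ^ 2 := by
      rw [Complex.mul_conj, Complex.ofReal_re, Complex.normSq_eq_norm_sq]
      unfold pp
      rw [norm_mul, RCLike.norm_conj, mul_pow]
    rw [h1]
  rel := hrel

end

end CosWM

open CosWM in
theorem stmtCosW (hR : StmtRel) (hC : StmtCos) : StmtCosW := by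
  intro V hV hVH φ hφ
  obtain ⟨ζ, C, hζ, hC0, h1⟩ := hR V hV hVH φ hφ
  refine ⟨ζ, 16 * C, hζ, by positivity, ?_⟩
  intro t G ht hG N B hN hB
  have hB0 : 0 ≤ B := by
    refine le_trans (integral_nonneg fun z => ?_) (hB 0 (by simp; positivity))
    exact mul_nonneg (hζ.nonneg z) (by positivity)
  have he : 0 ≤ C * B / t := by positivity
  have hcos := hC N (C * B / t) (Wi φ G) (Pj φ G) he (cosH hG (h1 t G ht hG N B hN hB))
  have e : 16 * ((N : ℝ) + 1) ^ 2 * (C * B / t) = 16 * C * (((N : ℝ) + 1) ^ 2 * B / t) := by ring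
  rw [e] at hcos
  exact hcos

end Pool.Agent.A54.Sq
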