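import Pool.Agent.Lib.MP_a54f13_nt.Sq.Spec2
import Pool.Agent.Lib.MP_a54f13_nt.Sq.CosW

/-!
# Package `Sq`, module `CPW`: the law for `P` for the tower
-/

set_option autoImplicit false

namespace Pool.Agent.A54.Sq

open MeasureTheory Filter Topology Set
open scoped ContDiff ComplexConjugate UpperHalfPlane MatrixGroups
open Pool.Agent.A54.Half (H0 qq ff hh)

theorem stmtCPW (hR : StmtRel) (hC : StmtCoP) : StmtCPW := by
  intro V hV hVH φ hφ
  obtain ⟨ζ, C, hζ, hC0, h1⟩ := hR V hV hVH φ hφ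
  refine ⟨ζ, 64 * C, hζ, by positivity, ?_⟩
  intro t G ht hG N B hN hB n m hnm
  have hB0 : 0 ≤ B := by
    refine le_trans (integral_nonneg fun z => ?_) (hB 0 (by simp; positivity))
    exact mul_nonneg (hζ.nonneg z) (by positivity)
  have he : 0 ≤ C * B / t := by positivity
  have hcop := hC N (C * B / t) (Wi φ G) (Pj φ G) he
    (CosWM.cosH hG (h1 t G ht hG N B hN hB)) n m hnm
  have e : 64 * ((N : ℝ) + 1) ^ 2 * (C * B / t) = 64 * C * (((N : ℝ) + 1) ^ 2 * B / t) := by ring
  rw [e] at hcop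
  exact hcop

end Pool.Agent.A54.Sq
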