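import Pool.Agent.Lib.MP_a54f13_nt.Sq.Spec

/-! Cosine law and odd law. -/

set_option autoImplicit false

namespace Pool.Agent.A54.Sq

namespace CosM

variable {N : ℕ} {e : ℝ} {W P : ℤ → ℤ → ℝ}

/-- the relation with the roles of n, m exchanged -/
theorem relb (h : CosH N e W P) (n m : ℤ) (hn : |n| ≤ N) (hm : |m| ≤ N) :
    |P n m - P n (m - 1) + W (n + 1) m - W n m| ≤ e := by
  have h1 := h.rel m n hm hn
  rwa [h.symP m n, h.symP (m - 1) n, h.symW m (n + 1), h.symW m n] at h1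

/-- one diagonal step -/
theorem step (h : CosH N e W P) (n m : ℤ) (hn : |n| ≤ N) (hm : |m| ≤ N) (hm1 : |m - 1| ≤ N) :
    |(P n m + W (n + 1) m) - (P (n - 1) (m - 1) + W n (m - 1))| ≤ 2 * e := by
  have h1 := relb h n m hn hm
  have h2 := h.rel n (m - 1) hn hm1
  rw [show m - 1 + 1 = m by ring] at h2
  rw [abs_le] at h1 h2 ⊢
  constructor <;> linarith [h1.1, h1.2, h2.1, h2.2]

theorem diagstep (h : CosH N e W P) (a b : ℤ) (ha : 0 ≤ a) (hb : 0 ≤ b) :
    ∀ m : ℕ, a + m ≤ N → b + m ≤ N →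
      |(P (a + m) (b + m) + W (a + m + 1) (b + m)) - (P a b + W (a + 1) b)| ≤ 2 * m * e := by
  intro m
  induction m with
  | zero => intro _ _; simp
  | succ m ih =>
    intro h1 h2
    push_cast at h1 h2
    have h3 := ih (by omega) (by omega)
    have h4 := step h (a + m + 1) (b + m + 1) (by rw [abs_le]; constructor <;> omega)
      (by rw [abs_le]; constructor <;> omega) (by rw [abs_le]; constructor <;> omega)
    rw [show a + (m : ℤ) + 1 - 1 = a + m by ring, show b + (m : ℤ) + 1 - 1 = b + m by ring] at h4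
    push_cast
    rw [show a + ((m : ℤ) + 1) = a + m + 1 by ring, show b + ((m : ℤ) + 1) = b + m + 1 by ring]
    rw [abs_le] at h3 h4 ⊢
    constructor <;> linarith [h3.1, h3.2, h4.1, h4.2]

theorem pk0 (h : CosH N e W P) (k : ℤ) (hk : |k| ≤ N) :
    |2 * P k 0 - (W k 0 - W (k + 1) 0)| ≤ e := by
  have h1 := relb h k 0 hk (by simp)
  have h2 : P k (0 - 1) = -P k 0 := by
    rw [h.symP k (0 - 1)]
    have h3 := h.negP 0 k
    rw [show (-0 - 1 : ℤ) = 0 - 1 by ring] at h3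
    rw [h3, h.symP 0 k]
  rw [h2] at h1
  rw [abs_le] at h1 ⊢
  constructor <;> linarith [h1.1, h1.2]

theorem wk1 (h : CosH N e W P) (k : ℤ) (hk : |k| ≤ N) (hk1 : |k - 1| ≤ N) :
    |W k 1 - (W (k + 1) 0 + W (k - 1) 0) / 2| ≤ 2 * e := by
  have h1 := pk0 h k hk
  have h2 := pk0 h (k - 1) hk1
  have h3 := h.rel k 0 hk (by simp)
  rw [show k - 1 + 1 = k by ring] at h2
  rw [show (0 : ℤ) + 1 = 1 by ring] at h3
  rw [abs_le] at h1 h2 h3 ⊢
  constructor <;> linarith [h1.1, h1.2, h2.1, h2.2, h3.1, h3.2]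

/-- U(k,0) -/
theorem uk0 (h : CosH N e W P) (k : ℤ) (hk : |k| ≤ N) :
    |(P k 0 + W (k + 1) 0) - (W k 0 + W (k + 1) 0) / 2| ≤ e / 2 := by
  have h1 := pk0 h k hk
  rw [abs_le] at h1 ⊢
  constructor <;> linarith [h1.1, h1.2]

/-- U(0,k) -/
theorem u0k (h : CosH N e W P) (k : ℤ) (hk : |k| ≤ N) (hk1 : |k - 1| ≤ N) :
    |(P 0 k + W (0 + 1) k) - (W k 0 + W (k - 1) 0) / 2| ≤ 5 / 2 * e := by
  have h1 := pk0 h k hk
  have h2 := wk1 h k hk hk1
  rw [h.symP 0 k, h.symW (0 + 1) k, show (0 : ℤ) + 1 = 1 by ring]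
  rw [abs_le] at h1 h2 ⊢
  constructor <;> linarith [h1.1, h1.2, h2.1, h2.2]

/-- one step of the induction -/
theorem shift (h : CosH N e W P) (m : ℕ) (n : ℤ) (hn : (m : ℤ) + 1 ≤ n) (hnN : n ≤ N) :
    |W n (m + 1) - (W (n + 1) m - (W (n - m + 1) 0 - W (n - m - 1) 0) / 2)| ≤
      (4 * m + 3) * e := by
  obtain ⟨k, rfl⟩ : ∃ k : ℤ, n = k + m := ⟨n - m, by ring⟩
  have hk : 1 ≤ k := by omega
  have h1 := diagstep h k 0 (by omega) le_rfl m hnN (by omega)
  have h2 := diagstep h 0 k le_rfl (by omega) m (by omega) hnN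
  have h3 := uk0 h k (by rw [abs_le]; constructor <;> omega)
  have h4 := u0k h k (by rw [abs_le]; constructor <;> omega) (by rw [abs_le]; constructor <;> omega)
  rw [show (0 : ℤ) + m = m by ring] at h1 h2
  rw [h.symP (m : ℤ) (k + m), h.symW ((m : ℤ) + 1) (k + m)] at h2
  rw [show k + (m : ℤ) - m = k by ring]
  rw [abs_le] at h1 h2 h3 h4 ⊢
  generalize P (k + ↑m) ↑m = a at *
  generalize W (k + ↑m + 1) ↑m = b at *
  generalize P k 0 = c at *
  generalize W (k + 1) 0 = d at *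
  generalize W (k + ↑m) (↑m + 1) = x at *
  generalize P 0 k = y at *
  generalize W (0 + 1) k = z at *
  generalize W k 0 = w at *
  generalize W (k - 1) 0 = u at *
  constructor <;> linarith [h1.1, h1.2, h2.1, h2.2, h3.1, h3.2, h4.1, h4.2]

theorem law (he : 0 ≤ e) (h : CosH N e W P) : ∀ (m : ℕ) (n : ℤ), (m : ℤ) ≤ n → n + m ≤ N →
    |W n m - (W (n + m) 0 + W (n - m) 0) / 2| ≤ 4 * (m : ℝ) ^ 2 * e := by
  intro m
  induction m with
  | zero =>
    intro n _ _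
    simp
  | succ m ih =>
    intro n h1 h2
    push_cast at h1 h2
    have h3 := ih (n + 1) (by omega) (by omega)
    have h4 := shift h m n h1 (by omega)
    push_cast
    rw [show n + ((m : ℤ) + 1) = n + 1 + m by ring, show n - ((m : ℤ) + 1) = n - m - 1 by ring]
    rw [show n + 1 - (m : ℤ) = n - m + 1 by ring] at h3
    have hm : (0 : ℝ) ≤ m := Nat.cast_nonneg m
    have h5 : 4 * (m : ℝ) ^ 2 * e + (4 * m + 3) * e ≤ 4 * ((m : ℝ) + 1) ^ 2 * e := by
      have : 4 * ((m : ℝ) + 1) ^ 2 * e - (4 * (m : ℝ) ^ 2 * e + (4 * m + 3) * e) =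
          (4 * m + 1) * e := by ring
      have h6 : 0 ≤ (4 * (m : ℝ) + 1) * e := by positivity
      linarith
    rw [abs_le] at h3 h4 ⊢
    constructor <;> linarith [h3.1, h3.2, h4.1, h4.2]

theorem bound {m : ℕ} (he : 0 ≤ e) (hm : (m : ℤ) ≤ N) :
    4 * (m : ℝ) ^ 2 * e ≤ 16 * ((N : ℝ) + 1) ^ 2 * e := by
  have h1 : (m : ℝ) ≤ N := by exact_mod_cast hm
  have h2 : (0 : ℝ) ≤ m := Nat.cast_nonneg m
  have h3 : (m : ℝ) ^ 2 ≤ ((N : ℝ) + 1) ^ 2 := by
    apply pow_le_pow_left₀ h2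
    linarith
  have h4 : 4 * (m : ℝ) ^ 2 ≤ 16 * ((N : ℝ) + 1) ^ 2 := by nlinarith
  exact mul_le_mul_of_nonneg_right h4 he

/-- nonnegative indices -/
theorem law2 (he : 0 ≤ e) (h : CosH N e W P) (n m : ℕ) (hnm : (n : ℤ) + m ≤ N) :
    |W n m - (W (n + m) 0 + W (n - m) 0) / 2| ≤ 16 * ((N : ℝ) + 1) ^ 2 * e := by
  rcases le_total m n with h1 | h1
  · exact (law he h m n (by exact_mod_cast h1) hnm).trans (bound he (by omega))
  · have h2 := law he h n m (by exact_mod_cast h1) (by omega)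
    rw [h.symW (m : ℤ) n, show (m : ℤ) + n = n + m by ring,
      show (m : ℤ) - n = -(n - m) by ring, h.negW] at h2
    exact h2.trans (bound he (by omega))

theorem main1 (he : 0 ≤ e) (h : CosH N e W P) (n m : ℤ) (hnm : |n| + |m| ≤ N) :
    |W n m - (W (n + m) 0 + W (n - m) 0) / 2| ≤ 16 * ((N : ℝ) + 1) ^ 2 * e := by
  have hneg2 : ∀ a b : ℤ, W a (-b) = W a b := fun a b => by
    rw [h.symW a (-b), h.negW, h.symW b a]
  obtain ⟨a, rfl | rfl⟩ := n.eq_nat_or_neg <;> obtain ⟨b, rfl | rfl⟩ := m.eq_nat_or_neg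
  · exact law2 he h a b (by simpa using hnm)
  · have h1 := law2 he h a b (by simpa using hnm)
    rw [hneg2, show (a : ℤ) + -(b : ℤ) = a - b by ring, show (a : ℤ) - -(b : ℤ) = a + b by ring]
    rwa [add_comm (W (a + b : ℤ) 0)] at h1
  · have h1 := law2 he h a b (by simpa using hnm)
    rw [h.negW, show -(a : ℤ) + (b : ℤ) = -(a - b) by ring,
      show -(a : ℤ) - (b : ℤ) = -(a + b) by ring, h.negW, h.negW]
    rwa [add_comm (W (a + b : ℤ) 0)] at h1
  · have h1 := law2 he h a b (by simpa using hnm)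
    rw [h.negW, hneg2, show -(a : ℤ) + -(b : ℤ) = -(a + b) by ring,
      show -(a : ℤ) - -(b : ℤ) = -(a - b) by ring, h.negW, h.negW]
    exact h1

/-- the value on the diagonal -/
theorem dia (h : CosH N e W P) (n : ℕ) (hn : (n : ℤ) ≤ N) :
    |2 * W (n + 1) n - (W 0 0 + W 1 0) / 2| ≤ (2 * n + 1 / 2) * e := by
  have h1 := diagstep h 0 0 le_rfl le_rfl n (by omega) (by omega)
  have h2 := uk0 h 0 (by simp)
  rw [show (0 : ℤ) + n = n by ring, h.diag n] at h1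
  rw [show (0 : ℤ) + 1 = 1 by ring] at h1 h2
  rw [abs_le] at h1 h2 ⊢
  constructor <;> linarith [h1.1, h1.2, h2.1, h2.2]

theorem main2 (he : 0 ≤ e) (h : CosH N e W P) (n : ℕ) (hn : 2 * (n : ℤ) + 1 ≤ N) :
    |W (2 * n + 1) 0 - W 0 0 / 3| ≤ 16 * ((N : ℝ) + 1) ^ 2 * e := by
  have h1 := dia h n (by omega)
  have h2 := dia h 0 (by omega)
  have h3 := law he h n (n + 1) (by omega) (by omega)
  rw [show (n : ℤ) + 1 + n = 2 * n + 1 by ring, show (n : ℤ) + 1 - n = 1 by ring] at h3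
  have h4 : ((0 : ℕ) : ℤ) + 1 = 1 := by norm_num
  rw [h4] at h2
  push_cast at h2
  have h5 : (0 : ℝ) ≤ n := Nat.cast_nonneg n
  have h6 : 2 * (n : ℝ) + 1 ≤ N := by exact_mod_cast hn
  have h7 : (2 * (n : ℝ) + 1) ^ 2 ≤ ((N : ℝ) + 1) ^ 2 := by
    apply pow_le_pow_left₀ (by positivity)
    linarith
  have h8 : (8 * (n : ℝ) ^ 2 + 2 * n + 3) * e ≤ 16 * ((N : ℝ) + 1) ^ 2 * e := by
    apply mul_le_mul_of_nonneg_right _ he
    nlinarith
  have h9 : (8 * (n : ℝ) ^ 2 + 2 * n + 3) * e = 2 * (4 * (n : ℝ) ^ 2 * e) + 2 * (n * e) + 3 * e := by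
    ring
  rw [h9] at h8
  rw [abs_le] at h1 h2 h3 ⊢
  constructor <;> linarith [h1.1, h1.2, h2.1, h2.2, h3.1, h3.2]

end CosM

open CosM in
theorem stmtCos : StmtCos := by
  intro N e W P he h
  refine ⟨fun n m hnm => main1 he h n m hnm, fun n hodd hn => ?_⟩
  obtain ⟨k, hk⟩ := hodd
  rcases le_or_gt 0 k with h1 | h1
  · obtain ⟨a, rfl⟩ := Int.eq_ofNat_of_zero_le h1
    subst hk
    refine main2 he h a ?_
    rw [abs_of_nonneg (by positivity)] at hn
    exact hn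
  · obtain ⟨a, ha⟩ := Int.eq_ofNat_of_zero_le (show 0 ≤ -k - 1 by omega)
    have h2 : n = -(2 * (a : ℤ) + 1) := by omega
    rw [h2, h.negW]
    refine main2 he h a ?_
    rw [h2, abs_neg, abs_of_nonneg (by positivity)] at hn
    exact hn

end Pool.Agent.A54.Sq
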