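import Pool.Agent.Lib.MP_a54f13_nt.Sq.Spec2
import Pool.Agent.Lib.MP_a54f13_nt.Sq.Cos

/-! The law for `P`. -/

set_option autoImplicit false

namespace Pool.Agent.A54.Sq

namespace CoPM

variable {N : ℕ} {e : ℝ} {W P : ℤ → ℤ → ℝ}

/-- `0 ≤ m ≤ n` -/
theorem law1 (hC : StmtCos) (he : 0 ≤ e) (h : CosH N e W P) (n m : ℕ) (hmn : m ≤ n)
    (hN : (n : ℤ) + m + 4 ≤ N) :
    |P n m - (W (n - m) 0 - W (n + m + 1) 0) / 2| ≤ 64 * ((N : ℝ) + 1) ^ 2 * e := by
  obtain ⟨k, rfl⟩ : ∃ k : ℕ, n = k + m := ⟨n - m, by omega⟩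
  push_cast at hN ⊢
  have h1 := CosM.diagstep h k 0 (by omega) le_rfl m (by omega) (by omega)
  have h3 := CosM.uk0 h k (by rw [abs_le]; constructor <;> omega)
  have h5 := (hC N e W P he h).1 ((k : ℤ) + m + 1) m (by
    rw [abs_of_nonneg (by positivity), abs_of_nonneg (by positivity)]
    omega)
  rw [show (0 : ℤ) + m = m by ring] at h1
  rw [show (k : ℤ) + m + 1 + m = k + m + m + 1 by ring,
    show (k : ℤ) + m + 1 - m = k + 1 by ring] at h5
  rw [show (k : ℤ) + m - m = k by ring]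
  have hm : (m : ℝ) ≤ N := by
    have : m ≤ N := by omega
    exact_mod_cast this
  have hm0 : (0 : ℝ) ≤ m := Nat.cast_nonneg m
  have h6 : (2 * (m : ℝ) + 1 / 2) * e ≤ 48 * ((N : ℝ) + 1) ^ 2 * e := by
    apply mul_le_mul_of_nonneg_right _ he
    nlinarith
  rw [abs_le] at h1 h3 h5 ⊢
  generalize P (k + ↑m) ↑m = a at *
  generalize W (k + ↑m + 1) ↑m = b at *
  generalize P k 0 = c at *
  generalize W (k + 1) 0 = d at *
  generalize W (k + ↑m + ↑m + 1) 0 = x at *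
  generalize W k 0 = w at *
  constructor <;> linarith [h1.1, h1.2, h3.1, h3.2, h5.1, h5.2]

/-- nonnegative indices -/
theorem law2 (hC : StmtCos) (he : 0 ≤ e) (h : CosH N e W P) (n m : ℕ)
    (hN : (n : ℤ) + m + 4 ≤ N) :
    |P n m - (W (n - m) 0 - W (n + m + 1) 0) / 2| ≤ 64 * ((N : ℝ) + 1) ^ 2 * e := by
  rcases le_total m n with h1 | h1
  · exact law1 hC he h n m h1 hN
  · have h2 := law1 hC he h m n h1 (by omega)
    rwa [h.symP (m : ℤ) n, show (m : ℤ) - n = -(n - m) by ring, h.negW,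
      show (m : ℤ) + n + 1 = n + m + 1 by ring] at h2

/-- nonnegative first index -/
theorem law3 (hC : StmtCos) (he : 0 ≤ e) (h : CosH N e W P) (n : ℕ) (m : ℤ)
    (hN : (n : ℤ) + |m| + 4 ≤ N) :
    |P n m - (W (n - m) 0 - W (n + m + 1) 0) / 2| ≤ 64 * ((N : ℝ) + 1) ^ 2 * e := by
  rcases le_or_gt 0 m with h1 | h1
  · obtain ⟨b, rfl⟩ := Int.eq_ofNat_of_zero_le h1
    rw [abs_of_nonneg h1] at hN
    exact law2 hC he h n b hN
  · obtain ⟨b, hb⟩ := Int.eq_ofNat_of_zero_le (show 0 ≤ -m - 1 by omega)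
    have hm : m = -(b : ℤ) - 1 := by omega
    rw [abs_of_neg h1] at hN
    have h2 := law2 hC he h n b (by omega)
    rw [hm, h.symP (n : ℤ), h.negP, h.symP (b : ℤ), show (n : ℤ) - (-(b : ℤ) - 1) = n + b + 1 by ring,
      show (n : ℤ) + (-(b : ℤ) - 1) + 1 = n - b by ring]
    rw [← abs_neg]
    have h3 : -(-P n b - (W (n + b + 1) 0 - W (n - b) 0) / 2) =
        P n b - (W (n - b) 0 - W (n + b + 1) 0) / 2 := by ring
    rw [h3]
    exact h2

end CoPM

open CoPM in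
theorem stmtCoP (hC : StmtCos) : StmtCoP := by
  intro N e W P he h n m hN
  rcases le_or_gt 0 n with h1 | h1
  · obtain ⟨a, rfl⟩ := Int.eq_ofNat_of_zero_le h1
    rw [abs_of_nonneg h1] at hN
    exact law3 hC he h a m hN
  · obtain ⟨a, ha⟩ := Int.eq_ofNat_of_zero_le (show 0 ≤ -n - 1 by omega)
    have hn : n = -(a : ℤ) - 1 := by omega
    rw [abs_of_neg h1] at hN
    have h2 := law3 hC he h a m (by omega)
    rw [hn, h.negP, show -(a : ℤ) - 1 - m = -(a + m + 1) by ring, h.negW,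
      show -(a : ℤ) - 1 + m + 1 = -(a - m) by ring, h.negW]
    rw [← abs_neg]
    have h3 : -(-P a m - (W (a + m + 1) 0 - W (a - m) 0) / 2) =
        P a m - (W (a - m) 0 - W (a + m + 1) 0) / 2 := by ring
    rw [h3]
    exact h2

end Pool.Agent.A54.Sq
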