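import Pool.Agent.Lib.MP_a54f13_nt.Sq.Spec

/-! The fourth moment grows slowly. -/

set_option autoImplicit false

namespace Pool.Agent.A54.Sq

open MeasureTheory Filter Topology Set
open scoped ContDiff ComplexConjugate UpperHalfPlane MatrixGroups
open Pool.Agent.A54.Half (H0 qq ff hh)
open Pool.Agent.A54.Pl (Ed mean)

noncomputable section

namespace Ex0M

/-- the claim `E'(s)` -/
def EP (V : Set ℂ) (c x : (ℂ → ℝ) → ℝ) (δ s : ℝ) : Prop := ∀ φ : ℂ → ℝ, TestP V φ →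
  ∃ C : ℝ, 0 ≤ C ∧ ∀ (t a ρ : ℝ) (G : ℤ → ℂ → ℂ), Dat V c x δ t a ρ G →
    ∫ z, φ z * ‖G 0 z‖ ^ 4 ≤ C * t ^ s

lemma EP.mono {V : Set ℂ} {c x : (ℂ → ℝ) → ℝ} {δ s s' : ℝ} (h : EP V c x δ s) (hs : s ≤ s') :
    EP V c x δ s' := by
  intro φ hφ
  obtain ⟨C, hC, h1⟩ := h φ hφ
  refine ⟨C, hC, fun t a ρ G hD => (h1 t a ρ G hD).trans ?_⟩
  exact mul_le_mul_of_nonneg_left (Real.rpow_le_rpow_of_exponent_le hD.one_le hs) hC

lemma int_nonneg {V : Set ℂ} {φ : ℂ → ℝ} (hφ : TestP V φ) {F : ℂ → ℝ} (hF0 : ∀ z, 0 ≤ F z) :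
    0 ≤ ∫ z, φ z * F z :=
  integral_nonneg fun z => mul_nonneg (hφ.nonneg z) (hF0 z)

lemma start (hL : StmtLad) {V : Set ℂ} (hV : IsOpen V) (hVH : V ⊆ H0) (c x : (ℂ → ℝ) → ℝ)
    (δ : ℝ) : EP V c x δ 2 := by
  intro φ hφ
  obtain ⟨ζ, C, hζ, hC, h⟩ := hL V hV hVH φ hφ
  refine ⟨C * c ζ ^ 2, by positivity, fun t a ρ G hD => ?_⟩
  have h1 := h t G hD.one_le hD.tow (c ζ) (hD.mass ζ hζ) 0 (by
    have := hD.one_le
    simp
    linarith)
  refine h1.trans (le_of_eq ?_)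
  norm_num

/-- the numbers -/
lemma nums {t δ : ℝ} (ht : 256 ≤ t) (hδ : 0 < δ) (hδ2 : δ ≤ 1 / 2) :
    ∃ N : ℕ, (2 * (N : ℝ) + 2) ^ 2 ≤ t ∧ 2 * (N : ℝ) + 1 ≤ t ^ (1 / 2 - δ / 4) ∧
      ((N : ℝ) + 1) ^ 2 / t ≤ t ^ (-(δ / 2)) ∧
      (((N : ℝ) + 1) ^ 2)⁻¹ ≤ 16 * t ^ (-(δ / 2)) ∧
      (∀ ρ : ℝ, 0 < ρ → ρ ≤ t ^ (-(1 / 2 + δ)) → ρ * t / ((N : ℝ) + 1) ≤ 4 * t ^ (-(δ / 2))) ∧
      ((N : ℝ) + 1) / t ≤ 1 := by
  have ht1 : 1 ≤ t := by linarith
  have ht0 : 0 < t := by linarith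
  set u := t ^ (1 / 2 - δ / 2) with hu
  have hu4 : 4 ≤ u := by
    calc (4 : ℝ) = (256 : ℝ) ^ (1 / 4 : ℝ) := by
          rw [show (256 : ℝ) = 4 ^ (4 : ℝ) by norm_num, ← Real.rpow_mul (by norm_num)]
          norm_num
      _ ≤ t ^ (1 / 4 : ℝ) := Real.rpow_le_rpow (by norm_num) ht (by norm_num)
      _ ≤ u := Real.rpow_le_rpow_of_exponent_le ht1 (by linarith)
  have hu0 : 0 < u := by linarith
  have hf1 : (⌊u / 4⌋₊ : ℝ) ≤ u / 4 := Nat.floor_le (by positivity)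
  have hf2 : u / 4 < (⌊u / 4⌋₊ : ℝ) + 1 := Nat.lt_floor_add_one _
  set N := ⌊u / 4⌋₊ with hN
  have hN0 : (0 : ℝ) ≤ N := by positivity
  have hu2 : u ^ 2 = t * t ^ (-δ) := by
    rw [hu, ← Real.rpow_natCast, ← Real.rpow_mul ht0.le]
    conv_rhs => rw [← Real.rpow_one t, ← Real.rpow_mul ht0.le, ← Real.rpow_add ht0]
    congr 1
    push_cast
    ring
  have hd1 : t ^ (-δ) ≤ 1 := Real.rpow_le_one_of_one_le_of_nonpos ht1 (by linarith)
  have hut : u ^ 2 ≤ t := by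
    rw [hu2]
    nlinarith
  refine ⟨N, ?_, ?_, ?_, ?_, ?_, ?_⟩
  · calc (2 * (N : ℝ) + 2) ^ 2 ≤ u ^ 2 := by
          apply pow_le_pow_left₀ (by positivity)
          linarith
      _ ≤ t := hut
  · have : u ≤ t ^ (1 / 2 - δ / 4) := Real.rpow_le_rpow_of_exponent_le ht1 (by linarith)
    linarith
  · rw [div_le_iff₀ ht0]
    calc ((N : ℝ) + 1) ^ 2 ≤ u ^ 2 := by
          apply pow_le_pow_left₀ (by positivity)
          linarith
      _ = t ^ (-δ) * t := by rw [hu2]; ring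
      _ ≤ t ^ (-(δ / 2)) * t := by
          apply mul_le_mul_of_nonneg_right _ ht0.le
          exact Real.rpow_le_rpow_of_exponent_le ht1 (by linarith)
  · have h1 : (u / 4) ^ 2 ≤ ((N : ℝ) + 1) ^ 2 := pow_le_pow_left₀ (by positivity) hf2.le 2
    have h2 : (((N : ℝ) + 1) ^ 2)⁻¹ ≤ ((u / 4) ^ 2)⁻¹ := inv_anti₀ (by positivity) h1
    refine h2.trans ?_
    have h3 : ((u / 4) ^ 2)⁻¹ = 16 * (u ^ 2)⁻¹ := by
      field_simp
      norm_num
    rw [h3]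
    apply mul_le_mul_of_nonneg_left _ (by norm_num)
    have h4 : (u ^ 2)⁻¹ = t ^ (-(1 - δ)) := by
      rw [hu, ← Real.rpow_natCast, ← Real.rpow_mul ht0.le, ← Real.rpow_neg ht0.le]
      congr 1
      push_cast
      ring
    rw [h4]
    exact Real.rpow_le_rpow_of_exponent_le ht1 (by linarith)
  · intro ρ hρ0 hρ
    rw [div_le_iff₀ (by positivity)]
    have h1 : t ^ (-(1 / 2 + δ)) * t = t ^ (-(δ / 2)) * u := by
      rw [hu, ← Real.rpow_add ht0]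
      conv_lhs => rw [← Real.rpow_one t, ← Real.rpow_mul ht0.le, ← Real.rpow_add ht0]
      congr 1
      ring
    calc ρ * t ≤ t ^ (-(1 / 2 + δ)) * t := mul_le_mul_of_nonneg_right hρ ht0.le
      _ = t ^ (-(δ / 2)) * u := h1
      _ ≤ t ^ (-(δ / 2)) * (4 * ((N : ℝ) + 1)) := by
          apply mul_le_mul_of_nonneg_left _ (by positivity)
          linarith
      _ = _ := by ring
  · rw [div_le_one ht0]
    nlinarith

/-- the final inequality -/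
lemma final {w a m X D CK B e1 e2 e3 M n1 E q K pe sq cφ xφ sK : ℝ}
    (hCK : 0 ≤ CK) (hK : 0 ≤ K) (hM : 0 ≤ M)
    (hkey : w ≤ 3 * (a * m) + 3 * (√X * √D) + CK * (B * (e1 + e2 + e3) + M * n1))
    (ha2 : a ≤ 2) (hm0 : 0 ≤ m) (hm : m ≤ cφ) (hX : X ≤ xφ)
    (hB : B = K * E) (hDe : √D ≤ sK * q)
    (h1 : e1 ≤ pe) (h2 : e2 ≤ 4 * pe) (h3 : e3 ≤ 16 * pe) (hn : n1 ≤ 1) (hE : 0 ≤ E)
    (hEq : E * pe ≤ q) (hq : 1 ≤ q) (hsq : sq = √xφ) :
    w ≤ (6 * cφ + 3 * sq * sK + CK * (21 * K + M)) * q := by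
  have hcφ : 0 ≤ cφ := hm0.trans hm
  have f1 : 3 * (a * m) ≤ 6 * cφ * q := by
    calc 3 * (a * m) ≤ 3 * (2 * cφ) := by gcongr
      _ = 6 * cφ * 1 := by ring
      _ ≤ 6 * cφ * q := by gcongr
  have hsX : √X ≤ sq := by rw [hsq]; exact Real.sqrt_le_sqrt hX
  have hsq0 : 0 ≤ sq := (Real.sqrt_nonneg X).trans hsX
  have f2 : 3 * (√X * √D) ≤ 3 * sq * sK * q := by
    calc 3 * (√X * √D) ≤ 3 * (sq * (sK * q)) := by gcongr
      _ = _ := by ring
  have f3 : CK * (B * (e1 + e2 + e3) + M * n1) ≤ CK * (21 * K + M) * q := by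
    have g1 : B * (e1 + e2 + e3) ≤ 21 * K * q := by
      rw [hB]
      calc K * E * (e1 + e2 + e3) ≤ K * E * (21 * pe) := by
            apply mul_le_mul_of_nonneg_left _ (by positivity)
            linarith
        _ = 21 * K * (E * pe) := by ring
        _ ≤ 21 * K * q := by gcongr
    have g2 : M * n1 ≤ M * q := by
      apply mul_le_mul_of_nonneg_left _ hM
      linarith
    calc CK * (B * (e1 + e2 + e3) + M * n1) ≤ CK * (21 * K * q + M * q) := by gcongr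
      _ = _ := by ring
  calc w ≤ 6 * cφ * q + 3 * sq * sK * q + CK * (21 * K + M) * q := by linarith
    _ = _ := by ring

lemma step (hKey : StmtKey) (hBoo : StmtBoo) (hL : StmtLad) {V : Set ℂ} (hV : IsOpen V)
    (hVH : V ⊆ H0) (c x : (ℂ → ℝ) → ℝ) {δ η s s' : ℝ} (hδ : 0 < δ) (hδ2 : δ ≤ 1 / 2)
    (hη : 0 < η) (hs : 0 ≤ s) (h1 : (s + η) / 2 ≤ s') (h2 : s + η - δ / 2 ≤ s')
    (hE : EP V c x δ s) : EP V c x δ s' := by
  have hs' : 0 ≤ s' := by linarith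
  intro φ hφ
  obtain ⟨ζK, CK, r0, hζK, hCK, hr0, hkey⟩ := hKey V hV hVH φ hφ
  obtain ⟨ζ₂, C₂, hζ₂, hC₂, hB₂⟩ := hBoo V hV hVH (δ / 4) η (by linarith) (by linarith) hη ζK hζK
  obtain ⟨ζ₃, C₃, hζ₃, hC₃, hB₃⟩ := hBoo V hV hVH (δ / 4) η (by linarith) (by linarith) hη φ hφ
  obtain ⟨C₅, hC₅, hE₅⟩ := hE ζ₂ hζ₂
  obtain ⟨C₆, hC₆, hE₆⟩ := hE ζ₃ hζ₃
  obtain ⟨C₇, hC₇, hE₇⟩ := start hL hV hVH c x δ φ hφ
  set M₂ := max 1 (c ζ₂) with hM₂
  set M₃ := max 1 (c ζ₃) with hM₃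
  have hM₂1 : 1 ≤ M₂ := le_max_left _ _
  have hM₃1 : 1 ≤ M₃ := le_max_left _ _
  set K := C₂ * M₂ ^ 2 * (1 + C₅) + C₃ * M₃ ^ 2 * (1 + C₆) with hK
  have hK2 : 0 ≤ C₂ * M₂ ^ 2 * (1 + C₅) := by positivity
  have hK3 : 0 ≤ C₃ * M₃ ^ 2 * (1 + C₆) := by positivity
  have hK0 : 0 ≤ K := by positivity
  set T0 := max 256 ((r0⁻¹) ^ 2) with hT0
  have hT0' : 256 ≤ T0 := le_max_left _ _
  refine ⟨(6 * |c φ| + 3 * √(x φ) * √K + CK * (21 * K + |c ζK|)) + C₇ * T0 ^ 2,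
    by positivity, fun t a ρ G hD => ?_⟩
  have ht := hD.one_le
  have ht0 : 0 < t := by linarith
  have hq : 1 ≤ t ^ s' := Real.one_le_rpow ht hs'
  rcases le_total T0 t with htt | htt
  · have ht256 : 256 ≤ t := hT0'.trans htt
    obtain ⟨N, n1, n2, n3, n4, n5, n6⟩ := nums ht256 hδ hδ2
    have hts : 1 ≤ t ^ s := Real.one_le_rpow ht hs
    have hpow : t ^ η * t ^ s = t ^ (s + η) := by
      rw [← Real.rpow_add ht0]; congr 1; ring
    have bnd : ∀ (C0 M0 Cx w0 : ℝ), 0 ≤ C0 → 0 ≤ Cx → w0 ≤ Cx * t ^ s →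
        C0 * M0 ^ 2 * t ^ η * (1 + w0) ≤ C0 * M0 ^ 2 * (1 + Cx) * t ^ (s + η) := by
      intro C0 M0 Cx w0 h3 h4 h5
      have h6 : 1 + w0 ≤ (1 + Cx) * t ^ s := by nlinarith
      calc C0 * M0 ^ 2 * t ^ η * (1 + w0) ≤ C0 * M0 ^ 2 * t ^ η * ((1 + Cx) * t ^ s) := by gcongr
        _ = C0 * M0 ^ 2 * (1 + Cx) * (t ^ η * t ^ s) := by ring
        _ = _ := by rw [hpow]
    have hUp : Up ζK G (2 * N + 1) (K * t ^ (s + η)) := by
      intro n hn
      have hn' : |(n : ℝ)| ≤ t ^ (1 / 2 - δ / 4) := by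
        have h6 : ((|n| : ℤ) : ℝ) ≤ (((2 * N + 1 : ℕ) : ℤ) : ℝ) := by exact_mod_cast hn
        push_cast at h6
        linarith
      have h3 := hB₂ t G ht hD.tow M₂ hM₂1
        (fun k => (hD.mass ζ₂ hζ₂ k).trans (le_max_right _ _)) n hn'
      refine h3.trans ((bnd C₂ M₂ C₅ _ hC₂ hC₅ (hE₅ t a ρ G hD)).trans ?_)
      apply mul_le_mul_of_nonneg_right _ (by positivity)
      linarith
    have hDD : ∀ d : ℤ, |d| ≤ 2 * N → Wi φ G d d ≤ K * t ^ (s + η) := by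
      intro n hn
      have hn' : |(n : ℝ)| ≤ t ^ (1 / 2 - δ / 4) := by
        have h6 : ((|n| : ℤ) : ℝ) ≤ ((2 * N : ℤ) : ℝ) := by exact_mod_cast hn
        push_cast at h6
        linarith
      have h3 := hB₃ t G ht hD.tow M₃ hM₃1
        (fun k => (hD.mass ζ₃ hζ₃ k).trans (le_max_right _ _)) n hn'
      have h4 : Wi φ G n n = ∫ z, φ z * ‖G n z‖ ^ 4 := by
        unfold Wi
        congr 1
        funext z
        ring
      rw [h4]
      refine h3.trans ((bnd C₃ M₃ C₆ _ hC₃ hC₆ (hE₆ t a ρ G hD)).trans ?_)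
      apply mul_le_mul_of_nonneg_right _ (by positivity)
      linarith
    have hρr : ρ ≤ r0 := by
      have h3 : t ^ (-(1 / 2 + δ)) ≤ t ^ (-(1 / 2) : ℝ) :=
        Real.rpow_le_rpow_of_exponent_le ht (by linarith)
      have h4 : r0⁻¹ ≤ t ^ (1 / 2 : ℝ) := by
        have h5 : (r0⁻¹) ^ 2 ≤ t := (le_max_right _ _).trans htt
        calc r0⁻¹ = ((r0⁻¹) ^ 2) ^ (1 / 2 : ℝ) := by
              rw [← Real.rpow_natCast, ← Real.rpow_mul (by positivity)]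
              norm_num
          _ ≤ t ^ (1 / 2 : ℝ) := Real.rpow_le_rpow (by positivity) h5 (by norm_num)
      have h5 : t ^ (-(1 / 2) : ℝ) ≤ r0 := by
        rw [Real.rpow_neg ht0.le]
        calc (t ^ (1 / 2 : ℝ))⁻¹ ≤ (r0⁻¹)⁻¹ := inv_anti₀ (by positivity) h4
          _ = r0 := inv_inv r0
      exact hD.rho.trans (h3.trans h5)
    have h3 := hkey t G ht hD.tow N (K * t ^ (s + η)) |c ζK| (K * t ^ (s + η)) ρ a n1 hUp
      (fun n => (hD.mass ζK hζK n).trans (le_abs_self _)) hDD hD.rho0 hρr hD.a0 hD.a2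
    have hm0 : 0 ≤ ∫ z, φ z * ‖G 0 z‖ ^ 2 := int_nonneg hφ fun z => by positivity
    have hfin := final (w := ∫ z, φ z * ‖G 0 z‖ ^ 4) (a := a) (m := ∫ z, φ z * ‖G 0 z‖ ^ 2)
      (X := ∫ z, φ z * (Ed ρ (fun w => ‖G 0 w‖ ^ 2) z - a) ^ 2) (D := K * t ^ (s + η)) (CK := CK)
      (B := K * t ^ (s + η)) (e1 := ((N : ℝ) + 1) ^ 2 / t) (e2 := ρ * t / ((N : ℝ) + 1))
      (e3 := (((N : ℝ) + 1) ^ 2)⁻¹) (M := |c ζK|) (n1 := ((N : ℝ) + 1) / t) (E := t ^ (s + η))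
      (q := t ^ s') (K := K) (pe := t ^ (-(δ / 2))) (sq := √(x φ)) (cφ := |c φ|) (xφ := x φ)
      (sK := √K) hCK hK0 (abs_nonneg _)
      (by
        rw [mul_div_assoc |c ζK|] at h3
        exact h3)
      hD.a2 hm0 ((hD.mass φ hφ 0).trans (le_abs_self _)) (hD.var φ hφ) rfl
      (by
        rw [Real.sqrt_mul hK0]
        apply mul_le_mul_of_nonneg_left _ (Real.sqrt_nonneg _)
        rw [Real.sqrt_eq_rpow, ← Real.rpow_mul ht0.le]
        exact Real.rpow_le_rpow_of_exponent_le ht (by linarith))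
      n3 (n5 ρ hD.rho0 hD.rho) n4 n6 (by positivity)
      (by
        rw [← Real.rpow_add ht0]
        exact Real.rpow_le_rpow_of_exponent_le ht (by linarith))
      hq rfl
    refine hfin.trans ?_
    apply mul_le_mul_of_nonneg_right _ (by positivity)
    have : 0 ≤ C₇ * T0 ^ 2 := by positivity
    linarith
  · refine (hE₇ t a ρ G hD).trans ?_
    have h3 : t ^ (2 : ℝ) ≤ T0 ^ 2 := by
      rw [show t ^ (2 : ℝ) = t ^ 2 by norm_num]
      exact pow_le_pow_left₀ ht0.le htt 2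
    have h4 : 0 ≤ 6 * |c φ| + 3 * √(x φ) * √K + CK * (21 * K + |c ζK|) := by positivity
    calc C₇ * t ^ (2 : ℝ) ≤ C₇ * T0 ^ 2 * 1 := by
          rw [mul_one]
          exact mul_le_mul_of_nonneg_left h3 hC₇
      _ ≤ C₇ * T0 ^ 2 * t ^ s' := by gcongr
      _ ≤ _ := by
          apply mul_le_mul_of_nonneg_right _ (by positivity)
          linarith

end Ex0M

theorem stmtEx0 (hKey : StmtKey) (hBoo : StmtBoo) (hL : StmtLad) : StmtEx0 := by
  intro V hV hVH c x δ η hδ hδ2 hη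
  set η' := min (η / 4) (δ / 8) with hη'
  have h1 : 0 < η' := lt_min (by linarith) (by linarith)
  have h2 : η' ≤ η / 4 := min_le_left _ _
  have h3 : η' ≤ δ / 8 := min_le_right _ _
  have claim : ∀ k : ℕ, Ex0M.EP V c x δ (max (2 - k * η') (4 * η')) := by
    intro k
    induction k with
    | zero =>
      apply (Ex0M.start hL hV hVH c x δ).mono
      refine le_trans ?_ (le_max_left _ _)
      norm_num
    | succ k ih =>
      set s := max (2 - k * η') (4 * η') with hs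
      have hs4 : 4 * η' ≤ s := le_max_right _ _
      have h4 : s - η' ≤ max (2 - ((k + 1 : ℕ) : ℝ) * η') (4 * η') := by
        rcases le_total (2 - (k : ℝ) * η') (4 * η') with h5 | h5
        · have : s = 4 * η' := max_eq_right h5
          refine le_trans ?_ (le_max_right _ _)
          linarith
        · have : s = 2 - k * η' := max_eq_left h5
          refine le_trans ?_ (le_max_left _ _)
          push_cast
          linarith
      exact Ex0M.step hKey hBoo hL hV hVH c x hδ hδ2 h1 (by linarith) (by linarith) (by linarith) ih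
  intro φ hφ
  obtain ⟨k, hk⟩ := exists_nat_gt (2 / η')
  have h4 : max (2 - (k : ℝ) * η') (4 * η') = 4 * η' := by
    apply max_eq_right
    rw [div_lt_iff₀ h1] at hk
    linarith
  have h5 := claim k
  rw [h4] at h5
  exact h5.mono (by linarith) φ hφ

end

end Pool.Agent.A54.Sq
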