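import Pool.Agent.Lib.MP_a54f13_nt.Sq.Spec

/-! Slow growth of the fourth moments for all indices. -/

set_option autoImplicit false

namespace Pool.Agent.A54.Sq

open MeasureTheory Filter Topology Set
open scoped ContDiff ComplexConjugate UpperHalfPlane MatrixGroups
open Pool.Agent.A54.Half (H0 qq ff hh)
open Pool.Agent.A54.Pl (Ed mean)

noncomputable section

theorem stmtExp (hEx0 : StmtEx0) (hBoo : StmtBoo) : StmtExp := by
  intro V hV hVH c x δ η κ hδ hδ2 hη hκ hκ2 φ hφ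
  obtain ⟨ζ, C, hζ, hC, hB⟩ := hBoo V hV hVH κ (η / 2) hκ hκ2 (by linarith) φ hφ
  obtain ⟨C', hC', hE⟩ := hEx0 V hV hVH c x δ (η / 2) hδ hδ2 (by linarith) ζ hζ
  set M := max 1 (c ζ) with hM
  have hM1 : 1 ≤ M := le_max_left _ _
  refine ⟨C * M ^ 2 * (1 + C'), by positivity, fun t a ρ G hD n hn => ?_⟩
  have ht := hD.one_le
  have ht0 : 0 < t := by linarith
  have h1 := hB t G ht hD.tow M hM1 (fun k => (hD.mass ζ hζ k).trans (le_max_right _ _)) n hn
  have h2 := hE t a ρ G hD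
  have h3 : 1 ≤ t ^ (η / 2) := Real.one_le_rpow ht (by linarith)
  have h4 : 1 + ∫ z, ζ z * ‖G 0 z‖ ^ 4 ≤ (1 + C') * t ^ (η / 2) := by nlinarith
  refine h1.trans ?_
  calc C * M ^ 2 * t ^ (η / 2) * (1 + ∫ z, ζ z * ‖G 0 z‖ ^ 4) ≤
        C * M ^ 2 * t ^ (η / 2) * ((1 + C') * t ^ (η / 2)) :=
        mul_le_mul_of_nonneg_left h4 (by positivity)
    _ = C * M ^ 2 * (1 + C') * (t ^ (η / 2) * t ^ (η / 2)) := by ring
    _ = C * M ^ 2 * (1 + C') * t ^ η := by
        rw [← Real.rpow_add ht0]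
        congr 2
        ring

end

end Pool.Agent.A54.Sq
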