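import Pool.Agent.Lib.MP_a54f13_nt.Sq.Spec

/-! Fejér positivity. -/

set_option autoImplicit false

namespace Pool.Agent.A54.Sq

namespace FejM

open Finset

/-- the number of pairs with a given difference -/
theorem card_fiber (N : ℕ) (d : ℤ) (hd : d ∈ Icc (-(2 * (N : ℤ))) (2 * (N : ℤ))) :
    (((Icc (-(N : ℤ)) N ×ˢ Icc (-(N : ℤ)) N).filter (fun q => q.1 - q.2 = d)).card : ℝ) =
      (2 * (N : ℝ) + 1) - |(d : ℝ)| := by
  rw [mem_Icc] at hd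
  have h1 : ((Icc (-(N : ℤ)) N ×ˢ Icc (-(N : ℤ)) N).filter (fun q => q.1 - q.2 = d)) =
      (Icc (max (-(N : ℤ)) (-N - d)) (min (N : ℤ) (N - d))).image (fun m => (m + d, m)) := by
    ext q
    simp only [mem_filter, mem_product, mem_Icc, mem_image, Prod.ext_iff]
    constructor
    · rintro ⟨⟨⟨h1, h2⟩, h3, h4⟩, h5⟩
      exact ⟨q.2, ⟨by omega, by omega⟩, by omega, rfl⟩
    · rintro ⟨m, ⟨h1, h2⟩, h3, h4⟩
      refine ⟨⟨⟨?_, ?_⟩, ?_, ?_⟩, ?_⟩ <;> omega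
  rw [h1, Finset.card_image_of_injective _ (fun a b hab => by
    simpa using (Prod.ext_iff.mp hab).2), Int.card_Icc]
  rcases le_total 0 d with h2 | h2
  · have h3 : (min (N : ℤ) (N - d) + 1 - max (-(N : ℤ)) (-N - d)) = 2 * N + 1 - d := by omega
    rw [h3, abs_of_nonneg (by exact_mod_cast h2)]
    have h4 : (((2 * (N : ℤ) + 1 - d).toNat : ℤ) : ℝ) = ((2 * (N : ℤ) + 1 - d : ℤ) : ℝ) := by
      rw [Int.toNat_of_nonneg (by omega)]
    push_cast at h4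
    exact_mod_cast h4
  · have h3 : (min (N : ℤ) (N - d) + 1 - max (-(N : ℤ)) (-N - d)) = 2 * N + 1 + d := by omega
    rw [h3, abs_of_nonpos (by exact_mod_cast h2)]
    have h4 : (((2 * (N : ℤ) + 1 + d).toNat : ℤ) : ℝ) = ((2 * (N : ℤ) + 1 + d : ℤ) : ℝ) := by
      rw [Int.toNat_of_nonneg (by omega)]
    push_cast at h4
    have h5 : ((2 * (N : ℤ) + 1 + d).toNat : ℝ) = 2 * (N : ℝ) + 1 + d := by exact_mod_cast h4
    rw [h5]
    ring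

theorem sum_diff (N : ℕ) (g : ℤ → ℝ) :
    ∑ n ∈ Icc (-(N : ℤ)) N, ∑ m ∈ Icc (-(N : ℤ)) N, g (n - m) =
      ∑ d ∈ Icc (-(2 * (N : ℤ))) (2 * (N : ℤ)), ((2 * (N : ℝ) + 1) - |(d : ℝ)|) * g d := by
  rw [← Finset.sum_product' (f := fun n m => g (n - m))]
  rw [← Finset.sum_fiberwise_of_maps_to (s := Icc (-(N : ℤ)) N ×ˢ Icc (-(N : ℤ)) N)
    (t := Icc (-(2 * (N : ℤ))) (2 * (N : ℤ))) (g := fun q => q.1 - q.2)]
  · refine Finset.sum_congr rfl fun d hd => ?_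
    rw [← card_fiber N d hd]
    rw [Finset.sum_congr rfl (g := fun _ => g d) (fun q hq => by
      rw [mem_filter] at hq
      show g (q.1 - q.2) = g d
      rw [hq.2])]
    rw [Finset.sum_const, nsmul_eq_mul]
  · intro q hq
    rw [mem_product, mem_Icc, mem_Icc] at hq
    show q.1 - q.2 ∈ _
    rw [mem_Icc]
    omega

theorem sum_sign (N : ℕ) : ∑ n ∈ Icc (-(N : ℤ)) N, ((-1 : ℝ) ^ n) = (-1 : ℝ) ^ (N : ℤ) := by
  have h1 : Icc (-(N : ℤ)) N = (range (2 * N + 1)).image (fun j : ℕ => (j : ℤ) - N) := by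
    ext n
    simp only [mem_Icc, mem_image, mem_range]
    constructor
    · rintro ⟨h1, h2⟩
      exact ⟨(n + N).toNat, by omega, by omega⟩
    · rintro ⟨j, h1, h2⟩
      omega
  rw [h1, Finset.sum_image (fun a _ b _ hab => by
    have : (a : ℤ) - N = b - N := hab
    omega)]
  have h2 : ∀ j ∈ range (2 * N + 1), (-1 : ℝ) ^ ((j : ℤ) - N) = (-1 : ℝ) ^ (N : ℤ) * (-1) ^ j := by
    intro j _
    rw [zpow_sub₀ (by norm_num : (-1 : ℝ) ≠ 0), zpow_natCast, zpow_natCast]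
    have h3 : ((-1 : ℝ) ^ N) * (-1) ^ N = 1 := by
      rw [← mul_pow]; norm_num
    have h4 : ((-1 : ℝ) ^ N) ≠ 0 := by positivity
    field_simp
    rw [sq, h3]
  rw [Finset.sum_congr rfl h2, ← Finset.mul_sum, neg_one_geom_sum]
  rw [if_neg (by
    intro h
    obtain ⟨k, hk⟩ := h
    omega), mul_one]

theorem sign_sq (N : ℕ) : ((-1 : ℝ) ^ (N : ℤ)) * (-1) ^ (N : ℤ) = 1 := by
  rw [zpow_natCast, ← mul_pow]
  norm_num

theorem sum_sign2 (N : ℕ) :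
    ∑ d ∈ Icc (-(2 * (N : ℤ))) (2 * (N : ℤ)), ((2 * (N : ℝ) + 1) - |(d : ℝ)|) * (-1 : ℝ) ^ d = 1 := by
  rw [← sum_diff N (fun d => (-1 : ℝ) ^ d)]
  have h1 : ∀ n ∈ Icc (-(N : ℤ)) N, ∑ m ∈ Icc (-(N : ℤ)) N, (-1 : ℝ) ^ (n - m) =
      (-1 : ℝ) ^ n * (-1 : ℝ) ^ (N : ℤ) := by
    intro n _
    rw [← sum_sign N, Finset.mul_sum]
    refine Finset.sum_congr rfl fun m _ => ?_
    rw [zpow_sub₀ (by norm_num : (-1 : ℝ) ≠ 0), div_eq_mul_inv, ← inv_zpow]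
    norm_num
  rw [Finset.sum_congr rfl h1, ← Finset.sum_mul, sum_sign, sign_sq]

theorem sum_one (N : ℕ) :
    ∑ d ∈ Icc (-(2 * (N : ℤ))) (2 * (N : ℤ)), ((2 * (N : ℝ) + 1) - |(d : ℝ)|) =
      (2 * (N : ℝ) + 1) ^ 2 := by
  have h := sum_diff N (fun _ => (1 : ℝ))
  simp only [mul_one] at h
  rw [← h]
  simp only [Finset.sum_const, nsmul_eq_mul, mul_one, Int.card_Icc]
  have h1 : ((N : ℤ) + 1 - -(N : ℤ)) = ((2 * N + 1 : ℕ) : ℤ) := by push_cast; ring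
  rw [h1, Int.toNat_natCast]
  push_cast
  ring

theorem KK_eq (N : ℕ) (d : ℤ) (hd : d ∈ Icc (-(2 * (N : ℤ))) (2 * (N : ℤ))) :
    KK N d = ((2 * (N : ℝ) + 1) - |(d : ℝ)|) / (2 * (N : ℝ) + 1) ^ 2 := by
  rw [mem_Icc] at hd
  unfold KK
  have h1 : |(d : ℝ)| ≤ 2 * N := by
    rw [abs_le]
    constructor
    · have := hd.1
      exact_mod_cast this
    · exact_mod_cast hd.2
  rw [max_eq_right (by linarith)]

theorem sign_diff (n m : ℤ) : (-1 : ℝ) ^ (n + m) = (-1) ^ (n - m) := by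
  rw [zpow_add₀ (by norm_num : (-1 : ℝ) ≠ 0), zpow_sub₀ (by norm_num : (-1 : ℝ) ≠ 0),
    div_eq_mul_inv, ← inv_zpow]
  norm_num

theorem abs_sign (n : ℤ) : |(-1 : ℝ) ^ n| = 1 := by
  rw [abs_zpow]
  norm_num

/-- the signed sum -/
theorem signed (N : ℕ) (e : ℝ) (W : ℤ → ℤ → ℝ)
    (h1 : ∀ n m : ℤ, |n| ≤ N → |m| ≤ N → |W n m - (W (n + m) 0 + W (n - m) 0) / 2| ≤ e) :
    ∑ n ∈ Icc (-(N : ℤ)) N, ∑ m ∈ Icc (-(N : ℤ)) N, (-1) ^ (n + m) * W n m ≤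
      ∑ n ∈ Icc (-(N : ℤ)) N, ∑ m ∈ Icc (-(N : ℤ)) N, (-1) ^ (n - m) * W (n - m) 0 +
        (2 * (N : ℝ) + 1) ^ 2 * e := by
  have h2 : ∀ n ∈ Icc (-(N : ℤ)) N, ∀ m ∈ Icc (-(N : ℤ)) N, (-1) ^ (n + m) * W n m ≤
      ((-1) ^ (n + m) * W (n + m) 0) / 2 + ((-1) ^ (n - m) * W (n - m) 0) / 2 + e := by
    intro n hn m hm
    rw [mem_Icc] at hn hm
    have h3 := h1 n m (by rw [abs_le]; exact hn) (by rw [abs_le]; exact hm)
    have h4 : (-1) ^ (n + m) * (W n m - (W (n + m) 0 + W (n - m) 0) / 2) ≤ e := by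
      refine (le_abs_self _).trans ?_
      rw [abs_mul, abs_sign, one_mul]
      exact h3
    rw [← sign_diff n m]
    linarith
  have h3 : ∀ n ∈ Icc (-(N : ℤ)) N, ∑ m ∈ Icc (-(N : ℤ)) N, ((-1 : ℝ) ^ (n + m) * W (n + m) 0) / 2 =
      ∑ m ∈ Icc (-(N : ℤ)) N, ((-1 : ℝ) ^ (n - m) * W (n - m) 0) / 2 := by
    intro n _
    refine Finset.sum_nbij' (fun m => -m) (fun m => -m) ?_ ?_ ?_ ?_ ?_
    · intro m hm
      rw [mem_Icc] at hm ⊢
      omega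
    · intro m hm
      rw [mem_Icc] at hm ⊢
      omega
    · intro m _
      simp
    · intro m _
      simp
    · intro m _
      simp
  refine (Finset.sum_le_sum fun n hn => Finset.sum_le_sum fun m hm => h2 n hn m hm).trans ?_
  simp only [Finset.sum_add_distrib]
  rw [Finset.sum_congr rfl h3]
  simp only [← Finset.sum_div, Finset.sum_const, nsmul_eq_mul, Int.card_Icc]
  have h5 : ((N : ℤ) + 1 - -(N : ℤ)) = ((2 * N + 1 : ℕ) : ℤ) := by push_cast; ring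
  rw [h5, Int.toNat_natCast]
  push_cast
  nlinarith

end FejM

open FejM Finset in
theorem stmtFej : StmtFej := by
  intro N e W he h0 h1 h2 hpos
  have hL : (0 : ℝ) < (2 * (N : ℝ) + 1) ^ 2 := by positivity
  have h3 := hpos.trans (signed N e W h1)
  rw [sum_diff N (fun d => (-1) ^ d * W d 0)] at h3
  have h4 : ∀ d ∈ Icc (-(2 * (N : ℤ))) (2 * (N : ℤ)),
      ((2 * (N : ℝ) + 1) - |(d : ℝ)|) * ((-1) ^ d * W d 0) +
        (((2 * (N : ℝ) + 1) - |(d : ℝ)|) - ((2 * (N : ℝ) + 1) - |(d : ℝ)|) * (-1) ^ d) *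
          (W 0 0 / 3 - e) ≤ (2 * (N : ℝ) + 1) ^ 2 * (KK N d * W d 0) := by
    intro d hd
    rw [KK_eq N d hd]
    have h5 : (2 * (N : ℝ) + 1) ^ 2 *
        (((2 * (N : ℝ) + 1) - |(d : ℝ)|) / (2 * (N : ℝ) + 1) ^ 2 * W d 0) =
        ((2 * (N : ℝ) + 1) - |(d : ℝ)|) * W d 0 := by
      field_simp
    rw [h5]
    rw [mem_Icc] at hd
    have h6 : |d| ≤ 2 * N := by
      rw [abs_le]
      exact hd
    have h7 : (0 : ℝ) ≤ (2 * (N : ℝ) + 1) - |(d : ℝ)| := by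
      have : |(d : ℝ)| ≤ 2 * N := by exact_mod_cast h6
      linarith
    rcases Int.even_or_odd d with h8 | h8
    · rw [h8.neg_one_zpow]
      apply le_of_eq
      ring
    · rw [h8.neg_one_zpow]
      have h9 := h2 d h8 h6
      rw [abs_le] at h9
      have h10 := mul_le_mul_of_nonneg_left (show W 0 0 / 3 - e ≤ W d 0 by linarith [h9.1]) h7
      linarith
  have h5 := Finset.sum_le_sum h4
  rw [Finset.sum_add_distrib, ← Finset.mul_sum, ← Finset.sum_mul, Finset.sum_sub_distrib,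
    sum_sign2, sum_one] at h5
  set K := ∑ d ∈ Icc (-(2 * (N : ℤ))) (2 * (N : ℤ)), KK N d * W d 0
  have h6 : ((2 * (N : ℝ) + 1) ^ 2 - 1) * (W 0 0 / 3 - e) ≤
      (2 * (N : ℝ) + 1) ^ 2 * K + (2 * (N : ℝ) + 1) ^ 2 * e := by linarith
  have h7 : (1 - ((2 * (N : ℝ) + 1) ^ 2)⁻¹) * (W 0 0 / 3 - e) ≤ K + e := by
    have h8 : (1 - ((2 * (N : ℝ) + 1) ^ 2)⁻¹) * (W 0 0 / 3 - e) =
        ((2 * (N : ℝ) + 1) ^ 2)⁻¹ * (((2 * (N : ℝ) + 1) ^ 2 - 1) * (W 0 0 / 3 - e)) := by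
      field_simp
    have h9 : K + e = ((2 * (N : ℝ) + 1) ^ 2)⁻¹ *
        ((2 * (N : ℝ) + 1) ^ 2 * K + (2 * (N : ℝ) + 1) ^ 2 * e) := by
      field_simp
    rw [h8, h9]
    exact mul_le_mul_of_nonneg_left h6 (by positivity)
  have h10 : 0 ≤ ((2 * (N : ℝ) + 1) ^ 2)⁻¹ * e := by positivity
  linarith

end Pool.Agent.A54.Sq
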