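import Pool.Agent.Lib.MP_a54f13_nt.Sq.Spec2
import Pool.Agent.Lib.MP_a54f13_nt.Sq.Fej

/-! Positive definiteness of the cosine coefficients. -/

set_option autoImplicit false

namespace Pool.Agent.A54.Sq

namespace Fe2M

open Finset

theorem point_sum {ι : Type} (s : Finset ι) (x : ι → ℤ) (I : Finset ℤ) (hx : ∀ i ∈ s, x i ∈ I)
    (F : ℤ → ℝ) :
    ∑ n ∈ I, (∑ i ∈ s, if x i = n then (1 : ℝ) else 0) * F n = ∑ i ∈ s, F (x i) := by
  simp only [Finset.sum_mul]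
  rw [Finset.sum_comm]
  refine Finset.sum_congr rfl fun i hi => ?_
  simp only [ite_mul, zero_mul, one_mul]
  rw [Finset.sum_ite_eq, if_pos (hx i hi)]

/-- the basic inequality for a family of points -/
theorem key (N : ℕ) (e : ℝ) (w : ℤ → ℝ) (P : ℤ → ℤ → ℝ)
    (hP : ∀ n m : ℤ, |n| + |m| ≤ 8 * N + 8 → |P n m - (w (n - m) - w (n + m + 1)) / 2| ≤ e)
    (hpos : ∀ a : ℤ → ℝ, 0 ≤ ∑ n ∈ Icc (-(4 * (N : ℤ) + 4)) (4 * N + 4),
      ∑ m ∈ Icc (-(4 * (N : ℤ) + 4)) (4 * N + 4), a n * a m * P n m)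
    {ι : Type} (s : Finset ι) (x : ι → ℤ) (hx : ∀ i ∈ s, |x i| ≤ 4 * N + 4) :
    -(2 * (s.card : ℝ) ^ 2 * e) ≤ ∑ i ∈ s, ∑ j ∈ s, (w (x i - x j) - w (x i + x j + 1)) := by
  have h := hpos (fun n => ∑ i ∈ s, if x i = n then (1 : ℝ) else 0)
  have hxI : ∀ i ∈ s, x i ∈ Icc (-(4 * (N : ℤ) + 4)) (4 * N + 4) := by
    intro i hi
    have h1 := hx i hi
    rw [abs_le] at h1
    rw [mem_Icc]
    exact h1
  have h1 : ∑ n ∈ Icc (-(4 * (N : ℤ) + 4)) (4 * N + 4), ∑ m ∈ Icc (-(4 * (N : ℤ) + 4)) (4 * N + 4),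
      (∑ i ∈ s, if x i = n then (1 : ℝ) else 0) * (∑ i ∈ s, if x i = m then (1 : ℝ) else 0) *
        P n m = ∑ i ∈ s, ∑ j ∈ s, P (x i) (x j) := by
    rw [← point_sum s x _ hxI (fun n => ∑ j ∈ s, P n (x j))]
    refine Finset.sum_congr rfl fun n _ => ?_
    rw [← point_sum s x _ hxI (fun m => P n m), Finset.mul_sum]
    refine Finset.sum_congr rfl fun m _ => ?_
    ring
  rw [h1] at h
  have h2 : ∑ i ∈ s, ∑ j ∈ s, P (x i) (x j) ≤
      ∑ i ∈ s, ∑ j ∈ s, ((w (x i - x j) - w (x i + x j + 1)) / 2 + e) := by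
    refine Finset.sum_le_sum fun i hi => Finset.sum_le_sum fun j hj => ?_
    have h3 := hP (x i) (x j) (by
      have h4 := hx i hi
      have h5 := hx j hj
      linarith)
    have h4 := (le_abs_self _).trans h3
    linarith
  have h3 : ∑ i ∈ s, ∑ j ∈ s, ((w (x i - x j) - w (x i + x j + 1)) / 2 + e) =
      (∑ i ∈ s, ∑ j ∈ s, (w (x i - x j) - w (x i + x j + 1))) / 2 + (s.card : ℝ) ^ 2 * e := by
    simp only [Finset.sum_add_distrib, Finset.sum_const, nsmul_eq_mul, Finset.sum_div]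
    ring
  rw [h3] at h2
  linarith

theorem neg_sum (N : ℕ) (F : ℤ → ℝ) :
    ∑ j ∈ Icc (-(N : ℤ)) N, F (-j) = ∑ j ∈ Icc (-(N : ℤ)) N, F j := by
  refine Finset.sum_nbij' (fun m => -m) (fun m => -m) ?_ ?_ ?_ ?_ ?_
  · intro m hm
    rw [mem_Icc] at hm ⊢
    omega
  · intro m hm
    rw [mem_Icc] at hm ⊢
    omega
  · intro m _
    simp
  · intro m _
    simp
  · intro m _
    rfl

theorem card_J (N : ℕ) : ((Icc (-(N : ℤ)) N).card : ℝ) = 2 * (N : ℝ) + 1 := by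
  rw [Int.card_Icc]
  have h5 : ((N : ℤ) + 1 - -(N : ℤ)) = ((2 * N + 1 : ℕ) : ℤ) := by push_cast; ring
  rw [h5, Int.toNat_natCast]
  push_cast
  ring

/-- points of the same parity -/
theorem same (N : ℕ) (e : ℝ) (w : ℤ → ℝ) (P : ℤ → ℤ → ℝ)
    (hP : ∀ n m : ℤ, |n| + |m| ≤ 8 * N + 8 → |P n m - (w (n - m) - w (n + m + 1)) / 2| ≤ e)
    (hodd : ∀ n : ℤ, Odd n → |n| ≤ 8 * N + 8 → |w n - w 0 / 3| ≤ e)
    (hpos : ∀ a : ℤ → ℝ, 0 ≤ ∑ n ∈ Icc (-(4 * (N : ℤ) + 4)) (4 * N + 4),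
      ∑ m ∈ Icc (-(4 * (N : ℤ) + 4)) (4 * N + 4), a n * a m * P n m)
    (l : ℤ) (hl : |l| ≤ N) (s : Finset ℤ) (hs : ∀ i ∈ s, |i| ≤ N)
    (hpar : ∀ i ∈ s, ∀ j ∈ s, Even (i - j)) :
    -(6 * (s.card : ℝ) ^ 2 * e) ≤ ∑ i ∈ s, ∑ j ∈ s, (w (i - j) - w (i + j + 2 * l)) := by
  have h := key N e w P hP hpos (s ×ˢ ({0, 1} : Finset ℤ)) (fun p => p.1 + l - p.2) (by
    intro p hp
    rw [mem_product] at hp
    have h1 := hs p.1 hp.1
    have h2 : p.2 = 0 ∨ p.2 = 1 := by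
      have := hp.2
      simpa using this
    rw [abs_le] at h1 hl ⊢
    constructor <;> rcases h2 with h2 | h2 <;> rw [h2] <;> omega)
  have hc : ((s ×ˢ ({0, 1} : Finset ℤ)).card : ℝ) = 2 * s.card := by
    rw [card_product]
    have : ({0, 1} : Finset ℤ).card = 2 := by decide
    rw [this]
    push_cast
    ring
  rw [hc] at h
  have h01 : (0 : ℤ) ≠ 1 := by norm_num
  have h2 : ∑ p ∈ s ×ˢ ({0, 1} : Finset ℤ), ∑ q ∈ s ×ˢ ({0, 1} : Finset ℤ),
      (w (p.1 + l - p.2 - (q.1 + l - q.2)) - w (p.1 + l - p.2 + (q.1 + l - q.2) + 1)) =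
      ∑ i ∈ s, ∑ j ∈ s, (2 * (w (i - j) - w (i + j + 2 * l)) +
        (w (i - j + 1) + w (i - j - 1) - w (i + j + 2 * l + 1) - w (i + j + 2 * l - 1))) := by
    simp only [sum_product]
    refine Finset.sum_congr rfl fun i _ => ?_
    rw [Finset.sum_pair h01, ← Finset.sum_add_distrib]
    refine Finset.sum_congr rfl fun j _ => ?_
    rw [Finset.sum_pair h01, Finset.sum_pair h01]
    have e1 : i + l - 0 - (j + l - 0) = i - j := by ring
    have e2 : i + l - 0 + (j + l - 0) + 1 = i + j + 2 * l + 1 := by ring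
    have e3 : i + l - 0 - (j + l - 1) = i - j + 1 := by ring
    have e4 : i + l - 0 + (j + l - 1) + 1 = i + j + 2 * l := by ring
    have e5 : i + l - 1 - (j + l - 0) = i - j - 1 := by ring
    have e6 : i + l - 1 + (j + l - 0) + 1 = i + j + 2 * l := by ring
    have e7 : i + l - 1 - (j + l - 1) = i - j := by ring
    have e8 : i + l - 1 + (j + l - 1) + 1 = i + j + 2 * l - 1 := by ring
    rw [e1, e2, e3, e4, e5, e6, e7, e8]
    ring
  rw [h2] at h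
  have h3 : ∑ i ∈ s, ∑ j ∈ s, (2 * (w (i - j) - w (i + j + 2 * l)) +
        (w (i - j + 1) + w (i - j - 1) - w (i + j + 2 * l + 1) - w (i + j + 2 * l - 1))) ≤
      ∑ i ∈ s, ∑ j ∈ s, (2 * (w (i - j) - w (i + j + 2 * l)) + 4 * e) := by
    refine Finset.sum_le_sum fun i hi => Finset.sum_le_sum fun j hj => ?_
    have hi1 := hs i hi
    have hj1 := hs j hj
    obtain ⟨r, hr⟩ := hpar i hi j hj
    rw [abs_le] at hi1 hj1 hl
    have o1 := hodd (i - j + 1) ⟨r, by omega⟩ (by rw [abs_le]; constructor <;> omega)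
    have o2 := hodd (i - j - 1) ⟨r - 1, by omega⟩ (by rw [abs_le]; constructor <;> omega)
    have o3 := hodd (i + j + 2 * l + 1) ⟨r + j + l, by omega⟩
      (by rw [abs_le]; constructor <;> omega)
    have o4 := hodd (i + j + 2 * l - 1) ⟨r + j + l - 1, by omega⟩
      (by rw [abs_le]; constructor <;> omega)
    rw [abs_le] at o1 o2 o3 o4
    linarith [o1.2, o2.2, o3.1, o4.1]
  have h4 : ∑ i ∈ s, ∑ j ∈ s, (2 * (w (i - j) - w (i + j + 2 * l)) + 4 * e) =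
      2 * (∑ i ∈ s, ∑ j ∈ s, (w (i - j) - w (i + j + 2 * l))) + (s.card : ℝ) ^ 2 * (4 * e) := by
    simp only [Finset.sum_add_distrib, Finset.sum_const, nsmul_eq_mul, Finset.mul_sum]
    ring
  rw [h4] at h3
  nlinarith

/-- comparison of the shifted sum with the sum -/
theorem shifted (N : ℕ) (e : ℝ) (w : ℤ → ℝ) (P : ℤ → ℤ → ℝ) (he : 0 ≤ e)
    (_hw : ∀ n, w (-n) = w n)
    (hP : ∀ n m : ℤ, |n| + |m| ≤ 8 * N + 8 → |P n m - (w (n - m) - w (n + m + 1)) / 2| ≤ e)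
    (hodd : ∀ n : ℤ, Odd n → |n| ≤ 8 * N + 8 → |w n - w 0 / 3| ≤ e)
    (hpos : ∀ a : ℤ → ℝ, 0 ≤ ∑ n ∈ Icc (-(4 * (N : ℤ) + 4)) (4 * N + 4),
      ∑ m ∈ Icc (-(4 * (N : ℤ) + 4)) (4 * N + 4), a n * a m * P n m)
    (k : ℤ) (hk : |k| ≤ 2 * N) :
    ∑ i ∈ Icc (-(N : ℤ)) N, ∑ j ∈ Icc (-(N : ℤ)) N, w (i - j + k) ≤
      ∑ i ∈ Icc (-(N : ℤ)) N, ∑ j ∈ Icc (-(N : ℤ)) N, w (i - j) +
        6 * (2 * (N : ℝ) + 1) ^ 2 * e := by
  have hflip : ∀ k : ℤ, ∑ i ∈ Icc (-(N : ℤ)) N, ∑ j ∈ Icc (-(N : ℤ)) N, w (i - j + k) =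
      ∑ i ∈ Icc (-(N : ℤ)) N, ∑ j ∈ Icc (-(N : ℤ)) N, w (i + j + k) := by
    intro k
    refine Finset.sum_congr rfl fun i _ => ?_
    rw [← neg_sum N (fun j => w (i + j + k))]
    refine Finset.sum_congr rfl fun j _ => ?_
    rfl
  rw [hflip k]
  suffices hsuf : -(6 * (2 * (N : ℝ) + 1) ^ 2 * e) ≤ ∑ i ∈ Icc (-(N : ℤ)) N,
      ∑ j ∈ Icc (-(N : ℤ)) N, (w (i - j) - w (i + j + k)) by
    simp only [Finset.sum_sub_distrib] at hsuf
    linarith
  rcases Int.even_or_odd' k with ⟨l, hl | hl⟩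
  · -- even
    have hlN : |l| ≤ N := by
      rw [abs_le] at hk ⊢
      constructor <;> omega
    subst hl
    set J := Icc (-(N : ℤ)) N with hJ
    have hJm : ∀ i ∈ J, |i| ≤ N := by
      intro i hi
      rw [hJ, mem_Icc] at hi
      rw [abs_le]
      exact hi
    set f : ℤ → ℤ → ℝ := fun i j => w (i - j) - w (i + j + 2 * l) with hf
    set S0 := J.filter (fun i => Even i) with hS0
    set S1 := J.filter (fun i => ¬Even i) with hS1
    have hsplit : ∀ g : ℤ → ℝ, ∑ i ∈ J, g i = ∑ i ∈ S0, g i + ∑ i ∈ S1, g i := fun g =>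
      (Finset.sum_filter_add_sum_filter_not J (fun i => Even i) g).symm
    have hS0m : ∀ i ∈ S0, |i| ≤ N ∧ Even i := fun i hi => by
      rw [hS0, mem_filter] at hi
      exact ⟨hJm i hi.1, hi.2⟩
    have hS1m : ∀ i ∈ S1, |i| ≤ N ∧ ¬Even i := fun i hi => by
      rw [hS1, mem_filter] at hi
      exact ⟨hJm i hi.1, hi.2⟩
    have hcard : (S0.card : ℝ) + S1.card = 2 * (N : ℝ) + 1 := by
      rw [← card_J N]
      have := Finset.card_filter_add_card_filter_not (s := J) (fun i : ℤ => Even i)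
      exact_mod_cast this
    have h00 := same N e w P hP hodd hpos l hlN S0 (fun i hi => (hS0m i hi).1)
      (fun i hi j hj => (hS0m i hi).2.sub (hS0m j hj).2)
    have h11 := same N e w P hP hodd hpos l hlN S1 (fun i hi => (hS1m i hi).1)
      (fun i hi j hj => Int.even_sub.2 (iff_of_false (hS1m i hi).2 (hS1m j hj).2))
    have hmix : ∀ i j : ℤ, |i| ≤ N → |j| ≤ N → ¬Even (i - j) → -(2 * e) ≤ f i j := by
      intro i j hi hj hij
      rw [Int.not_even_iff_odd] at hij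
      obtain ⟨r, hr⟩ := hij
      rw [abs_le] at hi hj hlN
      have o1 := hodd (i - j) ⟨r, by omega⟩ (by rw [abs_le]; constructor <;> omega)
      have o3 := hodd (i + j + 2 * l) ⟨r + j + l, by omega⟩
        (by rw [abs_le]; constructor <;> omega)
      rw [abs_le] at o1 o3
      simp only [hf]
      linarith [o1.1, o3.2]
    have h01 : (S0.card : ℝ) * S1.card * (-(2 * e)) ≤ ∑ i ∈ S0, ∑ j ∈ S1, f i j := by
      have h5 : ∑ i ∈ S0, ∑ j ∈ S1, (-(2 * e)) ≤ ∑ i ∈ S0, ∑ j ∈ S1, f i j := by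
        refine Finset.sum_le_sum fun i hi => Finset.sum_le_sum fun j hj => ?_
        refine hmix i j (hS0m i hi).1 (hS1m j hj).1 fun h6 => ?_
        exact (hS1m j hj).2 ((Int.even_sub.1 h6).1 (hS0m i hi).2)
      simp only [Finset.sum_const, nsmul_eq_mul] at h5
      rw [mul_assoc]
      exact h5
    have h10 : (S1.card : ℝ) * S0.card * (-(2 * e)) ≤ ∑ i ∈ S1, ∑ j ∈ S0, f i j := by
      have h5 : ∑ i ∈ S1, ∑ j ∈ S0, (-(2 * e)) ≤ ∑ i ∈ S1, ∑ j ∈ S0, f i j := by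
        refine Finset.sum_le_sum fun i hi => Finset.sum_le_sum fun j hj => ?_
        refine hmix i j (hS1m i hi).1 (hS0m j hj).1 fun h6 => ?_
        exact (hS1m i hi).2 ((Int.even_sub.1 h6).2 (hS0m j hj).2)
      simp only [Finset.sum_const, nsmul_eq_mul] at h5
      rw [mul_assoc]
      exact h5
    have htot : ∑ i ∈ J, ∑ j ∈ J, f i j = (∑ i ∈ S0, ∑ j ∈ S0, f i j + ∑ i ∈ S0, ∑ j ∈ S1, f i j) +
        (∑ i ∈ S1, ∑ j ∈ S0, f i j + ∑ i ∈ S1, ∑ j ∈ S1, f i j) := by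
      rw [hsplit]
      rw [← Finset.sum_add_distrib, ← Finset.sum_add_distrib]
      congr 1 <;> exact Finset.sum_congr rfl fun i _ => hsplit _
    show _ ≤ ∑ i ∈ J, ∑ j ∈ J, f i j
    rw [htot, ← hcard]
    have h6 : (0 : ℝ) ≤ (S0.card : ℝ) * S1.card * e := by positivity
    nlinarith
  · -- odd
    have hlN : |l| ≤ N := by
      rw [abs_le] at hk ⊢
      constructor <;> omega
    have h := key N e w P hP hpos (Icc (-(N : ℤ)) N) (fun i => i + l) (by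
      intro i hi
      rw [mem_Icc] at hi
      rw [abs_le] at hlN ⊢
      constructor <;> omega)
    rw [card_J] at h
    have h1 : ∑ i ∈ Icc (-(N : ℤ)) N, ∑ j ∈ Icc (-(N : ℤ)) N,
        (w (i + l - (j + l)) - w (i + l + (j + l) + 1)) = ∑ i ∈ Icc (-(N : ℤ)) N,
      ∑ j ∈ Icc (-(N : ℤ)) N, (w (i - j) - w (i + j + k)) := by
      refine Finset.sum_congr rfl fun i _ => Finset.sum_congr rfl fun j _ => ?_
      have e1 : i + l - (j + l) = i - j := by ring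
      have e2 : i + l + (j + l) + 1 = i + j + k := by rw [hl]; ring
      rw [e1, e2]
    rw [h1] at h
    refine le_trans ?_ h
    have h2 : 0 ≤ (2 * (N : ℝ) + 1) ^ 2 * e := by positivity
    linarith

end Fe2M

open FejM Fe2M Finset in
theorem stmtFe2 : StmtFe2 := by
  intro N e W P he hw hW hP hodd hpos
  obtain ⟨w, hwdef⟩ : ∃ w : ℤ → ℝ, ∀ n, w n = W n 0 := ⟨fun n => W n 0, fun _ => rfl⟩
  simp only [← hwdef] at hw hW hP hodd ⊢
  set J := Icc (-(2 * (N : ℤ))) (2 * (N : ℤ)) with hJ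
  have hL : (0 : ℝ) < (2 * (N : ℝ) + 1) ^ 2 := by positivity
  have hKK0 : ∀ d, 0 ≤ KK N d := fun d => by
    unfold KK
    positivity
  have hKK1 : ∑ d ∈ J, KK N d = 1 := by
    rw [Finset.sum_congr rfl fun d hd => KK_eq N d hd, ← Finset.sum_div, sum_one]
    exact div_self hL.ne'
  have hKKneg : ∀ d, KK N (-d) = KK N d := fun d => by
    unfold KK
    push_cast
    rw [abs_neg]
  have hnegJ : ∀ F : ℤ → ℝ, ∑ d ∈ J, F (-d) = ∑ d ∈ J, F d := by
    intro F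
    have h1 := neg_sum (2 * N) F
    push_cast at h1
    exact h1
  -- convolution
  have hconv : ∀ k : ℤ, (2 * (N : ℝ) + 1) ^ 2 * ∑ d ∈ J, KK N d * w (d + k) =
      ∑ i ∈ Icc (-(N : ℤ)) N, ∑ j ∈ Icc (-(N : ℤ)) N, w (i - j + k) := by
    intro k
    rw [sum_diff N (fun d => w (d + k)), Finset.mul_sum]
    refine Finset.sum_congr rfl fun d hd => ?_
    rw [KK_eq N d hd]
    field_simp
  have hconv0 : (2 * (N : ℝ) + 1) ^ 2 * ∑ d ∈ J, KK N d * w d =
      ∑ i ∈ Icc (-(N : ℤ)) N, ∑ j ∈ Icc (-(N : ℤ)) N, w (i - j) := by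
    have := hconv 0
    simpa using this
  have hsh : ∀ k ∈ J, ∑ d ∈ J, KK N d * w (d + k) ≤ ∑ d ∈ J, KK N d * w d + 6 * e := by
    intro k hk
    rw [hJ, mem_Icc] at hk
    have h1 := shifted N e w P he hw hP hodd hpos k (by rw [abs_le]; exact hk)
    rw [← hconv k, ← hconv0] at h1
    have h2 : (2 * (N : ℝ) + 1) ^ 2 * ∑ d ∈ J, KK N d * w (d + k) ≤
        (2 * (N : ℝ) + 1) ^ 2 * (∑ d ∈ J, KK N d * w d + 6 * e) := by linarith
    exact le_of_mul_le_mul_left h2 hL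
  -- the double sum
  have h1 : ∑ d ∈ J, ∑ d' ∈ J, KK N d * KK N d' * W d d' ≤
      ∑ d ∈ J, ∑ d' ∈ J, (KK N d * KK N d' * w (d + d') / 2 + KK N d * KK N d' * w (d - d') / 2 +
        KK N d * KK N d' * e) := by
    refine Finset.sum_le_sum fun d hd => Finset.sum_le_sum fun d' hd' => ?_
    rw [hJ, mem_Icc] at hd hd'
    have h2 := hW d d' (by
      have h3 : |d| ≤ 2 * N := by rw [abs_le]; exact hd
      have h4 : |d'| ≤ 2 * N := by rw [abs_le]; exact hd'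
      linarith)
    have h3 := (le_abs_self _).trans h2
    have h4 := mul_le_mul_of_nonneg_left h3 (mul_nonneg (hKK0 d) (hKK0 d'))
    linarith
  have h2 : ∀ d ∈ J, ∑ d' ∈ J, KK N d * KK N d' * w (d - d') / 2 =
      ∑ d' ∈ J, KK N d * KK N d' * w (d + d') / 2 := by
    intro d _
    rw [← hnegJ (fun d' => KK N d * KK N d' * w (d + d') / 2)]
    refine Finset.sum_congr rfl fun d' _ => ?_
    rw [hKKneg, sub_eq_add_neg]
  have h3 : ∑ d ∈ J, ∑ d' ∈ J, (KK N d * KK N d' * w (d + d') / 2 +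
      KK N d * KK N d' * w (d - d') / 2 + KK N d * KK N d' * e) =
      ∑ d ∈ J, KK N d * (∑ d' ∈ J, KK N d' * w (d' + d)) + e := by
    have h4 : ∀ d ∈ J, ∑ d' ∈ J, (KK N d * KK N d' * w (d + d') / 2 +
      KK N d * KK N d' * w (d - d') / 2 + KK N d * KK N d' * e) =
        KK N d * (∑ d' ∈ J, KK N d' * w (d' + d)) + KK N d * e := by
      intro d hd
      rw [Finset.sum_add_distrib, Finset.sum_add_distrib, h2 d hd, ← Finset.sum_add_distrib]
      congr 1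
      · rw [Finset.mul_sum]
        refine Finset.sum_congr rfl fun d' _ => ?_
        rw [add_comm d d']
        ring
      · rw [← Finset.sum_mul, ← Finset.mul_sum, hKK1, mul_one]
    rw [Finset.sum_congr rfl h4, Finset.sum_add_distrib, ← Finset.sum_mul, hKK1, one_mul]
  rw [h3] at h1
  have h4 : ∑ d ∈ J, KK N d * (∑ d' ∈ J, KK N d' * w (d' + d)) ≤
      ∑ d ∈ J, KK N d * (∑ d' ∈ J, KK N d' * w d' + 6 * e) :=
    Finset.sum_le_sum fun d hd => mul_le_mul_of_nonneg_left (hsh d hd) (hKK0 d)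
  rw [← Finset.sum_mul, hKK1, one_mul] at h4
  linarith

end Pool.Agent.A54.Sq
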