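import Pool.Agent.Lib.MP_a54f13_nt.Sq.Spec
import Pool.Agent.Lib.MP_a54f13_nt.Rel
import Pool.Agent.Lib.MP_a54f13_nt.LocGen
import Pool.Agent.Lib.MP_a54f13_nt.Pl.FB

/-! The theorem on the plane, with a general constant. -/

set_option autoImplicit false

namespace Pool.Agent.A54.Sq.FltM

open MeasureTheory Filter Topology Set
open scoped ContDiff ComplexConjugate UpperHalfPlane MatrixGroups
open Pool.Agent.A54.Half (H0 qq ff hh)
open Pool.Agent.A54.Pl (Ed)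

noncomputable section

variable {V : Set ℂ}

/-- from nonnegative test functions to all test functions -/
lemma general (hV : IsOpen V) {g : ℕ → ℂ → ℝ} (hg : ∀ i, Continuous (g i)) {k : ℝ}
    (h : ∀ φ : ℂ → ℝ, TestP V φ → Tendsto (fun i => ∫ z, φ z * g i z) atTop
      (𝓝 (k * ∫ z, φ z)))
    {φ : ℂ → ℝ} (hφ : TestR V φ) :
    Tendsto (fun i => ∫ z, φ z * g i z) atTop (𝓝 (k * ∫ z, φ z)) := by
  obtain ⟨χ, hχ, hχ01, hχ1⟩ := exists_cutoff hφ.cpt.isCompact hV hφ.sub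
  obtain ⟨Z, hZ0, hZ⟩ := Rel.test_bdd hφ
  have hψ : TestR V (fun z => φ z + Z * χ z) := by
    refine ⟨hφ.smooth.add (contDiff_const.mul hχ.smooth), hφ.cpt.add hχ.cpt.mul_left, ?_⟩
    refine (tsupport_add φ (fun z => Z * χ z)).trans (union_subset hφ.sub ?_)
    exact (tsupport_mul_subset_right (f := fun _ => Z) (g := χ)).trans hχ.sub
  have hψ0 : ∀ z, 0 ≤ φ z + Z * χ z := by
    intro z
    by_cases hz : z ∈ tsupport φ
    · have e1 : χ z = 1 := hχ1.self_of_nhdsSet z hz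
      rw [e1]
      have := (abs_le.mp (hZ z)).1
      linarith
    · rw [image_eq_zero_of_notMem_tsupport hz, zero_add]
      exact mul_nonneg hZ0 (hχ01 z).1
  have k1 := h _ ⟨hψ, hψ0⟩
  have k2 := (h χ ⟨hχ, fun z => (hχ01 z).1⟩).const_mul Z
  have k3 := k1.sub k2
  have e : k * (∫ z, (φ z + Z * χ z)) - Z * (k * ∫ z, χ z) = k * ∫ z, φ z := by
    rw [integral_add hφ.integrable (hχ.integrable.const_mul Z), integral_const_mul]
    ring
  rw [e] at k3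
  refine k3.congr fun i => ?_
  rw [← integral_const_mul, ← integral_sub (Rel.integrable_testR hψ (hg i))
    ((Rel.integrable_testR hχ (hg i)).const_mul Z)]
  congr 1; funext z; ring

lemma sqP {ζ : ℂ → ℝ} (hζ : TestR V ζ) : TestP V (fun z => ζ z ^ 2) := by
  refine ⟨?_, fun z => sq_nonneg _⟩
  have h := hζ.mul_right hζ.smooth
  have e : (fun z => ζ z ^ 2) = fun z => ζ z * ζ z := funext fun z => sq _
  rw [e]
  exact h

/-- the weak limit of the squares -/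
lemma conv2 (hE3 : Pl.StmtE3) (hVo : IsOpen V) (hV : V ⊆ H0) {F : ℕ → ℂ → ℝ}
    (hF : ∀ i, ContDiff ℝ ∞ (F i)) {ρ a : ℕ → ℝ} {c₀ : ℝ} (hρ0 : ∀ i, 0 < ρ i)
    (hρ : Tendsto ρ atTop (𝓝 0)) (ha : Tendsto a atTop (𝓝 c₀))
    (hX : ∀ φ : ℂ → ℝ, TestP V φ → Tendsto (fun i => ∫ z, φ z *
      (Ed (ρ i) (fun w => F i w ^ 2) z - a i) ^ 2) atTop (𝓝 0))
    (hW : ∀ φ : ℂ → ℝ, TestP V φ → ∃ B : ℝ, 0 ≤ B ∧ ∀ᶠ i in atTop, ∫ z, φ z * F i z ^ 4 ≤ B)
    {φ : ℂ → ℝ} (hφ : TestP V φ) :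
    Tendsto (fun i => ∫ z, φ z * F i z ^ 2) atTop (𝓝 (c₀ * ∫ z, φ z)) := by
  obtain ⟨ζ, C, r0, hζ, hC, hr0, hE⟩ := hE3 V hVo hV φ hφ.test
  obtain ⟨K, hK0, hK⟩ := hW _ (sqP hζ)
  set P0 : ℝ := ∫ z, φ z with hP0
  have hP00 : 0 ≤ P0 := integral_nonneg hφ.nonneg
  set D : ℝ := C * √K * (√(∫ z, ζ z ^ 2 * ‖fderiv ℝ (fun _ : ℂ => (1:ℝ)) z‖ ^ 2) +
    √(∫ z, ζ z ^ 2 * (1:ℝ) ^ 2)) with hD
  have hD0 : 0 ≤ D := by positivity
  have hF2 : ∀ i, ContDiff ℝ ∞ (fun w => F i w ^ 2) := fun i => (hF i).pow 2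
  have hEdc : ∀ i, Continuous (Ed (ρ i) (fun w => F i w ^ 2)) := fun i =>
    Pl.continuous_Ed (hF2 i).continuous _
  have t1 : Tendsto (fun i => (∫ z, φ z * (1 * Ed (ρ i) (fun w => F i w ^ 2) z)) -
      ∫ z, φ z * (1 * F i z ^ 2)) atTop (𝓝 0) := by
    refine squeeze_zero_norm' (a := fun i => D * ρ i) ?_ (by simpa using hρ.const_mul D)
    filter_upwards [hK, hρ.eventually (ge_mem_nhds hr0)] with i hi h1
    rw [Real.norm_eq_abs]
    have hEi := hE (ρ i) (hρ0 i) h1 (fun w => F i w ^ 2) (fun _ => 1) (hF2 i) contDiff_const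
    refine hEi.trans ?_
    have e4 : ∫ z, ζ z ^ 2 * (F i z ^ 2) ^ 2 ≤ K := by
      refine le_trans (le_of_eq ?_) hi
      congr 1; funext z; ring
    calc C * ρ i * √(∫ z, ζ z ^ 2 * (F i z ^ 2) ^ 2) *
          (√(∫ z, ζ z ^ 2 * ‖fderiv ℝ (fun _ : ℂ => (1:ℝ)) z‖ ^ 2) +
            √(∫ z, ζ z ^ 2 * (1:ℝ) ^ 2))
        ≤ C * ρ i * √K * (√(∫ z, ζ z ^ 2 * ‖fderiv ℝ (fun _ : ℂ => (1:ℝ)) z‖ ^ 2) +
            √(∫ z, ζ z ^ 2 * (1:ℝ) ^ 2)) := by
          have := hρ0 i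
          gcongr
      _ = D * ρ i := by rw [hD]; ring
  have t2 : Tendsto (fun i => ∫ z, φ z * (Ed (ρ i) (fun w => F i w ^ 2) z - a i)) atTop
      (𝓝 0) := by
    have h5 : Tendsto (fun i => √((∫ z, φ z * (Ed (ρ i) (fun w => F i w ^ 2) z - a i) ^ 2) *
        P0)) atTop (𝓝 0) := by
      have h6 := ((hX φ hφ).mul_const P0)
      rw [zero_mul] at h6
      have h7 := (Real.continuous_sqrt.tendsto 0).comp h6
      rw [Real.sqrt_zero] at h7
      exact h7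
    refine squeeze_zero_norm' ?_ h5
    refine Eventually.of_forall fun i => ?_
    rw [Real.norm_eq_abs]
    apply Real.abs_le_sqrt
    have h3 := LocGen.cs (w := φ) (a := fun z => Ed (ρ i) (fun w => F i w ^ 2) z - a i)
      (b := fun _ => 1) hφ.nonneg
      (Rel.integrable_testR hφ.test (((hEdc i).sub continuous_const).pow 2))
      (Rel.integrable_testR hφ.test continuous_const)
      (Rel.integrable_testR hφ.test (((hEdc i).sub continuous_const).mul continuous_const))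
    simp only [mul_one, one_pow] at h3
    exact h3
  have hsplit : ∀ i, ∫ z, φ z * F i z ^ 2 = a i * P0 +
      (∫ z, φ z * (Ed (ρ i) (fun w => F i w ^ 2) z - a i)) -
      ((∫ z, φ z * (1 * Ed (ρ i) (fun w => F i w ^ 2) z)) - ∫ z, φ z * (1 * F i z ^ 2)) := by
    intro i
    have h3 : ∫ z, φ z * (Ed (ρ i) (fun w => F i w ^ 2) z - a i) =
        (∫ z, φ z * (1 * Ed (ρ i) (fun w => F i w ^ 2) z)) - a i * P0 := by
      have i1 : Integrable fun z => φ z * (1 * Ed (ρ i) (fun w => F i w ^ 2) z) :=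
        Rel.integrable_testR hφ.test (F := fun z => 1 * Ed (ρ i) (fun w => F i w ^ 2) z)
          (continuous_const.mul (hEdc i))
      rw [hP0, ← integral_const_mul, ← integral_sub i1 (hφ.test.integrable.const_mul _)]
      refine integral_congr_ae (Eventually.of_forall fun z => ?_)
      simp only
      ring
    rw [h3]
    simp only [one_mul]
    ring
  simp_rw [hsplit]
  have h8 := ((ha.mul_const P0).add t2).sub t1
  simpa using h8

/-- the fourth moments are bounded -/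
lemma bddW {w m X s a : ℕ → ℝ} {C M x0 : ℝ} (hC : 0 ≤ C) (hw : ∀ i, 0 ≤ w i)
    (hX0 : ∀ i, 0 ≤ X i) (hXx : ∀ i, X i ≤ x0) (hm0 : ∀ i, 0 ≤ m i) (hm : ∀ i, m i ≤ M)
    (ha : ∀ i, 0 ≤ a i ∧ a i ≤ 2)
    (hs : ∀ᶠ i in atTop, s i ≤ 1)
    (h : ∀ᶠ i in atTop, w i ≤ 3 * (a i * m i) + 3 * (√(X i) * √(w i + C * s i)) + C * s i) :
    ∃ B : ℝ, 0 ≤ B ∧ ∀ᶠ i in atTop, w i ≤ B := by
  refine ⟨max 0 (12 * M + 9 * x0 + 3 * C), le_max_left _ _, ?_⟩
  filter_upwards [hs, h] with i h1 h2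
  refine le_trans ?_ (le_max_right _ _)
  have h3 : C * s i ≤ C := by nlinarith
  have h4 : √(w i + C * s i) ≤ √(w i + C) := Real.sqrt_le_sqrt (by linarith)
  have h5 : √(X i) * √(w i + C * s i) ≤ √(X i) * √(w i + C) :=
    mul_le_mul_of_nonneg_left h4 (Real.sqrt_nonneg _)
  have h6 : √(X i) ^ 2 = X i := Real.sq_sqrt (hX0 i)
  have h7 : √(w i + C) ^ 2 = w i + C := Real.sq_sqrt (by linarith [hw i])
  have h8 : 3 * (√(X i) * √(w i + C)) ≤ 9 / 2 * X i + (w i + C) / 2 := by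
    nlinarith [sq_nonneg (3 * √(X i) - √(w i + C))]
  have h9 : a i * m i ≤ 2 * M := by
    have := mul_le_mul (ha i).2 (hm i) (hm0 i) (by norm_num)
    exact this
  have h10 := hXx i
  linarith

/-- the limit of the fourth moments -/
lemma conv4 {w m X s a : ℕ → ℝ} {C B c₀ P0 : ℝ} (hP0 : 0 < P0) (hC : 0 ≤ C)
    (hX : Tendsto X atTop (𝓝 0))
    (hm : Tendsto m atTop (𝓝 (c₀ * P0))) (ha : Tendsto a atTop (𝓝 c₀))
    (hs : Tendsto s atTop (𝓝 0)) (hB : ∀ᶠ i in atTop, w i ≤ B)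
    (h : ∀ᶠ i in atTop, w i ≤ 3 * (a i * m i) + 3 * (√(X i) * √(w i + C * s i)) + C * s i)
    (hlow : ∀ ε : ℝ, 0 < ε → ∀ᶠ i in atTop, 3 * m i ^ 2 - ε ≤ P0 * w i) :
    Tendsto w atTop (𝓝 (3 * c₀ ^ 2 * P0)) := by
  have hu : Tendsto (fun i => 3 * (a i * m i) + 3 * (√(X i) * √(B + C)) + C * s i) atTop
      (𝓝 (3 * c₀ ^ 2 * P0)) := by
    have h1 := (ha.mul hm).const_mul 3
    have h2 : Tendsto (fun i => √(X i)) atTop (𝓝 0) := by
      have h3 := (Real.continuous_sqrt.tendsto 0).comp hX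
      rw [Real.sqrt_zero] at h3
      exact h3
    have h3 := (h2.mul_const √(B + C)).const_mul 3
    have h4 := (h1.add h3).add (hs.const_mul C)
    have e : 3 * (c₀ * (c₀ * P0)) + 3 * (0 * √(B + C)) + C * 0 = 3 * c₀ ^ 2 * P0 := by ring
    rw [e] at h4
    exact h4
  rw [Metric.tendsto_nhds]
  intro η hη
  have h1 : ∀ᶠ i in atTop, 3 * (a i * m i) + 3 * (√(X i) * √(B + C)) + C * s i <
      3 * c₀ ^ 2 * P0 + η := hu.eventually (gt_mem_nhds (by linarith))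
  have h2 : ∀ᶠ i in atTop, 3 * (c₀ * P0) ^ 2 - η * P0 / 2 < 3 * m i ^ 2 :=
    ((hm.pow 2).const_mul 3).eventually (lt_mem_nhds (by
      have : 0 < η * P0 := by positivity
      linarith))
  have h3 : ∀ᶠ i in atTop, s i < 1 := hs.eventually (gt_mem_nhds one_pos)
  filter_upwards [h1, h2, h3, hB, h, hlow (η * P0 / 2) (by positivity)] with i e1 e2 e3 e4 e5 e6
  rw [Real.dist_eq, abs_lt]
  constructor
  · have e7 : P0 * (3 * c₀ ^ 2 * P0 - η) < P0 * w i := by nlinarith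
    have e8 := lt_of_mul_lt_mul_left e7 hP0.le
    linarith
  · have e7 : C * s i ≤ C := by nlinarith
    have e8 : √(w i + C * s i) ≤ √(B + C) := Real.sqrt_le_sqrt (by linarith)
    have e9 : √(X i) * √(w i + C * s i) ≤ √(X i) * √(B + C) :=
      mul_le_mul_of_nonneg_left e8 (Real.sqrt_nonneg _)
    linarith

/-- integrals of a test function with integral zero -/
lemma zero_case {φ : ℂ → ℝ} (hφ : TestP V φ) (h0 : ∫ z, φ z = 0) (g : ℂ → ℝ) :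
    ∫ z, φ z * g z = 0 := by
  have h3 : φ =ᵐ[volume] 0 := by
    rw [← integral_eq_zero_iff_of_nonneg (fun z => hφ.nonneg z) hφ.test.integrable]
    exact h0
  rw [← integral_zero ℂ ℝ]
  refine integral_congr_ae ?_
  filter_upwards [h3] with z hz
  rw [hz]
  simp

/-- on the support of a test function the localised form is the form -/
lemma ext_eq {χ : ℂ → ℝ} (h1 : ∀ z ∈ V, χ z = 1) {φ : ℂ → ℝ} (hφ : TestR V φ) (f : ℍ → ℝ)
    (m : ℕ) : ∫ z, φ z * ext f z ^ m = ∫ z, φ z * ff χ f z ^ m := by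
  refine integral_congr_ae (Eventually.of_forall fun z => ?_)
  by_cases hz : z ∈ V
  · simp only [ff, h1 z hz, one_mul]
  · simp only [hφ.eq_zero hz, zero_mul]

end

end Pool.Agent.A54.Sq.FltM

namespace Pool.Agent.A54.Sq

open MeasureTheory Filter Topology Set
open scoped ContDiff ComplexConjugate UpperHalfPlane MatrixGroups
open Pool.Agent.A54.Half (H0 qq ff hh)
open Pool.Agent.A54.Pl (Ed)
open FltM

theorem stmtFlt (hT : StmtTwr) (hU : StmtUpB) (hE3 : Pl.StmtE3) (hR : Dyn.StmtRatioS)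
    (hNA : Dyn.StmtNAf) (hL : StmtLap) : StmtFlt := by
  intro f t ρ a δ c₀ hf ht hδ hρ ha hac hE φ₀ hφ₀
  obtain ⟨χ, V, hχ, h01, hV, hVH, h1, hsub⟩ := Half.setup hφ₀
  have hφV : TestR V φ₀ := ⟨hφ₀.smooth, hφ₀.cpt, hsub⟩
  obtain ⟨N, hN⟩ := Half.exists_N ht
  obtain ⟨c, hc⟩ := hT χ V hχ h01 hV hVH h1
  choose G hG hGm hG0 using fun i => hc (f i) (t i) (hf i)
  have hF : ∀ i, ContDiff ℝ ∞ (ff χ (f i)) := fun i => Half.ff_smooth hχ (hf i).smooth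
  have hFG2 : ∀ i z, ‖G i 0 z‖ ^ 2 = ff χ (f i) z ^ 2 := by
    intro i z
    rw [hG0 i z, Complex.norm_real, Real.norm_eq_abs, sq_abs]
  have hFG4 : ∀ i z, ‖G i 0 z‖ ^ 4 = ff χ (f i) z ^ 4 := by
    intro i z
    have e1 : ‖G i 0 z‖ ^ 4 = (‖G i 0 z‖ ^ 2) ^ 2 := by ring
    rw [e1, hFG2]
    ring
  have hρlim : Tendsto ρ atTop (𝓝 0) := by
    have e1 : Tendsto (fun i => t i ^ (-(1 / 2 + δ))) atTop (𝓝 0) :=
      (tendsto_rpow_neg_atTop (by positivity : (0 : ℝ) < 1 / 2 + δ)).comp ht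
    exact squeeze_zero (fun i => (hρ i).1.le) (fun i => (hρ i).2) e1
  have hX : ∀ ζ : ℂ → ℝ, TestP V ζ → Tendsto (fun i => ∫ z, ζ z *
      (Ed (ρ i) (fun w => ff χ (f i) w ^ 2) z - a i) ^ 2) atTop (𝓝 0) := by
    intro ζ hζ
    obtain ⟨ρ₀, hρ₀, hd⟩ := Pl.FBM.discs hζ.test.cpt.isCompact hV hζ.test.sub
    have e1 := hE ζ ⟨⟨hζ.test.smooth, hζ.test.cpt, hζ.test.sub.trans hVH⟩, hζ.nonneg⟩
    refine e1.congr' ?_
    filter_upwards [hρlim.eventually (ge_mem_nhds hρ₀)] with i hi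
    refine integral_congr_ae (Eventually.of_forall fun z => ?_)
    by_cases hz : z ∈ tsupport ζ
    · have e2 : Ed (ρ i) (fun w => ext (f i) w ^ 2) z =
          Ed (ρ i) (fun w => ff χ (f i) w ^ 2) z := by
        refine Pl.Ed_congr fun u hu => ?_
        have hu' := hd (ρ i) (hρ i).1 hi z hz u hu
        simp only [ff, h1 _ hu', one_mul]
      simp only [e2]
    · have e3 : ζ z = 0 := image_eq_zero_of_notMem_tsupport hz
      simp only [e3, zero_mul]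
  set x : (ℂ → ℝ) → ℝ := fun ζ => ⨆ i, ∫ z, ζ z *
      (Ed (ρ i) (fun w => ff χ (f i) w ^ 2) z - a i) ^ 2 with hxdef
  have hx : ∀ ζ : ℂ → ℝ, TestP V ζ → ∀ i, ∫ z, ζ z *
      (Ed (ρ i) (fun w => ff χ (f i) w ^ 2) z - a i) ^ 2 ≤ x ζ := fun ζ hζ i =>
    le_ciSup (f := fun i => ∫ z, ζ z * (Ed (ρ i) (fun w => ff χ (f i) w ^ 2) z - a i) ^ 2)
      (hX ζ hζ).bddAbove_range i
  have hmass : ∀ ζ : ℂ → ℝ, TestP V ζ → ∀ i, ∫ z, ζ z * ff χ (f i) z ^ 2 ≤ c ζ := by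
    intro ζ hζ i
    have e1 := hGm i ζ hζ 0
    simp only [hFG2] at e1
    exact e1
  have hDat : ∀ i, N ≤ i → Dat V c x (min δ (1 / 2)) (t i) (a i) (ρ i) (G i) := by
    intro i hi
    have ht1 := hN i hi
    refine ⟨ht1, hG i, hGm i, ?_, (ha i).1, (ha i).2, (hρ i).1, ?_⟩
    · intro ζ hζ
      simp only [hFG2]
      exact hx ζ hζ i
    · refine (hρ i).2.trans (Real.rpow_le_rpow_of_exponent_le ht1 ?_)
      have := min_le_left δ (1 / 2)
      linarith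
  have hup : ∀ φ : ℂ → ℝ, TestP V φ → ∃ C κ : ℝ, 0 ≤ C ∧ 0 < κ ∧ ∀ᶠ i in atTop,
      ∫ z, φ z * ff χ (f i) z ^ 4 ≤ 3 * (a i * ∫ z, φ z * ff χ (f i) z ^ 2) +
        3 * (√(∫ z, φ z * (Ed (ρ i) (fun w => ff χ (f i) w ^ 2) z - a i) ^ 2) *
          √((∫ z, φ z * ff χ (f i) z ^ 4) + C * t i ^ (-κ))) + C * t i ^ (-κ) := by
    intro φ hφ
    obtain ⟨C, κ, hC, hκ, h⟩ := hU V hV hVH c x (min δ (1 / 2)) (by positivity)
      (min_le_right _ _) φ hφ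
    refine ⟨C, κ, hC, hκ, (eventually_ge_atTop N).mono fun i hi => ?_⟩
    have e1 := h _ _ _ _ (hDat i hi)
    simp only [hFG2, hFG4] at e1
    exact e1
  have hsl : ∀ κ : ℝ, 0 < κ → Tendsto (fun i => t i ^ (-κ)) atTop (𝓝 0) := fun κ hκ =>
    (tendsto_rpow_neg_atTop hκ).comp ht
  have hW : ∀ φ : ℂ → ℝ, TestP V φ → ∃ B : ℝ, 0 ≤ B ∧ ∀ᶠ i in atTop,
      ∫ z, φ z * ff χ (f i) z ^ 4 ≤ B := by
    intro φ hφ
    obtain ⟨C, κ, hC, hκ, h⟩ := hup φ hφ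
    refine bddW (w := fun i => ∫ z, φ z * ff χ (f i) z ^ 4)
      (m := fun i => ∫ z, φ z * ff χ (f i) z ^ 2)
      (X := fun i => ∫ z, φ z * (Ed (ρ i) (fun w => ff χ (f i) w ^ 2) z - a i) ^ 2)
      (s := fun i => t i ^ (-κ)) (a := a) (C := C) (M := c φ) (x0 := x φ) hC ?_ ?_ (hx φ hφ) ?_
      (hmass φ hφ) ha ?_ h
    · exact fun i => integral_nonneg fun z => mul_nonneg (hφ.nonneg z) (by positivity)
    · exact fun i => integral_nonneg fun z => mul_nonneg (hφ.nonneg z) (sq_nonneg _)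
    · exact fun i => integral_nonneg fun z => mul_nonneg (hφ.nonneg z) (sq_nonneg _)
    · exact ((hsl κ hκ).eventually (gt_mem_nhds one_pos)).mono fun _ h => h.le
  have hc2 : ∀ φ : ℂ → ℝ, TestP V φ → Tendsto (fun i => ∫ z, φ z * ff χ (f i) z ^ 2) atTop
      (𝓝 (c₀ * ∫ z, φ z)) := fun φ hφ =>
    conv2 hE3 hV hVH hF (fun i => (hρ i).1) hρlim hac hX hW hφ
  have hS := Half2.seq hL hχ h01 hV hVH h1 hf ht hN
  have hb : L2Bdd V (fun i => ff χ (f (i + N))) := fun ζ hζ =>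
    ⟨c (fun z => ζ z ^ 2), fun i => hmass _ (sqP hζ) (i + N)⟩
  have hna := Dyn.Half3M.naloc hNA ⟨hf, ht⟩ hχ hVH h1 N
  have hlow : ∀ φ : ℂ → ℝ, TestP V φ → ∀ ε : ℝ, 0 < ε → ∀ᶠ i in atTop,
      3 * (∫ z, φ z * ff χ (f i) z ^ 2) ^ 2 - ε ≤
        (∫ z, φ z) * ∫ z, φ z * ff χ (f i) z ^ 4 := fun φ hφ ε hε =>
    Half.ev_shift N (hR V _ _ _ hS hb hna φ hφ.test hφ.nonneg ε hε)
  have hc4 : ∀ φ : ℂ → ℝ, TestP V φ → Tendsto (fun i => ∫ z, φ z * ff χ (f i) z ^ 4) atTop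
      (𝓝 (3 * c₀ ^ 2 * ∫ z, φ z)) := by
    intro φ hφ
    rcases (integral_nonneg hφ.nonneg : (0 : ℝ) ≤ ∫ z, φ z).eq_or_lt with h0 | h0
    · rw [← h0, mul_zero]
      simp_rw [zero_case hφ h0.symm]
      exact tendsto_const_nhds
    · obtain ⟨C, κ, hC, hκ, h⟩ := hup φ hφ
      obtain ⟨B, -, hB⟩ := hW φ hφ
      exact conv4 h0 hC (hX φ hφ) (hc2 φ hφ) hac (hsl κ hκ) hB h (hlow φ hφ)
  constructor
  · have e1 := general hV (g := fun i z => ff χ (f i) z ^ 2)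
      (fun i => (hF i).continuous.pow 2) hc2 hφV
    refine e1.congr fun i => ?_
    exact (ext_eq h1 hφV (f i) 2).symm
  · have e1 := general hV (g := fun i z => ff χ (f i) z ^ 4)
      (fun i => (hF i).continuous.pow 4) hc4 hφV
    refine e1.congr fun i => ?_
    exact (ext_eq h1 hφV (f i) 4).symm

end Pool.Agent.A54.Sq
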