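import Pool.Agent.Lib.MP_a54f13_nt.Sq.Spec
import Pool.Agent.Lib.MP_a54f13_nt.Av.Fin3

/-!
The cases `n ≤ 4` from the cases `n = 2` and `n = 4`.
-/

set_option autoImplicit false

namespace Pool.Agent.A54.Sq

open MeasureTheory Filter Topology Set
open scoped ContDiff ComplexConjugate UpperHalfPlane MatrixGroups
open Pool.Agent.A54.Half (H0 qq ff hh)

theorem stmtFou : StmtFou := by
  intro f t hf ht hA ψ hψ n hn1 hn4
  have hC : 1 / √(2 * Real.pi) * (∫ x : ℝ, x ^ n * Real.exp (-x ^ 2 / 2)) = Av.Cgau n := rfl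
  rw [hC]
  interval_cases n
  · rw [Av.GmM.odd (n := 1) ⟨0, rfl⟩, zero_mul]
    simpa only [pow_one] using Av.first_moment hf ht ψ hψ
  · rw [Av.GmM.two, one_mul]
    exact (hA ψ hψ).1
  · rw [Av.GmM.odd (n := 3) ⟨1, rfl⟩, zero_mul]
    have hB : ∀ K : Set ℍ, IsCompact K → ∃ C : ℝ, ∀ i, ∫ z in K, f i z ^ 4 ≤ C := by
      intro K hK
      obtain ⟨ψK, hψK, hc⟩ := Av.Fin3M.control K hK
      obtain ⟨C, hC⟩ := (hA ψK hψK).2.bddAbove_range
      exact ⟨C, fun i => (hc (f i) (t i) (hf i)).trans (hC ⟨i, rfl⟩)⟩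
    exact Dyn.finalCube hf ht hB ψ hψ
  · rw [Av.GmM.four]
    exact (hA ψ hψ).2

end Pool.Agent.A54.Sq
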