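import Pool.Agent.Lib.MP_a54f13_nt.Sq.Spec
import Pool.Agent.Lib.MP_a54f13_nt.Av.SpecA
import Pool.Agent.Lib.MP_a54f13_nt.Av.Nk
import Pool.Agent.Lib.MP_a54f13_nt.X

/-!
# Package `Sq`, module `Inv`: local masses of the raised forms
-/

set_option autoImplicit false

namespace Pool.Agent.A54.Sq

open MeasureTheory Filter Topology Set
open scoped ContDiff ComplexConjugate UpperHalfPlane MatrixGroups
open Pool.Agent.A54.Half (H0 qq ff hh)

namespace InvM

noncomputable section

/-- `‖H‖²` is invariant for functions of weight `2 k`. -/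
lemma inv_of_wt {k : ℕ} {H : ℂ → ℂ} (hH : Av.Wt k H) (γ : SL(2, ℤ)) :
    ∀ z : ℍ, ‖H ((γ • z : ℍ) : ℂ)‖ ^ 2 = ‖H (z : ℂ)‖ ^ 2 := by
  have hγ : γ ∈ Subgroup.closure {ModularGroup.S, ModularGroup.T} := by
    rw [SpecialLinearGroup.SL2Z_generators]
    trivial
  induction hγ using Subgroup.closure_induction with
  | mem g hg =>
    intro z
    rcases hg with rfl | hg
    · rw [UpperHalfPlane.modular_S_smul]
      have e1 : ((UpperHalfPlane.mk (-(z : ℂ))⁻¹ z.im_inv_neg_coe_pos : ℍ) : ℂ) = -(z : ℂ)⁻¹ := by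
        show (-(z : ℂ))⁻¹ = _
        rw [inv_neg]
      rw [e1, hH.S _ z.im_pos, norm_mul, norm_pow, norm_div, RCLike.norm_conj, div_self, one_pow,
        one_mul]
      exact norm_ne_zero_iff.2 z.ne_zero
    · rw [mem_singleton_iff] at hg
      subst hg
      rw [UpperHalfPlane.modular_T_smul, UpperHalfPlane.coe_vadd]
      have e1 : (((1 : ℝ) : ℂ) + (z : ℂ)) = (z : ℂ) + 1 := by
        push_cast
        ring
      rw [e1, hH.T _ z.im_pos]
  | one =>
    intro z
    rw [one_smul]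
  | mul g h _ _ h1 h2 =>
    intro z
    rw [mul_smul, h1, h2]
  | inv g _ h1 =>
    intro z
    rw [← h1 (g⁻¹ • z), smul_inv_smul]

end

end InvM

open InvM in
theorem stmtInv (hWf : Av.StmtWf) (hDer : Av.StmtDer) (hNk : Av.StmtNk) (hU1 : Pl.StmtU1)
    (hI : StmtInt) : StmtInv := by
  intro ζ hζ
  have hφ : TestR H0 (fun z : ℂ => ζ z * z.im ^ 2) := by
    refine ⟨hζ.test.smooth.mul (Complex.imCLM.contDiff.pow 2), hζ.test.cpt.mul_right, ?_⟩
    exact (tsupport_mul_subset_left (f := ζ) (g := fun z : ℂ => z.im ^ 2)).trans hζ.test.sub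
  obtain ⟨ψ, hψ, hU⟩ := hU1 _ hφ
  obtain ⟨Y, hY⟩ := hψ.cusp
  have hψc : Continuous ψ := X.continuous_of_ext hψ.smooth
  obtain ⟨B₀, hB₀⟩ := (ModularGroup.isCompact_truncatedFundamentalDomain Y).exists_bound_of_continuousOn
    hψc.continuousOn
  have hψB : ∀ z ∈ ModularGroup.fdo, ψ z ≤ max B₀ 0 := by
    intro z hz
    by_cases h : Y < z.im
    · rw [hY z (ModularGroup.fdo_subset_fd hz) h]
      exact le_max_right _ _
    · have h1 := hB₀ z (X.fdo_inter_sub Y ⟨hz, not_lt.1 h⟩)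
      exact (le_abs_self _).trans (h1.trans (le_max_left _ _))
  refine ⟨max B₀ 0 * (Real.pi / 3), by positivity, ?_⟩
  intro f t hf k
  obtain ⟨C, hC⟩ := hDer f t hf k
  have hw := hWf f t hf k
  have hcont : Continuous fun z : ℍ => Av.fk f k z :=
    hw.2.1.continuousOn.comp_continuous UpperHalfPlane.continuous_coe fun z => z.im_pos
  have hFc : Continuous fun z : ℍ => ‖Av.fk f k z‖ ^ 2 := hcont.norm.pow 2
  have e1 := hU _ hFc (fun γ z => inv_of_wt hw.1 γ z)
  -- from the plane to the half-plane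
  have e2 : ∫ z, ζ z * ‖Av.fk f k z‖ ^ 2 = ∫ z : ℍ, (ζ z * (z : ℂ).im ^ 2) * ‖Av.fk f k z‖ ^ 2 := by
    have h0 : ∀ z : ℂ, z.im ≤ 0 → (ζ z * z.im ^ 2) * ‖Av.fk f k z‖ ^ 2 = 0 := by
      intro z hz
      rw [image_eq_zero_of_notMem_tsupport (fun h => (not_lt.2 hz) (hζ.test.sub h)), zero_mul,
        zero_mul]
    rw [hI.1 _ h0]
    apply integral_congr_ae
    refine Eventually.of_forall fun z => ?_
    simp only
    by_cases hz : z ∈ H0
    · have hz' : z.im ≠ 0 := ne_of_gt hz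
      field_simp
    · rw [image_eq_zero_of_notMem_tsupport (fun h => hz (hζ.test.sub h)), zero_mul, zero_mul,
        zero_mul, zero_div]
  rw [e2, e1]
  -- the norm
  have hint : IntegrableOn (fun z : ℍ => ‖Av.fk f k z‖ ^ 2) ModularGroup.fdo := by
    have h1 : IsFiniteMeasure (volume.restrict ModularGroup.fdo) := ⟨by
      rw [Measure.restrict_apply_univ]
      exact Av.NkM.vol_fdo⟩
    refine Integrable.of_bound hFc.aestronglyMeasurable (C ^ 2) (Eventually.of_forall fun z => ?_)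
    rw [norm_pow, norm_norm]
    exact pow_le_pow_left₀ (norm_nonneg _) (hC _ z.im_pos) 2
  have hnorm : ∫ z in ModularGroup.fdo, ‖Av.fk f k z‖ ^ 2 =
      (∏ j ∈ Finset.range k, Av.mu j t) * (Real.pi / 3) := by
    have h1 := hNk f f t t hf hf k
    have h2 : ∫ z in ModularGroup.fdo, Av.fk f k z * conj (Av.fk f k z) =
        ((∫ z in ModularGroup.fdo, ‖Av.fk f k z‖ ^ 2 : ℝ) : ℂ) := by
      refine Eq.trans ?_ (integral_ofReal (𝕜 := ℂ) (μ := volume.restrict ModularGroup.fdo)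
        (f := fun z : ℍ => ‖Av.fk f k z‖ ^ 2))
      congr 1
      funext z
      rw [Complex.mul_conj, Complex.normSq_eq_norm_sq]
      rfl
    rw [h2] at h1
    have h3 : ∫ z in ModularGroup.fdo, f z * f z = Real.pi / 3 := by
      rw [← hf.normalised]
      congr 1
      funext z
      ring
    rw [h3] at h1
    exact_mod_cast h1
  have hle : ∫ z in ModularGroup.fdo, ψ z * ‖Av.fk f k z‖ ^ 2 ≤
      ∫ z in ModularGroup.fdo, max B₀ 0 * ‖Av.fk f k z‖ ^ 2 := by
    refine setIntegral_mono_on ?_ (hint.const_mul _) X.measurableSet_fdo fun z hz => ?_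
    · exact X.integrableOn_fdo (hψc.mul hFc) (Y := Y) (fun z hz h => by
        rw [hY z (ModularGroup.fdo_subset_fd hz) h, zero_mul])
    · exact mul_le_mul_of_nonneg_right (hψB z hz) (by positivity)
  refine hle.trans (le_of_eq ?_)
  rw [integral_const_mul, hnorm]
  ring

end Pool.Agent.A54.Sq
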