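import Pool.Agent.Lib.MP_a54f13_nt.Sq.Spec

/-! The Fejér kernel. -/

set_option autoImplicit false

namespace Pool.Agent.A54.Sq.KSumM

open Pool.Agent.A54.Sq

/-- the sum of M - |d| over |d| ≤ m -/
lemma sumAbs (M : ℝ) (m : ℕ) :
    ∑ d ∈ Finset.Icc (-(m : ℤ)) m, (M - |(d : ℝ)|) = (2 * m + 1) * M - m * (m + 1) := by
  induction m with
  | zero => simp
  | succ m ih =>
    have h1 : Finset.Icc (-((m + 1 : ℕ) : ℤ)) ((m + 1 : ℕ) : ℤ) =
        insert ((m + 1 : ℕ) : ℤ) (insert (-((m + 1 : ℕ) : ℤ)) (Finset.Icc (-(m : ℤ)) m)) := by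
      ext d
      simp only [Finset.mem_Icc, Finset.mem_insert]
      push_cast
      omega
    rw [h1, Finset.sum_insert, Finset.sum_insert, ih]
    · push_cast
      rw [abs_neg, abs_of_nonneg (by positivity : (0 : ℝ) ≤ (m : ℝ) + 1)]
      ring
    · simp only [Finset.mem_Icc]
      push_cast
      omega
    · simp only [Finset.mem_Icc, Finset.mem_insert]
      push_cast
      omega

end Pool.Agent.A54.Sq.KSumM

namespace Pool.Agent.A54.Sq

open KSumM

theorem stmtKSum : StmtKSum := by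
  intro N
  have hN : (0 : ℝ) < 2 * (N : ℝ) + 1 := by positivity
  refine ⟨?_, ?_, ?_, ?_⟩
  · intro d
    unfold KK
    positivity
  · have h1 : ∀ d ∈ Finset.Icc (-(2 * (N : ℤ))) (2 * (N : ℤ)), KK N d =
        ((2 * (N : ℝ) + 1) - |(d : ℝ)|) / (2 * (N : ℝ) + 1) ^ 2 := by
      intro d hd
      rw [Finset.mem_Icc] at hd
      unfold KK
      have h2 : |d| ≤ 2 * (N : ℤ) := abs_le.2 hd
      have h3 : |(d : ℝ)| ≤ 2 * (N : ℝ) := by
        have : ((|d| : ℤ) : ℝ) ≤ ((2 * (N : ℤ) : ℤ) : ℝ) := by exact_mod_cast h2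
        push_cast at this
        exact this
      rw [max_eq_right (by linarith)]
    rw [Finset.sum_congr rfl h1, ← Finset.sum_div]
    have h4 := sumAbs (2 * (N : ℝ) + 1) (2 * N)
    push_cast at h4
    rw [h4]
    field_simp
    ring
  · intro d
    unfold KK
    rw [← sub_div, abs_div, abs_of_pos (by positivity : (0 : ℝ) < (2 * (N : ℝ) + 1) ^ 2),
      div_eq_mul_inv]
    have h1 : |max 0 ((2 * (N : ℝ) + 1) - |(d : ℝ)|) -
        max 0 ((2 * (N : ℝ) + 1) - |((d + 1 : ℤ) : ℝ)|)| ≤ 1 := by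
      rw [max_comm (0 : ℝ), max_comm (0 : ℝ)]
      refine (abs_max_sub_max_le_abs _ _ _).trans ?_
      have h2 : (2 * (N : ℝ) + 1) - |(d : ℝ)| - ((2 * (N : ℝ) + 1) - |((d + 1 : ℤ) : ℝ)|) =
        |((d + 1 : ℤ) : ℝ)| - |(d : ℝ)| := by ring
      rw [h2]
      refine (abs_abs_sub_abs_le _ _).trans ?_
      push_cast
      simp
    calc _ ≤ 1 * ((2 * (N : ℝ) + 1) ^ 2)⁻¹ := mul_le_mul_of_nonneg_right h1 (by positivity)
      _ = _ := one_mul _
  · intro d hd
    unfold KK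
    have h2 : 2 * (N : ℤ) + 1 ≤ |d| := hd
    have h3 : 2 * (N : ℝ) + 1 ≤ |(d : ℝ)| := by
      have : ((2 * (N : ℤ) + 1 : ℤ) : ℝ) ≤ ((|d| : ℤ) : ℝ) := by exact_mod_cast h2
      push_cast at this
      exact this
    rw [max_eq_left (by linarith), zero_div]

end Pool.Agent.A54.Sq
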