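import Pool.Agent.Lib.MP_a54f13_nt.Sq.Spec
import Pool.Agent.Lib.MP_a54f13_nt.Cacc

/-! The key inequality. -/

set_option autoImplicit false

namespace Pool.Agent.A54.Sq

open MeasureTheory Filter Topology Set
open scoped ContDiff ComplexConjugate UpperHalfPlane MatrixGroups
open Pool.Agent.A54.Half (H0 qq ff hh)
open Pool.Agent.A54.Pl (Ed mean)

noncomputable section

namespace KeyM

lemma integrable {V : Set ℂ} {φ : ℂ → ℝ} (hφ : TestP V φ) {F : ℂ → ℝ} (hF : Continuous F) :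
    Integrable (fun z => φ z * F z) :=
  (hφ.test.smooth.continuous.mul hF).integrable_of_hasCompactSupport hφ.test.cpt.mul_right

lemma mono {V : Set ℂ} {φ ψ : ℂ → ℝ} (h1 : TestP V φ) (h2 : TestP V ψ) (h : ∀ z, φ z ≤ ψ z)
    {F : ℂ → ℝ} (hF : Continuous F) (hF0 : ∀ z, 0 ≤ F z) :
    ∫ z, φ z * F z ≤ ∫ z, ψ z * F z :=
  integral_mono (integrable h1 hF) (integrable h2 hF)
    fun z => mul_le_mul_of_nonneg_right (h z) (hF0 z)

/-- a common majorant -/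
lemma major {V : Set ℂ} (hV : IsOpen V) {φ₁ φ₂ φ₃ φ₄ : ℂ → ℝ} (h₁ : TestP V φ₁) (h₂ : TestP V φ₂)
    (h₃ : TestP V φ₃) (h₄ : TestP V φ₄) : ∃ ζ : ℂ → ℝ, TestP V ζ ∧
      (∀ z, φ₁ z ≤ ζ z) ∧ (∀ z, φ₂ z ≤ ζ z) ∧ (∀ z, φ₃ z ≤ ζ z) ∧ ∀ z, φ₄ z ≤ ζ z := by
  have hK : IsCompact (tsupport φ₁ ∪ tsupport φ₂ ∪ (tsupport φ₃ ∪ tsupport φ₄)) :=
    (h₁.test.cpt.union h₂.test.cpt).union (h₃.test.cpt.union h₄.test.cpt)
  obtain ⟨χ, hχ, hχ01, hone⟩ := exists_cutoff hK hV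
    (union_subset (union_subset h₁.test.sub h₂.test.sub)
      (union_subset h₃.test.sub h₄.test.sub))
  have hone' : ∀ z ∈ tsupport φ₁ ∪ tsupport φ₂ ∪ (tsupport φ₃ ∪ tsupport φ₄), χ z = 1 :=
    fun z hz => subset_of_mem_nhdsSet hone hz
  obtain ⟨M₁, hM₁⟩ := h₁.test.cpt.exists_bound_of_continuous h₁.test.smooth.continuous
  obtain ⟨M₂, hM₂⟩ := h₂.test.cpt.exists_bound_of_continuous h₂.test.smooth.continuous
  obtain ⟨M₃, hM₃⟩ := h₃.test.cpt.exists_bound_of_continuous h₃.test.smooth.continuous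
  obtain ⟨M₄, hM₄⟩ := h₄.test.cpt.exists_bound_of_continuous h₄.test.smooth.continuous
  have p1 : 0 ≤ M₁ := (norm_nonneg _).trans (hM₁ 0)
  have p2 : 0 ≤ M₂ := (norm_nonneg _).trans (hM₂ 0)
  have p3 : 0 ≤ M₃ := (norm_nonneg _).trans (hM₃ 0)
  have p4 : 0 ≤ M₄ := (norm_nonneg _).trans (hM₄ 0)
  have key : ∀ (φ : ℂ → ℝ) (M : ℝ), (∀ z, ‖φ z‖ ≤ M) → M ≤ M₁ + M₂ + M₃ + M₄ →
      (∀ z ∈ tsupport φ, χ z = 1) → ∀ z, φ z ≤ (M₁ + M₂ + M₃ + M₄) * χ z := by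
    intro φ M hφ hM h1 z
    by_cases hz : z ∈ tsupport φ
    · rw [h1 z hz, mul_one]
      exact ((le_abs_self _).trans (hφ z)).trans hM
    · rw [image_eq_zero_of_notMem_tsupport hz]
      exact mul_nonneg (by positivity) (hχ01 z).1
  refine ⟨fun z => (M₁ + M₂ + M₃ + M₄) * χ z, ⟨⟨contDiff_const.mul hχ.smooth, ?_, ?_⟩, ?_⟩, ?_, ?_,
    ?_, ?_⟩
  · exact hχ.cpt.mul_left
  · exact (tsupport_mul_subset_right).trans hχ.sub
  · exact fun z => mul_nonneg (by positivity) (hχ01 z).1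
  · exact key φ₁ M₁ hM₁ (by linarith) fun z hz => hone' z (Or.inl (Or.inl hz))
  · exact key φ₂ M₂ hM₂ (by linarith) fun z hz => hone' z (Or.inl (Or.inr hz))
  · exact key φ₃ M₃ hM₃ (by linarith) fun z hz => hone' z (Or.inr (Or.inl hz))
  · exact key φ₄ M₄ hM₄ (by linarith) fun z hz => hone' z (Or.inr (Or.inr hz))

/-- Cauchy–Schwarz with a weight -/
lemma cs {V : Set ℂ} {φ : ℂ → ℝ} (hφ : TestP V φ) {F H : ℂ → ℝ} (hF : Continuous F)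
    (hH : Continuous H) : ∫ z, φ z * (F z * H z) ≤
      √(∫ z, φ z * F z ^ 2) * √(∫ z, φ z * H z ^ 2) := by
  set A := ∫ z, φ z * F z ^ 2 with hA
  set B := ∫ z, φ z * H z ^ 2 with hB
  have hA0 : 0 ≤ A := integral_nonneg fun z => mul_nonneg (hφ.nonneg z) (sq_nonneg _)
  have hB0 : 0 ≤ B := integral_nonneg fun z => mul_nonneg (hφ.nonneg z) (sq_nonneg _)
  have iA : Integrable fun z => φ z * F z ^ 2 := integrable hφ (hF.pow 2)
  have iB : Integrable fun z => φ z * H z ^ 2 := integrable hφ (hH.pow 2)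
  have iF : Integrable fun z => φ z * (F z * H z) := integrable hφ (hF.mul hH)
  set X := ∫ z, φ z * (F z * H z) with hX
  have hq : ∀ s : ℝ, 0 ≤ A * (s * s) + (-(2 * X)) * s + B := by
    intro s
    have h1 : ∫ z, (s ^ 2 * (φ z * F z ^ 2) - 2 * s * (φ z * (F z * H z)) + φ z * H z ^ 2) =
        s ^ 2 * A - 2 * s * X + B := by
      have i1 : Integrable fun z => s ^ 2 * (φ z * F z ^ 2) - 2 * s * (φ z * (F z * H z)) :=
        (iA.const_mul _).sub (iF.const_mul _)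
      rw [integral_add i1 iB, integral_sub (iA.const_mul _) (iF.const_mul _), integral_const_mul,
        integral_const_mul]
    have h2 : 0 ≤ ∫ z, (s ^ 2 * (φ z * F z ^ 2) - 2 * s * (φ z * (F z * H z)) +
        φ z * H z ^ 2) := by
      refine integral_nonneg fun z => ?_
      show 0 ≤ s ^ 2 * (φ z * F z ^ 2) - 2 * s * (φ z * (F z * H z)) + φ z * H z ^ 2
      have h3 := mul_nonneg (hφ.nonneg z) (sq_nonneg (s * F z - H z))
      nlinarith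
    rw [h1] at h2
    nlinarith
  have hd := discrim_le_zero hq
  unfold discrim at hd
  have h4 : X ^ 2 ≤ A * B := by nlinarith
  rw [← Real.sqrt_mul hA0]
  exact (Real.le_sqrt_of_sq_le h4)

lemma contSS {V : Set ℂ} {t : ℝ} {G : ℤ → ℂ → ℂ} (hT : Tow V t G) (N : ℕ) :
    Continuous (SS G N) := by
  unfold SS
  exact continuous_finsetSum _ fun d _ =>
    continuous_const.mul ((hT.smooth d).continuous.norm.pow 2)

/-- `∫ φ S² ≤ D` -/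
lemma ss_sq {V : Set ℂ} {t : ℝ} {G : ℤ → ℂ → ℂ} (hT : Tow V t G) {φ : ℂ → ℝ} (hφ : TestP V φ)
    (hK : StmtKSum) {N : ℕ} {D : ℝ} (hD : ∀ d : ℤ, |d| ≤ 2 * N → Wi φ G d d ≤ D) :
    ∫ z, φ z * SS G N z ^ 2 ≤ D := by
  obtain ⟨hK0, hK1, -, -⟩ := hK N
  have hi : ∀ d : ℤ, Integrable fun z => φ z * (‖G d z‖ ^ 2 * ‖G d z‖ ^ 2) := fun d =>
    integrable hφ (((hT.smooth d).continuous.norm.pow 2).mul
      ((hT.smooth d).continuous.norm.pow 2))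
  have h1 : ∀ z, φ z * SS G N z ^ 2 ≤ ∑ d ∈ Finset.Icc (-(2 * (N : ℤ))) (2 * (N : ℤ)),
      KK N d * (φ z * (‖G d z‖ ^ 2 * ‖G d z‖ ^ 2)) := by
    intro z
    have h2 : SS G N z ^ 2 ≤ ∑ d ∈ Finset.Icc (-(2 * (N : ℤ))) (2 * (N : ℤ)),
        KK N d * (‖G d z‖ ^ 2) ^ 2 := by
      have h3 := Finset.sum_sq_le_sum_mul_sum_of_sq_le_mul
        (Finset.Icc (-(2 * (N : ℤ))) (2 * (N : ℤ))) (r := fun d => KK N d * ‖G d z‖ ^ 2)
        (f := fun d => KK N d) (g := fun d => KK N d * (‖G d z‖ ^ 2) ^ 2)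
        (fun d _ => hK0 d) (fun d _ => mul_nonneg (hK0 d) (sq_nonneg _)) (fun d _ => le_of_eq (by ring))
      rw [hK1, one_mul] at h3
      exact h3
    calc φ z * SS G N z ^ 2 ≤ φ z * ∑ d ∈ Finset.Icc (-(2 * (N : ℤ))) (2 * (N : ℤ)),
          KK N d * (‖G d z‖ ^ 2) ^ 2 := mul_le_mul_of_nonneg_left h2 (hφ.nonneg z)
      _ = _ := by
          rw [Finset.mul_sum]
          exact Finset.sum_congr rfl fun d _ => by ring
  calc ∫ z, φ z * SS G N z ^ 2 ≤ ∫ z, ∑ d ∈ Finset.Icc (-(2 * (N : ℤ))) (2 * (N : ℤ)),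
        KK N d * (φ z * (‖G d z‖ ^ 2 * ‖G d z‖ ^ 2)) :=
        integral_mono (integrable hφ ((contSS hT N).pow 2))
          (integrable_finsetSum _ fun d _ => (hi d).const_mul _) h1
    _ = ∑ d ∈ Finset.Icc (-(2 * (N : ℤ))) (2 * (N : ℤ)), KK N d * Wi φ G d d := by
        rw [integral_finsetSum _ fun d _ => (hi d).const_mul _]
        refine Finset.sum_congr rfl fun d _ => ?_
        rw [integral_const_mul]
        rfl
    _ ≤ ∑ d ∈ Finset.Icc (-(2 * (N : ℤ))) (2 * (N : ℤ)), KK N d * D := by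
        refine Finset.sum_le_sum fun d hd => mul_le_mul_of_nonneg_left (hD d ?_) (hK0 d)
        rw [Finset.mem_Icc] at hd
        exact abs_le.mpr hd
    _ = D := by rw [← Finset.sum_mul, hK1, one_mul]

/-- final arithmetic -/
lemma final {w m I1 I2 I3 X D C1 C2 C3 n t ρ a B M : ℝ} (hC1 : 0 ≤ C1) (hC2 : 0 ≤ C2)
    (hC3 : 0 ≤ C3) (hn : 0 ≤ n) (ht : 1 ≤ t) (hρ : 0 < ρ) (ha : 0 ≤ a) (ha2 : a ≤ 2)
    (hB : 0 ≤ B) (hM : 0 ≤ M) (hw : w ≤ B)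
    (h1 : (1 - ((2 * n + 1) ^ 2)⁻¹) * w ≤ 3 * I1 + C1 * ((n + 1) ^ 2 * B / t))
    (h2 : I1 ≤ I2 + C2 * (ρ * t / (n + 1)) * B)
    (h3 : I2 ≤ a * I3 + √X * √D) (h4 : I3 ≤ m + C3 * (n + 1) * M / t) :
    w ≤ 3 * (a * m) + 3 * (√X * √D) + (C1 + 1 + 3 * C2 + 6 * C3) *
      (B * ((n + 1) ^ 2 / t + ρ * t / (n + 1) + ((n + 1) ^ 2)⁻¹) + M * (n + 1) / t) := by
  have ht0 : 0 < t := by linarith
  have e0 : ((2 * n + 1) ^ 2)⁻¹ ≤ ((n + 1) ^ 2)⁻¹ := by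
    apply inv_anti₀ (by positivity)
    apply pow_le_pow_left₀ (by positivity)
    linarith
  have e0' : 0 ≤ ((2 * n + 1) ^ 2)⁻¹ := by positivity
  have e1 : ((2 * n + 1) ^ 2)⁻¹ * w ≤ ((n + 1) ^ 2)⁻¹ * B := by
    calc ((2 * n + 1) ^ 2)⁻¹ * w ≤ ((2 * n + 1) ^ 2)⁻¹ * B :=
          mul_le_mul_of_nonneg_left hw e0'
      _ ≤ _ := mul_le_mul_of_nonneg_right e0 hB
  have e2 : a * I3 ≤ a * m + 2 * (C3 * (n + 1) * M / t) := by
    have e3 : a * I3 ≤ a * (m + C3 * (n + 1) * M / t) := mul_le_mul_of_nonneg_left h4 ha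
    have e4 : 0 ≤ C3 * (n + 1) * M / t := by positivity
    nlinarith
  set P := (n + 1) ^ 2 / t with hP
  set Q := ρ * t / (n + 1) with hQ
  set R := ((n + 1) ^ 2)⁻¹ with hR
  set S := M * (n + 1) / t with hS
  have hP0 : 0 ≤ P := by positivity
  have hQ0 : 0 ≤ Q := by positivity
  have hR0 : 0 ≤ R := by positivity
  have hS0 : 0 ≤ S := by positivity
  have f1 : (n + 1) ^ 2 * B / t = B * P := by rw [hP]; ring
  have f2 : C3 * (n + 1) * M / t = C3 * S := by rw [hS]; ring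
  rw [f1] at h1
  rw [f2] at e2
  have hBP : 0 ≤ B * P := mul_nonneg hB hP0
  have hBQ : 0 ≤ B * Q := mul_nonneg hB hQ0
  have hBR : 0 ≤ B * R := mul_nonneg hB hR0
  have g1 : 0 ≤ (1 + 3 * C2 + 6 * C3) * (B * P) := by positivity
  have g2 : 0 ≤ (C1 + 1 + 6 * C3) * (B * Q) := by positivity
  have g3 : 0 ≤ (C1 + 3 * C2 + 6 * C3) * (B * R) := by positivity
  have g4 : 0 ≤ (C1 + 1 + 3 * C2) * S := by positivity
  have h5 : w ≤ 3 * I1 + C1 * (B * P) + R * B := by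
    have : (1 - ((2 * n + 1) ^ 2)⁻¹) * w = w - ((2 * n + 1) ^ 2)⁻¹ * w := by ring
    rw [this] at h1
    linarith
  nlinarith

end KeyM

theorem stmtKey (hPos : StmtPos) (hSmS : StmtSmS) (hMsS : StmtMsS) (hKSum : StmtKSum) :
    StmtKey := by
  intro V hV hVH φ hφ
  obtain ⟨ζ₁, C₁, hζ₁, hC₁, hP⟩ := hPos V hV hVH φ hφ
  obtain ⟨ζ₂, C₂, r0, hζ₂, hC₂, hr0, hS⟩ := hSmS V hV hVH φ hφ
  obtain ⟨ζ₃, C₃, hζ₃, hC₃, hMs⟩ := hMsS V hV hVH φ hφ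
  obtain ⟨ζ, hζ, z0, z1, z2, z3⟩ := KeyM.major hV hφ hζ₁ hζ₂ hζ₃
  refine ⟨ζ, C₁ + 1 + 3 * C₂ + 6 * C₃, r0, hζ, by positivity, hr0, ?_⟩
  intro t G ht hT N B M D ρ a hN hUp hM hD hρ hρ0 ha ha2
  have ht0 : 0 < t := by linarith
  have hn0 : (0 : ℝ) ≤ N := Nat.cast_nonneg N
  have hN1 : 2 * (N : ℝ) + 1 ≤ t := by nlinarith
  have c4 : ∀ n : ℤ, Continuous fun z => ‖G n z‖ ^ 4 := fun n =>
    (hT.smooth n).continuous.norm.pow 4
  have c2 : ∀ n : ℤ, Continuous fun z => ‖G n z‖ ^ 2 := fun n =>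
    (hT.smooth n).continuous.norm.pow 2
  have up : ∀ ψ : ℂ → ℝ, TestP V ψ → (∀ z, ψ z ≤ ζ z) → Up ψ G (2 * N + 1) B :=
    fun ψ hψ hle n hn => (KeyM.mono hψ hζ hle (c4 n) fun z => by positivity).trans (hUp n hn)
  have ms : ∀ ψ : ℂ → ℝ, TestP V ψ → (∀ z, ψ z ≤ ζ z) → ∀ n : ℤ, ∫ z, ψ z * ‖G n z‖ ^ 2 ≤ M :=
    fun ψ hψ hle n => (KeyM.mono hψ hζ hle (c2 n) fun z => by positivity).trans (hM n)
  have hw : ∫ z, φ z * ‖G 0 z‖ ^ 4 ≤ B := up φ hφ z0 0 (by rw [abs_zero]; positivity)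
  have hB : 0 ≤ B := le_trans
    (integral_nonneg fun z => mul_nonneg (hφ.nonneg z) (by positivity)) hw
  have hM0 : 0 ≤ M := le_trans
    (integral_nonneg fun z => mul_nonneg (hζ.nonneg z) (by positivity)) (hM 0)
  have h1 := hP t G ht hT N B hN (up ζ₁ hζ₁ z1)
  have h2 := hS t G ht hT N B ρ hN1 (up ζ₂ hζ₂ z2) hρ hρ0
  have h4 := hMs t G ht hT N M (ms ζ₃ hζ₃ z3)
  have hSc := KeyM.contSS hT N
  have hE : Continuous (Ed ρ fun w => ‖G 0 w‖ ^ 2) := Pl.continuous_Ed (c2 0) ρ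
  have hD0 := KeyM.ss_sq hT hφ hKSum hD
  have h3 : ∫ z, φ z * (SS G N z * Ed ρ (fun w => ‖G 0 w‖ ^ 2) z) ≤
      a * (∫ z, φ z * SS G N z) +
        √(∫ z, φ z * (Ed ρ (fun w => ‖G 0 w‖ ^ 2) z - a) ^ 2) * √D := by
    have e1 : ∫ z, φ z * (SS G N z * Ed ρ (fun w => ‖G 0 w‖ ^ 2) z) =
        a * (∫ z, φ z * SS G N z) +
          ∫ z, φ z * (SS G N z * (Ed ρ (fun w => ‖G 0 w‖ ^ 2) z - a)) := by
      have i2 : Integrable fun z => φ z * (SS G N z * (Ed ρ (fun w => ‖G 0 w‖ ^ 2) z - a)) :=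
        KeyM.integrable hφ (hSc.mul (hE.sub continuous_const))
      rw [← integral_const_mul, ← integral_add ((KeyM.integrable hφ hSc).const_mul a) i2]
      refine integral_congr_ae (Filter.Eventually.of_forall fun z => ?_)
      show φ z * (SS G N z * Ed ρ (fun w => ‖G 0 w‖ ^ 2) z) = a * (φ z * SS G N z) +
        φ z * (SS G N z * (Ed ρ (fun w => ‖G 0 w‖ ^ 2) z - a))
      ring
    rw [e1]
    have e2 := KeyM.cs (F := SS G N) (H := fun z => Ed ρ (fun w => ‖G 0 w‖ ^ 2) z - a) hφ hSc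
      (hE.sub continuous_const)
    have e3 : √(∫ z, φ z * SS G N z ^ 2) ≤ √D := Real.sqrt_le_sqrt hD0
    have e4 := mul_le_mul_of_nonneg_right e3
      (Real.sqrt_nonneg (∫ z, φ z * (Ed ρ (fun w => ‖G 0 w‖ ^ 2) z - a) ^ 2))
    have e5 := e2.trans e4
    rw [mul_comm (√D)] at e5
    linarith
  exact KeyM.final hC₁ hC₂ hC₃ hn0 ht hρ ha ha2 hB hM0 hw h1
    (by linarith [(abs_le.mp h2).1]) h3 (by linarith [(abs_le.mp h4).2])

end

end Pool.Agent.A54.Sq
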