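import Pool.Agent.Lib.MP_a54f13_nt.Sq.Spec2
import Pool.Agent.Lib.MP_a54f13_nt.Sq.Key

/-! The key inequality, second form. -/

set_option autoImplicit false

namespace Pool.Agent.A54.Sq

open MeasureTheory Filter Topology Set
open scoped ContDiff ComplexConjugate UpperHalfPlane MatrixGroups
open Pool.Agent.A54.Half (H0 qq ff hh)
open Pool.Agent.A54.Pl (Ed mean)

noncomputable section

namespace Ke2M

/-- `s ≤ √(s + E) √v` implies `s ≤ v + E` -/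
lemma quad {s v E : ℝ} (hv : 0 ≤ v) (hE : 0 ≤ E) (hsE : 0 ≤ s + E)
    (h : s ≤ √(s + E) * √v) : s ≤ v + E := by
  by_contra hlt
  push Not at hlt
  have hs : 0 < s := by linarith
  have h1 : s ^ 2 ≤ (s + E) * v := by
    calc s ^ 2 ≤ (√(s + E) * √v) ^ 2 := pow_le_pow_left₀ hs.le h 2
      _ = (s + E) * v := by rw [mul_pow, Real.sq_sqrt hsE, Real.sq_sqrt hv]
  have h2 : s * E < s * (s - v) := mul_lt_mul_of_pos_left (by linarith) hs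
  have h3 : v * E ≤ s * E := mul_le_mul_of_nonneg_right (by linarith) hE
  nlinarith

/-- final arithmetic -/
lemma final {w I1 s v D C1 C2 C3 n t ρ B : ℝ} (hC1 : 0 ≤ C1) (hC2 : 0 ≤ C2)
    (hC3 : 0 ≤ C3) (hn : 0 ≤ n) (ht : 1 ≤ t) (hρ : 0 < ρ)
    (hB : 0 ≤ B) (hw : w ≤ B) (hv : 0 ≤ v) (hD0 : 0 ≤ D)
    (h1 : (1 - ((2 * n + 1) ^ 2)⁻¹) * w ≤ 3 * I1 + C1 * ((n + 1) ^ 2 * B / t))
    (h2 : I1 ≤ s + C2 * (ρ * t / (n + 1)) * B)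
    (h3 : D ≤ I1 + C3 * ((n + 1) ^ 2 * B / t))
    (h4 : s ≤ √D * √v) :
    w ≤ 3 * v + (C1 + 1 + 6 * C2 + 3 * C3) * B *
      ((n + 1) ^ 2 / t + ρ * t / (n + 1) + ((n + 1) ^ 2)⁻¹) := by
  have ht0 : 0 < t := by linarith
  have e0 : ((2 * n + 1) ^ 2)⁻¹ ≤ ((n + 1) ^ 2)⁻¹ := by
    apply inv_anti₀ (by positivity)
    apply pow_le_pow_left₀ (by positivity)
    linarith
  have e0' : 0 ≤ ((2 * n + 1) ^ 2)⁻¹ := by positivity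
  have e1 : ((2 * n + 1) ^ 2)⁻¹ * w ≤ ((n + 1) ^ 2)⁻¹ * B := by
    calc ((2 * n + 1) ^ 2)⁻¹ * w ≤ ((2 * n + 1) ^ 2)⁻¹ * B :=
          mul_le_mul_of_nonneg_left hw e0'
      _ ≤ _ := mul_le_mul_of_nonneg_right e0 hB
  set P := (n + 1) ^ 2 / t with hP
  set Q := ρ * t / (n + 1) with hQ
  set R := ((n + 1) ^ 2)⁻¹ with hR
  have hP0 : 0 ≤ P := by positivity
  have hQ0 : 0 ≤ Q := by positivity
  have hR0 : 0 ≤ R := by positivity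
  have f1 : (n + 1) ^ 2 * B / t = B * P := by rw [hP]; ring
  rw [f1] at h1 h3
  have hBP : 0 ≤ B * P := mul_nonneg hB hP0
  have hBQ : 0 ≤ B * Q := mul_nonneg hB hQ0
  have hBR : 0 ≤ B * R := mul_nonneg hB hR0
  have hC3P : 0 ≤ C3 * (B * P) := mul_nonneg hC3 hBP
  have hC2Q : 0 ≤ C2 * (B * Q) := mul_nonneg hC2 hBQ
  have hE : 0 ≤ C2 * (B * Q) + C3 * (B * P) := add_nonneg hC2Q hC3P
  have hDle : D ≤ s + (C2 * (B * Q) + C3 * (B * P)) := by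
    have : C2 * Q * B = C2 * (B * Q) := by ring
    linarith
  have h5 : s ≤ v + (C2 * (B * Q) + C3 * (B * P)) := by
    apply quad hv hE (hD0.trans hDle)
    exact h4.trans (mul_le_mul_of_nonneg_right (Real.sqrt_le_sqrt hDle) (Real.sqrt_nonneg v))
  have h6 : w ≤ 3 * I1 + C1 * (B * P) + R * B := by
    have : (1 - ((2 * n + 1) ^ 2)⁻¹) * w = w - ((2 * n + 1) ^ 2)⁻¹ * w := by ring
    rw [this] at h1
    linarith
  have g1 : 0 ≤ (1 + 6 * C2) * (B * P) := by positivity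
  have g2 : 0 ≤ (C1 + 1 + 3 * C3) * (B * Q) := by positivity
  have g3 : 0 ≤ (C1 + 6 * C2 + 3 * C3) * (B * R) := by positivity
  nlinarith

end Ke2M

theorem stmtKe2 (hPos : StmtPos) (hPo2 : StmtPo2) (hSmS : StmtSmS) : StmtKe2 := by
  intro V hV hVH φ hφ
  obtain ⟨ζ₁, C₁, hζ₁, hC₁, hP⟩ := hPos V hV hVH φ hφ
  obtain ⟨ζ₂, C₂, r0, hζ₂, hC₂, hr0, hS⟩ := hSmS V hV hVH φ hφ
  obtain ⟨ζ₃, C₃, hζ₃, hC₃, hQ⟩ := hPo2 V hV hVH φ hφ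
  obtain ⟨ζ, hζ, z0, z1, z2, z3⟩ := KeyM.major hV hφ hζ₁ hζ₂ hζ₃
  refine ⟨ζ, C₁ + 1 + 6 * C₂ + 3 * C₃, r0, hζ, by positivity, hr0, ?_⟩
  intro t G ht hT N B ρ hN hUp hρ hρ0
  have ht0 : 0 < t := by linarith
  have hn0 : (0 : ℝ) ≤ N := Nat.cast_nonneg N
  have hN1 : 2 * (N : ℝ) + 1 ≤ t := by nlinarith
  have hN2 : (2 * (N : ℝ) + 2) ^ 2 ≤ t := by nlinarith
  have c4 : ∀ n : ℤ, Continuous fun z => ‖G n z‖ ^ 4 := fun n =>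
    (hT.smooth n).continuous.norm.pow 4
  have c2 : ∀ n : ℤ, Continuous fun z => ‖G n z‖ ^ 2 := fun n =>
    (hT.smooth n).continuous.norm.pow 2
  have up : ∀ ψ : ℂ → ℝ, TestP V ψ → (∀ z, ψ z ≤ ζ z) → Up ψ G (8 * N + 13) B :=
    fun ψ hψ hle n hn => (KeyM.mono hψ hζ hle (c4 n) fun z => by positivity).trans (hUp n hn)
  have up2 : ∀ ψ : ℂ → ℝ, TestP V ψ → (∀ z, ψ z ≤ ζ z) → Up ψ G (2 * N + 1) B :=
    fun ψ hψ hle n hn => up ψ hψ hle n (by push_cast at hn ⊢; linarith)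
  have hw : ∫ z, φ z * ‖G 0 z‖ ^ 4 ≤ B := up φ hφ z0 0 (by rw [abs_zero]; positivity)
  have hB : 0 ≤ B := le_trans
    (integral_nonneg fun z => mul_nonneg (hφ.nonneg z) (by positivity)) hw
  have h1 := hP t G ht hT N B hN2 (up2 ζ₁ hζ₁ z1)
  have h2 := hS t G ht hT N B ρ hN1 (up2 ζ₂ hζ₂ z2) hρ hρ0
  have h3 := hQ t G ht hT N B hN (up ζ₃ hζ₃ z3)
  have hSc := KeyM.contSS hT N
  have hE : Continuous (Ed ρ fun w => ‖G 0 w‖ ^ 2) := Pl.continuous_Ed (c2 0) ρ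
  have h4 := KeyM.cs (F := SS G N) (H := fun z => Ed ρ (fun w => ‖G 0 w‖ ^ 2) z) hφ hSc hE
  have hv : 0 ≤ ∫ z, φ z * Ed ρ (fun w => ‖G 0 w‖ ^ 2) z ^ 2 :=
    integral_nonneg fun z => mul_nonneg (hφ.nonneg z) (sq_nonneg _)
  have hD0 : 0 ≤ ∫ z, φ z * SS G N z ^ 2 :=
    integral_nonneg fun z => mul_nonneg (hφ.nonneg z) (sq_nonneg _)
  exact Ke2M.final hC₁ hC₂ hC₃ hn0 ht hρ hB hw hv hD0 h1
    (by linarith [(abs_le.mp h2).1]) h3 h4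

end

end Pool.Agent.A54.Sq
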