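import Pool.Agent.Lib.MP_a54f13_nt.Sq.Spec
import Pool.Agent.Lib.MP_a54f13_nt.Cacc
import Pool.Agent.Lib.MP_a54f13_nt.Half

/-!
# Package `Sq`, module `Lad`: fourth moments of the tower by Ladyzhenskaya's inequality
-/

set_option autoImplicit false

namespace Pool.Agent.A54.Sq

open MeasureTheory Filter Topology Set
open scoped ContDiff ComplexConjugate UpperHalfPlane MatrixGroups
open Pool.Agent.A54.Half (H0 qq ff hh)

namespace LadM

noncomputable section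

variable {V : Set ℂ}

/-- a compact subset of the upper half-plane has positive height -/
lemma height {K : Set ℂ} (hK : IsCompact K) (h : K ⊆ H0) : ∃ m : ℝ, 0 < m ∧ ∀ z ∈ K, m ≤ z.im := by
  rcases K.eq_empty_or_nonempty with h0 | h0
  · exact ⟨1, one_pos, fun z hz => by simp [h0] at hz⟩
  · obtain ⟨z0, hz0, hmin⟩ := hK.exists_isMinOn h0 Complex.continuous_im.continuousOn
    exact ⟨z0.im, h hz0, fun z hz => hmin hz⟩

lemma la_le {t : ℝ} (ht : 1 ≤ t) (n : ℤ) (hn : |(n : ℝ) + 1 / 2| ≤ 2 * t) : la t n ≤ 3 * t := by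
  unfold la
  refine Real.sqrt_le_iff.2 ⟨by linarith, ?_⟩
  have h1 : ((n : ℝ) + 1 / 2) ^ 2 ≤ (2 * t) ^ 2 := by
    rw [← sq_abs]
    exact pow_le_pow_left₀ (abs_nonneg _) hn 2
  nlinarith

/-- the bound for `dz G_n` -/
lemma dz_le {t : ℝ} {G : ℤ → ℂ → ℂ} (hG : Tow V t G) (n : ℤ) {z : ℂ} (hz : z ∈ V)
    (hy : 0 < z.im) :
    z.im * ‖dz (G n) z‖ ≤ la t n * ‖G (n + 1) z‖ + |(n : ℝ)| * ‖G n z‖ := by
  have h1 := hG.up n z hz
  have h2 : Complex.I * (z.im : ℂ) * dz (G n) z = ((la t n : ℝ) : ℂ) * G (n + 1) z - (n : ℂ) * G n z := by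
    linear_combination h1
  have h3 : ‖Complex.I * (z.im : ℂ) * dz (G n) z‖ = z.im * ‖dz (G n) z‖ := by
    rw [norm_mul, norm_mul, Complex.norm_I, one_mul, Complex.norm_real, Real.norm_eq_abs,
      abs_of_pos hy]
  rw [← h3, h2]
  refine (norm_sub_le _ _).trans ?_
  rw [norm_mul, norm_mul, Complex.norm_real, Real.norm_eq_abs,
    abs_of_nonneg (show 0 ≤ la t n from Real.sqrt_nonneg _), Complex.norm_intCast]

/-- the bound for `dzb G_{n+1}` -/
lemma dzb_le {t : ℝ} {G : ℤ → ℂ → ℂ} (hG : Tow V t G) (n : ℤ) {z : ℂ} (hz : z ∈ V)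
    (hy : 0 < z.im) :
    z.im * ‖dzb (G (n + 1)) z‖ ≤ la t n * ‖G n z‖ + |(n : ℝ) + 1| * ‖G (n + 1) z‖ := by
  have h1 := hG.down n z hz
  have h2 : Complex.I * (z.im : ℂ) * dzb (G (n + 1)) z =
      ((la t n : ℝ) : ℂ) * G n z - ((n : ℂ) + 1) * G (n + 1) z := by
    linear_combination -h1
  have h3 : ‖Complex.I * (z.im : ℂ) * dzb (G (n + 1)) z‖ = z.im * ‖dzb (G (n + 1)) z‖ := by
    rw [norm_mul, norm_mul, Complex.norm_I, one_mul, Complex.norm_real, Real.norm_eq_abs,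
      abs_of_pos hy]
  have h4 : ‖(n : ℂ) + 1‖ = |(n : ℝ) + 1| := by
    have : (n : ℂ) + 1 = (((n : ℝ) + 1 : ℝ) : ℂ) := by push_cast; ring
    rw [this, Complex.norm_real, Real.norm_eq_abs]
  rw [← h3, h2]
  refine (norm_sub_le _ _).trans ?_
  rw [norm_mul, norm_mul, Complex.norm_real, Real.norm_eq_abs,
    abs_of_nonneg (show 0 ≤ la t n from Real.sqrt_nonneg _), h4]

/-- the pointwise bound for the derivative of `χ G_n` -/
lemma deriv_le {t : ℝ} {G : ℤ → ℂ → ℂ} (ht : 1 ≤ t) (hG : Tow V t G) (n : ℤ)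
    (hn : |(n : ℝ)| ≤ t) {χ : ℂ → ℝ} (hχ : TestR V χ) (hχ1 : ∀ z, 0 ≤ χ z ∧ χ z ≤ 1) {A m : ℝ}
    (hA : ∀ z, ‖fderiv ℝ χ z‖ ≤ A) (hm : 0 < m) {z : ℂ} (hz : z ∈ V) (hy : m ≤ z.im) :
    ‖fderiv ℝ (fun w => (χ w : ℂ) * G n w) z‖ ≤
      ((4 * A + 3 / m) * t) * (‖G n z‖ + ‖G (n + 1) z‖ + ‖G (n - 1) z‖) := by
  have hA0 : 0 ≤ A := (norm_nonneg _).trans (hA 0)
  have hy0 : 0 < z.im := hm.trans_le hy
  have hs := hG.smooth n
  have hc := contDiff_ofReal hχ.smooth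
  have e1 : dz (fun w => (χ w : ℂ) * G n w) z =
      dz (fun w => (χ w : ℂ)) z * G n z + (χ z : ℂ) * dz (G n) z := dz_mul hc hs
  have e2 : dzb (fun w => (χ w : ℂ) * G n w) z =
      dzb (fun w => (χ w : ℂ)) z * G n z + (χ z : ℂ) * dzb (G n) z := dzb_mul hc hs
  have f0 := Cacc.norm_fderiv_ofReal_le hχ.smooth z
  have f1 : ‖dz (fun w => (χ w : ℂ)) z‖ ≤ 2 * A := norm_dz_le.trans (by linarith [hA z])
  have f2 : ‖dzb (fun w => (χ w : ℂ)) z‖ ≤ 2 * A := norm_dzb_le.trans (by linarith [hA z])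
  have hχn : ‖((χ z : ℝ) : ℂ)‖ ≤ 1 := by
    rw [Complex.norm_real, Real.norm_eq_abs, abs_of_nonneg (hχ1 z).1]
    exact (hχ1 z).2
  have hn' := abs_le.1 hn
  have l1 : la t n ≤ 3 * t := la_le ht n (abs_le.2 ⟨by linarith, by linarith⟩)
  have l2 : la t (n - 1) ≤ 3 * t := by
    refine la_le ht (n - 1) (abs_le.2 ⟨?_, ?_⟩) <;> push_cast <;> linarith
  have d1 := dz_le hG n hz hy0
  have d2 := dzb_le hG (n - 1) hz hy0
  have en : n - 1 + 1 = n := by ring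
  rw [en] at d2
  push_cast at d2
  have en' : (n : ℝ) - 1 + 1 = n := by ring
  rw [en'] at d2
  have g0 := norm_nonneg (G n z)
  have g1 := norm_nonneg (G (n + 1) z)
  have g2 := norm_nonneg (G (n - 1) z)
  have q1 : m * (‖dz (G n) z‖ + ‖dzb (G n) z‖) ≤
      (3 * t) * (‖G n z‖ + ‖G (n + 1) z‖ + ‖G (n - 1) z‖) := by
    have p1 : m * ‖dz (G n) z‖ ≤ z.im * ‖dz (G n) z‖ :=
      mul_le_mul_of_nonneg_right hy (norm_nonneg _)
    have p2 : m * ‖dzb (G n) z‖ ≤ z.im * ‖dzb (G n) z‖ :=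
      mul_le_mul_of_nonneg_right hy (norm_nonneg _)
    have p3 : la t n * ‖G (n + 1) z‖ ≤ 3 * t * ‖G (n + 1) z‖ := mul_le_mul_of_nonneg_right l1 g1
    have p4 : la t (n - 1) * ‖G (n - 1) z‖ ≤ 3 * t * ‖G (n - 1) z‖ :=
      mul_le_mul_of_nonneg_right l2 g2
    have p5 : |(n : ℝ)| * ‖G n z‖ ≤ t * ‖G n z‖ := mul_le_mul_of_nonneg_right hn g0
    have p6 : 0 ≤ t * ‖G n z‖ := mul_nonneg (by linarith) g0
    linarith
  have q2 : ‖dz (G n) z‖ + ‖dzb (G n) z‖ ≤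
      (3 / m * t) * (‖G n z‖ + ‖G (n + 1) z‖ + ‖G (n - 1) z‖) := by
    have : (3 / m * t) * (‖G n z‖ + ‖G (n + 1) z‖ + ‖G (n - 1) z‖) =
        ((3 * t) * (‖G n z‖ + ‖G (n + 1) z‖ + ‖G (n - 1) z‖)) / m := by
      field_simp
    rw [this, le_div_iff₀ hm]
    linarith
  have q3 : ‖dz (fun w => (χ w : ℂ) * G n w) z‖ ≤ 2 * A * ‖G n z‖ + ‖dz (G n) z‖ := by
    rw [e1]
    refine (norm_add_le _ _).trans ?_
    rw [norm_mul, norm_mul]
    have r1 := mul_le_mul_of_nonneg_right f1 g0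
    have r2 := mul_le_mul_of_nonneg_right hχn (norm_nonneg (dz (G n) z))
    linarith
  have q4 : ‖dzb (fun w => (χ w : ℂ) * G n w) z‖ ≤ 2 * A * ‖G n z‖ + ‖dzb (G n) z‖ := by
    rw [e2]
    refine (norm_add_le _ _).trans ?_
    rw [norm_mul, norm_mul]
    have r1 := mul_le_mul_of_nonneg_right f2 g0
    have r2 := mul_le_mul_of_nonneg_right hχn (norm_nonneg (dzb (G n) z))
    linarith
  have q5 : 4 * A * ‖G n z‖ ≤ (4 * A * t) * (‖G n z‖ + ‖G (n + 1) z‖ + ‖G (n - 1) z‖) := by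
    have r1 : 4 * A * ‖G n z‖ ≤ (4 * A * ‖G n z‖) * t :=
      le_mul_of_one_le_right (by positivity) ht
    have r2 : 0 ≤ (4 * A * t) * (‖G (n + 1) z‖ + ‖G (n - 1) z‖) := by positivity
    linarith
  have q6 := norm_fderiv_le (g := fun w => (χ w : ℂ) * G n w) (z := z)
  calc ‖fderiv ℝ (fun w => (χ w : ℂ) * G n w) z‖
      ≤ 4 * A * ‖G n z‖ + (‖dz (G n) z‖ + ‖dzb (G n) z‖) := by linarith
    _ ≤ (4 * A * t) * (‖G n z‖ + ‖G (n + 1) z‖ + ‖G (n - 1) z‖) +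
        (3 / m * t) * (‖G n z‖ + ‖G (n + 1) z‖ + ‖G (n - 1) z‖) := add_le_add q5 q2
    _ = _ := by ring

end

end LadM

open LadM in
theorem stmtLad (hL : StmtLady) : StmtLad := by
  obtain ⟨CL, hCL, hlady⟩ := hL
  intro V hV hVH φ hφ
  obtain ⟨χ, hχ, hχ1, hχ2⟩ := exists_cutoff hφ.test.cpt hV hφ.test.sub
  have hχ3 : ∀ z ∈ tsupport φ, χ z = 1 := fun z hz => subset_of_mem_nhdsSet hχ2 hz
  obtain ⟨ζ, hζ, hζ1, hζ2⟩ := exists_cutoff hχ.cpt hV hχ.sub
  have hζ3 : ∀ z ∈ tsupport χ, ζ z = 1 := fun z hz => subset_of_mem_nhdsSet hζ2 hz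
  obtain ⟨m, hm, hmy⟩ := height hχ.cpt (hχ.sub.trans hVH)
  obtain ⟨C1, hC1⟩ := hφ.test.cpt.exists_bound_of_continuous hφ.test.smooth.continuous
  obtain ⟨A, hA⟩ := (hχ.cpt.fderiv ℝ).exists_bound_of_continuous
    (hχ.smooth.continuous_fderiv (by simp))
  have hA0 : 0 ≤ A := (norm_nonneg _).trans (hA 0)
  have hC10 : 0 ≤ C1 := (norm_nonneg _).trans (hC1 0)
  set K : ℝ := 4 * A + 3 / m with hK
  have hK0 : 0 ≤ K := by positivity
  refine ⟨ζ, C1 * (CL * (9 * K ^ 2)), ⟨hζ, fun z => (hζ1 z).1⟩, by positivity, ?_⟩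
  intro t G ht hG M hM n hn
  have hn' := abs_le.1 hn
  have ht0 : 0 ≤ t := by linarith
  have hM0 : 0 ≤ M := (integral_nonneg fun z => mul_nonneg (hζ1 z).1 (by positivity)).trans (hM 0)
  set v : ℂ → ℂ := fun w => (χ w : ℂ) * G n w with hv
  have hvs : ContDiff ℝ ∞ v := (contDiff_ofReal hχ.smooth).mul (hG.smooth n)
  have hvc : HasCompactSupport v := hχ.toTest.cpt.mul_right
  have hvn : ∀ z, ‖v z‖ = χ z * ‖G n z‖ := by
    intro z
    rw [hv]
    simp only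
    rw [norm_mul, Complex.norm_real, Real.norm_eq_abs, abs_of_nonneg (hχ1 z).1]
  have hv0 : ∀ z, z ∉ tsupport χ → v z = 0 := by
    intro z hz
    rw [hv]
    simp only
    rw [image_eq_zero_of_notMem_tsupport hz]
    simp
  have hts : tsupport v ⊆ tsupport χ := by
    apply closure_minimal _ (isClosed_tsupport χ)
    intro z hz
    by_contra h
    exact hz (hv0 z h)
  have hint : ∀ k : ℤ, Integrable (fun z => ζ z * ‖G k z‖ ^ 2) := fun k =>
    Cacc.integ hζ.cpt (hζ.smooth.continuous.mul ((hG.smooth k).continuous.norm.pow 2))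
      (fun z hz => by simp [hz])
  -- the square mass
  have m1 : ∫ z, ‖v z‖ ^ 2 ≤ M := by
    refine le_trans (integral_mono_of_nonneg (Eventually.of_forall fun z => by positivity)
      (hint n) (Eventually.of_forall fun z => ?_)) (hM n)
    simp only
    rw [hvn z, mul_pow]
    refine mul_le_mul_of_nonneg_right ?_ (by positivity)
    by_cases hz : z ∈ tsupport χ
    · rw [hζ3 z hz]
      have := hχ1 z
      nlinarith
    · rw [image_eq_zero_of_notMem_tsupport hz]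
      have := (hζ1 z).1
      simpa using this
  -- the energy
  have m2 : ∫ z, ‖fderiv ℝ v z‖ ^ 2 ≤ 9 * K ^ 2 * t ^ 2 * M := by
    have hi : Integrable (fun z => (3 * (K * t) ^ 2) * (ζ z * ‖G n z‖ ^ 2 +
        ζ z * ‖G (n + 1) z‖ ^ 2 + ζ z * ‖G (n - 1) z‖ ^ 2)) :=
      (((hint n).add (hint (n + 1))).add (hint (n - 1))).const_mul _
    have h1 : ∫ z, ‖fderiv ℝ v z‖ ^ 2 ≤ ∫ z, (3 * (K * t) ^ 2) * (ζ z * ‖G n z‖ ^ 2 +
        ζ z * ‖G (n + 1) z‖ ^ 2 + ζ z * ‖G (n - 1) z‖ ^ 2) := by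
      refine integral_mono_of_nonneg (Eventually.of_forall fun z => by positivity) hi
        (Eventually.of_forall fun z => ?_)
      simp only
      by_cases hz : z ∈ tsupport χ
      · rw [hζ3 z hz]
        have h2 := deriv_le ht hG n hn hχ hχ1 hA hm (hχ.sub hz) (hmy z hz)
        rw [← hK] at h2
        have g0 := norm_nonneg (G n z)
        have g1 := norm_nonneg (G (n + 1) z)
        have g2 := norm_nonneg (G (n - 1) z)
        have h3 : (‖G n z‖ + ‖G (n + 1) z‖ + ‖G (n - 1) z‖) ^ 2 ≤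
            3 * (‖G n z‖ ^ 2 + ‖G (n + 1) z‖ ^ 2 + ‖G (n - 1) z‖ ^ 2) := by
          nlinarith [sq_nonneg (‖G n z‖ - ‖G (n + 1) z‖), sq_nonneg (‖G n z‖ - ‖G (n - 1) z‖),
            sq_nonneg (‖G (n + 1) z‖ - ‖G (n - 1) z‖)]
        calc ‖fderiv ℝ v z‖ ^ 2
            ≤ ((K * t) * (‖G n z‖ + ‖G (n + 1) z‖ + ‖G (n - 1) z‖)) ^ 2 :=
              pow_le_pow_left₀ (norm_nonneg _) h2 2
          _ = (K * t) ^ 2 * (‖G n z‖ + ‖G (n + 1) z‖ + ‖G (n - 1) z‖) ^ 2 := by ring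
          _ ≤ (K * t) ^ 2 * (3 * (‖G n z‖ ^ 2 + ‖G (n + 1) z‖ ^ 2 + ‖G (n - 1) z‖ ^ 2)) :=
              mul_le_mul_of_nonneg_left h3 (by positivity)
          _ = _ := by ring
      · have h2 : fderiv ℝ v z = 0 := fderiv_eq_zero_of_notMem fun h => hz (hts h)
        rw [h2, norm_zero]
        have := (hζ1 z).1
        have h3 : 0 ≤ (3 * (K * t) ^ 2) * (ζ z * ‖G n z‖ ^ 2 +
            ζ z * ‖G (n + 1) z‖ ^ 2 + ζ z * ‖G (n - 1) z‖ ^ 2) := by positivity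
        simpa using h3
    refine h1.trans ?_
    have hadd : Integrable (fun z => ζ z * ‖G n z‖ ^ 2 + ζ z * ‖G (n + 1) z‖ ^ 2) :=
      (hint n).add (hint (n + 1))
    rw [integral_const_mul, integral_add hadd (hint (n - 1)), integral_add (hint n) (hint (n + 1))]
    have h4 := hM n
    have h5 := hM (n + 1)
    have h6 := hM (n - 1)
    calc _ ≤ (3 * (K * t) ^ 2) * (M + M + M) :=
          mul_le_mul_of_nonneg_left (by linarith) (by positivity)
      _ = _ := by ring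
  -- the fourth moment
  have m3 : ∫ z, φ z * ‖G n z‖ ^ 4 ≤ C1 * ∫ z, ‖v z‖ ^ 4 := by
    rw [← integral_const_mul]
    refine integral_mono_of_nonneg (Eventually.of_forall fun z =>
      mul_nonneg (hφ.nonneg z) (by positivity)) ?_ (Eventually.of_forall fun z => ?_)
    · refine Integrable.const_mul ?_ _
      refine Continuous.integrable_of_hasCompactSupport (hvs.continuous.norm.pow 4) ?_
      exact hvc.comp_left (g := fun w : ℂ => ‖w‖ ^ 4) (by simp)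
    · simp only
      rw [hvn z, mul_pow, ← mul_assoc]
      refine mul_le_mul_of_nonneg_right ?_ (by positivity)
      by_cases hz : z ∈ tsupport φ
      · rw [hχ3 z hz]
        have := (le_abs_self _).trans (hC1 z)
        linarith
      · rw [image_eq_zero_of_notMem_tsupport hz]
        have := (hχ1 z).1
        positivity
  calc ∫ z, φ z * ‖G n z‖ ^ 4 ≤ C1 * ∫ z, ‖v z‖ ^ 4 := m3
    _ ≤ C1 * (CL * (∫ z, ‖v z‖ ^ 2) * ∫ z, ‖fderiv ℝ v z‖ ^ 2) :=
        mul_le_mul_of_nonneg_left (hlady v hvs hvc) hC10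
    _ ≤ C1 * (CL * M * (9 * K ^ 2 * t ^ 2 * M)) := by
        refine mul_le_mul_of_nonneg_left ?_ hC10
        refine mul_le_mul (mul_le_mul_of_nonneg_left m1 hCL) m2
          (integral_nonneg fun z => by positivity) (by positivity)
    _ = C1 * (CL * (9 * K ^ 2)) * M ^ 2 * t ^ 2 := by ring

end Pool.Agent.A54.Sq
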