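import Pool.Agent.Lib.MP_a54f13_nt.Sq.Spec

/-! The diagonal moments are at most `w(0) + o(1)`. -/

set_option autoImplicit false

namespace Pool.Agent.A54.Sq

open MeasureTheory Filter Topology Set
open scoped ContDiff ComplexConjugate UpperHalfPlane MatrixGroups
open Pool.Agent.A54.Half (H0 qq ff hh)
open Pool.Agent.A54.Pl (Ed mean)

noncomputable section

namespace MaxM

lemma integrable {V : Set ℂ} {φ : ℂ → ℝ} (hφ : TestP V φ) {F : ℂ → ℝ} (hF : Continuous F) :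
    Integrable (fun z => φ z * F z) :=
  (hφ.test.smooth.continuous.mul hF).integrable_of_hasCompactSupport hφ.test.cpt.mul_right

lemma cont {V : Set ℂ} {t : ℝ} {G : ℤ → ℂ → ℂ} (hT : Tow V t G) (n : ℤ) (k : ℕ) :
    Continuous fun z => ‖G n z‖ ^ k := ((hT.smooth n).continuous.norm).pow k

lemma Wi_diag (φ : ℂ → ℝ) (G : ℤ → ℂ → ℂ) (n : ℤ) : Wi φ G n n = ∫ z, φ z * ‖G n z‖ ^ 4 := by
  unfold Wi
  congr 1
  funext z
  ring

/-- `2 W(m, 0) ≤ W(m, m) + W(0, 0)` -/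
lemma Wi_le {V : Set ℂ} {t : ℝ} {G : ℤ → ℂ → ℂ} (hT : Tow V t G) {φ : ℂ → ℝ} (hφ : TestP V φ)
    (m : ℤ) : 2 * Wi φ G m 0 ≤ Wi φ G m m + Wi φ G 0 0 := by
  have i1 : Integrable fun z => φ z * (‖G m z‖ ^ 2 * ‖G m z‖ ^ 2) :=
    integrable hφ ((cont hT m 2).mul (cont hT m 2))
  have i2 : Integrable fun z => φ z * (‖G 0 z‖ ^ 2 * ‖G 0 z‖ ^ 2) :=
    integrable hφ ((cont hT 0 2).mul (cont hT 0 2))
  have i3 : Integrable fun z => φ z * (‖G m z‖ ^ 2 * ‖G 0 z‖ ^ 2) :=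
    integrable hφ ((cont hT m 2).mul (cont hT 0 2))
  unfold Wi
  rw [← integral_const_mul, ← integral_add i1 i2]
  refine integral_mono (i3.const_mul 2) (i1.add i2) fun z => ?_
  show 2 * (φ z * (‖G m z‖ ^ 2 * ‖G 0 z‖ ^ 2)) ≤
    φ z * (‖G m z‖ ^ 2 * ‖G m z‖ ^ 2) + φ z * (‖G 0 z‖ ^ 2 * ‖G 0 z‖ ^ 2)
  have h1 : 0 ≤ φ z * (‖G m z‖ ^ 2 - ‖G 0 z‖ ^ 2) ^ 2 := mul_nonneg (hφ.nonneg z) (sq_nonneg _)
  nlinarith

/-- the iteration -/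
lemma iter {W : ℤ → ℤ → ℝ} {N : ℕ} {e : ℝ} (he : 0 ≤ e)
    (h1 : ∀ m : ℤ, 2 * W m 0 ≤ W m m + W 0 0)
    (h2 : ∀ m : ℤ, 2 * |m| ≤ (N : ℤ) → W m m ≤ (W (2 * m) 0 + W 0 0) / 2 + e) (hW0 : 0 ≤ W 0 0) :
    ∀ (k : ℕ) (d : ℤ), 2 ^ k * |d| ≤ (N : ℤ) →
      W d 0 ≤ W 0 0 + (1 / 4) ^ k * W (2 ^ k * d) 0 + e := by
  intro k
  induction k with
  | zero =>
    intro d _
    simp
    linarith
  | succ k ih =>
    intro d hd
    have hk1 : (1 : ℤ) ≤ 2 ^ k := one_le_pow₀ (by norm_num)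
    have h3 : 2 * |d| ≤ (N : ℤ) := by
      refine le_trans ?_ hd
      rw [pow_succ]
      have : 0 ≤ |d| := abs_nonneg d
      nlinarith
    have h4 := ih (2 * d) (by
      rw [abs_mul]
      have : |(2 : ℤ)| = 2 := rfl
      rw [this]
      rw [pow_succ] at hd
      linarith)
    have h5 : (2 : ℤ) ^ k * (2 * d) = 2 ^ (k + 1) * d := by ring
    rw [h5] at h4
    have h6 := h1 d
    have h7 := h2 d h3
    have h8 : (1 / 4 : ℝ) ^ (k + 1) = 1 / 4 * (1 / 4) ^ k := by ring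
    rw [h8]
    nlinarith

/-- the numbers -/
lemma nums {t κ₁ : ℝ} (ht : 1 ≤ t) (hκ : 0 < κ₁) (hκ4 : κ₁ < 1 / 4) (h8 : 8 ≤ t ^ (κ₁ / 2))
    (h4 : 4 ≤ t ^ (1 / 2 - κ₁)) :
    ∃ N k : ℕ, ((N : ℝ) + 2) ^ 2 ≤ t ∧ (N : ℝ) + 1 ≤ t ^ (1 / 2 - κ₁ / 2) ∧
      ((N : ℝ) + 1) ^ 2 / t ≤ t ^ (-(2 * κ₁)) ∧ 2 ^ k * (2 * t ^ (1 / 2 - 2 * κ₁)) ≤ N ∧
      (1 / 4 : ℝ) ^ k ≤ 4 * t ^ (-κ₁) := by
  have ht0 : 0 < t := by linarith
  set u := t ^ (1 / 2 - κ₁) with hu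
  have hu0 : 0 < u := by linarith
  have hf1 : (⌊u / 2⌋₊ : ℝ) ≤ u / 2 := Nat.floor_le (by positivity)
  have hf2 : u / 2 < (⌊u / 2⌋₊ : ℝ) + 1 := Nat.lt_floor_add_one _
  obtain ⟨k, hk1, hk2⟩ := exists_nat_pow_near (x := t ^ (κ₁ / 2)) (y := 2) (by linarith)
    (by norm_num)
  have hu2 : u ^ 2 = t ^ (-(2 * κ₁)) * t := by
    rw [hu, ← Real.rpow_natCast, ← Real.rpow_mul ht0.le]
    conv_rhs => rw [← Real.rpow_one t, ← Real.rpow_mul ht0.le, ← Real.rpow_add ht0]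
    congr 1
    push_cast
    ring
  have hd1 : t ^ (-(2 * κ₁)) ≤ 1 := Real.rpow_le_one_of_one_le_of_nonpos ht (by linarith)
  refine ⟨⌊u / 2⌋₊, k, ?_, ?_, ?_, ?_, ?_⟩
  · calc ((⌊u / 2⌋₊ : ℝ) + 2) ^ 2 ≤ u ^ 2 := by
          apply pow_le_pow_left₀ (by positivity)
          linarith
      _ ≤ t := by rw [hu2]; nlinarith
  · have : u ≤ t ^ (1 / 2 - κ₁ / 2) := Real.rpow_le_rpow_of_exponent_le ht (by linarith)
    linarith
  · rw [div_le_iff₀ ht0, ← hu2]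
    apply pow_le_pow_left₀ (by positivity)
    linarith
  · calc (2 : ℝ) ^ k * (2 * t ^ (1 / 2 - 2 * κ₁)) ≤ t ^ (κ₁ / 2) * (2 * t ^ (1 / 2 - 2 * κ₁)) := by
          gcongr
      _ = 2 * (t ^ (κ₁ / 2) * t ^ (1 / 2 - 2 * κ₁)) := by ring
      _ = 2 * t ^ (1 / 2 - κ₁ - κ₁ / 2) := by
          rw [← Real.rpow_add ht0]
          congr 2
          ring
      _ ≤ u / 4 := by
          have h5 : t ^ (κ₁ / 2) * t ^ (1 / 2 - κ₁ - κ₁ / 2) = u := by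
            rw [hu, ← Real.rpow_add ht0]
            congr 1
            ring
          have h6 : 0 < t ^ (1 / 2 - κ₁ - κ₁ / 2) := by positivity
          nlinarith
      _ ≤ (⌊u / 2⌋₊ : ℝ) := by linarith
  · have h5 : (1 / 2 : ℝ) ^ k ≤ 2 * t ^ (-(κ₁ / 2)) := by
      rw [Real.rpow_neg ht0.le, ← div_eq_mul_inv, le_div_iff₀ (by positivity), one_div, inv_pow,
        inv_mul_le_iff₀ (by positivity)]
      rw [pow_succ] at hk2
      exact hk2.le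
    have h6 : (1 / 4 : ℝ) ^ k = ((1 / 2 : ℝ) ^ k) ^ 2 := by
      rw [← pow_mul, mul_comm k 2, pow_mul]
      norm_num
    have h7 : t ^ (-κ₁) = (t ^ (-(κ₁ / 2))) ^ 2 := by
      rw [← Real.rpow_natCast, ← Real.rpow_mul ht0.le]
      congr 1
      push_cast
      ring
    rw [h6, h7]
    calc ((1 / 2 : ℝ) ^ k) ^ 2 ≤ (2 * t ^ (-(κ₁ / 2))) ^ 2 := by
          apply pow_le_pow_left₀ (by positivity) h5
      _ = _ := by ring

end MaxM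

theorem stmtMax (hCW : StmtCosW) (hEx : StmtExp) : StmtMax := by
  intro V hV hVH c x δ κ hδ hδ2 hκ hκ2 φ hφ
  set κ₁ := κ / 2 with hκ₁
  have hκ₁0 : 0 < κ₁ := by linarith
  obtain ⟨ζ₁, C₁, hζ₁, hC₁, hW⟩ := hCW V hV hVH φ hφ.test
  obtain ⟨C₂, hC₂, hE₂⟩ := hEx V hV hVH c x δ (κ₁ / 2) (κ₁ / 2) hδ hδ2 (by linarith) (by linarith)
    (by linarith) ζ₁ hζ₁
  obtain ⟨C₃, hC₃, hE₃⟩ := hEx V hV hVH c x δ (κ₁ / 2) (κ₁ / 2) hδ hδ2 (by linarith) (by linarith)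
    (by linarith) φ hφ
  have hhalf : 0 < κ₁ / 2 := by linarith
  have hq4 : 0 < 1 / 2 - κ₁ := by linarith
  obtain ⟨t1, ht1⟩ := ((tendsto_rpow_atTop hhalf).eventually_ge_atTop 8).exists_forall_of_atTop
  obtain ⟨t2, ht2⟩ := ((tendsto_rpow_atTop hq4).eventually_ge_atTop 4).exists_forall_of_atTop
  set T0 := max (max t1 t2) 1 with hT0
  have hT01 : 1 ≤ T0 := le_max_right _ _
  refine ⟨4 * C₃ + 2 * (C₁ * C₂) + C₃ * T0 ^ κ₁, κ₁ / 2, by positivity, hhalf,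
    fun t a ρ G hD n hn => ?_⟩
  have ht := hD.one_le
  have ht0 : 0 < t := by linarith
  have hT := hD.tow
  rw [← MaxM.Wi_diag φ G 0]
  have hW00 : 0 ≤ Wi φ G 0 0 := by
    unfold Wi
    exact integral_nonneg fun z => mul_nonneg (hφ.nonneg z) (by positivity)
  rcases le_total T0 t with htt | htt
  · have h8 : 8 ≤ t ^ (κ₁ / 2) :=
      ht1 t ((le_max_left _ _).trans ((le_max_left _ _).trans htt))
    have h4 : 4 ≤ t ^ (1 / 2 - κ₁) :=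
      ht2 t ((le_max_right _ _).trans ((le_max_left _ _).trans htt))
    obtain ⟨N, k, n1, n2, n3, n4, n5⟩ := MaxM.nums ht hκ₁0 (by linarith) h8 h4
    have hUp : Up ζ₁ G (N + 1) (C₂ * t ^ (κ₁ / 2)) := by
      intro m hm
      apply hE₂ t a ρ G hD m
      have h6 : ((|m| : ℤ) : ℝ) ≤ (((N + 1 : ℕ) : ℤ) : ℝ) := by exact_mod_cast hm
      push_cast at h6
      linarith
    have hcos := (hW t G ht hT N _ n1 hUp).1
    set e := C₁ * (((N : ℝ) + 1) ^ 2 * (C₂ * t ^ (κ₁ / 2)) / t) with he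
    have he0 : 0 ≤ e := by positivity
    have he1 : e ≤ C₁ * C₂ * t ^ (-(κ₁ / 2)) := by
      have h5 : e = C₁ * C₂ * (((N : ℝ) + 1) ^ 2 / t * t ^ (κ₁ / 2)) := by
        rw [he]; ring
      rw [h5]
      apply mul_le_mul_of_nonneg_left _ (by positivity)
      calc ((N : ℝ) + 1) ^ 2 / t * t ^ (κ₁ / 2) ≤ t ^ (-(2 * κ₁)) * t ^ (κ₁ / 2) := by gcongr
        _ = t ^ (-(2 * κ₁) + κ₁ / 2) := (Real.rpow_add ht0 _ _).symm
        _ ≤ t ^ (-(κ₁ / 2)) := Real.rpow_le_rpow_of_exponent_le ht (by linarith)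
    have hdiag : ∀ m : ℤ, 2 * |m| ≤ (N : ℤ) →
        Wi φ G m m ≤ (Wi φ G (2 * m) 0 + Wi φ G 0 0) / 2 + e := by
      intro m hm
      have h5 := (abs_le.mp (hcos m m (by linarith))).2
      rw [sub_self, ← two_mul] at h5
      linarith
    have hiter := MaxM.iter (W := Wi φ G) he0 (MaxM.Wi_le hT hφ) hdiag hW00 k
    have hsmall : ∀ m : ℤ, |m| ≤ (N : ℤ) → Wi φ G m 0 ≤ C₃ * t ^ (κ₁ / 2) := by
      intro m hm
      have h5 := MaxM.Wi_le hT hφ m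
      have h6 : Wi φ G m m ≤ C₃ * t ^ (κ₁ / 2) := by
        rw [MaxM.Wi_diag]
        apply hE₃ t a ρ G hD m
        have h7 : ((|m| : ℤ) : ℝ) ≤ ((N : ℤ) : ℝ) := by exact_mod_cast hm
        push_cast at h7
        linarith
      have h7 : Wi φ G 0 0 ≤ C₃ * t ^ (κ₁ / 2) := by
        rw [MaxM.Wi_diag]
        apply hE₃ t a ρ G hD 0
        simp
        positivity
      linarith
    have hκt : t ^ (1 / 2 - κ) = t ^ (1 / 2 - 2 * κ₁) := by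
      congr 1
      rw [hκ₁]
      ring
    rw [hκt] at hn
    have h2k : (2 : ℤ) ^ k * |2 * n| ≤ (N : ℤ) := by
      have h5 : (((2 : ℤ) ^ k * |2 * n| : ℤ) : ℝ) ≤ ((N : ℤ) : ℝ) := by
        push_cast
        rw [abs_mul, abs_of_pos (by norm_num : (0 : ℝ) < 2)]
        calc (2 : ℝ) ^ k * (2 * |(n : ℝ)|) ≤ 2 ^ k * (2 * t ^ (1 / 2 - 2 * κ₁)) := by gcongr
          _ ≤ N := n4
      exact_mod_cast h5
    have hk1 : (1 : ℤ) ≤ 2 ^ k := one_le_pow₀ (by norm_num)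
    have h2n : 2 * |n| ≤ (N : ℤ) := by
      have h5 : |2 * n| = 2 * |n| := by
        rw [abs_mul]
        rfl
      rw [h5] at h2k
      have h6 : 0 ≤ |n| := abs_nonneg n
      nlinarith
    have h5 := hiter (2 * n) h2k
    have h6 := hsmall (2 ^ k * (2 * n)) (by
      rw [abs_mul, abs_of_nonneg (by linarith : (0 : ℤ) ≤ 2 ^ k)]
      exact h2k)
    have h7 : (1 / 4 : ℝ) ^ k * Wi φ G (2 ^ k * (2 * n)) 0 ≤ 4 * C₃ * t ^ (-(κ₁ / 2)) := by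
      calc (1 / 4 : ℝ) ^ k * Wi φ G (2 ^ k * (2 * n)) 0 ≤
            (1 / 4 : ℝ) ^ k * (C₃ * t ^ (κ₁ / 2)) :=
            mul_le_mul_of_nonneg_left h6 (by positivity)
        _ ≤ (4 * t ^ (-κ₁)) * (C₃ * t ^ (κ₁ / 2)) := by gcongr
        _ = 4 * C₃ * (t ^ (-κ₁) * t ^ (κ₁ / 2)) := by ring
        _ = 4 * C₃ * t ^ (-(κ₁ / 2)) := by
            rw [← Real.rpow_add ht0]
            congr 2
            ring
    have h8 := hdiag n h2n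
    have h9 : 0 ≤ C₃ * T0 ^ κ₁ * t ^ (-(κ₁ / 2)) := by positivity
    have h10 : 0 ≤ C₃ * t ^ (-(κ₁ / 2)) := by positivity
    have h11 : 0 ≤ C₁ * C₂ * t ^ (-(κ₁ / 2)) := by positivity
    calc Wi φ G n n ≤ Wi φ G 0 0 + (4 * C₃ * t ^ (-(κ₁ / 2))) / 2 + 3 / 2 * e := by linarith
      _ ≤ Wi φ G 0 0 + (4 * C₃ + 2 * (C₁ * C₂) + C₃ * T0 ^ κ₁) * t ^ (-(κ₁ / 2)) := by
          nlinarith
  · have h5 : Wi φ G n n ≤ C₃ * t ^ (κ₁ / 2) := by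
      rw [MaxM.Wi_diag]
      apply hE₃ t a ρ G hD n
      refine hn.trans ?_
      exact Real.rpow_le_rpow_of_exponent_le ht (by linarith)
    have h6 : C₃ * t ^ (κ₁ / 2) ≤ C₃ * T0 ^ κ₁ * t ^ (-(κ₁ / 2)) := by
      calc C₃ * t ^ (κ₁ / 2) = C₃ * (t ^ κ₁ * t ^ (-(κ₁ / 2))) := by
            rw [← Real.rpow_add ht0]
            congr 2
            ring
        _ ≤ C₃ * (T0 ^ κ₁ * t ^ (-(κ₁ / 2))) := by
            have : t ^ κ₁ ≤ T0 ^ κ₁ := Real.rpow_le_rpow ht0.le htt hκ₁0.le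
            gcongr
        _ = _ := by ring
    have h7 : 0 ≤ (4 * C₃ + 2 * (C₁ * C₂)) * t ^ (-(κ₁ / 2)) := by positivity
    calc Wi φ G n n ≤ C₃ * T0 ^ κ₁ * t ^ (-(κ₁ / 2)) := h5.trans h6
      _ ≤ Wi φ G 0 0 + ((4 * C₃ + 2 * (C₁ * C₂)) * t ^ (-(κ₁ / 2)) +
          C₃ * T0 ^ κ₁ * t ^ (-(κ₁ / 2))) := by linarith
      _ = _ := by ring

end

end Pool.Agent.A54.Sq
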