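import Pool.Agent.Lib.MP_a54f13_nt.Sq.Spec

/-!
# Package `Sq`, module `Pos`: positivity for the tower
-/

set_option autoImplicit false

namespace Pool.Agent.A54.Sq

open MeasureTheory Filter Topology Set
open scoped ContDiff ComplexConjugate UpperHalfPlane MatrixGroups
open Pool.Agent.A54.Half (H0 qq ff hh)

namespace PosM

noncomputable section

variable {V : Set ℂ} {t : ℝ} {G : ℤ → ℂ → ℂ} {φ : ℂ → ℝ}

lemma integrable_W (hφ : TestR V φ) (hG : Tow V t G) (n m : ℤ) :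
    Integrable (fun z => φ z * (‖G n z‖ ^ 2 * ‖G m z‖ ^ 2)) := by
  refine Continuous.integrable_of_hasCompactSupport ?_ hφ.cpt.mul_right
  exact hφ.smooth.continuous.mul (((hG.smooth n).continuous.norm.pow 2).mul
    ((hG.smooth m).continuous.norm.pow 2))

lemma W_zero : Wi φ G 0 0 = ∫ z, φ z * ‖G 0 z‖ ^ 4 := by
  unfold Wi
  refine integral_congr_ae (Eventually.of_forall fun z => ?_)
  simp only
  ring

lemma W_neg (hG : Tow V t G) (n : ℤ) : Wi φ G (-n) 0 = Wi φ G n 0 := by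
  have h : ∀ z, ‖G (-n) z‖ = ‖G n z‖ := by
    intro z
    rw [hG.neg, norm_mul, norm_zpow, norm_neg, norm_one, one_zpow, one_mul, RCLike.norm_conj]
  unfold Wi
  simp only [h]

/-- the sum with the kernel -/
lemma sum_K (hφ : TestR V φ) (hG : Tow V t G) (N : ℕ) :
    ∑ d ∈ Finset.Icc (-(2 * (N : ℤ))) (2 * (N : ℤ)), KK N d * Wi φ G d 0 =
      ∫ z, φ z * (SS G N z * ‖G 0 z‖ ^ 2) := by
  have h1 : ∀ d : ℤ, KK N d * Wi φ G d 0 =
      ∫ z, KK N d * (φ z * (‖G d z‖ ^ 2 * ‖G 0 z‖ ^ 2)) := by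
    intro d
    rw [integral_const_mul]
    rfl
  simp only [h1]
  rw [← integral_finsetSum _ (fun d _ => (integrable_W hφ hG d 0).const_mul _)]
  refine integral_congr_ae (Eventually.of_forall fun z => ?_)
  simp only
  unfold SS
  rw [Finset.sum_mul, Finset.mul_sum]
  refine Finset.sum_congr rfl fun d _ => ?_
  ring

/-- positivity of the double sum -/
lemma pos (hφ : TestP V φ) (hG : Tow V t G) (N : ℕ) :
    0 ≤ ∑ n ∈ Finset.Icc (-(N : ℤ)) N, ∑ m ∈ Finset.Icc (-(N : ℤ)) N,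
      (-1) ^ (n + m) * Wi φ G n m := by
  have h1 : ∀ n m : ℤ, (-1 : ℝ) ^ (n + m) * Wi φ G n m =
      ∫ z, (-1 : ℝ) ^ (n + m) * (φ z * (‖G n z‖ ^ 2 * ‖G m z‖ ^ 2)) := by
    intro n m
    rw [integral_const_mul]
    rfl
  have hi : ∀ n m : ℤ, Integrable (fun z => (-1 : ℝ) ^ (n + m) *
      (φ z * (‖G n z‖ ^ 2 * ‖G m z‖ ^ 2))) := fun n m => (integrable_W hφ.test hG n m).const_mul _
  have h2 : ∀ n : ℤ, ∑ m ∈ Finset.Icc (-(N : ℤ)) N, (-1 : ℝ) ^ (n + m) * Wi φ G n m =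
      ∫ z, ∑ m ∈ Finset.Icc (-(N : ℤ)) N, (-1 : ℝ) ^ (n + m) *
        (φ z * (‖G n z‖ ^ 2 * ‖G m z‖ ^ 2)) := by
    intro n
    rw [integral_finsetSum _ (fun m _ => hi n m)]
    exact Finset.sum_congr rfl fun m _ => h1 n m
  simp only [h2]
  rw [← integral_finsetSum _ (fun n _ => integrable_finsetSum _ fun m _ => hi n m)]
  refine integral_nonneg fun z => ?_
  have h3 : ∑ n ∈ Finset.Icc (-(N : ℤ)) N, ∑ m ∈ Finset.Icc (-(N : ℤ)) N, (-1 : ℝ) ^ (n + m) *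
        (φ z * (‖G n z‖ ^ 2 * ‖G m z‖ ^ 2)) =
      φ z * (∑ n ∈ Finset.Icc (-(N : ℤ)) N, (-1 : ℝ) ^ n * ‖G n z‖ ^ 2) ^ 2 := by
    rw [sq, Finset.sum_mul_sum, Finset.mul_sum]
    refine Finset.sum_congr rfl fun n _ => ?_
    rw [Finset.mul_sum]
    refine Finset.sum_congr rfl fun m _ => ?_
    rw [zpow_add₀ (by norm_num)]
    ring
  show 0 ≤ ∑ n ∈ Finset.Icc (-(N : ℤ)) N, ∑ m ∈ Finset.Icc (-(N : ℤ)) N, (-1 : ℝ) ^ (n + m) *
        (φ z * (‖G n z‖ ^ 2 * ‖G m z‖ ^ 2))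
  rw [h3]
  exact mul_nonneg (hφ.nonneg z) (sq_nonneg _)

end

end PosM

open PosM in
theorem stmtPos (hW : StmtCosW) (hF : StmtFej) : StmtPos := by
  intro V hV hVH φ hφ
  obtain ⟨ζ, C, hζ, hC0, h1⟩ := hW V hV hVH φ hφ.test
  refine ⟨ζ, 36 * C, hζ, by positivity, ?_⟩
  intro t G ht hG N B hN hB
  have hB0 : 0 ≤ B := by
    refine le_trans (integral_nonneg fun z => ?_) (hB 0 (by simp; positivity))
    exact mul_nonneg (hζ.nonneg z) (by positivity)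
  obtain ⟨hcos, hodd⟩ := h1 t G ht hG (2 * N) B (by push_cast; exact hN) hB
  have he : 0 ≤ C * ((((2 * N : ℕ) : ℝ) + 1) ^ 2 * B / t) := by positivity
  have key := hF N _ (Wi φ G) he (W_neg hG)
    (fun n m hn hm => hcos n m (by push_cast; linarith))
    (fun n hn hn2 => hodd n hn (by push_cast; linarith)) (pos hφ hG N)
  rw [W_zero, sum_K hφ.test hG] at key
  refine key.trans ?_
  have h2 : (((2 * N : ℕ) : ℝ) + 1) ^ 2 ≤ 4 * ((N : ℝ) + 1) ^ 2 := by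
    push_cast
    nlinarith [(Nat.cast_nonneg N : (0 : ℝ) ≤ N)]
  have h3 : (((2 * N : ℕ) : ℝ) + 1) ^ 2 * B / t ≤ 4 * ((N : ℝ) + 1) ^ 2 * B / t := by
    gcongr
  have h4 := mul_le_mul_of_nonneg_left h3 hC0
  have h5 : C * (4 * ((N : ℝ) + 1) ^ 2 * B / t) = 4 * (C * (((N : ℝ) + 1) ^ 2 * B / t)) := by ring
  rw [h5] at h4
  linarith

end Pool.Agent.A54.Sq
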