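import Pool.Agent.Lib.MP_a54f13_nt.Sq.Spec2
import Pool.Agent.Lib.MP_a54f13_nt.Sq.Key
import Pool.Agent.Lib.MP_a54f13_nt.Sq.Pos

/-! Positive definiteness for the tower. -/

set_option autoImplicit false

namespace Pool.Agent.A54.Sq

open MeasureTheory Filter Topology Set
open scoped ContDiff ComplexConjugate UpperHalfPlane MatrixGroups
open Pool.Agent.A54.Half (H0 qq ff hh)

namespace Po2M

noncomputable section

variable {V : Set ℂ} {t : ℝ} {G : ℤ → ℂ → ℂ} {φ : ℂ → ℝ}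

lemma integrable_P (hφ : TestR V φ) (hG : Tow V t G) (n m : ℤ) :
    Integrable (fun z => φ z * (pp G n z * conj (pp G m z)).re) := by
  refine Continuous.integrable_of_hasCompactSupport ?_ hφ.cpt.mul_right
  have hp : ∀ n, Continuous (pp G n) := fun n =>
    (hG.smooth (n + 1)).continuous.mul (Complex.continuous_conj.comp (hG.smooth n).continuous)
  exact hφ.smooth.continuous.mul (Complex.continuous_re.comp
    ((hp n).mul (Complex.continuous_conj.comp (hp m))))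

/-- positivity of the quadratic form of the `P(n, m)` -/
lemma pos (hφ : TestP V φ) (hG : Tow V t G) (I : Finset ℤ) (a : ℤ → ℝ) :
    0 ≤ ∑ n ∈ I, ∑ m ∈ I, a n * a m * Pj φ G n m := by
  have h1 : ∀ n m : ℤ, a n * a m * Pj φ G n m =
      ∫ z, a n * a m * (φ z * (pp G n z * conj (pp G m z)).re) := by
    intro n m
    rw [integral_const_mul]
    rfl
  have hi : ∀ n m : ℤ, Integrable (fun z => a n * a m *
      (φ z * (pp G n z * conj (pp G m z)).re)) := fun n m =>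
    (integrable_P hφ.test hG n m).const_mul _
  have h2 : ∀ n : ℤ, ∑ m ∈ I, a n * a m * Pj φ G n m =
      ∫ z, ∑ m ∈ I, a n * a m * (φ z * (pp G n z * conj (pp G m z)).re) := by
    intro n
    rw [integral_finsetSum _ (fun m _ => hi n m)]
    exact Finset.sum_congr rfl fun m _ => h1 n m
  simp only [h2]
  rw [← integral_finsetSum _ (fun n _ => integrable_finsetSum _ fun m _ => hi n m)]
  refine integral_nonneg fun z => ?_
  have h3 : ∑ n ∈ I, ∑ m ∈ I, a n * a m * (φ z * (pp G n z * conj (pp G m z)).re) =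
      φ z * ((∑ n ∈ I, (a n : ℂ) * pp G n z) * conj (∑ n ∈ I, (a n : ℂ) * pp G n z)).re := by
    rw [map_sum, Finset.sum_mul_sum, Complex.re_sum, Finset.mul_sum]
    refine Finset.sum_congr rfl fun n _ => ?_
    rw [Complex.re_sum, Finset.mul_sum]
    refine Finset.sum_congr rfl fun m _ => ?_
    have h4 : (a n : ℂ) * pp G n z * conj ((a m : ℂ) * pp G m z) =
        ((a n * a m : ℝ) : ℂ) * (pp G n z * conj (pp G m z)) := by
      rw [map_mul, Complex.conj_ofReal]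
      push_cast
      ring
    rw [h4, Complex.re_ofReal_mul]
    ring
  show 0 ≤ ∑ n ∈ I, ∑ m ∈ I, a n * a m * (φ z * (pp G n z * conj (pp G m z)).re)
  rw [h3, Complex.mul_conj, Complex.ofReal_re]
  exact mul_nonneg (hφ.nonneg z) (Complex.normSq_nonneg _)

/-- the double sum with the kernel -/
lemma sum_KK (hφ : TestR V φ) (hG : Tow V t G) (N : ℕ) :
    ∑ d ∈ Finset.Icc (-(2 * (N : ℤ))) (2 * (N : ℤ)),
      ∑ d' ∈ Finset.Icc (-(2 * (N : ℤ))) (2 * (N : ℤ)), KK N d * KK N d' * Wi φ G d d' =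
      ∫ z, φ z * SS G N z ^ 2 := by
  have h1 : ∀ d d' : ℤ, KK N d * KK N d' * Wi φ G d d' =
      ∫ z, KK N d * KK N d' * (φ z * (‖G d z‖ ^ 2 * ‖G d' z‖ ^ 2)) := by
    intro d d'
    rw [integral_const_mul]
    rfl
  have hi : ∀ d d' : ℤ, Integrable (fun z => KK N d * KK N d' *
      (φ z * (‖G d z‖ ^ 2 * ‖G d' z‖ ^ 2))) := fun d d' =>
    (PosM.integrable_W hφ hG d d').const_mul _
  have h2 : ∀ d : ℤ, ∑ d' ∈ Finset.Icc (-(2 * (N : ℤ))) (2 * (N : ℤ)),
      KK N d * KK N d' * Wi φ G d d' =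
      ∫ z, ∑ d' ∈ Finset.Icc (-(2 * (N : ℤ))) (2 * (N : ℤ)), KK N d * KK N d' *
        (φ z * (‖G d z‖ ^ 2 * ‖G d' z‖ ^ 2)) := by
    intro d
    rw [integral_finsetSum _ (fun m _ => hi d m)]
    exact Finset.sum_congr rfl fun m _ => h1 d m
  simp only [h2]
  rw [← integral_finsetSum _ (fun n _ => integrable_finsetSum _ fun m _ => hi n m)]
  refine integral_congr_ae (Eventually.of_forall fun z => ?_)
  simp only
  unfold SS
  rw [sq, Finset.sum_mul_sum, Finset.mul_sum]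
  refine Finset.sum_congr rfl fun n _ => ?_
  rw [Finset.mul_sum]
  refine Finset.sum_congr rfl fun m _ => ?_
  ring

end

end Po2M

theorem stmtPo2 (hW : StmtCosW) (hPW : StmtCPW) (hF : StmtFe2) : StmtPo2 := by
  intro V hV hVH φ hφ
  obtain ⟨ζ₁, C₁, hζ₁, hC₁, h1⟩ := hW V hV hVH φ hφ.test
  obtain ⟨ζ₂, C₂, hζ₂, hC₂, h2⟩ := hPW V hV hVH φ hφ.test
  obtain ⟨ζ, hζ, z1, z2, -, -⟩ := KeyM.major hV hζ₁ hζ₂ hφ hφ
  refine ⟨ζ, 21 * 169 * (C₁ + C₂), hζ, by positivity, ?_⟩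
  intro t G ht hG N B hN hUp
  have c4 : ∀ n : ℤ, Continuous fun z => ‖G n z‖ ^ 4 := fun n =>
    (hG.smooth n).continuous.norm.pow 4
  have up : ∀ ψ : ℂ → ℝ, TestP V ψ → (∀ z, ψ z ≤ ζ z) → Up ψ G (8 * N + 12 + 1) B :=
    fun ψ hψ hle n hn => (KeyM.mono hψ hζ hle (c4 n) fun z => by positivity).trans (hUp n hn)
  have hB0 : 0 ≤ B := by
    refine le_trans (integral_nonneg fun z => ?_) (hUp 0 (by simp; positivity))
    exact mul_nonneg (hζ.nonneg z) (by positivity)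
  have hN' : (((8 * N + 12 : ℕ) : ℝ) + 2) ^ 2 ≤ t := by
    push_cast
    have : (8 * (N : ℝ) + 12 + 2) = 8 * N + 14 := by ring
    rw [this]
    exact hN
  obtain ⟨hcos, hodd⟩ := h1 t G ht hG (8 * N + 12) B hN' (up ζ₁ hζ₁ z1)
  have hcp := h2 t G ht hG (8 * N + 12) B hN' (up ζ₂ hζ₂ z2)
  have hn0 : (0 : ℝ) ≤ N := Nat.cast_nonneg N
  set X : ℝ := (((8 * N + 12 : ℕ) : ℝ) + 1) ^ 2 * B / t with hX
  have hX0 : 0 ≤ X := by positivity
  have e1 : C₁ * X ≤ (C₁ + C₂) * X := mul_le_mul_of_nonneg_right (by linarith) hX0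
  have e2 : C₂ * X ≤ (C₁ + C₂) * X := mul_le_mul_of_nonneg_right (by linarith) hX0
  have key := hF N ((C₁ + C₂) * X) (Wi φ G) (Pj φ G) (by positivity) (PosM.W_neg hG)
    (fun n m hnm => (hcos n m (by push_cast; linarith)).trans e1)
    (fun n m hnm => (hcp n m (by push_cast; linarith)).trans e2)
    (fun n hn hn2 => (hodd n hn (by push_cast; linarith)).trans e1)
    (fun a => Po2M.pos hφ hG _ a)
  rw [Po2M.sum_KK hφ.test hG, PosM.sum_K hφ.test hG] at key
  refine key.trans ?_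
  have h3 : X ≤ 169 * (((N : ℝ) + 1) ^ 2 * B / t) := by
    have h4 : (((8 * N + 12 : ℕ) : ℝ) + 1) ^ 2 ≤ 169 * ((N : ℝ) + 1) ^ 2 := by
      push_cast
      nlinarith
    have h5 : (((8 * N + 12 : ℕ) : ℝ) + 1) ^ 2 * B / t ≤ 169 * ((N : ℝ) + 1) ^ 2 * B / t := by
      gcongr
    rw [hX]
    refine h5.trans (le_of_eq ?_)
    ring
  have h4 := mul_le_mul_of_nonneg_left h3 (show 0 ≤ 21 * (C₁ + C₂) by positivity)
  have h5 : 21 * (C₁ + C₂) * (169 * (((N : ℝ) + 1) ^ 2 * B / t)) =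
      21 * 169 * (C₁ + C₂) * (((N : ℝ) + 1) ^ 2 * B / t) := by ring
  rw [h5] at h4
  linarith

end Pool.Agent.A54.Sq
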