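import Pool.Agent.Lib.MP_a54f13_nt.Sq.Spec
import Pool.Agent.Lib.MP_a54f13_nt.Cacc
import Pool.Agent.Lib.MP_a54f13_nt.Half

/-!
The local relations between the quartic moments of the tower, from one integration by parts.
-/

set_option autoImplicit false

namespace Pool.Agent.A54.Sq.RelM

open MeasureTheory Filter Topology Set
open scoped ContDiff ComplexConjugate UpperHalfPlane MatrixGroups
open Pool.Agent.A54.Half (H0)

noncomputable section

variable {V : Set ℂ} {t : ℝ} {G : ℤ → ℂ → ℂ}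

lemma fderiv_im (z v : ℂ) : fderiv ℝ (fun w : ℂ => (w.im : ℂ)) z v = (v.im : ℂ) := by
  have h : HasFDerivAt (fun w : ℂ => (w.im : ℂ)) (Complex.ofRealCLM.comp Complex.imCLM) z :=
    (Complex.ofRealCLM.comp Complex.imCLM).hasFDerivAt
  rw [h.fderiv]
  simp

lemma dz_im (z : ℂ) : dz (fun w : ℂ => (w.im : ℂ)) z = -Complex.I := by
  unfold dz
  rw [fderiv_im, fderiv_im]
  simp

lemma dzb_im (z : ℂ) : dzb (fun w : ℂ => (w.im : ℂ)) z = Complex.I := by
  unfold dzb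
  rw [fderiv_im, fderiv_im]
  simp

lemma contDiff_imC : ContDiff ℝ ∞ (fun w : ℂ => (w.im : ℂ)) :=
  contDiff_ofReal Half.contDiff_im

/-- `u_n = G_n conj G_n` -/
def uu (G : ℤ → ℂ → ℂ) (n : ℤ) (z : ℂ) : ℂ := G n z * conj (G n z)

lemma uu_eq (n : ℤ) (z : ℂ) : uu G n z = ((‖G n z‖ ^ 2 : ℝ) : ℂ) := by
  unfold uu
  rw [Complex.mul_conj']
  push_cast
  rfl

lemma contDiff_uu (hG : ∀ n, ContDiff ℝ ∞ (G n)) (n : ℤ) : ContDiff ℝ ∞ (uu G n) :=
  (hG n).mul (contDiff_conj (hG n))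

lemma contDiff_pp (hG : ∀ n, ContDiff ℝ ∞ (G n)) (n : ℤ) : ContDiff ℝ ∞ (pp G n) :=
  (hG (n + 1)).mul (contDiff_conj (hG n))

/-- `i y dz u_n = λ_n p_n - λ_{n-1} p_{n-1}` -/
lemma dz_uu (hG : Tow V t G) (n : ℤ) {z : ℂ} (hz : z ∈ V) :
    Complex.I * (z.im : ℂ) * dz (uu G n) z =
      ((la t n : ℝ) : ℂ) * pp G n z - ((la t (n - 1) : ℝ) : ℂ) * pp G (n - 1) z := by
  have h1 : dz (uu G n) z = dz (G n) z * conj (G n z) + G n z * conj (dzb (G n) z) := by
    unfold uu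
    rw [dz_mul (hG.smooth n) (contDiff_conj (hG.smooth n)), dz_conj (hG.smooth n)]
  have h2 := hG.up n z hz
  have h3 := hG.down (n - 1) z hz
  rw [sub_add_cancel] at h3
  have h4 := congrArg (starRingEnd ℂ) h3
  simp only [map_sub, map_neg, map_mul, Complex.conj_I, Complex.conj_ofReal, map_add,
    map_one, map_intCast] at h4
  unfold pp
  rw [h1, sub_add_cancel]
  push_cast at h4 ⊢
  linear_combination (conj (G n z)) * h2 + (G n z) * h4

/-- `- i y dzb p_m - p_m = λ_m (u_{m+1} - u_m)` -/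
lemma dzb_pp (hG : Tow V t G) (m : ℤ) {z : ℂ} (hz : z ∈ V) :
    -(Complex.I * (z.im : ℂ) * dzb (pp G m) z) - pp G m z =
      ((la t m : ℝ) : ℂ) * (uu G (m + 1) z - uu G m z) := by
  have h1 : dzb (pp G m) z = dzb (G (m + 1)) z * conj (G m z) +
      G (m + 1) z * conj (dz (G m) z) := by
    unfold pp
    rw [dzb_mul (hG.smooth (m + 1)) (contDiff_conj (hG.smooth m)), dzb_conj (hG.smooth m)]
  have h2 := hG.down m z hz
  have h3 := hG.up m z hz
  have h4 := congrArg (starRingEnd ℂ) h3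
  simp only [map_neg, map_mul, Complex.conj_I, Complex.conj_ofReal, map_add,
    map_intCast] at h4
  unfold uu
  rw [h1]
  unfold pp
  linear_combination (conj (G m z)) * h2 + (G (m + 1) z) * h4

/-! ### Bounds -/

lemma four_le {a b c d : ℝ} : a * b * (c * d) ≤ (a ^ 4 + b ^ 4 + c ^ 4 + d ^ 4) / 4 := by
  nlinarith [sq_nonneg (a * b - c * d), sq_nonneg (a ^ 2 - b ^ 2), sq_nonneg (c ^ 2 - d ^ 2)]

lemma integ {ζ : ℂ → ℝ} (hζ : TestR V ζ) {F : ℂ → ℝ} (hF : Continuous F) :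
    Integrable (fun z => ζ z * F z) :=
  (hζ.smooth.continuous.mul hF).integrable_of_hasCompactSupport hζ.cpt.mul_right

lemma integC {ζ : ℂ → ℝ} (hζ : TestR V ζ) {F : ℂ → ℂ} (hF : Continuous F) :
    Integrable (fun z => (ζ z : ℂ) * F z) :=
  ((contDiff_ofReal hζ.smooth).continuous.mul hF).integrable_of_hasCompactSupport
    hζ.toTest.cpt.mul_right

/-- quartic integrals -/
lemma quart {ζ : ℂ → ℝ} (hζ : TestP V ζ) (hG : ∀ n, Continuous (G n)) {N : ℕ} {B : ℝ}
    (hU : Up ζ G N B) {i j k l : ℤ} (hi : |i| ≤ N) (hj : |j| ≤ N) (hk : |k| ≤ N) (hl : |l| ≤ N) :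
    ∫ z, ζ z * (‖G i z‖ * ‖G j z‖ * (‖G k z‖ * ‖G l z‖)) ≤ B := by
  have hc : ∀ n, Integrable (fun z => ζ z * ‖G n z‖ ^ 4) := fun n =>
    integ hζ.test ((hG n).norm.pow 4)
  have h1 : ∫ z, ζ z * (‖G i z‖ * ‖G j z‖ * (‖G k z‖ * ‖G l z‖)) ≤
      ∫ z, (ζ z * ‖G i z‖ ^ 4 + ζ z * ‖G j z‖ ^ 4 + ζ z * ‖G k z‖ ^ 4 + ζ z * ‖G l z‖ ^ 4) / 4 := by
    apply integral_mono
    · exact integ hζ.test (((hG i).norm.mul (hG j).norm).mul ((hG k).norm.mul (hG l).norm))
    · exact ((((hc i).add (hc j)).add (hc k)).add (hc l)).div_const 4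
    · intro z
      have h2 := mul_le_mul_of_nonneg_left
        (four_le (a := ‖G i z‖) (b := ‖G j z‖) (c := ‖G k z‖) (d := ‖G l z‖)) (hζ.nonneg z)
      refine h2.trans (le_of_eq ?_)
      ring
  refine h1.trans ?_
  have hij : Integrable (fun z => ζ z * ‖G i z‖ ^ 4 + ζ z * ‖G j z‖ ^ 4) := (hc i).add (hc j)
  have hijk : Integrable (fun z => ζ z * ‖G i z‖ ^ 4 + ζ z * ‖G j z‖ ^ 4 + ζ z * ‖G k z‖ ^ 4) :=
    hij.add (hc k)
  rw [integral_div, integral_add hijk (hc l), integral_add hij (hc k), integral_add (hc i) (hc j)]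
  have h2 := hU i hi
  have h3 := hU j hj
  have h4 := hU k hk
  have h5 := hU l hl
  linarith

/-- bound of integrals by quartic integrals -/
lemma bound {E : Type*} [NormedAddCommGroup E] [NormedSpace ℝ E] {ζ : ℂ → ℝ} (hζ : TestP V ζ)
    (hG : ∀ n, Continuous (G n)) {N : ℕ} {B : ℝ}
    (hU : Up ζ G N B) {i j k l : ℤ} (hi : |i| ≤ N) (hj : |j| ≤ N) (hk : |k| ≤ N) (hl : |l| ≤ N)
    {K : ℝ} (hK : 0 ≤ K) {F : ℂ → E}
    (hF : ∀ z, ‖F z‖ ≤ K * (ζ z * (‖G i z‖ * ‖G j z‖ * (‖G k z‖ * ‖G l z‖)))) :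
    ‖∫ z, F z‖ ≤ K * B := by
  have h0 := integ hζ.test (((hG i).norm.mul (hG j).norm).mul ((hG k).norm.mul (hG l).norm))
  refine (norm_integral_le_of_norm_le (h0.const_mul K) (Eventually.of_forall hF)).trans ?_
  rw [integral_const_mul]
  exact mul_le_mul_of_nonneg_left (quart hζ hG hU hi hj hk hl) hK

lemma la_ge (ht : 0 ≤ t) (n : ℤ) : t ≤ la t n := by
  unfold la
  apply Real.le_sqrt_of_sq_le
  nlinarith [sq_nonneg ((n : ℝ) + 1 / 2)]

lemma la_close {N : ℕ} (ht : 1 ≤ t) (hN : ((N : ℝ) + 2) ^ 2 ≤ t) {n : ℤ} (hn : |n| ≤ (N : ℤ) + 1) :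
    |t - la t n| ≤ 1 / 2 := by
  have h1 := la_ge (t := t) (by linarith) n
  have h2 : la t n ≤ t + 1 / 2 := by
    unfold la
    rw [Real.sqrt_le_left (by linarith)]
    have h3 : |(n : ℝ)| ≤ (N : ℝ) + 1 := by exact_mod_cast hn
    have h4 := abs_le.1 h3
    have h5 : (0 : ℝ) ≤ N := Nat.cast_nonneg N
    nlinarith [h4.1, h4.2]
  rw [abs_le]
  constructor <;> linarith

/-! ### The identity -/

/-- the complex integral -/
def Xi (φ : ℂ → ℝ) (G : ℤ → ℂ → ℂ) (n m : ℤ) : ℂ :=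
  ∫ z, (φ z : ℂ) * (pp G n z * conj (pp G m z))

lemma Pj_eq {φ : ℂ → ℝ} (hφ : TestR V φ) (hG : ∀ n, ContDiff ℝ ∞ (G n)) (n m : ℤ) :
    Pj φ G n m = (Xi φ G n m).re := by
  have h1 : Integrable (fun z => (φ z : ℂ) * (pp G n z * conj (pp G m z))) :=
    integC hφ ((contDiff_pp hG n).mul (contDiff_conj (contDiff_pp hG m))).continuous
  have h2 := Complex.reCLM.integral_comp_comm h1
  simp only [Complex.reCLM_apply] at h2
  unfold Pj Xi
  rw [← h2]
  refine integral_congr_ae (Eventually.of_forall fun z => ?_)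
  dsimp only
  rw [Complex.re_ofReal_mul]

lemma Wi_eq {φ : ℂ → ℝ} (n m : ℤ) :
    ((Wi φ G n m : ℝ) : ℂ) = ∫ z, (φ z : ℂ) * (uu G n z * uu G m z) := by
  unfold Wi
  rw [← integral_complex_ofReal]
  refine integral_congr_ae (Eventually.of_forall fun z => ?_)
  dsimp only
  rw [uu_eq, uu_eq]
  push_cast
  ring

/-- the error function -/
def er (φ : ℂ → ℝ) (z : ℂ) : ℂ :=
  2 * (φ z : ℂ) + Complex.I * (z.im : ℂ) * dz (fun w => (φ w : ℂ)) z

lemma er_continuous {φ : ℂ → ℝ} (hφ : TestR V φ) : Continuous (er φ) :=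
  ((contDiff_const.mul (contDiff_ofReal hφ.smooth)).add
    ((contDiff_const.mul contDiff_imC).mul (contDiff_dz (contDiff_ofReal hφ.smooth)))).continuous

lemma er_zero {φ : ℂ → ℝ} {z : ℂ} (hz : z ∉ tsupport φ) : er φ z = 0 := by
  have h1 : φ z = 0 := image_eq_zero_of_notMem_tsupport hz
  have h2 : z ∉ tsupport (fun w => (φ w : ℂ)) := fun h =>
    hz ((tsupport_comp_subset (g := fun x : ℝ => (x : ℂ)) (by simp) φ) h)
  unfold er
  rw [h1, dz_eq_zero_of_notMem h2]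
  simp

lemma main {φ : ℂ → ℝ} (hφ : TestR V φ) (hG : Tow V t G) (n m : ℤ) :
    ((la t n : ℝ) : ℂ) * Xi φ G n m - ((la t (n - 1) : ℝ) : ℂ) * Xi φ G (n - 1) m =
      -(((la t m : ℝ) : ℂ) * ((Wi φ G n (m + 1) : ℝ) - (Wi φ G n m : ℝ))) -
        ∫ z, er φ z * (uu G n z * conj (pp G m z)) := by
  have cp := contDiff_pp hG.smooth m
  have cu := contDiff_uu hG.smooth n
  have cφ := contDiff_ofReal hφ.smooth
  set a : ℂ → ℂ := fun z => (Complex.I * (z.im : ℂ)) * ((φ z : ℂ) * conj (pp G m z)) with ha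
  have ca : ContDiff ℝ ∞ a := (contDiff_const.mul contDiff_imC).mul (cφ.mul (contDiff_conj cp))
  have hca : HasCompactSupport a := (hφ.toTest.cpt.mul_right).mul_left
  have hibp := integral_mul_dz ca cu (Or.inl hca)
  have i1 : ∀ k : ℤ, Integrable (fun z => (φ z : ℂ) * (pp G k z * conj (pp G m z))) := fun k =>
    integC hφ ((contDiff_pp hG.smooth k).mul (contDiff_conj cp)).continuous
  have i2 : ∀ k : ℤ, Integrable (fun z => (φ z : ℂ) * (uu G n z * uu G k z)) := fun k =>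
    integC hφ (cu.mul (contDiff_uu hG.smooth k)).continuous
  have i3 : Integrable (fun z => er φ z * (uu G n z * conj (pp G m z))) := by
    refine ((er_continuous hφ).mul (cu.mul (contDiff_conj cp)).continuous).integrable_of_hasCompactSupport
      ?_
    refine HasCompactSupport.mul_right ?_
    exact HasCompactSupport.intro hφ.cpt fun z hz => er_zero hz
  have e1 : ∀ z, a z * dz (uu G n) z =
      ((la t n : ℝ) : ℂ) * ((φ z : ℂ) * (pp G n z * conj (pp G m z))) -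
        ((la t (n - 1) : ℝ) : ℂ) * ((φ z : ℂ) * (pp G (n - 1) z * conj (pp G m z))) := by
    intro z
    by_cases hz : z ∈ V
    · have h := dz_uu hG n hz
      rw [ha]
      dsimp only
      linear_combination ((φ z : ℂ) * conj (pp G m z)) * h
    · have h : (φ z : ℂ) = 0 := by rw [hφ.eq_zero hz]; simp
      rw [ha]
      dsimp only
      rw [h]
      ring
  have e2 : ∀ z, dz a z * uu G n z = er φ z * (uu G n z * conj (pp G m z)) +
      (((la t m : ℝ) : ℂ) * ((φ z : ℂ) * (uu G n z * uu G (m + 1) z)) -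
        ((la t m : ℝ) : ℂ) * ((φ z : ℂ) * (uu G n z * uu G m z))) := by
    intro z
    have h1 : dz a z = (φ z : ℂ) * conj (pp G m z) +
        (Complex.I * (z.im : ℂ)) * (dz (fun w => (φ w : ℂ)) z * conj (pp G m z) +
          (φ z : ℂ) * conj (dzb (pp G m) z)) := by
      rw [ha, dz_mul (contDiff_const.mul contDiff_imC) (cφ.mul (contDiff_conj cp)),
        dz_mul cφ (contDiff_conj cp), dz_const_mul _ contDiff_imC, dz_im, dz_conj cp]
      have hI := Complex.I_mul_I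
      linear_combination (-((φ z : ℂ) * conj (pp G m z))) * hI
    rw [h1]
    unfold er
    by_cases hz : z ∈ V
    · have h := congrArg (starRingEnd ℂ) (dzb_pp hG m hz)
      have hr1 : conj (uu G (m + 1) z) = uu G (m + 1) z := by
        rw [uu_eq, Complex.conj_ofReal]
      have hr2 : conj (uu G m z) = uu G m z := by
        rw [uu_eq, Complex.conj_ofReal]
      simp only [map_sub, map_neg, map_mul, Complex.conj_I, Complex.conj_ofReal, hr1, hr2] at h
      linear_combination ((φ z : ℂ) * uu G n z) * h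
    · have h : (φ z : ℂ) = 0 := by rw [hφ.eq_zero hz]; simp
      rw [h]
      ring
  simp_rw [e1, e2] at hibp
  have i4 : Integrable (fun z => ((la t m : ℝ) : ℂ) * ((φ z : ℂ) * (uu G n z * uu G (m + 1) z)) -
      ((la t m : ℝ) : ℂ) * ((φ z : ℂ) * (uu G n z * uu G m z))) :=
    ((i2 (m + 1)).const_mul _).sub ((i2 m).const_mul _)
  rw [integral_sub ((i1 n).const_mul _) ((i1 (n - 1)).const_mul _),
    integral_add i3 i4,
    integral_sub ((i2 (m + 1)).const_mul _) ((i2 m).const_mul _)] at hibp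
  rw [integral_const_mul, integral_const_mul, integral_const_mul, integral_const_mul,
    ← Wi_eq, ← Wi_eq] at hibp
  unfold Xi
  rw [hibp]
  ring

end

end Pool.Agent.A54.Sq.RelM

namespace Pool.Agent.A54.Sq

open MeasureTheory Filter Topology Set
open scoped ContDiff ComplexConjugate UpperHalfPlane MatrixGroups
open Pool.Agent.A54.Half (H0)

theorem stmtRel : StmtRel := by
  intro V hV _ φ hφ
  obtain ⟨ζ, hζ, h01, hone⟩ := exists_cutoff hφ.cpt hV hφ.sub
  have hone' : ∀ z ∈ tsupport φ, ζ z = 1 := fun z hz => subset_of_mem_nhdsSet hone hz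
  obtain ⟨C0, hC0⟩ := hφ.cpt.isCompact.exists_bound_of_continuousOn
    (RelM.er_continuous hφ).continuousOn
  obtain ⟨C1, hC1⟩ := hφ.cpt.exists_bound_of_continuous hφ.smooth.continuous
  have hζP : TestP V ζ := ⟨hζ, fun z => (h01 z).1⟩
  have hE : ∀ z, ‖RelM.er φ z‖ ≤ |C0| * ζ z := by
    intro z
    by_cases hz : z ∈ tsupport φ
    · rw [hone' z hz, mul_one]
      exact (hC0 z hz).trans (le_abs_self _)
    · rw [RelM.er_zero hz, norm_zero]
      exact mul_nonneg (abs_nonneg _) (h01 z).1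
  have hF : ∀ z, |φ z| ≤ |C1| * ζ z := by
    intro z
    by_cases hz : z ∈ tsupport φ
    · rw [hone' z hz, mul_one]
      exact (hC1 z).trans (le_abs_self _)
    · rw [image_eq_zero_of_notMem_tsupport hz, abs_zero]
      exact mul_nonneg (abs_nonneg _) (h01 z).1
  refine ⟨ζ, |C0| + 2 * |C1|, hζP, by positivity, fun t G ht hG N B hN hU n m hn hm => ?_⟩
  have hc : ∀ n, Continuous (G n) := fun n => (hG.smooth n).continuous
  have hU' : Up ζ G (N + 1) B := hU
  have hN0 : (0 : ℤ) ≤ N := Int.natCast_nonneg N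
  have hcast : (((N + 1 : ℕ) : ℤ)) = (N : ℤ) + 1 := by push_cast; ring
  have hn' := abs_le.1 hn
  have hm' := abs_le.1 hm
  have bn : |n| ≤ ((N + 1 : ℕ) : ℤ) := by rw [abs_le]; omega
  have bn1 : |n + 1| ≤ ((N + 1 : ℕ) : ℤ) := by rw [abs_le]; omega
  have bn2 : |n - 1| ≤ ((N + 1 : ℕ) : ℤ) := by rw [abs_le]; omega
  have bm : |m| ≤ ((N + 1 : ℕ) : ℤ) := by rw [abs_le]; omega
  have bm1 : |m + 1| ≤ ((N + 1 : ℕ) : ℤ) := by rw [abs_le]; omega
  -- the bounds
  have b1 : ∀ k : ℤ, |k| ≤ ((N + 1 : ℕ) : ℤ) → |k + 1| ≤ ((N + 1 : ℕ) : ℤ) →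
      |Pj φ G k m| ≤ |C1| * B := by
    intro k hk hk1
    rw [← Real.norm_eq_abs]
    unfold Pj
    refine RelM.bound (i := k + 1) (j := k) (k := m + 1) (l := m) hζP hc hU' hk1 hk bm1 bm
      (abs_nonneg _) fun z => ?_
    rw [Real.norm_eq_abs, abs_mul]
    have h1 : |(pp G k z * conj (pp G m z)).re| ≤ ‖G (k + 1) z‖ * ‖G k z‖ *
        (‖G (m + 1) z‖ * ‖G m z‖) := by
      refine (Complex.abs_re_le_norm _).trans (le_of_eq ?_)
      unfold pp
      simp only [norm_mul, RCLike.norm_conj]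
    calc |φ z| * |(pp G k z * conj (pp G m z)).re| ≤ (|C1| * ζ z) *
          (‖G (k + 1) z‖ * ‖G k z‖ * (‖G (m + 1) z‖ * ‖G m z‖)) :=
          mul_le_mul (hF z) h1 (abs_nonneg _) (mul_nonneg (abs_nonneg _) (h01 z).1)
      _ = _ := by ring
  have b2 : ∀ k : ℤ, |k| ≤ ((N + 1 : ℕ) : ℤ) → |Wi φ G n k| ≤ |C1| * B := by
    intro k hk
    rw [← Real.norm_eq_abs]
    unfold Wi
    refine RelM.bound (i := n) (j := n) (k := k) (l := k) hζP hc hU' bn bn hk hk
      (abs_nonneg _) fun z => ?_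
    rw [Real.norm_eq_abs, abs_mul, abs_of_nonneg (by positivity : 0 ≤ ‖G n z‖ ^ 2 * ‖G k z‖ ^ 2)]
    calc |φ z| * (‖G n z‖ ^ 2 * ‖G k z‖ ^ 2) ≤ (|C1| * ζ z) * (‖G n z‖ ^ 2 * ‖G k z‖ ^ 2) :=
          mul_le_mul_of_nonneg_right (hF z) (by positivity)
      _ = _ := by ring
  have b3 : |(∫ z, RelM.er φ z * (RelM.uu G n z * conj (pp G m z))).re| ≤ |C0| * B := by
    refine (Complex.abs_re_le_norm _).trans ?_
    refine RelM.bound (i := n) (j := n) (k := m + 1) (l := m) hζP hc hU' bn bn bm1 bm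
      (abs_nonneg _) fun z => ?_
    have h1 : ‖RelM.uu G n z * conj (pp G m z)‖ = ‖G n z‖ * ‖G n z‖ *
        (‖G (m + 1) z‖ * ‖G m z‖) := by
      unfold RelM.uu pp
      simp only [norm_mul, RCLike.norm_conj]
    rw [norm_mul, h1]
    calc ‖RelM.er φ z‖ * (‖G n z‖ * ‖G n z‖ * (‖G (m + 1) z‖ * ‖G m z‖)) ≤ (|C0| * ζ z) *
          (‖G n z‖ * ‖G n z‖ * (‖G (m + 1) z‖ * ‖G m z‖)) :=
          mul_le_mul_of_nonneg_right (hE z) (by positivity)
      _ = _ := by ring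
  have l1 := RelM.la_close ht hN (n := n) (by rw [abs_le]; omega)
  have l2 := RelM.la_close ht hN (n := n - 1) (by rw [abs_le]; omega)
  have l3 := RelM.la_close ht hN (n := m) (by rw [abs_le]; omega)
  have hid := congrArg Complex.re (RelM.main hφ hG n m)
  have hid' : la t n * Pj φ G n m - la t (n - 1) * Pj φ G (n - 1) m =
      -(la t m * (Wi φ G n (m + 1) - Wi φ G n m)) -
        (∫ z, RelM.er φ z * (RelM.uu G n z * conj (pp G m z))).re := by
    rw [RelM.Pj_eq hφ hG.smooth, RelM.Pj_eq hφ hG.smooth]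
    simp only [Complex.sub_re, Complex.neg_re, Complex.re_ofReal_mul, Complex.ofReal_re] at hid
    exact hid
  have ht0 : 0 < t := by linarith
  have habs : ∀ x : ℝ, |x| * t = |x * t| := fun x => by rw [abs_mul, abs_of_pos ht0]
  rw [le_div_iff₀ ht0, habs]
  have hsplit : (Pj φ G n m - Pj φ G (n - 1) m + Wi φ G n (m + 1) - Wi φ G n m) * t =
      -(∫ z, RelM.er φ z * (RelM.uu G n z * conj (pp G m z))).re +
        (t - la t n) * Pj φ G n m - (t - la t (n - 1)) * Pj φ G (n - 1) m +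
        (t - la t m) * Wi φ G n (m + 1) - (t - la t m) * Wi φ G n m := by
    linear_combination hid'
  rw [hsplit]
  have key : ∀ x y : ℝ, |x| ≤ 1 / 2 → |y| ≤ |C1| * B → |x * y| ≤ 1 / 2 * (|C1| * B) := by
    intro x y hx hy
    rw [abs_mul]
    exact mul_le_mul hx hy (abs_nonneg _) (by norm_num)
  have k1 := abs_le.1 (key _ _ l1 (b1 n bn bn1))
  have k2 := abs_le.1 (key _ _ l2 (b1 (n - 1) bn2 (by rw [sub_add_cancel]; exact bn)))
  have k3 := abs_le.1 (key _ _ l3 (b2 (m + 1) bm1))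
  have k4 := abs_le.1 (key _ _ l3 (b2 m bm))
  have k5 := abs_le.1 b3
  rw [abs_le]
  constructor <;> linarith [k1.1, k1.2, k2.1, k2.2, k3.1, k3.2, k4.1, k4.2, k5.1, k5.2]

end Pool.Agent.A54.Sq
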