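import Pool.Agent.Lib.MP_a54f13_nt.Sq.Spec2

/-!
# Package `Sq`, module `Sg`: the inequality for towers
-/

set_option autoImplicit false

namespace Pool.Agent.A54.Sq

open MeasureTheory Filter Topology Set
open scoped ContDiff ComplexConjugate UpperHalfPlane MatrixGroups
open Pool.Agent.A54.Half (H0 qq ff hh)
open Pool.Agent.A54.Pl (Ed mean)

noncomputable section

namespace SgM

variable {V : Set ℂ}

/-- the data -/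
structure Da (V : Set ℂ) (c : (ℂ → ℝ) → ℝ) (δ t ρ : ℝ) (G : ℤ → ℂ → ℂ) : Prop where
  one_le : 1 ≤ t
  tow : Tow V t G
  mass : ∀ ζ, TestP V ζ → ∀ n : ℤ, ∫ z, ζ z * ‖G n z‖ ^ 2 ≤ c ζ
  rho0 : 0 < ρ
  rho : ρ ≤ t ^ (-(1 / 2 + δ))

/-- the fourth moment -/
def bb (G : ℤ → ℂ → ℂ) (φ : ℂ → ℝ) : ℝ := ∫ z, φ z * ‖G 0 z‖ ^ 4

/-- the mean square of the local means -/
def vv (ρ : ℝ) (G : ℤ → ℂ → ℂ) (φ : ℂ → ℝ) : ℝ :=
  ∫ z, φ z * Ed ρ (fun w => ‖G 0 w‖ ^ 2) z ^ 2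

lemma add_test {φ ψ : ℂ → ℝ} (h1 : TestP V φ) (h2 : TestP V ψ) :
    TestP V (fun z => φ z + ψ z) where
  test := ⟨h1.test.smooth.add h2.test.smooth, h1.test.cpt.add h2.test.cpt,
    (tsupport_add φ ψ).trans (union_subset h1.test.sub h2.test.sub)⟩
  nonneg := fun z => add_nonneg (h1.nonneg z) (h2.nonneg z)

lemma int_mono {φ ψ : ℂ → ℝ} (h1 : TestP V φ) (h2 : TestP V ψ) (h : ∀ z, φ z ≤ ψ z)
    {F : ℂ → ℝ} (hF : Continuous F) (hF0 : ∀ z, 0 ≤ F z) :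
    ∫ z, φ z * F z ≤ ∫ z, ψ z * F z := by
  refine integral_mono ?_ ?_ fun z => mul_le_mul_of_nonneg_right (h z) (hF0 z)
  · exact (h1.test.smooth.continuous.mul hF).integrable_of_hasCompactSupport h1.test.cpt.mul_right
  · exact (h2.test.smooth.continuous.mul hF).integrable_of_hasCompactSupport h2.test.cpt.mul_right

lemma bb_nonneg {φ : ℂ → ℝ} (h : TestP V φ) (G : ℤ → ℂ → ℂ) : 0 ≤ bb G φ :=
  integral_nonneg fun z => mul_nonneg (h.nonneg z) (by positivity)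

lemma vv_nonneg {φ : ℂ → ℝ} (h : TestP V φ) (ρ : ℝ) (G : ℤ → ℂ → ℂ) : 0 ≤ vv ρ G φ :=
  integral_nonneg fun z => mul_nonneg (h.nonneg z) (by positivity)

lemma bb_mono {t : ℝ} {G : ℤ → ℂ → ℂ} (hG : Tow V t G) {φ ψ : ℂ → ℝ} (h1 : TestP V φ)
    (h2 : TestP V ψ) (h : ∀ z, φ z ≤ ψ z) : bb G φ ≤ bb G ψ :=
  int_mono h1 h2 h ((hG.smooth 0).continuous.norm.pow 4) fun z => by positivity

lemma vv_mono {t : ℝ} {G : ℤ → ℂ → ℂ} (hG : Tow V t G) (ρ : ℝ) {φ ψ : ℂ → ℝ} (h1 : TestP V φ)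
    (h2 : TestP V ψ) (h : ∀ z, φ z ≤ ψ z) : vv ρ G φ ≤ vv ρ G ψ :=
  int_mono h1 h2 h ((Pl.continuous_Ed ((hG.smooth 0).continuous.norm.pow 2) ρ).pow 2)
    fun z => by positivity

/-- the numbers -/
lemma nums {t δ : ℝ} (ht : 2 ^ 20 ≤ t) (hδ : 0 < δ) (hδ2 : δ ≤ 1 / 2) :
    ∃ N : ℕ, (8 * (N : ℝ) + 14) ^ 2 ≤ t ∧ 8 * (N : ℝ) + 13 ≤ t ^ (1 / 2 - δ / 4) ∧
      ((N : ℝ) + 1) ^ 2 / t ≤ t ^ (-(δ / 2)) ∧
      (((N : ℝ) + 1) ^ 2)⁻¹ ≤ 256 * t ^ (-(δ / 2)) ∧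
      (∀ ρ : ℝ, 0 < ρ → ρ ≤ t ^ (-(1 / 2 + δ)) →
        ρ * t / ((N : ℝ) + 1) ≤ 16 * t ^ (-(δ / 2))) := by
  have ht1 : 1 ≤ t := le_trans (by norm_num) ht
  have ht0 : 0 < t := by linarith
  set u := t ^ (1 / 2 - δ / 2) with hu
  have hu4 : 32 ≤ u := by
    calc (32 : ℝ) = ((2 : ℝ) ^ 20) ^ (1 / 4 : ℝ) := by
          rw [show (2 : ℝ) ^ 20 = 32 ^ (4 : ℝ) by norm_num, ← Real.rpow_mul (by norm_num)]
          norm_num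
      _ ≤ t ^ (1 / 4 : ℝ) := Real.rpow_le_rpow (by norm_num) ht (by norm_num)
      _ ≤ u := Real.rpow_le_rpow_of_exponent_le ht1 (by linarith)
  have hu0 : 0 < u := by linarith
  have hf1 : (⌊u / 16⌋₊ : ℝ) ≤ u / 16 := Nat.floor_le (by positivity)
  have hf2 : u / 16 < (⌊u / 16⌋₊ : ℝ) + 1 := Nat.lt_floor_add_one _
  set N := ⌊u / 16⌋₊ with hN
  have hN0 : (0 : ℝ) ≤ N := by positivity
  have hu2 : u ^ 2 = t * t ^ (-δ) := by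
    rw [hu, ← Real.rpow_natCast, ← Real.rpow_mul ht0.le]
    conv_rhs => rw [← Real.rpow_one t, ← Real.rpow_mul ht0.le, ← Real.rpow_add ht0]
    congr 1
    push_cast
    ring
  have hd1 : t ^ (-δ) ≤ 1 := Real.rpow_le_one_of_one_le_of_nonpos ht1 (by linarith)
  have hut : u ^ 2 ≤ t := by
    rw [hu2]
    nlinarith
  refine ⟨N, ?_, ?_, ?_, ?_, ?_⟩
  · calc (8 * (N : ℝ) + 14) ^ 2 ≤ u ^ 2 := by
          apply pow_le_pow_left₀ (by positivity)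
          linarith
      _ ≤ t := hut
  · have : u ≤ t ^ (1 / 2 - δ / 4) := Real.rpow_le_rpow_of_exponent_le ht1 (by linarith)
    linarith
  · rw [div_le_iff₀ ht0]
    calc ((N : ℝ) + 1) ^ 2 ≤ u ^ 2 := by
          apply pow_le_pow_left₀ (by positivity)
          linarith
      _ = t ^ (-δ) * t := by rw [hu2]; ring
      _ ≤ t ^ (-(δ / 2)) * t := by
          apply mul_le_mul_of_nonneg_right _ ht0.le
          exact Real.rpow_le_rpow_of_exponent_le ht1 (by linarith)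
  · have h1 : (u / 16) ^ 2 ≤ ((N : ℝ) + 1) ^ 2 := pow_le_pow_left₀ (by positivity) hf2.le 2
    have h2 : (((N : ℝ) + 1) ^ 2)⁻¹ ≤ ((u / 16) ^ 2)⁻¹ := inv_anti₀ (by positivity) h1
    refine h2.trans ?_
    have h3 : ((u / 16) ^ 2)⁻¹ = 256 * (u ^ 2)⁻¹ := by
      field_simp
      norm_num
    rw [h3]
    apply mul_le_mul_of_nonneg_left _ (by norm_num)
    have h4 : (u ^ 2)⁻¹ = t ^ (-(1 - δ)) := by
      rw [hu, ← Real.rpow_natCast, ← Real.rpow_mul ht0.le, ← Real.rpow_neg ht0.le]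
      congr 1
      push_cast
      ring
    rw [h4]
    exact Real.rpow_le_rpow_of_exponent_le ht1 (by linarith)
  · intro ρ hρ0 hρ
    rw [div_le_iff₀ (by positivity)]
    have h1 : t ^ (-(1 / 2 + δ)) * t = t ^ (-(δ / 2)) * u := by
      rw [hu, ← Real.rpow_add ht0]
      conv_lhs => rw [← Real.rpow_one t, ← Real.rpow_mul ht0.le, ← Real.rpow_add ht0]
      congr 1
      ring
    calc ρ * t ≤ t ^ (-(1 / 2 + δ)) * t := mul_le_mul_of_nonneg_right hρ ht0.le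
      _ = t ^ (-(δ / 2)) * u := h1
      _ ≤ t ^ (-(δ / 2)) * (16 * ((N : ℝ) + 1)) := by
          apply mul_le_mul_of_nonneg_left _ (by positivity)
          linarith
      _ = _ := by ring

lemma rho_le {t δ r0 ρ : ℝ} (hδ : 0 < δ) (hr0 : 0 < r0) (ht1 : 1 ≤ t) (ht : (r0⁻¹) ^ 2 ≤ t)
    (hρ : ρ ≤ t ^ (-(1 / 2 + δ))) : ρ ≤ r0 := by
  have ht0 : 0 < t := by linarith
  have h3 : t ^ (-(1 / 2 + δ)) ≤ t ^ (-(1 / 2) : ℝ) :=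
    Real.rpow_le_rpow_of_exponent_le ht1 (by linarith)
  have h4 : r0⁻¹ ≤ t ^ (1 / 2 : ℝ) := by
    calc r0⁻¹ = ((r0⁻¹) ^ 2) ^ (1 / 2 : ℝ) := by
          rw [← Real.rpow_natCast, ← Real.rpow_mul (by positivity)]
          norm_num
      _ ≤ t ^ (1 / 2 : ℝ) := Real.rpow_le_rpow (by positivity) ht (by norm_num)
  have h5 : t ^ (-(1 / 2) : ℝ) ≤ r0 := by
    rw [Real.rpow_neg ht0.le]
    calc (t ^ (1 / 2 : ℝ))⁻¹ ≤ (r0⁻¹)⁻¹ := inv_anti₀ (by positivity) h4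
      _ = r0 := inv_inv r0
  exact hρ.trans (h3.trans h5)

/-- the a priori bound -/
lemma start (hL : StmtLad) (hV : IsOpen V) (hVH : V ⊆ H0) (c : (ℂ → ℝ) → ℝ) (δ : ℝ)
    {φ : ℂ → ℝ} (hφ : TestP V φ) : ∃ C : ℝ, 0 ≤ C ∧ ∀ (t ρ : ℝ) (G : ℤ → ℂ → ℂ),
      Da V c δ t ρ G → bb G φ ≤ C * t ^ 2 := by
  obtain ⟨ζ, C, hζ, hC, h⟩ := hL V hV hVH φ hφ
  refine ⟨C * c ζ ^ 2, by positivity, fun t ρ G hD => ?_⟩
  exact h t G hD.one_le hD.tow (c ζ) (hD.mass ζ hζ) 0 (by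
    have := hD.one_le
    simp
    linarith)

/-- one step -/
lemma step (hKe : StmtKe2) (hBoo : StmtBoo) (hL : StmtLad) (hV : IsOpen V) (hVH : V ⊆ H0)
    (c : (ℂ → ℝ) → ℝ) {δ : ℝ} (hδ : 0 < δ) (hδ2 : δ ≤ 1 / 2) {φ : ℂ → ℝ} (hφ : TestP V φ) :
    ∃ (ζ : ℂ → ℝ) (C : ℝ), TestP V ζ ∧ 0 ≤ C ∧ ∀ (t ρ : ℝ) (G : ℤ → ℂ → ℂ), Da V c δ t ρ G →
      bb G φ ≤ 3 * vv ρ G φ + C * t ^ (-(δ / 4)) * (1 + bb G ζ) := by
  obtain ⟨ζK, CK, r0, hζK, hCK, hr0, hkey⟩ := hKe V hV hVH φ hφ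
  obtain ⟨ζ₂, C₂, hζ₂, hC₂, hB₂⟩ := hBoo V hV hVH (δ / 4) (δ / 8) (by linarith) (by linarith)
    (by linarith) ζK hζK
  obtain ⟨C₇, hC₇, hE₇⟩ := start hL hV hVH c δ hφ
  set M₂ := max 1 (c ζ₂) with hM₂
  have hM₂1 : 1 ≤ M₂ := le_max_left _ _
  set T0 : ℝ := max (2 ^ 20) ((r0⁻¹) ^ 2) with hT0
  have hT0' : (2 : ℝ) ^ 20 ≤ T0 := le_max_left _ _
  have hT0p : 0 < T0 := lt_of_lt_of_le (by norm_num) hT0'
  refine ⟨ζ₂, 273 * CK * C₂ * M₂ ^ 2 + C₇ * T0 ^ 2 * T0 ^ (δ / 4), hζ₂, by positivity,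
    fun t ρ G hD => ?_⟩
  have ht := hD.one_le
  have ht0 : 0 < t := by linarith
  have hb2 := bb_nonneg hζ₂ G
  have hvφ := vv_nonneg hφ ρ G
  rcases le_total T0 t with htt | htt
  · obtain ⟨N, n1, n2, n3, n4, n5⟩ := nums (hT0'.trans htt) hδ hδ2
    have hUp : Up ζK G (8 * N + 13) (C₂ * M₂ ^ 2 * t ^ (δ / 8) * (1 + bb G ζ₂)) := by
      intro n hn
      have hn' : |(n : ℝ)| ≤ t ^ (1 / 2 - δ / 4) := by
        have h6 : ((|n| : ℤ) : ℝ) ≤ (((8 * N + 13 : ℕ) : ℤ) : ℝ) := by exact_mod_cast hn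
        push_cast at h6
        linarith
      exact hB₂ t G ht hD.tow M₂ hM₂1 (fun k => (hD.mass ζ₂ hζ₂ k).trans (le_max_right _ _)) n hn'
    have h1 := hkey t G ht hD.tow N _ ρ n1 hUp hD.rho0
      (rho_le hδ hr0 ht ((le_max_right _ _).trans htt) hD.rho)
    have h2 : ((N : ℝ) + 1) ^ 2 / t + ρ * t / ((N : ℝ) + 1) + (((N : ℝ) + 1) ^ 2)⁻¹ ≤
        273 * t ^ (-(δ / 2)) := by
      have := n5 ρ hD.rho0 hD.rho
      linarith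
    have h3 : t ^ (δ / 8) * t ^ (-(δ / 2)) ≤ t ^ (-(δ / 4)) := by
      rw [← Real.rpow_add ht0]
      exact Real.rpow_le_rpow_of_exponent_le ht (by linarith)
    have h4 : CK * (C₂ * M₂ ^ 2 * t ^ (δ / 8) * (1 + bb G ζ₂)) *
        (((N : ℝ) + 1) ^ 2 / t + ρ * t / ((N : ℝ) + 1) + (((N : ℝ) + 1) ^ 2)⁻¹) ≤
        273 * CK * C₂ * M₂ ^ 2 * t ^ (-(δ / 4)) * (1 + bb G ζ₂) := by
      calc _ ≤ CK * (C₂ * M₂ ^ 2 * t ^ (δ / 8) * (1 + bb G ζ₂)) * (273 * t ^ (-(δ / 2))) := by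
            gcongr
        _ = 273 * CK * C₂ * M₂ ^ 2 * (1 + bb G ζ₂) * (t ^ (δ / 8) * t ^ (-(δ / 2))) := by ring
        _ ≤ 273 * CK * C₂ * M₂ ^ 2 * (1 + bb G ζ₂) * t ^ (-(δ / 4)) := by gcongr
        _ = _ := by ring
    have h5 : 0 ≤ C₇ * T0 ^ 2 * T0 ^ (δ / 4) * t ^ (-(δ / 4)) * (1 + bb G ζ₂) := by positivity
    calc bb G φ ≤ 3 * vv ρ G φ + CK * (C₂ * M₂ ^ 2 * t ^ (δ / 8) * (1 + bb G ζ₂)) *
        (((N : ℝ) + 1) ^ 2 / t + ρ * t / ((N : ℝ) + 1) + (((N : ℝ) + 1) ^ 2)⁻¹) := h1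
      _ ≤ 3 * vv ρ G φ + 273 * CK * C₂ * M₂ ^ 2 * t ^ (-(δ / 4)) * (1 + bb G ζ₂) := by
          linarith
      _ ≤ 3 * vv ρ G φ + 273 * CK * C₂ * M₂ ^ 2 * t ^ (-(δ / 4)) * (1 + bb G ζ₂) +
          C₇ * T0 ^ 2 * T0 ^ (δ / 4) * t ^ (-(δ / 4)) * (1 + bb G ζ₂) := by linarith
      _ = _ := by ring
  · have h1 := hE₇ t ρ G hD
    have h2 : t ^ 2 ≤ T0 ^ 2 := pow_le_pow_left₀ ht0.le htt 2
    have h3 : 1 ≤ T0 ^ (δ / 4) * t ^ (-(δ / 4)) := by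
      rw [Real.rpow_neg ht0.le, ← div_eq_mul_inv, one_le_div (by positivity)]
      exact Real.rpow_le_rpow ht0.le htt (by positivity)
    have h4 : 0 ≤ 273 * CK * C₂ * M₂ ^ 2 * t ^ (-(δ / 4)) * (1 + bb G ζ₂) := by positivity
    have h5 : 1 ≤ T0 ^ (δ / 4) * t ^ (-(δ / 4)) * (1 + bb G ζ₂) := by nlinarith
    calc bb G φ ≤ C₇ * T0 ^ 2 * 1 := by
          rw [mul_one]
          exact h1.trans (mul_le_mul_of_nonneg_left h2 hC₇)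
      _ ≤ C₇ * T0 ^ 2 * (T0 ^ (δ / 4) * t ^ (-(δ / 4)) * (1 + bb G ζ₂)) :=
          mul_le_mul_of_nonneg_left h5 (by positivity)
      _ ≤ 3 * vv ρ G φ + 273 * CK * C₂ * M₂ ^ 2 * t ^ (-(δ / 4)) * (1 + bb G ζ₂) +
          C₇ * T0 ^ 2 * (T0 ^ (δ / 4) * t ^ (-(δ / 4)) * (1 + bb G ζ₂)) := by linarith
      _ = _ := by ring

/-- the iteration -/
lemma iter (hKe : StmtKe2) (hBoo : StmtBoo) (hL : StmtLad) (hV : IsOpen V) (hVH : V ⊆ H0)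
    (c : (ℂ → ℝ) → ℝ) {δ : ℝ} (hδ : 0 < δ) (hδ2 : δ ≤ 1 / 2) (j : ℕ) :
    ∀ {φ : ℂ → ℝ}, TestP V φ → ∃ (ζ : ℂ → ℝ) (C : ℝ), TestP V ζ ∧ 0 ≤ C ∧
      ∀ (t ρ : ℝ) (G : ℤ → ℂ → ℂ), Da V c δ t ρ G →
        bb G φ ≤ 3 * vv ρ G φ + C * t ^ (-(δ / 4)) * (1 + vv ρ G ζ) +
          C * t ^ (-(j * (δ / 4))) * bb G ζ := by
  induction j with
  | zero =>
    intro φ hφ
    refine ⟨φ, 1, hφ, zero_le_one, fun t ρ G hD => ?_⟩
    have ht0 : 0 < t := by linarith [hD.one_le]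
    have h1 := vv_nonneg hφ ρ G
    have h2 : 0 ≤ 1 * t ^ (-(δ / 4)) * (1 + vv ρ G φ) := by positivity
    have h3 : t ^ (-(((0 : ℕ) : ℝ) * (δ / 4))) = 1 := by simp
    rw [h3]
    linarith
  | succ j ih =>
    intro φ hφ
    obtain ⟨ζ₁, C₁, hζ₁, hC₁, h1⟩ := step hKe hBoo hL hV hVH c hδ hδ2 hφ
    obtain ⟨ζ₂, C₂, hζ₂, hC₂, h2⟩ := ih hζ₁
    have hζ := add_test hζ₁ hζ₂
    refine ⟨_, C₁ * (4 + C₂), hζ, by positivity, fun t ρ G hD => ?_⟩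
    set ζ := fun z => ζ₁ z + ζ₂ z with hζdef
    have ht := hD.one_le
    have ht0 : 0 < t := by linarith
    have e1 : vv ρ G ζ₁ ≤ vv ρ G ζ :=
      vv_mono hD.tow ρ hζ₁ hζ fun z => by have := hζ₂.nonneg z; simp only [hζdef]; linarith
    have e2 : vv ρ G ζ₂ ≤ vv ρ G ζ :=
      vv_mono hD.tow ρ hζ₂ hζ fun z => by have := hζ₁.nonneg z; simp only [hζdef]; linarith
    have e3 : bb G ζ₂ ≤ bb G ζ :=
      bb_mono hD.tow hζ₂ hζ fun z => by have := hζ₁.nonneg z; simp only [hζdef]; linarith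
    have k1 := h1 t ρ G hD
    have k2 := h2 t ρ G hD
    have v0 := vv_nonneg hζ ρ G
    have b0 := bb_nonneg hζ G
    set q := t ^ (-(δ / 4)) with hq
    have hq0 : 0 < q := by positivity
    have hq1 : q ≤ 1 := Real.rpow_le_one_of_one_le_of_nonpos ht (by linarith)
    set p := t ^ (-((j : ℝ) * (δ / 4))) with hp
    have hp0 : 0 < p := by positivity
    have hpq : t ^ (-(((j + 1 : ℕ) : ℝ) * (δ / 4))) = q * p := by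
      rw [hq, hp, ← Real.rpow_add ht0]
      congr 1
      push_cast
      ring
    rw [hpq]
    have k3 : 1 + bb G ζ₁ ≤ (4 + C₂) * (1 + vv ρ G ζ) + C₂ * p * bb G ζ := by
      have m1 : C₂ * q * (1 + vv ρ G ζ₂) ≤ C₂ * (1 + vv ρ G ζ) := by
        calc C₂ * q * (1 + vv ρ G ζ₂) ≤ C₂ * 1 * (1 + vv ρ G ζ) := by
              have : 0 ≤ 1 + vv ρ G ζ₂ := by linarith [vv_nonneg hζ₂ ρ G]
              gcongr
          _ = _ := by ring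
      have m2 : C₂ * p * bb G ζ₂ ≤ C₂ * p * bb G ζ := by gcongr
      linarith
    have k4 : C₁ * q * (1 + bb G ζ₁) ≤ C₁ * q * ((4 + C₂) * (1 + vv ρ G ζ) + C₂ * p * bb G ζ) := by
      gcongr
    have k5 : 0 ≤ 4 * C₁ * (q * p * bb G ζ) := by positivity
    calc bb G φ ≤ 3 * vv ρ G φ + C₁ * q * ((4 + C₂) * (1 + vv ρ G ζ) + C₂ * p * bb G ζ) := by
          linarith
      _ ≤ 3 * vv ρ G φ + C₁ * q * ((4 + C₂) * (1 + vv ρ G ζ) + C₂ * p * bb G ζ) +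
          4 * C₁ * (q * p * bb G ζ) := by linarith
      _ = _ := by ring

end SgM

open SgM in
theorem stmtSg (hKe : StmtKe2) (hBoo : StmtBoo) (hL : StmtLad) : StmtSg := by
  intro V hV hVH c δ hδ hδ2 φ hφ
  obtain ⟨j, hj⟩ := exists_nat_gt ((2 + δ / 4) / (δ / 4))
  rw [div_lt_iff₀ (by linarith)] at hj
  obtain ⟨ζ, C, hζ, hC, h⟩ := iter hKe hBoo hL hV hVH c hδ hδ2 j hφ
  obtain ⟨C₇, hC₇, h7⟩ := start hL hV hVH c δ hζ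
  refine ⟨ζ, C + C * C₇, δ / 4, hζ, by positivity, by linarith, ?_⟩
  intro t ρ G ht hG hm hρ0 hρ
  have hD : Da V c δ t ρ G := ⟨ht, hG, hm, hρ0, hρ⟩
  have ht0 : 0 < t := by linarith
  have h1 := h t ρ G hD
  have h2 := h7 t ρ G hD
  have hv := vv_nonneg hζ ρ G
  have h3 : t ^ (-((j : ℝ) * (δ / 4))) * t ^ 2 ≤ t ^ (-(δ / 4)) := by
    rw [← Real.rpow_two, ← Real.rpow_add ht0]
    exact Real.rpow_le_rpow_of_exponent_le ht (by linarith)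
  have h4 : C * t ^ (-((j : ℝ) * (δ / 4))) * bb G ζ ≤ C * C₇ * t ^ (-(δ / 4)) := by
    calc C * t ^ (-((j : ℝ) * (δ / 4))) * bb G ζ
        ≤ C * t ^ (-((j : ℝ) * (δ / 4))) * (C₇ * t ^ 2) := by gcongr
      _ = C * C₇ * (t ^ (-((j : ℝ) * (δ / 4))) * t ^ 2) := by ring
      _ ≤ _ := by gcongr
  have h5 : 0 ≤ C * C₇ * t ^ (-(δ / 4)) * vv ρ G ζ := by positivity
  calc bb G φ ≤ 3 * vv ρ G φ + C * t ^ (-(δ / 4)) * (1 + vv ρ G ζ) +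
      C * C₇ * t ^ (-(δ / 4)) + C * C₇ * t ^ (-(δ / 4)) * vv ρ G ζ := by linarith
    _ = 3 * vv ρ G φ + (C + C * C₇) * t ^ (-(δ / 4)) * (1 + vv ρ G ζ) := by ring

end

end Pool.Agent.A54.Sq
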