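import Pool.Agent.Lib.MP_a54f13_nt.Sq.Spec2
import Pool.Agent.Lib.MP_a54f13_nt.Sq.Bd

/-!
# Package `Sq`, module `SgH`: the inequality for every Hecke–Maass form
-/

set_option autoImplicit false

namespace Pool.Agent.A54.Sq

open MeasureTheory Filter Topology Set
open scoped ContDiff ComplexConjugate UpperHalfPlane MatrixGroups
open Pool.Agent.A54.Half (H0 qq ff hh)
open Pool.Agent.A54.Pl (Ed mean)

noncomputable section

namespace SgHM

lemma cosh_sub {r : ℝ} (h0 : 0 ≤ r) (h1 : r ≤ 1 / 2) : Real.cosh r - 1 ≤ 2 * r := by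
  have h2 := (Pl.G1M.exp_le (r := r / 4) (by linarith) (by linarith)).2
  have h3 : 4 * (r / 4) = r := by ring
  rw [h3] at h2
  have h4 : Real.exp (-r) ≤ 1 := Real.exp_le_one_iff.2 (by linarith)
  rw [Real.cosh_eq]
  linarith

lemma exp8 {r : ℝ} (h0 : 0 ≤ r) (h1 : r ≤ 1 / 2) :
    Real.exp (4 * r) ^ 2 ≤ 1 + 144 * r ∧ Real.exp (4 * r) ^ 2 ≤ 64 := by
  obtain ⟨h2, h3⟩ := Pl.G1M.exp_le h0 h1
  have h4 : 1 ≤ Real.exp (4 * r) := Real.one_le_exp (by linarith)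
  constructor <;> nlinarith

lemma norm_st_sub (s : ℝ) (z : ℂ) : ‖Pl.G1M.st s z - z‖ = |s - 1| * |z.im| := by
  have h : Pl.G1M.st s z - z = (((s - 1) * z.im : ℝ) : ℂ) * Complex.I := by
    apply Complex.ext
    · simp [Pl.G1M.st_re]
    · simp [Pl.G1M.st_im]
      ring
  rw [h, norm_mul, Complex.norm_real, Complex.norm_I, mul_one, Real.norm_eq_abs, abs_mul]

/-- the substitution: disc means in terms of hyperbolic means -/
lemma subst (hInt : StmtInt) (hG0 : Pl.StmtG0) {ψ : ℂ → ℝ} (hψ : TestP H0 ψ) :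
    ∃ (K : Set ℍ) (C : ℝ), IsCompact K ∧ 0 ≤ C ∧ ∀ (r : ℝ), 0 < r → r ≤ 1 / 2 →
      ∀ F : ℍ → ℝ, Continuous F → (∀ z, 0 ≤ F z) →
        ∫ z : ℂ, ψ z * Ed (Real.tanh r) (ext F) z ^ 2 ≤
          (∫ z : ℍ, (ψ z * (z : ℂ).im ^ 2) * mean F z r ^ 2) +
            C * r * ∫ z in K, mean F z r ^ 2 ∧
        ∫ z : ℍ, (ψ z * (z : ℂ).im ^ 2) * mean F z r ^ 2 ≤ C * ∫ z in K, mean F z r ^ 2 := by
  set T : Set ℂ := tsupport ψ with hT
  have hTc : IsCompact T := hψ.test.cpt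
  have hT0 : T ⊆ H0 := hψ.test.sub
  set K' : Set ℂ := (fun p : ℝ × ℂ => Pl.G1M.st p.1 p.2) '' (Icc (2 / 3) 1 ×ˢ T) with hK'
  have hK'c : IsCompact K' := Pl.G1M.cpt_img hTc
  have hK'0 : K' ⊆ H0 := Pl.G1M.img_sub (by norm_num) hT0
  set K : Set ℍ := (fun z : ℍ => (z : ℂ)) ⁻¹' K' with hK
  have hKc : IsCompact K := Pl.G1M.cpt_pre hK'c hK'0
  set ψ' : ℂ → ℝ := fun w => ψ w * w.im ^ 2 with hψ'
  have hψ's : ContDiff ℝ ∞ ψ' := hψ.test.smooth.mul (Half.contDiff_im.pow 2)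
  have hψ'c : HasCompactSupport ψ' := hψ.test.cpt.mul_right
  have hψ'T : TestR H0 ψ' := hψ.test.mul_right (Half.contDiff_im.pow 2)
  have hψ'0 : ∀ w, 0 ≤ ψ' w := fun w => mul_nonneg (hψ.nonneg w) (sq_nonneg _)
  have hψ'z : ∀ w, w ∉ T → ψ' w = 0 := fun w hw => by
    simp only [hψ', image_eq_zero_of_notMem_tsupport hw, zero_mul]
  obtain ⟨L, hL⟩ := ContDiff.lipschitzWith_of_hasCompactSupport hψ'c hψ's (by simp)
  obtain ⟨b, hb⟩ := hψ's.continuous.bounded_above_of_compact_support hψ'c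
  have hb0 : 0 ≤ b := (norm_nonneg _).trans (hb 0)
  have hb1 : ∀ w, ψ' w ≤ b := fun w => (le_abs_self _).trans (hb w)
  obtain ⟨Y, hY⟩ := hK'c.exists_bound_of_continuousOn Complex.continuous_im.continuousOn
  refine ⟨K, 144 * b + 128 * L * |Y|, hKc, by positivity, ?_⟩
  intro r hr hr2 F hF hF0
  set C : ℝ := 144 * b + 128 * L * |Y| with hC
  have hL0 : (0 : ℝ) ≤ L := L.coe_nonneg
  have hC0 : 0 ≤ C := by positivity
  set s : ℝ := Real.cosh r with hs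
  have hs1 : 1 ≤ s := Real.one_le_cosh r
  have hsd : |s - 1| ≤ 1 / 2 := Pl.G1M.cosh_le hr.le hr2
  have hs0 : 0 < s := by linarith
  have hs32 : s ≤ 3 / 2 := by
    have := (abs_le.mp hsd).2
    linarith
  have hs2r : s - 1 ≤ 2 * r := cosh_sub hr.le hr2
  set X : ℂ → ℝ := Ed (Real.tanh r) (ext F) with hX
  set mm : ℍ → ℝ := fun z => mean F z r with hmm
  have hmc : Continuous mm := (hG0 F hF).1 r hr
  have hm2 : Continuous fun z : ℍ => mm z ^ 2 := hmc.pow 2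
  -- pointwise comparison of the means
  have hpt : ∀ z : ℍ, X (Pl.G1M.st s z) ^ 2 ≤ Real.exp (4 * r) ^ 2 * mm z ^ 2 := by
    intro z
    obtain ⟨h1, h2⟩ := (hG0 F hF).2 hF0 z r hr
    rw [Pl.G1M.st_center] at h1 h2
    obtain ⟨-, h4⟩ := Pl.G1M.swap h1 h2
    have hX0 : 0 ≤ X (Pl.G1M.st s z) := Pl.Ed_nonneg (fun w => by
      unfold ext
      exact hF0 _) _ _
    rw [← mul_pow]
    exact pow_le_pow_left₀ hX0 h4 2
  obtain ⟨hE1, hE2⟩ := exp8 hr.le hr2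
  -- outside of K
  have hout : ∀ z : ℍ, z ∉ K → ψ' (Pl.G1M.st s z) = 0 := by
    intro z hz
    apply hψ'z
    intro h
    apply hz
    refine ⟨(s⁻¹, Pl.G1M.st s z), ⟨⟨?_, inv_le_one_of_one_le₀ hs1⟩, h⟩, ?_⟩
    · show 2 / 3 ≤ s⁻¹
      rw [le_inv_comm₀ (by norm_num) hs0]
      linarith
    · show Pl.G1M.st s⁻¹ (Pl.G1M.st s z) = z
      rw [Pl.G1M.st_st, inv_mul_cancel₀ hs0.ne', Pl.G1M.st_one]
  have hout' : ∀ z : ℍ, z ∉ K → ψ' z = 0 := by
    intro z hz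
    apply hψ'z
    intro h
    apply hz
    refine ⟨(1, (z : ℂ)), ⟨⟨by norm_num, le_rfl⟩, h⟩, ?_⟩
    show Pl.G1M.st 1 (z : ℂ) = z
    rw [Pl.G1M.st_one]
  -- comparison of the weights
  have hwt : ∀ z : ℍ, z ∈ K → ψ' (Pl.G1M.st s z) * Real.exp (4 * r) ^ 2 ≤ ψ' z + C * r := by
    intro z hz
    have h1 : |ψ' (Pl.G1M.st s z) - ψ' z| ≤ L * (2 * r * |Y|) := by
      have h2 := hL.dist_le_mul (Pl.G1M.st s z) (z : ℂ)
      rw [Real.dist_eq, dist_eq_norm, norm_st_sub] at h2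
      refine h2.trans (mul_le_mul_of_nonneg_left ?_ hL0)
      have h3 : |(z : ℂ).im| ≤ |Y| := (hY _ hz).trans (le_abs_self _)
      rw [abs_of_nonneg (by linarith : 0 ≤ s - 1)]
      exact mul_le_mul hs2r h3 (abs_nonneg _) (by linarith)
    have h2 : ψ' (Pl.G1M.st s z) ≤ ψ' z + L * (2 * r * |Y|) := by
      have := (abs_le.mp h1).2
      linarith
    have hz0 := hψ'0 (z : ℂ)
    have hzb := hb1 (z : ℂ)
    calc ψ' (Pl.G1M.st s z) * Real.exp (4 * r) ^ 2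
        ≤ (ψ' z + L * (2 * r * |Y|)) * Real.exp (4 * r) ^ 2 :=
          mul_le_mul_of_nonneg_right h2 (sq_nonneg _)
      _ = ψ' z * Real.exp (4 * r) ^ 2 + L * (2 * r * |Y|) * Real.exp (4 * r) ^ 2 := by ring
      _ ≤ ψ' z * (1 + 144 * r) + L * (2 * r * |Y|) * 64 := by
          gcongr
      _ ≤ ψ' z + 144 * r * b + L * (2 * r * |Y|) * 64 := by
          have : ψ' z * (144 * r) ≤ b * (144 * r) :=
            mul_le_mul_of_nonneg_right hzb (by positivity)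
          linarith
      _ = ψ' z + C * r := by rw [hC]; ring
  have hi1 : Integrable fun z : ℍ => ψ' z * mm z ^ 2 := Pl.FBM.integ hψ'T hm2
  have hi2 : IntegrableOn (fun z : ℍ => mm z ^ 2) K :=
    hm2.continuousOn.integrableOn_compact hKc
  constructor
  · set G : ℂ → ℝ := fun w => ψ w * w.im ^ 2 * X w ^ 2 with hG
    have hGnn : ∀ w, 0 ≤ G w := fun w => mul_nonneg (hψ'0 w) (sq_nonneg _)
    have hGz : ∀ z : ℂ, z.im ≤ 0 → G z = 0 := by
      intro z hz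
      have h3 : ψ z = 0 := hψ.test.eq_zero (fun h => (not_lt.mpr hz) h)
      simp only [hG, h3, zero_mul]
    have h1 : ∫ z : ℂ, ψ z * X z ^ 2 = ∫ z : ℍ, G z :=
      (Pl.G1M.int_weight hInt hψ.test fun w => X w ^ 2).symm
    have h2 : ∫ z : ℍ, G (Pl.G1M.st s z) = s * ∫ z : ℍ, G z := Pl.G1M.int_center hInt G hGz hsd
    have hGn : 0 ≤ ∫ z : ℍ, G z := integral_nonneg fun z => hGnn _
    have h3 : ∫ z : ℍ, G z ≤ ∫ z : ℍ, G (Pl.G1M.st s z) := by
      rw [h2]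
      exact le_mul_of_one_le_left hGn hs1
    have hi3 : Integrable (K.indicator fun z : ℍ => C * r * mm z ^ 2) := by
      rw [integrable_indicator_iff hKc.isClosed.measurableSet]
      exact hi2.const_mul _
    have h4 : ∫ z : ℍ, G (Pl.G1M.st s z) ≤
        ∫ z : ℍ, (ψ' z * mm z ^ 2 + K.indicator (fun z : ℍ => C * r * mm z ^ 2) z) := by
      refine integral_mono_of_nonneg (Eventually.of_forall fun z => hGnn _) (hi1.add hi3)
        (Eventually.of_forall fun z => ?_)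
      show ψ' (Pl.G1M.st s z) * X (Pl.G1M.st s z) ^ 2 ≤
        ψ' z * mm z ^ 2 + K.indicator (fun z : ℍ => C * r * mm z ^ 2) z
      by_cases hz : z ∈ K
      · rw [indicator_of_mem hz]
        calc ψ' (Pl.G1M.st s z) * X (Pl.G1M.st s z) ^ 2
            ≤ ψ' (Pl.G1M.st s z) * (Real.exp (4 * r) ^ 2 * mm z ^ 2) :=
              mul_le_mul_of_nonneg_left (hpt z) (hψ'0 _)
          _ = (ψ' (Pl.G1M.st s z) * Real.exp (4 * r) ^ 2) * mm z ^ 2 := by ring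
          _ ≤ (ψ' z + C * r) * mm z ^ 2 := mul_le_mul_of_nonneg_right (hwt z hz) (sq_nonneg _)
          _ = _ := by ring
      · rw [indicator_of_notMem hz, hout z hz, zero_mul, add_zero]
        exact mul_nonneg (hψ'0 _) (sq_nonneg _)
    rw [integral_add hi1 hi3, integral_indicator hKc.isClosed.measurableSet,
      integral_const_mul] at h4
    rw [h1]
    exact h3.trans h4
  · have hi4 : Integrable (K.indicator fun z : ℍ => C * mm z ^ 2) := by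
      rw [integrable_indicator_iff hKc.isClosed.measurableSet]
      exact hi2.const_mul _
    have h4 : ∫ z : ℍ, ψ' z * mm z ^ 2 ≤ ∫ z : ℍ, K.indicator (fun z : ℍ => C * mm z ^ 2) z := by
      refine integral_mono hi1 hi4 fun z => ?_
      show ψ' z * mm z ^ 2 ≤ K.indicator (fun z : ℍ => C * mm z ^ 2) z
      by_cases hz : z ∈ K
      · rw [indicator_of_mem hz]
        refine mul_le_mul_of_nonneg_right ((hb1 _).trans ?_) (sq_nonneg _)
        have : 0 ≤ 128 * (L : ℝ) * |Y| := by positivity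
        rw [hC]
        linarith
      · rw [indicator_of_notMem hz, hout' z hz, zero_mul]
    rw [integral_indicator hKc.isClosed.measurableSet, integral_const_mul] at h4
    exact h4

end SgHM

open SgHM in
theorem stmtSgH (hTwr : StmtTwr) (hSg : StmtSg) (hLad : StmtLad) (hG0 : Pl.StmtG0)
    (hInt : StmtInt) : StmtSgH := by
  intro δ φ hδ hφ
  -- the weight
  set φ₁ : ℂ → ℝ := fun z => φ z * (z.im)⁻¹ ^ 2 with hφ₁
  have hφ₁T : TestP H0 φ₁ :=
    ⟨Half.testR_weight subset_rfl hφ.test, fun z => mul_nonneg (hφ.nonneg z) (by positivity)⟩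
  obtain ⟨χ, V, hχ, h01, hV, hVH, h1, hsub⟩ := Half.setup hφ.test
  have hφV : TestR V φ := ⟨hφ.test.smooth, hφ.test.cpt, hsub⟩
  have hφ₁V : TestP V φ₁ := ⟨Half.testR_weight hVH hφV, hφ₁T.nonneg⟩
  obtain ⟨c, hc⟩ := hTwr χ V hχ h01 hV hVH h1
  set δ' : ℝ := min δ (1 / 2) with hδ'
  have hδ'0 : 0 < δ' := lt_min hδ (by norm_num)
  obtain ⟨ζ, CS, κ, hζ, hCS, hκ, hS⟩ := hSg V hV hVH c δ' hδ'0 (min_le_right _ _) φ₁ hφ₁V
  obtain ⟨ζ₇, C₇, hζ₇, hC₇, hL7⟩ := hLad V hV hVH φ₁ hφ₁V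
  have hζH : TestP H0 ζ := ⟨⟨hζ.test.smooth, hζ.test.cpt, hζ.test.sub.trans hVH⟩, hζ.nonneg⟩
  obtain ⟨K₁, C₁, hK₁, hC₁, hs1⟩ := subst hInt hG0 hφ₁T
  obtain ⟨K₂, C₂, hK₂, hC₂, hs2⟩ := subst hInt hG0 hζH
  obtain ⟨ρ₁, hρ₁, hd1⟩ := Pl.FBM.discs hφ₁V.test.cpt.isCompact hV hφ₁V.test.sub
  obtain ⟨ρ₂, hρ₂, hd2⟩ := Pl.FBM.discs hζ.test.cpt.isCompact hV hζ.test.sub
  set r0 : ℝ := min (1 / 2) (min ρ₁ ρ₂) with hr0
  have hr0p : 0 < r0 := lt_min (by norm_num) (lt_min hρ₁ hρ₂)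
  set κ' : ℝ := min κ (1 / 2) with hκ'
  have hκ'0 : 0 < κ' := lt_min hκ (by norm_num)
  set T0 : ℝ := (r0⁻¹) ^ 2 with hT0
  have hT0p : 0 < T0 := by positivity
  refine ⟨K₁ ∪ K₂, 3 * C₁ + CS * (1 + 2 * C₂) + C₇ * c ζ₇ ^ 2 * T0 ^ 2 * T0 ^ κ', κ',
    hK₁.union hK₂, hκ'0, ?_⟩
  intro f t r hf ht hr hrt
  have ht0 : 0 < t := by linarith
  obtain ⟨G, hGt, hGm, hG3⟩ := hc f t hf
  have hnorm : ∀ z, ‖G 0 z‖ ^ 2 = ff χ f z ^ 2 := by
    intro z
    rw [hG3, Complex.norm_real, Real.norm_eq_abs, sq_abs]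
  have hfc := Pl.FBM.cont hf
  set F : ℍ → ℝ := fun w => f w ^ 2 with hF
  have hFc : Continuous F := hfc.pow 2
  have hF0 : ∀ z, 0 ≤ F z := fun z => sq_nonneg _
  have hmc : Continuous fun z : ℍ => mean F z r := (hG0 F hFc).1 r hr
  have hm2 : Continuous fun z : ℍ => mean F z r ^ 2 := hmc.pow 2
  set I : ℝ := ∫ z in K₁ ∪ K₂, mean F z r ^ 2 with hI
  have hI0 : 0 ≤ I := integral_nonneg fun z => sq_nonneg _
  have hKint : IntegrableOn (fun z : ℍ => mean F z r ^ 2) (K₁ ∪ K₂) :=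
    hm2.continuousOn.integrableOn_compact (hK₁.union hK₂)
  have hI1 : ∫ z in K₁, mean F z r ^ 2 ≤ I :=
    setIntegral_mono_set hKint (Eventually.of_forall fun z => sq_nonneg _)
      (Eventually.of_forall fun z hz => Or.inl hz)
  have hI2 : ∫ z in K₂, mean F z r ^ 2 ≤ I :=
    setIntegral_mono_set hKint (Eventually.of_forall fun z => sq_nonneg _)
      (Eventually.of_forall fun z hz => Or.inr hz)
  have hM0 : 0 ≤ ∫ z : ℍ, φ z * mean F z r ^ 2 :=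
    integral_nonneg fun z => mul_nonneg (hφ.nonneg _) (sq_nonneg _)
  have heq : ∫ z : ℍ, φ z * f z ^ 4 = ∫ z, φ₁ z * ‖G 0 z‖ ^ 4 := by
    rw [Half.int_eq hInt hVH h1 hφV]
    refine integral_congr_ae (Eventually.of_forall fun z => ?_)
    show φ z * (z.im)⁻¹ ^ 2 * ff χ f z ^ 4 = φ z * (z.im)⁻¹ ^ 2 * ‖G 0 z‖ ^ 4
    have h4 : ‖G 0 z‖ ^ 4 = (‖G 0 z‖ ^ 2) ^ 2 := by ring
    rw [h4, hnorm]
    ring
  rw [heq]
  set q : ℝ := t ^ (-κ') with hq
  have hq0 : 0 < q := by positivity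
  rcases le_or_gt r r0 with hrr | hrr
  · -- small radii
    have hr2 : r ≤ 1 / 2 := hrr.trans (min_le_left _ _)
    have hth1 : Real.tanh r ≤ r := BdM.tanh_le hr.le
    have hth0 : 0 < Real.tanh r := Pl.FBM.tanh_pos' hr
    have hrho1 : Real.tanh r ≤ ρ₁ :=
      hth1.trans (hrr.trans ((min_le_right _ _).trans (min_le_left _ _)))
    have hrho2 : Real.tanh r ≤ ρ₂ :=
      hth1.trans (hrr.trans ((min_le_right _ _).trans (min_le_right _ _)))
    have hEd : (Ed (Real.tanh r) fun w => ‖G 0 w‖ ^ 2) =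
        Ed (Real.tanh r) fun w => ff χ f w ^ 2 := by
      congr 1
      funext w
      exact hnorm w
    have a1 := BdM.ed_eq h1 f (hd1 (Real.tanh r) hth0 hrho1) 0
    have a2 := BdM.ed_eq h1 f (hd2 (Real.tanh r) hth0 hrho2) 0
    simp only [sub_zero] at a1 a2
    have hrho : Real.tanh r ≤ t ^ (-(1 / 2 + δ')) := by
      refine (hth1.trans hrt).trans ?_
      apply Real.rpow_le_rpow_of_exponent_le ht
      have := min_le_left δ (1 / 2)
      linarith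
    have b1 := hS t (Real.tanh r) G ht hGt hGm hth0 hrho
    rw [hEd, a1, a2] at b1
    obtain ⟨b2, -⟩ := hs1 r hr hr2 F hFc hF0
    obtain ⟨b3, b4⟩ := hs2 r hr hr2 F hFc hF0
    have b5 : ∫ z : ℍ, (φ₁ z * (z : ℂ).im ^ 2) * mean F z r ^ 2 =
        ∫ z : ℍ, φ z * mean F z r ^ 2 := by
      refine integral_congr_ae (Eventually.of_forall fun z => ?_)
      have hne : (z : ℂ).im ≠ 0 := z.im_pos.ne'
      simp only [hφ₁]
      field_simp
    rw [b5] at b2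
    -- powers of t
    have hrq : r ≤ q := by
      refine hrt.trans (Real.rpow_le_rpow_of_exponent_le ht ?_)
      have := min_le_right κ (1 / 2)
      linarith
    have hκq : t ^ (-κ) ≤ q := by
      refine Real.rpow_le_rpow_of_exponent_le ht ?_
      have := min_le_left κ (1 / 2)
      linarith
    have hr1 : r ≤ 1 := by linarith
    have c1 : ∫ z, φ₁ z * Ed (Real.tanh r) (ext fun w => f w ^ 2) z ^ 2 ≤
        (∫ z : ℍ, φ z * mean F z r ^ 2) + C₁ * q * I := by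
      refine b2.trans ?_
      have : C₁ * r * ∫ z in K₁, mean F z r ^ 2 ≤ C₁ * q * I := by
        apply mul_le_mul (mul_le_mul_of_nonneg_left hrq hC₁) hI1
          (integral_nonneg fun z => sq_nonneg _) (by positivity)
      linarith
    have c2 : ∫ z, ζ z * Ed (Real.tanh r) (ext fun w => f w ^ 2) z ^ 2 ≤ 2 * C₂ * I := by
      refine b3.trans ?_
      have k1 : C₂ * r * ∫ z in K₂, mean F z r ^ 2 ≤ C₂ * 1 * I := by
        apply mul_le_mul (mul_le_mul_of_nonneg_left hr1 hC₂) hI2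
          (integral_nonneg fun z => sq_nonneg _) (by positivity)
      have k2 : C₂ * ∫ z in K₂, mean F z r ^ 2 ≤ C₂ * I := mul_le_mul_of_nonneg_left hI2 hC₂
      linarith
    have c3 : 0 ≤ ∫ z, ζ z * Ed (Real.tanh r) (ext fun w => f w ^ 2) z ^ 2 :=
      integral_nonneg fun z => mul_nonneg (hζ.nonneg z) (sq_nonneg _)
    have c4 : CS * t ^ (-κ) * (1 + ∫ z, ζ z * Ed (Real.tanh r) (ext fun w => f w ^ 2) z ^ 2) ≤
        CS * q * (1 + 2 * C₂ * I) := by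
      have : 0 ≤ t ^ (-κ) := by positivity
      gcongr
    have c5 : CS * q * (1 + 2 * C₂ * I) ≤ CS * (1 + 2 * C₂) * q * (1 + I) := by
      have h2 : 1 + 2 * C₂ * I ≤ (1 + 2 * C₂) * (1 + I) := by
        have : (1 + 2 * C₂) * (1 + I) = 1 + 2 * C₂ * I + (2 * C₂ + I) := by ring
        rw [this]
        linarith
      calc CS * q * (1 + 2 * C₂ * I) ≤ CS * q * ((1 + 2 * C₂) * (1 + I)) :=
            mul_le_mul_of_nonneg_left h2 (by positivity)
        _ = _ := by ring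
    have c6 : 3 * (C₁ * q * I) ≤ 3 * C₁ * q * (1 + I) := by
      have : 0 ≤ 3 * C₁ * q := by positivity
      linarith
    have c7 : 0 ≤ C₇ * c ζ₇ ^ 2 * T0 ^ 2 * T0 ^ κ' * q * (1 + I) := by positivity
    calc ∫ z, φ₁ z * ‖G 0 z‖ ^ 4
        ≤ 3 * ((∫ z : ℍ, φ z * mean F z r ^ 2) + C₁ * q * I) + CS * q * (1 + 2 * C₂ * I) := by
          linarith
      _ ≤ 3 * (∫ z : ℍ, φ z * mean F z r ^ 2) + 3 * C₁ * q * (1 + I) +
          CS * (1 + 2 * C₂) * q * (1 + I) +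
          C₇ * c ζ₇ ^ 2 * T0 ^ 2 * T0 ^ κ' * q * (1 + I) := by linarith
      _ = _ := by ring
  · -- bounded t
    have hb := hL7 t G ht hGt (c ζ₇) (hGm ζ₇ hζ₇) 0 (by simp; linarith)
    have htT : t ≤ T0 := by
      have h2 : r0 < t ^ (-(1 / 2) : ℝ) := by
        refine hrr.trans_le (hrt.trans ?_)
        exact Real.rpow_le_rpow_of_exponent_le ht (by linarith)
      rw [Real.rpow_neg ht0.le] at h2
      have h3 : t ^ (1 / 2 : ℝ) ≤ r0⁻¹ := by
        rw [le_inv_comm₀ (by positivity) hr0p]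
        exact h2.le
      calc t = (t ^ (1 / 2 : ℝ)) ^ 2 := by
            rw [← Real.rpow_natCast, ← Real.rpow_mul ht0.le]
            norm_num
        _ ≤ (r0⁻¹) ^ 2 := pow_le_pow_left₀ (by positivity) h3 2
    have h2 : t ^ 2 ≤ T0 ^ 2 := pow_le_pow_left₀ ht0.le htT 2
    have h3 : 1 ≤ T0 ^ κ' * q := by
      rw [hq, Real.rpow_neg ht0.le, ← div_eq_mul_inv, one_le_div (by positivity)]
      exact Real.rpow_le_rpow ht0.le htT hκ'0.le
    have h5 : 1 ≤ T0 ^ κ' * q * (1 + I) := by nlinarith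
    have h6 : 0 ≤ C₇ * c ζ₇ ^ 2 * T0 ^ 2 := by positivity
    have h7 : 0 ≤ (3 * C₁ + CS * (1 + 2 * C₂)) * q * (1 + I) := by positivity
    calc ∫ z, φ₁ z * ‖G 0 z‖ ^ 4 ≤ C₇ * c ζ₇ ^ 2 * t ^ 2 := hb
      _ ≤ C₇ * c ζ₇ ^ 2 * T0 ^ 2 * 1 := by
          rw [mul_one]
          exact mul_le_mul_of_nonneg_left h2 (by positivity)
      _ ≤ C₇ * c ζ₇ ^ 2 * T0 ^ 2 * (T0 ^ κ' * q * (1 + I)) := mul_le_mul_of_nonneg_left h5 h6
      _ ≤ 3 * (∫ z : ℍ, φ z * mean F z r ^ 2) + (3 * C₁ + CS * (1 + 2 * C₂)) * q * (1 + I) +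
          C₇ * c ζ₇ ^ 2 * T0 ^ 2 * (T0 ^ κ' * q * (1 + I)) := by linarith
      _ = _ := by ring

end

end Pool.Agent.A54.Sq
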