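import Pool.Agent.Lib.MP_a54f13_nt.Sq.Rel

/-!
`S` is almost constant at the scale `N / t`.
-/

set_option autoImplicit false

namespace Pool.Agent.A54.Sq.SmSM

open MeasureTheory Filter Topology Set
open scoped ContDiff ComplexConjugate UpperHalfPlane MatrixGroups
open Pool.Agent.A54.Half (H0)
open Pool.Agent.A54.Sq.RelM

noncomputable section

variable {V : Set ℂ} {t : ℝ} {G : ℤ → ℂ → ℂ}

/-- for real functions the derivative is controlled by `∂` -/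
lemma norm_fderiv_real {F : ℂ → ℝ} (hF : ContDiff ℝ ∞ F) (z : ℂ) :
    ‖fderiv ℝ F z‖ ≤ ‖dz (fun w => (F w : ℂ)) z‖ := by
  have hd : DifferentiableAt ℝ F z := (hF.differentiable (by simp)).differentiableAt
  have h1 : ∀ v : ℂ, fderiv ℝ (fun w => (F w : ℂ)) z v = ((fderiv ℝ F z v : ℝ) : ℂ) := by
    intro v
    have h := (Complex.ofRealCLM.hasFDerivAt (x := F z)).comp z hd.hasFDerivAt
    have h2 : HasFDerivAt (fun w => (F w : ℂ)) (Complex.ofRealCLM.comp (fderiv ℝ F z)) z := h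
    rw [h2.fderiv]
    rfl
  refine ContinuousLinearMap.opNorm_le_bound _ (norm_nonneg _) fun v => ?_
  have e : fderiv ℝ F z v = v.re * fderiv ℝ F z 1 + v.im * fderiv ℝ F z Complex.I := by
    conv_lhs => rw [show v = v.re • (1 : ℂ) + v.im • Complex.I by
      simp [Complex.re_add_im]]
    rw [map_add, map_smul, map_smul, smul_eq_mul, smul_eq_mul]
  have h2 : fderiv ℝ F z v = (dz (fun w => (F w : ℂ)) z * v).re := by
    unfold dz
    rw [h1, h1, e]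
    simp
    ring
  rw [h2, Real.norm_eq_abs, ← norm_mul]
  exact Complex.abs_re_le_norm _

lemma dz_sum {ι : Type*} (s : Finset ι) {a : ι → ℂ → ℂ} {z : ℂ}
    (ha : ∀ i, ContDiff ℝ ∞ (a i)) :
    dz (fun w => ∑ i ∈ s, a i w) z = ∑ i ∈ s, dz (a i) z := by
  unfold dz
  have h : fderiv ℝ (fun w => ∑ i ∈ s, a i w) z = ∑ i ∈ s, fderiv ℝ (a i) z :=
    fderiv_fun_sum fun i _ => diffAt (ha i)
  rw [h]
  simp only [ContinuousLinearMap.sum_apply, Finset.mul_sum, Finset.sum_sub_distrib]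

/-- the index set -/
abbrev I0 (N : ℕ) : Finset ℤ := Finset.Icc (-(2 * (N : ℤ))) (2 * (N : ℤ))

abbrev I1 (N : ℕ) : Finset ℤ := Finset.Icc (-(2 * (N : ℤ)) - 1) (2 * (N : ℤ))

lemma SS_eq (N : ℕ) (z : ℂ) : ((SS G N z : ℝ) : ℂ) = ∑ d ∈ I0 N, ((KK N d : ℝ) : ℂ) * uu G d z := by
  unfold SS
  push_cast
  refine Finset.sum_congr rfl fun d _ => ?_
  rw [uu_eq]
  push_cast
  rfl

lemma contDiff_nsq (hG : ∀ n, ContDiff ℝ ∞ (G n)) (n : ℤ) :
    ContDiff ℝ ∞ (fun z => ‖G n z‖ ^ 2) := by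
  have h : (fun z => ‖G n z‖ ^ 2) = fun z => (uu G n z).re := by
    funext z
    rw [uu_eq, Complex.ofReal_re]
  rw [h]
  exact Complex.reCLM.contDiff.comp (contDiff_uu hG n)

lemma contDiff_SS (hG : ∀ n, ContDiff ℝ ∞ (G n)) (N : ℕ) : ContDiff ℝ ∞ (SS G N) := by
  unfold SS
  exact ContDiff.sum fun d _ => contDiff_const.mul (contDiff_nsq hG d)

/-- summation by parts -/
lemma abel (N : ℕ) (K : ℤ → ℂ) (a : ℤ → ℂ) (hK : ∀ d : ℤ, 2 * (N : ℤ) < |d| → K d = 0) :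
    ∑ d ∈ I0 N, K d * (a d - a (d - 1)) = ∑ d ∈ I1 N, (K d - K (d + 1)) * a d := by
  have hk1 : K (-(2 * (N : ℤ)) - 1) = 0 := by
    apply hK
    rw [lt_abs]
    right
    omega
  have hk2 : K (2 * (N : ℤ) + 1) = 0 := by
    apply hK
    rw [lt_abs]
    left
    omega
  have h1 : ∑ d ∈ I1 N, K d * a d = ∑ d ∈ I0 N, K d * a d := by
    symm
    apply Finset.sum_subset
    · intro d hd
      rw [Finset.mem_Icc] at hd ⊢
      omega
    · intro d hd hd'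
      rw [Finset.mem_Icc] at hd hd'
      have : d = -(2 * (N : ℤ)) - 1 := by omega
      rw [this, hk1, zero_mul]
  have h2 : ∑ d ∈ I1 N, K (d + 1) * a d = ∑ d ∈ I0 N, K d * a (d - 1) := by
    have h3 : ∑ d ∈ I0 N, K d * a (d - 1) =
        ∑ d ∈ Finset.Icc (-(2 * (N : ℤ)) - 1) (2 * (N : ℤ) - 1), K (d + 1) * a d := by
      symm
      refine Finset.sum_bij (fun d _ => d + 1) ?_ ?_ ?_ ?_
      · intro d hd
        rw [Finset.mem_Icc] at hd ⊢
        omega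
      · intro d _ e _ h
        omega
      · intro d hd
        rw [Finset.mem_Icc] at hd
        refine ⟨d - 1, ?_, by ring⟩
        rw [Finset.mem_Icc]
        omega
      · intro d _
        rw [add_sub_cancel_right]
    rw [h3]
    symm
    apply Finset.sum_subset
    · intro d hd
      rw [Finset.mem_Icc] at hd ⊢
      omega
    · intro d hd hd'
      rw [Finset.mem_Icc] at hd hd'
      have : d = 2 * (N : ℤ) := by omega
      rw [this, hk2, zero_mul]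
  calc ∑ d ∈ I0 N, K d * (a d - a (d - 1)) = ∑ d ∈ I0 N, K d * a d - ∑ d ∈ I0 N, K d * a (d - 1) := by
        rw [← Finset.sum_sub_distrib]
        exact Finset.sum_congr rfl fun d _ => by ring
    _ = ∑ d ∈ I1 N, K d * a d - ∑ d ∈ I1 N, K (d + 1) * a d := by rw [h1, h2]
    _ = _ := by
        rw [← Finset.sum_sub_distrib]
        exact Finset.sum_congr rfl fun d _ => by ring

lemma dz_SS (hK : StmtKSum) (hG : Tow V t G) (N : ℕ) {z : ℂ} (hz : z ∈ V) :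
    Complex.I * (z.im : ℂ) * dz (fun w => ((SS G N w : ℝ) : ℂ)) z =
      ∑ d ∈ I1 N, (((KK N d - KK N (d + 1)) * la t d : ℝ) : ℂ) * pp G d z := by
  have h1 : (fun w => ((SS G N w : ℝ) : ℂ)) = fun w => ∑ d ∈ I0 N, ((KK N d : ℝ) : ℂ) * uu G d w := by
    funext w
    exact SS_eq N w
  rw [h1, dz_sum (I0 N) (fun d => contDiff_const.mul (contDiff_uu hG.smooth d)), Finset.mul_sum]
  have h2 : ∀ d ∈ I0 N, Complex.I * (z.im : ℂ) * dz (fun w => ((KK N d : ℝ) : ℂ) * uu G d w) z =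
      ((KK N d : ℝ) : ℂ) * (((la t d : ℝ) : ℂ) * pp G d z -
        ((la t (d - 1) : ℝ) : ℂ) * pp G (d - 1) z) := by
    intro d _
    rw [dz_const_mul _ (contDiff_uu hG.smooth d), ← dz_uu hG d hz]
    ring
  rw [Finset.sum_congr rfl h2]
  have h3 := abel N (fun d => ((KK N d : ℝ) : ℂ)) (fun d => ((la t d : ℝ) : ℂ) * pp G d z)
    (fun d hd => by rw [(hK N).2.2.2 d hd]; simp)
  refine h3.trans (Finset.sum_congr rfl fun d _ => ?_)
  push_cast
  ring

lemma card_I1 (N : ℕ) : ((I1 N).card : ℝ) = 2 * (2 * (N : ℝ) + 1) := by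
  have h : (I1 N).card = 4 * N + 2 := by
    rw [Int.card_Icc]
    omega
  rw [h]
  push_cast
  ring

lemma la_le {N : ℕ} (ht : 1 ≤ t) (hN : 2 * (N : ℝ) + 1 ≤ t) {d : ℤ} (hd : d ∈ I1 N) :
    la t d ≤ 2 * t := by
  rw [Finset.mem_Icc] at hd
  unfold la
  rw [Real.sqrt_le_left (by linarith)]
  have h1 : (-(2 * (N : ℝ)) - 1) ≤ (d : ℝ) := by exact_mod_cast hd.1
  have h2 : (d : ℝ) ≤ 2 * (N : ℝ) := by exact_mod_cast hd.2
  have h3 : (0 : ℝ) ≤ N := Nat.cast_nonneg N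
  have h4 : |(d : ℝ) + 1 / 2| ≤ t := by
    rw [abs_le]
    constructor <;> linarith
  have h5 : ((d : ℝ) + 1 / 2) ^ 2 ≤ t ^ 2 := by
    rw [← sq_abs]
    exact pow_le_pow_left₀ (abs_nonneg _) h4 2
  nlinarith

/-- the pointwise bound for the derivative -/
lemma dS_le (hK : StmtKSum) (ht : 1 ≤ t) (hG : Tow V t G) {N : ℕ} (hN : 2 * (N : ℝ) + 1 ≤ t) {z : ℂ}
    (hz : z ∈ V) :
    z.im ^ 2 * ‖fderiv ℝ (SS G N) z‖ ^ 2 ≤
      8 * t ^ 2 / (2 * (N : ℝ) + 1) ^ 3 * ∑ d ∈ I1 N, ‖pp G d z‖ ^ 2 := by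
  have hN0 : (0 : ℝ) < 2 * (N : ℝ) + 1 := by positivity
  have ht0 : 0 ≤ t := by linarith
  have h1 := norm_fderiv_real (contDiff_SS hG.smooth N) z
  have h2 : z.im ^ 2 * ‖fderiv ℝ (SS G N) z‖ ^ 2 ≤
      ‖Complex.I * (z.im : ℂ) * dz (fun w => ((SS G N w : ℝ) : ℂ)) z‖ ^ 2 := by
    rw [norm_mul, norm_mul, Complex.norm_I, one_mul, Complex.norm_real, mul_pow,
      Real.norm_eq_abs, sq_abs]
    exact mul_le_mul_of_nonneg_left (pow_le_pow_left₀ (norm_nonneg _) h1 2) (sq_nonneg _)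
  refine h2.trans ?_
  rw [dz_SS hK hG N hz]
  have h3 : ‖∑ d ∈ I1 N, (((KK N d - KK N (d + 1)) * la t d : ℝ) : ℂ) * pp G d z‖ ≤
      ∑ d ∈ I1 N, ((((2 * (N : ℝ) + 1) ^ 2)⁻¹) * (2 * t)) * ‖pp G d z‖ := by
    refine (norm_sum_le _ _).trans (Finset.sum_le_sum fun d hd => ?_)
    rw [norm_mul, Complex.norm_real, Real.norm_eq_abs, abs_mul]
    refine mul_le_mul_of_nonneg_right ?_ (norm_nonneg _)
    have hla : |la t d| ≤ 2 * t := by
      rw [abs_of_nonneg (show 0 ≤ la t d from Real.sqrt_nonneg _)]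
      exact la_le ht hN hd
    exact mul_le_mul ((hK N).2.2.1 d) hla (abs_nonneg _) (by positivity)
  rw [← Finset.mul_sum] at h3
  have h4 := pow_le_pow_left₀ (norm_nonneg _) h3 2
  refine h4.trans ?_
  have h5 := sq_sum_le_card_mul_sum_sq (s := I1 N) (f := fun d => ‖pp G d z‖)
  rw [card_I1] at h5
  have h6 : ((((2 * (N : ℝ) + 1) ^ 2)⁻¹) * (2 * t) * ∑ d ∈ I1 N, ‖pp G d z‖) ^ 2 ≤
      ((((2 * (N : ℝ) + 1) ^ 2)⁻¹) * (2 * t)) ^ 2 *
        (2 * (2 * (N : ℝ) + 1) * ∑ d ∈ I1 N, ‖pp G d z‖ ^ 2) := by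
    rw [mul_pow]
    exact mul_le_mul_of_nonneg_left h5 (by positivity)
  refine h6.trans (le_of_eq ?_)
  field_simp
  ring

/-- Jensen -/
lemma SS_sq_le (hK : StmtKSum) (N : ℕ) (z : ℂ) :
    SS G N z ^ 2 ≤ ∑ d ∈ I0 N, KK N d * ‖G d z‖ ^ 4 := by
  have h1 : SS G N z ^ 2 ≤ (∑ d ∈ I0 N, KK N d) * ∑ d ∈ I0 N, KK N d * (‖G d z‖ ^ 2) ^ 2 := by
    unfold SS
    have h := Finset.sum_sq_le_sum_mul_sum_of_sq_eq_mul (I0 N) (r := fun d => KK N d * ‖G d z‖ ^ 2)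
      (f := fun d => KK N d) (g := fun d => KK N d * (‖G d z‖ ^ 2) ^ 2)
      (fun d _ => (hK N).1 d) (fun d _ => mul_nonneg ((hK N).1 d) (by positivity))
      (fun d _ => by ring)
    exact h
  rw [(hK N).2.1, one_mul] at h1
  refine h1.trans (le_of_eq (Finset.sum_congr rfl fun d _ => ?_))
  ring

end

end Pool.Agent.A54.Sq.SmSM

namespace Pool.Agent.A54.Sq

open MeasureTheory Filter Topology Set
open scoped ContDiff ComplexConjugate UpperHalfPlane MatrixGroups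
open Pool.Agent.A54.Half (H0)
open Pool.Agent.A54.Pl (Ed)

theorem stmtSmS (hE3 : Pl.StmtE3) (hK : StmtKSum) : StmtSmS := by
  intro V hV hVH φ hφ
  obtain ⟨ζ₁, C₁, r0, hζ₁, hC₁, hr0, hE⟩ := hE3 V hV hVH φ hφ.test
  obtain ⟨ζ, hζ, h01, hone⟩ := exists_cutoff hζ₁.cpt hV hζ₁.sub
  have hone' : ∀ z ∈ tsupport ζ₁, ζ z = 1 := fun z hz => subset_of_mem_nhdsSet hone hz
  have hζP : TestP V ζ := ⟨hζ, fun z => (h01 z).1⟩
  have hpos : ∀ z ∈ tsupport ζ₁, 0 < z.im := fun z hz => hVH (hζ₁.sub hz)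
  obtain ⟨Z1, hZ1⟩ := hζ₁.cpt.isCompact.exists_bound_of_continuousOn
    (f := fun z => ζ₁ z ^ 2) (hζ₁.smooth.continuous.pow 2).continuousOn
  obtain ⟨Z2, hZ2⟩ := hζ₁.cpt.isCompact.exists_bound_of_continuousOn
    (f := fun z => ζ₁ z ^ 2 / z.im ^ 2)
    ((hζ₁.smooth.continuous.pow 2).continuousOn.div (Complex.continuous_im.pow 2).continuousOn
      fun z hz => (pow_pos (hpos z hz) 2).ne')
  set A : ℝ := |Z1| + |Z2| with hA
  have hA0 : 0 ≤ A := by positivity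
  have a1 : ∀ z, ζ₁ z ^ 2 ≤ A * ζ z := by
    intro z
    by_cases hz : z ∈ tsupport ζ₁
    · rw [hone' z hz, mul_one]
      have h1 := hZ1 z hz
      rw [Real.norm_eq_abs, abs_of_nonneg (sq_nonneg _)] at h1
      have h2 := le_abs_self Z1
      have h3 := abs_nonneg Z2
      linarith
    · rw [image_eq_zero_of_notMem_tsupport hz]
      have := mul_nonneg hA0 (h01 z).1
      simpa using this
  have a2 : ∀ z, ζ₁ z ^ 2 ≤ A * (ζ z * z.im ^ 2) := by
    intro z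
    by_cases hz : z ∈ tsupport ζ₁
    · have h0 := hpos z hz
      rw [hone' z hz, one_mul]
      have h1 := hZ2 z hz
      rw [Real.norm_eq_abs, abs_of_nonneg (by positivity), div_le_iff₀ (by positivity)] at h1
      refine h1.trans (mul_le_mul_of_nonneg_right ?_ (sq_nonneg _))
      have h2 := le_abs_self Z2
      have h3 := abs_nonneg Z1
      linarith
    · rw [image_eq_zero_of_notMem_tsupport hz]
      have := mul_nonneg hA0 (mul_nonneg (h01 z).1 (sq_nonneg z.im))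
      simpa using this
  refine ⟨ζ, C₁ * (5 * A), r0, hζP, by positivity, hr0, fun t G ht hG N B ρ hN hU hρ hρr => ?_⟩
  have hc : ∀ n, Continuous (G n) := fun n => (hG.smooth n).continuous
  have hN1 : (0 : ℝ) < 2 * (N : ℝ) + 1 := by positivity
  have hN0 : (0 : ℝ) ≤ (N : ℝ) := Nat.cast_nonneg N
  have ht0 : (0 : ℝ) < t := by linarith
  have hU' : Up ζ G (2 * N + 1) B := hU
  have hU0 : ∀ n : ℤ, |n| ≤ ((2 * N + 1 : ℕ) : ℤ) → ∫ z, ζ z * ‖G n z‖ ^ 4 ≤ B := hU'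
  have hB : 0 ≤ B := by
    refine le_trans ?_ (hU0 0 (by simp; omega))
    exact integral_nonneg fun z => mul_nonneg (h01 z).1 (by positivity)
  have cS := SmSM.contDiff_SS hG.smooth N
  have hEE := hE ρ hρ hρr (fun w => ‖G 0 w‖ ^ 2) (SS G N) (SmSM.contDiff_nsq hG.smooth 0) cS
  -- first integral
  have i1 : ∫ z, ζ₁ z ^ 2 * (‖G 0 z‖ ^ 2) ^ 2 ≤ A * B := by
    have h1 : ∫ z, ζ₁ z ^ 2 * (‖G 0 z‖ ^ 2) ^ 2 ≤ ∫ z, A * (ζ z * ‖G 0 z‖ ^ 4) := by
      refine integral_mono_of_nonneg (Eventually.of_forall fun z => by positivity)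
        ((RelM.integ hζ ((hc 0).norm.pow 4)).const_mul A) (Eventually.of_forall fun z => ?_)
      calc ζ₁ z ^ 2 * (‖G 0 z‖ ^ 2) ^ 2 ≤ (A * ζ z) * (‖G 0 z‖ ^ 2) ^ 2 :=
            mul_le_mul_of_nonneg_right (a1 z) (by positivity)
        _ = _ := by ring
    rw [integral_const_mul] at h1
    exact h1.trans (mul_le_mul_of_nonneg_left (hU0 0 (by simp; omega)) hA0)
  -- second integral
  have i2 : ∫ z, ζ₁ z ^ 2 * SS G N z ^ 2 ≤ A * B := by
    have hint : ∀ d ∈ SmSM.I0 N, Integrable (fun z => KK N d * (ζ z * ‖G d z‖ ^ 4)) := fun d _ =>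
      (RelM.integ hζ ((hc d).norm.pow 4)).const_mul _
    have h1 : ∫ z, ζ₁ z ^ 2 * SS G N z ^ 2 ≤
        ∫ z, A * ∑ d ∈ SmSM.I0 N, KK N d * (ζ z * ‖G d z‖ ^ 4) := by
      refine integral_mono_of_nonneg (Eventually.of_forall fun z => by positivity)
        ((integrable_finsetSum _ hint).const_mul A) (Eventually.of_forall fun z => ?_)
      calc ζ₁ z ^ 2 * SS G N z ^ 2 ≤ (A * ζ z) * ∑ d ∈ SmSM.I0 N, KK N d * ‖G d z‖ ^ 4 :=
            mul_le_mul (a1 z) (SmSM.SS_sq_le hK N z) (sq_nonneg _) (mul_nonneg hA0 (h01 z).1)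
        _ = A * ∑ d ∈ SmSM.I0 N, KK N d * (ζ z * ‖G d z‖ ^ 4) := by
            rw [mul_assoc, Finset.mul_sum]
            congr 1
            exact Finset.sum_congr rfl fun d _ => by ring
    rw [integral_const_mul, integral_finsetSum _ hint] at h1
    refine h1.trans (mul_le_mul_of_nonneg_left ?_ hA0)
    calc ∑ d ∈ SmSM.I0 N, ∫ z, KK N d * (ζ z * ‖G d z‖ ^ 4) ≤ ∑ d ∈ SmSM.I0 N, KK N d * B := by
          refine Finset.sum_le_sum fun d hd => ?_
          rw [integral_const_mul]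
          refine mul_le_mul_of_nonneg_left (hU0 d ?_) ((hK N).1 d)
          rw [Finset.mem_Icc] at hd
          rw [abs_le]
          push_cast
          omega
      _ = B := by rw [← Finset.sum_mul, (hK N).2.1, one_mul]
  -- third integral
  have i3 : ∫ z, ζ₁ z ^ 2 * ‖fderiv ℝ (SS G N) z‖ ^ 2 ≤ A * (16 * t ^ 2 / (2 * (N : ℝ) + 1) ^ 2 * B) := by
    set c : ℝ := 8 * t ^ 2 / (2 * (N : ℝ) + 1) ^ 3 with hcdef
    have hc0 : 0 ≤ c := by positivity
    have hcp : ∀ d : ℤ, Continuous fun z => ‖pp G d z‖ ^ 2 := fun d =>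
      (RelM.contDiff_pp hG.smooth d).continuous.norm.pow 2
    have hint : ∀ d ∈ SmSM.I1 N, Integrable (fun z => ζ z * ‖pp G d z‖ ^ 2) := fun d _ =>
      RelM.integ hζ (hcp d)
    have h1 : ∫ z, ζ₁ z ^ 2 * ‖fderiv ℝ (SS G N) z‖ ^ 2 ≤
        ∫ z, (A * c) * ∑ d ∈ SmSM.I1 N, (ζ z * ‖pp G d z‖ ^ 2) := by
      refine integral_mono_of_nonneg (Eventually.of_forall fun z => by positivity)
        ((integrable_finsetSum _ hint).const_mul (A * c)) (Eventually.of_forall fun z => ?_)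
      by_cases hz : z ∈ V
      · calc ζ₁ z ^ 2 * ‖fderiv ℝ (SS G N) z‖ ^ 2 ≤
              (A * (ζ z * z.im ^ 2)) * ‖fderiv ℝ (SS G N) z‖ ^ 2 :=
              mul_le_mul_of_nonneg_right (a2 z) (by positivity)
          _ = (A * ζ z) * (z.im ^ 2 * ‖fderiv ℝ (SS G N) z‖ ^ 2) := by ring
          _ ≤ (A * ζ z) * (c * ∑ d ∈ SmSM.I1 N, ‖pp G d z‖ ^ 2) :=
              mul_le_mul_of_nonneg_left (SmSM.dS_le hK ht hG hN hz) (mul_nonneg hA0 (h01 z).1)
          _ = (A * c) * ∑ d ∈ SmSM.I1 N, (ζ z * ‖pp G d z‖ ^ 2) := by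
              rw [← Finset.mul_sum]
              ring
      · have h2 : ζ₁ z = 0 := hζ₁.eq_zero hz
        dsimp only
        rw [h2]
        have h3 : 0 ≤ (A * c) * ∑ d ∈ SmSM.I1 N, (ζ z * ‖pp G d z‖ ^ 2) :=
          mul_nonneg (mul_nonneg hA0 hc0) (Finset.sum_nonneg fun d _ =>
            mul_nonneg (h01 z).1 (by positivity))
        simpa using h3
    rw [integral_const_mul, integral_finsetSum _ hint] at h1
    have h4 : ∑ d ∈ SmSM.I1 N, ∫ z, ζ z * ‖pp G d z‖ ^ 2 ≤ 2 * (2 * (N : ℝ) + 1) * B := by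
      have h5 : ∀ d ∈ SmSM.I1 N, ∫ z, ζ z * ‖pp G d z‖ ^ 2 ≤ B := by
        intro d hd
        rw [Finset.mem_Icc] at hd
        have hd1 : |d| ≤ ((2 * N + 1 : ℕ) : ℤ) := by
          rw [abs_le]; push_cast; omega
        have hd2 : |d + 1| ≤ ((2 * N + 1 : ℕ) : ℤ) := by
          rw [abs_le]; push_cast; omega
        have h6 := RelM.quart hζP hc hU' (i := d + 1) (j := d) (k := d + 1) (l := d) hd2 hd1 hd2 hd1
        refine (le_of_eq ?_).trans h6
        refine integral_congr_ae (Eventually.of_forall fun z => ?_)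
        dsimp only
        unfold pp
        rw [norm_mul, RCLike.norm_conj]
        ring
      refine (Finset.sum_le_sum h5).trans (le_of_eq ?_)
      rw [Finset.sum_const, nsmul_eq_mul, SmSM.card_I1]
    refine h1.trans ?_
    calc (A * c) * ∑ d ∈ SmSM.I1 N, ∫ z, ζ z * ‖pp G d z‖ ^ 2 ≤
          (A * c) * (2 * (2 * (N : ℝ) + 1) * B) :=
          mul_le_mul_of_nonneg_left h4 (mul_nonneg hA0 hc0)
      _ = A * (16 * t ^ 2 / (2 * (N : ℝ) + 1) ^ 2 * B) := by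
          rw [hcdef]
          field_simp
          ring
  -- the square roots
  have s1 : √(∫ z, ζ₁ z ^ 2 * (‖G 0 z‖ ^ 2) ^ 2) ≤ √(A * B) := Real.sqrt_le_sqrt i1
  have s2 : √(∫ z, ζ₁ z ^ 2 * SS G N z ^ 2) ≤ √(A * B) := Real.sqrt_le_sqrt i2
  have s3 : √(∫ z, ζ₁ z ^ 2 * ‖fderiv ℝ (SS G N) z‖ ^ 2) ≤
      4 * t / (2 * (N : ℝ) + 1) * √(A * B) := by
    refine (Real.sqrt_le_sqrt i3).trans (le_of_eq ?_)
    have h1 : A * (16 * t ^ 2 / (2 * (N : ℝ) + 1) ^ 2 * B) =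
        (4 * t / (2 * (N : ℝ) + 1)) ^ 2 * (A * B) := by
      field_simp
      ring
    rw [h1, Real.sqrt_mul (sq_nonneg _), Real.sqrt_sq (by positivity)]
  have hNt : (N : ℝ) + 1 ≤ t := by linarith
  have f1 : 1 ≤ t / ((N : ℝ) + 1) := by
    rw [le_div_iff₀ (by positivity)]
    linarith
  have f2 : 4 * t / (2 * (N : ℝ) + 1) ≤ 4 * (t / ((N : ℝ) + 1)) := by
    rw [mul_div_assoc]
    refine mul_le_mul_of_nonneg_left ?_ (by norm_num)
    exact div_le_div_of_nonneg_left ht0.le (by positivity) (by linarith)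
  have hAB : √(A * B) * √(A * B) = A * B := Real.mul_self_sqrt (mul_nonneg hA0 hB)
  have hsq0 : 0 ≤ √(A * B) := Real.sqrt_nonneg _
  refine hEE.trans ?_
  calc C₁ * ρ * √(∫ z, ζ₁ z ^ 2 * (‖G 0 z‖ ^ 2) ^ 2) *
        (√(∫ z, ζ₁ z ^ 2 * ‖fderiv ℝ (SS G N) z‖ ^ 2) + √(∫ z, ζ₁ z ^ 2 * SS G N z ^ 2)) ≤
        C₁ * ρ * √(A * B) * (4 * (t / ((N : ℝ) + 1)) * √(A * B) +
          (t / ((N : ℝ) + 1)) * √(A * B)) := by
        refine mul_le_mul ?_ (add_le_add ?_ ?_) (by positivity) (by positivity)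
        · exact mul_le_mul_of_nonneg_left s1 (by positivity)
        · exact s3.trans (mul_le_mul_of_nonneg_right f2 hsq0)
        · exact s2.trans (by nlinarith)
    _ = C₁ * (5 * A) * (ρ * t / ((N : ℝ) + 1)) * B := by
        have : C₁ * ρ * √(A * B) * (4 * (t / ((N : ℝ) + 1)) * √(A * B) +
          (t / ((N : ℝ) + 1)) * √(A * B)) = 5 * (C₁ * ρ * (t / ((N : ℝ) + 1))) *
            (√(A * B) * √(A * B)) := by ring
        rw [this, hAB]
        ring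

end Pool.Agent.A54.Sq
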