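import Pool.Agent.Lib.MP_a54f13_nt.Sq.Spec

/-! The upper bound. -/

set_option autoImplicit false

namespace Pool.Agent.A54.Sq.UpBM

open Pool.Agent.A54.Sq
open Real

/-- elementary bounds for N = ⌊t^(1/2-δ/2)/4⌋ -/
lemma bounds {t δ : ℝ} (ht : 16 ≤ t) (hδ : 0 < δ) (hδ2 : δ ≤ 1 / 2) :
    (2 * ((⌊t ^ (1 / 2 - δ / 2) / 4⌋₊ : ℕ) : ℝ) + 2) ^ 2 ≤ t ∧
    2 * ((⌊t ^ (1 / 2 - δ / 2) / 4⌋₊ : ℕ) : ℝ) + 1 ≤ t ^ (1 / 2 - δ / 4) ∧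
    t ^ (1 / 2 - δ / 2) / 4 ≤ ((⌊t ^ (1 / 2 - δ / 2) / 4⌋₊ : ℕ) : ℝ) + 1 ∧
    ((⌊t ^ (1 / 2 - δ / 2) / 4⌋₊ : ℕ) : ℝ) + 1 ≤ 2 * t ^ (1 / 2 - δ / 2) := by
  have ht0 : 0 < t := by linarith
  have ht1 : 1 ≤ t := by linarith
  have hq : 0 < t ^ (1 / 2 - δ / 2) := by positivity
  have hq1 : 1 ≤ t ^ (1 / 2 - δ / 2) := one_le_rpow ht1 (by linarith)
  have h1 : ((⌊t ^ (1 / 2 - δ / 2) / 4⌋₊ : ℕ) : ℝ) ≤ t ^ (1 / 2 - δ / 2) / 4 :=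
    Nat.floor_le (by positivity)
  have h2 : t ^ (1 / 2 - δ / 2) / 4 < ((⌊t ^ (1 / 2 - δ / 2) / 4⌋₊ : ℕ) : ℝ) + 1 :=
    Nat.lt_floor_add_one _
  have h0 : (0 : ℝ) ≤ ((⌊t ^ (1 / 2 - δ / 2) / 4⌋₊ : ℕ) : ℝ) := Nat.cast_nonneg _
  have h3 : t ^ (1 / 2 - δ / 2) ≤ t ^ (1 / 2 : ℝ) :=
    rpow_le_rpow_of_exponent_le ht1 (by linarith)
  have h4 : t ^ (1 / 2 - δ / 2) ≤ t ^ (1 / 2 - δ / 4) :=
    rpow_le_rpow_of_exponent_le ht1 (by linarith)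
  have h5 : (4 : ℝ) ≤ t ^ (1 / 2 : ℝ) := by
    rw [← sqrt_eq_rpow]
    exact Real.le_sqrt_of_sq_le (by norm_num; linarith)
  have h6 : t ^ (1 / 2 : ℝ) ^ (1 : ℝ) = t ^ (1 / 2 : ℝ) := by norm_num
  have h7 : (t ^ (1 / 2 : ℝ)) ^ 2 = t := by
    rw [← sqrt_eq_rpow]
    exact Real.sq_sqrt ht0.le
  have h8 : (2 : ℝ) ≤ t ^ (1 / 2 - δ / 4) := by
    have h9 : t ^ (1 / 4 : ℝ) ≤ t ^ (1 / 2 - δ / 4) :=
      rpow_le_rpow_of_exponent_le ht1 (by linarith)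
    have h10 : (16 : ℝ) ^ (1 / 4 : ℝ) ≤ t ^ (1 / 4 : ℝ) :=
      rpow_le_rpow (by norm_num) ht (by norm_num)
    have h11 : (16 : ℝ) ^ (1 / 4 : ℝ) = 2 := by
      rw [show (16 : ℝ) = 2 ^ (4 : ℝ) by norm_num, ← rpow_mul (by norm_num)]
      norm_num
    linarith
  refine ⟨?_, by linarith, h2.le, by linarith⟩
  calc (2 * ((⌊t ^ (1 / 2 - δ / 2) / 4⌋₊ : ℕ) : ℝ) + 2) ^ 2 ≤ (t ^ (1 / 2 : ℝ)) ^ 2 :=
        pow_le_pow_left₀ (by positivity) (by linarith) 2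
    _ = t := h7

/-- the error term -/
lemma errBound {t δ n1 ρ B M C1 C2 c0 : ℝ} (ht : 16 ≤ t) (hδ : 0 < δ) (hδ2 : δ ≤ 1 / 2)
    (hn : t ^ (1 / 2 - δ / 2) / 4 ≤ n1) (hn2 : n1 ≤ 2 * t ^ (1 / 2 - δ / 2))
    (hρ : 0 < ρ) (hρ2 : ρ ≤ t ^ (-(1 / 2 + δ))) (hC1 : 0 ≤ C1) (hC2 : 0 ≤ C2)
    (hB : B = C2 * t ^ (δ / 8)) (hM : M ≤ c0) (hc0 : 0 ≤ c0) :
    C1 * (B * (n1 ^ 2 / t + ρ * t / n1 + (n1 ^ 2)⁻¹) + M * n1 / t) ≤
      C1 * (24 * C2 + 2 * c0) * t ^ (-(δ / 4)) := by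
  have ht0 : 0 < t := by linarith
  have ht1 : 1 ≤ t := by linarith
  have hq : 0 < t ^ (1 / 2 - δ / 2) := by positivity
  have hn0 : 0 < n1 := by linarith
  have e1 : n1 ^ 2 / t ≤ 4 * t ^ (-δ) := by
    rw [div_le_iff₀ ht0]
    calc n1 ^ 2 ≤ (2 * t ^ (1 / 2 - δ / 2)) ^ 2 := pow_le_pow_left₀ hn0.le hn2 2
      _ = 4 * (t ^ (1 / 2 - δ / 2) * t ^ (1 / 2 - δ / 2)) := by ring
      _ = 4 * (t ^ (-δ) * t) := by
          rw [← rpow_add ht0]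
          nth_rewrite 3 [← rpow_one t]
          rw [← rpow_add ht0]
          ring_nf
      _ = 4 * t ^ (-δ) * t := by ring
  have e2 : ρ * t / n1 ≤ 4 * t ^ (-(δ / 2)) := by
    rw [div_le_iff₀ hn0]
    calc ρ * t ≤ t ^ (-(1 / 2 + δ)) * t := mul_le_mul_of_nonneg_right hρ2 ht0.le
      _ = 4 * t ^ (-(δ / 2)) * (t ^ (1 / 2 - δ / 2) / 4) := by
          have : t ^ (-(1 / 2 + δ)) * t = t ^ (-(δ / 2)) * t ^ (1 / 2 - δ / 2) := by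
            nth_rewrite 2 [← rpow_one t]
            rw [← rpow_add ht0, ← rpow_add ht0]
            ring_nf
          rw [this]
          ring
      _ ≤ 4 * t ^ (-(δ / 2)) * n1 := mul_le_mul_of_nonneg_left hn (by positivity)
  have e3 : (n1 ^ 2)⁻¹ ≤ 16 * t ^ (-δ) := by
    have h1 : (t ^ (1 / 2 - δ / 2) / 4) ^ 2 ≤ n1 ^ 2 := pow_le_pow_left₀ (by positivity) hn 2
    have h2 : (n1 ^ 2)⁻¹ ≤ ((t ^ (1 / 2 - δ / 2) / 4) ^ 2)⁻¹ := inv_anti₀ (by positivity) h1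
    refine h2.trans ?_
    have h3 : ((t ^ (1 / 2 - δ / 2) / 4) ^ 2)⁻¹ = 16 * t ^ (-(1 - δ)) := by
      rw [div_pow, ← rpow_natCast, ← rpow_mul ht0.le, rpow_neg ht0.le]
      norm_num
      rw [show (1 / 2 - δ / 2) * 2 = 1 - δ by ring]
      ring
    rw [h3]
    refine mul_le_mul_of_nonneg_left ?_ (by norm_num)
    exact rpow_le_rpow_of_exponent_le ht1 (by linarith)
  have e4 : M * n1 / t ≤ 2 * c0 * t ^ (-(δ / 4)) := by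
    rw [div_le_iff₀ ht0]
    calc M * n1 ≤ c0 * n1 := mul_le_mul_of_nonneg_right hM hn0.le
      _ ≤ c0 * (2 * t ^ (1 / 2 - δ / 2)) := mul_le_mul_of_nonneg_left hn2 hc0
      _ ≤ c0 * (2 * t ^ (-(δ / 4) + 1)) := by
          refine mul_le_mul_of_nonneg_left (mul_le_mul_of_nonneg_left ?_ (by norm_num)) hc0
          exact rpow_le_rpow_of_exponent_le ht1 (by linarith)
      _ = 2 * c0 * t ^ (-(δ / 4)) * t := by
          rw [rpow_add ht0, rpow_one]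
          ring
  have h1 : t ^ (-δ) ≤ t ^ (-(δ / 2)) := rpow_le_rpow_of_exponent_le ht1 (by linarith)
  have h2 : n1 ^ 2 / t + ρ * t / n1 + (n1 ^ 2)⁻¹ ≤ 24 * t ^ (-(δ / 2)) := by linarith
  have h3 : B * (n1 ^ 2 / t + ρ * t / n1 + (n1 ^ 2)⁻¹) ≤ 24 * C2 * t ^ (-(δ / 4)) := by
    rw [hB]
    calc C2 * t ^ (δ / 8) * (n1 ^ 2 / t + ρ * t / n1 + (n1 ^ 2)⁻¹) ≤
        C2 * t ^ (δ / 8) * (24 * t ^ (-(δ / 2))) :=
          mul_le_mul_of_nonneg_left h2 (by positivity)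
      _ = 24 * C2 * t ^ (δ / 8 + -(δ / 2)) := by
          rw [rpow_add ht0]
          ring
      _ ≤ 24 * C2 * t ^ (-(δ / 4)) := by
          refine mul_le_mul_of_nonneg_left ?_ (by positivity)
          exact rpow_le_rpow_of_exponent_le ht1 (by linarith)
  calc C1 * (B * (n1 ^ 2 / t + ρ * t / n1 + (n1 ^ 2)⁻¹) + M * n1 / t) ≤
      C1 * (24 * C2 * t ^ (-(δ / 4)) + 2 * c0 * t ^ (-(δ / 4))) :=
        mul_le_mul_of_nonneg_left (by linarith) hC1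
    _ = _ := by ring

end Pool.Agent.A54.Sq.UpBM

namespace Pool.Agent.A54.Sq

open UpBM MeasureTheory Real
open Pool.Agent.A54.Half (H0 qq ff hh)
open Pool.Agent.A54.Pl (Ed mean)

theorem stmtUpB (hK : StmtKey) (hE : StmtExp) (hM : StmtMax) : StmtUpB := by
  intro V hV hVH c x δ hδ hδ2 φ hφ
  obtain ⟨ζ, C1, r0, hζ, hC1, hr0, key⟩ := hK V hV hVH φ hφ
  obtain ⟨C2, hC2, ex⟩ := hE V hV hVH c x δ (δ / 8) (δ / 4) hδ hδ2 (by linarith) (by linarith)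
    (by linarith) ζ hζ
  obtain ⟨C5, hC5, ex5⟩ := hE V hV hVH c x δ (δ / 8) (δ / 4) hδ hδ2 (by linarith) (by linarith)
    (by linarith) φ hφ
  obtain ⟨C3, κ', hC3, hκ', mx⟩ := hM V hV hVH c x δ (δ / 4) hδ hδ2 (by linarith) (by linarith)
    φ hφ
  set t0 : ℝ := max 16 ((r0 ^ 2)⁻¹) with ht0def
  have ht016 : 16 ≤ t0 := le_max_left _ _
  set κ : ℝ := min (δ / 4) κ' with hκdef
  have hκ : 0 < κ := lt_min (by linarith) hκ'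
  set C4 : ℝ := C1 * (24 * C2 + 2 * |c ζ|) with hC4def
  have hC4 : 0 ≤ C4 := by positivity
  set C6 : ℝ := C5 * t0 ^ (δ / 8) * t0 ^ κ with hC6def
  have hC6 : 0 ≤ C6 := by positivity
  refine ⟨C4 + C3 + C6, κ, by positivity, hκ, ?_⟩
  intro t a ρ G hD
  have ht1 : 1 ≤ t := hD.one_le
  have htp : 0 < t := by linarith
  have hm : 0 ≤ ∫ z, φ z * ‖G 0 z‖ ^ 2 :=
    integral_nonneg fun z => mul_nonneg (hφ.nonneg z) (by positivity)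
  have hw : 0 ≤ ∫ z, φ z * ‖G 0 z‖ ^ 4 :=
    integral_nonneg fun z => mul_nonneg (hφ.nonneg z) (by positivity)
  have ha := hD.a0
  have htk : 0 < t ^ (-κ) := by positivity
  by_cases hlarge : t0 ≤ t
  · have ht16 : 16 ≤ t := ht016.trans hlarge
    obtain ⟨b1, b2, b3, b4⟩ := bounds ht16 hδ hδ2
    set N : ℕ := ⌊t ^ (1 / 2 - δ / 2) / 4⌋₊ with hNdef
    have hup : Up ζ G (2 * N + 1) (C2 * t ^ (δ / 8)) := by
      intro n hn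
      refine ex t a ρ G hD n ?_
      have h1 : ((|n| : ℤ) : ℝ) ≤ (((2 * N + 1 : ℕ) : ℤ) : ℝ) := by exact_mod_cast hn
      push_cast at h1
      exact h1.trans b2
    have hDm : ∀ d : ℤ, |d| ≤ 2 * (N : ℤ) → Wi φ G d d ≤
        (∫ z, φ z * ‖G 0 z‖ ^ 4) + C3 * t ^ (-κ') := by
      intro d hd
      refine mx t a ρ G hD d ?_
      have h1 : ((|d| : ℤ) : ℝ) ≤ ((2 * (N : ℤ) : ℤ) : ℝ) := by exact_mod_cast hd
      push_cast at h1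
      linarith
    have hρr : ρ ≤ r0 := by
      refine hD.rho.trans ?_
      have h1 : t ^ (-(1 / 2 + δ)) ≤ t ^ (-(1 / 2) : ℝ) :=
        rpow_le_rpow_of_exponent_le ht1 (by linarith)
      refine h1.trans ?_
      rw [rpow_neg htp.le, ← sqrt_eq_rpow]
      have h2 : (r0 ^ 2)⁻¹ ≤ t := (le_max_right _ _).trans hlarge
      have h3 : r0⁻¹ ≤ √t := by
        apply Real.le_sqrt_of_sq_le
        rw [inv_pow]
        exact h2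
      calc (√t)⁻¹ ≤ (r0⁻¹)⁻¹ := inv_anti₀ (by positivity) h3
        _ = r0 := inv_inv r0
    have hk := key t G ht1 hD.tow N (C2 * t ^ (δ / 8)) (c ζ)
      ((∫ z, φ z * ‖G 0 z‖ ^ 4) + C3 * t ^ (-κ')) ρ a b1 hup (hD.mass ζ hζ) hDm hD.rho0 hρr
      hD.a0 hD.a2
    have herr := errBound (B := C2 * t ^ (δ / 8)) (M := c ζ) (C1 := C1) (C2 := C2) (c0 := |c ζ|)
      ht16 hδ hδ2 b3 b4 hD.rho0 hD.rho hC1 hC2 rfl (le_abs_self _) (abs_nonneg _)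
    have hκ1 : t ^ (-κ') ≤ t ^ (-κ) :=
      rpow_le_rpow_of_exponent_le ht1 (by linarith [min_le_right (δ / 4) κ'])
    have hκ2 : t ^ (-(δ / 4)) ≤ t ^ (-κ) :=
      rpow_le_rpow_of_exponent_le ht1 (by linarith [min_le_left (δ / 4) κ'])
    have hs : √((∫ z, φ z * ‖G 0 z‖ ^ 4) + C3 * t ^ (-κ')) ≤
        √((∫ z, φ z * ‖G 0 z‖ ^ 4) + (C4 + C3 + C6) * t ^ (-κ)) := by
      apply Real.sqrt_le_sqrt
      have h1 : C3 * t ^ (-κ') ≤ C3 * t ^ (-κ) := mul_le_mul_of_nonneg_left hκ1 hC3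
      have h2 : 0 ≤ C4 * t ^ (-κ) := by positivity
      have h3 : 0 ≤ C6 * t ^ (-κ) := by positivity
      linarith
    have hs2 := mul_le_mul_of_nonneg_left hs
      (Real.sqrt_nonneg (∫ z, φ z * (Ed ρ (fun w => ‖G 0 w‖ ^ 2) z - a) ^ 2))
    have h4 : C4 * t ^ (-(δ / 4)) ≤ C4 * t ^ (-κ) := mul_le_mul_of_nonneg_left hκ2 hC4
    have h5 : 0 ≤ C3 * t ^ (-κ) := by positivity
    have h6 : 0 ≤ C6 * t ^ (-κ) := by positivity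
    linarith
  · push Not at hlarge
    have h1 := ex5 t a ρ G hD 0 (by simp; positivity)
    have h2 : t ^ (δ / 8) ≤ t0 ^ (δ / 8) := rpow_le_rpow htp.le hlarge.le (by linarith)
    have h3 : 1 ≤ t0 ^ κ * t ^ (-κ) := by
      rw [rpow_neg htp.le, ← div_eq_mul_inv, one_le_div (by positivity)]
      exact rpow_le_rpow htp.le hlarge.le hκ.le
    have h4 : (∫ z, φ z * ‖G 0 z‖ ^ 4) ≤ C6 * t ^ (-κ) := by
      calc (∫ z, φ z * ‖G 0 z‖ ^ 4) ≤ C5 * t ^ (δ / 8) := h1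
        _ ≤ C5 * t0 ^ (δ / 8) := mul_le_mul_of_nonneg_left h2 hC5
        _ ≤ C5 * t0 ^ (δ / 8) * (t0 ^ κ * t ^ (-κ)) :=
            le_mul_of_one_le_right (by positivity) h3
        _ = C6 * t ^ (-κ) := by rw [hC6def]; ring
    have h5 : 0 ≤ 3 * (a * ∫ z, φ z * ‖G 0 z‖ ^ 2) := by positivity
    have h6 : 0 ≤ 3 * (√(∫ z, φ z * (Ed ρ (fun w => ‖G 0 w‖ ^ 2) z - a) ^ 2) *
        √((∫ z, φ z * ‖G 0 z‖ ^ 4) + (C4 + C3 + C6) * t ^ (-κ))) := by positivity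
    have h7 : 0 ≤ C3 * t ^ (-κ) := by positivity
    have h8 : 0 ≤ C4 * t ^ (-κ) := by positivity
    linarith

end Pool.Agent.A54.Sq
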