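import Pool.Agent.Lib.MP_a54f13_nt.Pl.Main
import Pool.Agent.Lib.MP_a54f13_nt.Av.Main
import Pool.Agent.Lib.MP_a54f13_nt.Sq.Rel
import Pool.Agent.Lib.MP_a54f13_nt.Sq.Cos
import Pool.Agent.Lib.MP_a54f13_nt.Sq.CosW
import Pool.Agent.Lib.MP_a54f13_nt.Sq.Fej
import Pool.Agent.Lib.MP_a54f13_nt.Sq.KSum
import Pool.Agent.Lib.MP_a54f13_nt.Sq.Pos
import Pool.Agent.Lib.MP_a54f13_nt.Sq.SmS
import Pool.Agent.Lib.MP_a54f13_nt.Sq.MsS
import Pool.Agent.Lib.MP_a54f13_nt.Sq.Key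
import Pool.Agent.Lib.MP_a54f13_nt.Sq.Lad
import Pool.Agent.Lib.MP_a54f13_nt.Sq.Bst
import Pool.Agent.Lib.MP_a54f13_nt.Sq.Boo
import Pool.Agent.Lib.MP_a54f13_nt.Sq.Ex0
import Pool.Agent.Lib.MP_a54f13_nt.Sq.Exp
import Pool.Agent.Lib.MP_a54f13_nt.Sq.Max
import Pool.Agent.Lib.MP_a54f13_nt.Sq.UpB
import Pool.Agent.Lib.MP_a54f13_nt.Sq.Inv
import Pool.Agent.Lib.MP_a54f13_nt.Sq.Twr
import Pool.Agent.Lib.MP_a54f13_nt.Sq.Flt
import Pool.Agent.Lib.MP_a54f13_nt.Sq.FD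
import Pool.Agent.Lib.MP_a54f13_nt.Sq.Bd
import Pool.Agent.Lib.MP_a54f13_nt.Sq.Fou
import Pool.Agent.Lib.MP_a54f13_nt.Sq.CoP
import Pool.Agent.Lib.MP_a54f13_nt.Sq.CPW
import Pool.Agent.Lib.MP_a54f13_nt.Sq.Fe2
import Pool.Agent.Lib.MP_a54f13_nt.Sq.Po2
import Pool.Agent.Lib.MP_a54f13_nt.Sq.Ke2
import Pool.Agent.Lib.MP_a54f13_nt.Sq.Sg
import Pool.Agent.Lib.MP_a54f13_nt.Sq.SgH

/-!
Assembly of package `Sq`.
-/

set_option autoImplicit false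

namespace Pool.Agent.A54.Sq

open MeasureTheory Filter Topology Set
open scoped ContDiff ComplexConjugate UpperHalfPlane MatrixGroups
open Pool.Agent.A54.Pl

theorem pCosW : StmtCosW := stmtCosW stmtRel stmtCos

theorem pPos : StmtPos := stmtPos pCosW stmtFej

theorem pSmS : StmtSmS := stmtSmS pE3 stmtKSum

theorem pMsS : StmtMsS := stmtMsS stmtKSum

theorem pKey : StmtKey := stmtKey pPos pSmS pMsS stmtKSum

theorem pLad : StmtLad := stmtLad stmtLady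

theorem pBst : StmtBst := stmtBst pCosW pLad

theorem pBoo : StmtBoo := stmtBoo pBst pLad

theorem pEx0 : StmtEx0 := stmtEx0 pKey pBoo pLad

theorem pExp : StmtExp := stmtExp pEx0 pBoo

theorem pMax : StmtMax := stmtMax pCosW pExp

theorem pUpB : StmtUpB := stmtUpB pKey pExp pMax

theorem pInv : StmtInv := stmtInv Av.pWf Av.pDer Av.pNk stmtU1 stmtInt

theorem pTwr : StmtTwr := stmtTwr pInv Av.pWf

theorem pFlt : StmtFlt := stmtFlt pTwr pUpB pE3 Dyn.pRatioS Dyn.pNAf stmtLap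

theorem pFD : StmtFD := stmtFD pFlt pG2 stmtInt

theorem pBd : StmtBd := stmtBd pTwr pUpB pE1 pG0 stmtInt

theorem pFou : StmtFou := stmtFou

theorem pCoP : StmtCoP := stmtCoP stmtCos

theorem pCPW : StmtCPW := stmtCPW stmtRel pCoP

theorem pPo2 : StmtPo2 := stmtPo2 pCosW pCPW stmtFe2

theorem pKe2 : StmtKe2 := stmtKe2 pPos pPo2 pSmS

theorem pSg : StmtSg := stmtSg pKe2 pBoo pLad

theorem pSgH : StmtSgH := stmtSgH pTwr pSg pLad pG0 stmtInt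

end Pool.Agent.A54.Sq
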