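import Pool.Agent.Lib.MP_a54f13_nt.Sq.Main

/-!
Assembly of the equivalences of package `Sq`.
-/

set_option autoImplicit false

namespace Pool.Agent.A54.Sq

open MeasureTheory Filter Topology Set
open scoped ContDiff ComplexConjugate UpperHalfPlane MatrixGroups
open Pool.Agent.A54.Half (H0 qq ff hh)
open Pool.Agent.A54.Pl (CondA CondB CondC CondH)

/-- the cases `n ≤ 4` -/
def CondG (f : ℕ → ℍ → ℝ) : Prop := ∀ ψ : ℍ → ℝ, TestX ψ → ∀ n : ℕ, 1 ≤ n → n ≤ 4 →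
  Tendsto (fun i => ∫ z in ModularGroup.fdo, ψ z * f i z ^ n) atTop
    (𝓝 (1 / √(2 * Real.pi) * (∫ x : ℝ, x ^ n * Real.exp (-x ^ 2 / 2)) *
      ∫ z in ModularGroup.fdo, ψ z))

lemma condA_of_condG {f : ℕ → ℍ → ℝ} (h : CondG f) : CondA f := by
  intro ψ hψ
  refine ⟨?_, ?_⟩
  · have h2 := h ψ hψ 2 (by norm_num) (by norm_num)
    have hC : 1 / √(2 * Real.pi) * (∫ x : ℝ, x ^ 2 * Real.exp (-x ^ 2 / 2)) = Av.Cgau 2 := rfl
    rw [hC, Av.GmM.two, one_mul] at h2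
    exact h2
  · have h4 := h ψ hψ 4 (by norm_num) (by norm_num)
    have hC : 1 / √(2 * Real.pi) * (∫ x : ℝ, x ^ 4 * Real.exp (-x ^ 2 / 2)) = Av.Cgau 4 := rfl
    rw [hC, Av.GmM.four] at h4
    exact h4

lemma condD_of_condB {f : ℕ → ℍ → ℝ} {t : ℕ → ℝ} (h0 : ∀ i, 0 < t i)
    (ht : Tendsto t atTop atTop) (h : CondB f t) : CondD f t := by
  refine ⟨1 / 4, fun i => t i ^ (-(3 / 4) : ℝ), by norm_num, fun i => ⟨Real.rpow_pos_of_pos (h0 i) _, ?_⟩,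
    fun K hK => h K hK _ (fun i => Real.rpow_pos_of_pos (h0 i) _) ?_ ?_⟩
  · norm_num
  · exact (tendsto_rpow_neg_atTop (by norm_num : (0 : ℝ) < 3 / 4)).comp ht
  · have h1 : Tendsto (fun i => t i ^ (1 / 4 : ℝ)) atTop atTop :=
      (tendsto_rpow_atTop (by norm_num : (0 : ℝ) < 1 / 4)).comp ht
    refine h1.congr fun i => ?_
    have h2 : t i ^ (-(3 / 4) : ℝ) * t i = t i ^ (-(3 / 4) : ℝ) * t i ^ (1 : ℝ) := by
      rw [Real.rpow_one]
    rw [h2, ← Real.rpow_add (h0 i)]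
    norm_num

theorem tfae {f : ℕ → ℍ → ℝ} {t : ℕ → ℝ} (hf : ∀ i, IsHeckeMaass (f i) (t i))
    (ht : Tendsto t atTop atTop) : List.TFAE [CondG f, CondA f, CondB f t, CondC f t, CondD f t] := by
  have hp := Pl.planck hf ht
  tfae_have 1 → 2 := condA_of_condG
  tfae_have 2 → 3 := (hp.out 0 1).1
  tfae_have 3 → 5 := condD_of_condB (fun i => (hf i).pos) ht
  tfae_have 3 ↔ 4 := hp.out 1 2
  tfae_have 5 → 2 := fun h => Pl.condA_of_condH Pl.stmtU2 hf (pFD f t hf ht h)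
  tfae_have 2 → 1 := fun h ψ hψ n h1 h4 => pFou f t hf ht h ψ hψ n h1 h4
  tfae_finish

end Pool.Agent.A54.Sq
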