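import Pool.Agent.Lib.MP_a54f13_nt.Sq.Spec

/-!
# Package `Sq`, second part: the inequality for every form

GOAL (helper54, helper46): for every `δ > 0` and `φ ≥ 0` there are `C, κ > 0` and a compact `K` with
`∫ φ f⁴ ≤ 3 ∫ φ (⨍_{ball z r} f²)² + C t^{-κ} (1 + ∫_K (⨍_{ball z r} f²)²)` for all Hecke–Maass forms `f` and
all `0 < r ≤ t^{-1/2-δ}`. Conventions as in `Sq/Spec.lean`.

IDEA. The sequence `w(n) = ∫ φ f² |G_n|²` is positive definite up to small errors. So with `S = ∑ K(d) |G_d|²`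
(Fejér kernel) `∫ φ S² ≤ ∫ φ f² S + error`. With `V = Ed ρ f²` and `s = ∫ φ S V` (which is `∫ φ S f²` up to an error):
`s ≤ √(∫ φ V²) √(s + error)`, so `s ≤ ∫ φ V² + error`, and `∫ φ f⁴ ≤ 3 s + error` by `Pos`.

Every module: file `Pool/Agent/Lib/MP_a54f13_nt/Sq/<Name>.lean`, importing
`Pool.Agent.Lib.MP_a54f13_nt.Sq.Spec2` and what is named in the task, private names in
`namespace Pool.Agent.A54.Sq.<Name>M`, final theorem `Pool.Agent.A54.Sq.stmt<Name>`; the other Props used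
are hypotheses of the theorem.
-/

set_option autoImplicit false

namespace Pool.Agent.A54.Sq

open MeasureTheory Filter Topology Set
open scoped ContDiff ComplexConjugate UpperHalfPlane MatrixGroups
open Pool.Agent.A54.Half (H0 qq ff hh)
open Pool.Agent.A54.Pl (Ed mean)

noncomputable section

/-- **CoP** the law for `P` (pure algebra; uses `Cos`; see also the proof of `Cos`, file `Sq/Cos.lean`). Proof. `w(k) = W(k,0)`. For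
`0 ≤ m ≤ n`: `U(n,m) = P(n,m) + W(n+1,m)` is `(w(n-m) + w(n-m+1))/2 + O((2m+1)e)` (proof of `Cos`) and
`W(n+1,m) = (w(n+m+1) + w(n+1-m))/2 + error` (`Cos`), so `P(n,m) = (w(n-m) - w(n+m+1))/2 + error`. The other signs by
`symP`, `negP`, `negW` (the right side changes sign under `n ↦ -n-1`). -/
def StmtCoP : Prop := ∀ (N : ℕ) (e : ℝ) (W P : ℤ → ℤ → ℝ), 0 ≤ e → CosH N e W P →
  ∀ n m : ℤ, |n| + |m| + 4 ≤ N → |P n m - (W (n - m) 0 - W (n + m + 1) 0) / 2| ≤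
    64 * ((N : ℝ) + 1) ^ 2 * e

/-- **CPW** the law for `P` for the tower (uses `Rel`, `CoP`). Proof. As `Sq/CosW.lean` (`CosH` for `Wi`, `Pj`). -/
def StmtCPW : Prop := ∀ V : Set ℂ, IsOpen V → V ⊆ H0 → ∀ φ : ℂ → ℝ, TestR V φ →
  ∃ (ζ : ℂ → ℝ) (C : ℝ), TestP V ζ ∧ 0 ≤ C ∧ ∀ (t : ℝ) (G : ℤ → ℂ → ℂ), 1 ≤ t → Tow V t G →
    ∀ (N : ℕ) (B : ℝ), ((N : ℝ) + 2) ^ 2 ≤ t → Up ζ G (N + 1) B →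
      ∀ n m : ℤ, |n| + |m| + 4 ≤ N →
        |Pj φ G n m - (Wi φ G (n - m) 0 - Wi φ G (n + m + 1) 0) / 2| ≤
          C * (((N : ℝ) + 1) ^ 2 * B / t)

/-- **Fe2** positive definiteness (pure algebra). Conventions: `w(k) = W(k,0)` (even), for finitely supported `g, h : ℤ → ℝ` let
`⟨g, h⟩ = ∑∑ g_n h_m w(n-m)` (invariant under simultaneous shifts, symmetric), `κ_n = 1/(2N+1)` for `|n| ≤ N`, so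
`K = κ * κ`, `∑ K(d) w(d) = ⟨κ, κ⟩`, `∑ K(d) w(d-k) = ⟨κ, τ_k κ⟩`, `(τ_k κ)_n = κ_{n-k}`. Proof.
(0) By `hW` and `d' ↦ -d'`: `∑∑ K(d) K(d') W(d,d') ≤ ∑∑ K(d) K(d') w(d-d') + e = ∑_k K(k) ⟨κ, τ_k κ⟩ + e`, so it is enough that
`⟨κ,κ⟩ - ⟨κ,τ_k κ⟩ = (1/2) ⟨g,g⟩ ≥ -20 e` for `|k| ≤ 2N`, where `g = κ - τ_k κ`, `∑|g| ≤ 2`, `∑ g = 0`.
(1) If `a_{-n-1} = -a_n` (support in `|n| ≤ 4N+3`) then by `hP` and `m ↦ -m-1`, `∑∑ a_n a_m (w(n-m) - w(n+m+1))/2 = ⟨a,a⟩`, so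
`⟨a,a⟩ ≥ ∑∑ a_n a_m P(n,m) - (∑|a|)² e ≥ -(∑|a|)² e` by `pos`.
(2) `k` odd: `g` is antisymmetric about the half integer `k/2`; shift it to be antisymmetric about `-1/2` and use (1).
(3) `k` even: shift `g` by `k/2`, then `g_{-n} = -g_n`. Let `g_e, g_o` be the restrictions to even and odd `n`; both are odd, so have
sum zero. Terms with `n - m` odd: `w(n-m) = w(0)/3 + O(e)`, so `⟨g,g⟩ ≥ ⟨g_e,g_e⟩ + ⟨g_o,g_o⟩ - (∑|g|)² e`. Let `h_n = g_e(n) + g_e(n+1)`;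
`h_{-n-1} = -h_n`, and `⟨h,h⟩ = 2⟨g_e,g_e⟩ + 2 ∑∑ g_e(n) g_e(m+1) w(n-m)`, where only odd `n - m` occur and the main terms cancel
(`∑ g_e = 0`): `⟨g_e,g_e⟩ ≥ ⟨h,h⟩/2 - (∑|g_e|)² e ≥ -(1/2)(2∑|g_e|)² e - (∑|g_e|)² e = -3 (∑|g_e|)² e`. The same for `g_o`. Total
`⟨g,g⟩ ≥ -4e - 12 e`. -/
def StmtFe2 : Prop := ∀ (N : ℕ) (e : ℝ) (W P : ℤ → ℤ → ℝ), 0 ≤ e →
  (∀ n : ℤ, W (-n) 0 = W n 0) →
  (∀ n m : ℤ, |n| + |m| ≤ 8 * N + 8 → |W n m - (W (n + m) 0 + W (n - m) 0) / 2| ≤ e) →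
  (∀ n m : ℤ, |n| + |m| ≤ 8 * N + 8 → |P n m - (W (n - m) 0 - W (n + m + 1) 0) / 2| ≤ e) →
  (∀ n : ℤ, Odd n → |n| ≤ 8 * N + 8 → |W n 0 - W 0 0 / 3| ≤ e) →
  (∀ a : ℤ → ℝ, 0 ≤ ∑ n ∈ Finset.Icc (-(4 * (N : ℤ) + 4)) (4 * N + 4),
    ∑ m ∈ Finset.Icc (-(4 * (N : ℤ) + 4)) (4 * N + 4), a n * a m * P n m) →
  (∑ d ∈ Finset.Icc (-(2 * (N : ℤ))) (2 * (N : ℤ)), ∑ d' ∈ Finset.Icc (-(2 * (N : ℤ))) (2 * (N : ℤ)),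
    KK N d * KK N d' * W d d') ≤
    (∑ d ∈ Finset.Icc (-(2 * (N : ℤ))) (2 * (N : ℤ)), KK N d * W d 0) + 21 * e

/-- **Po2** (uses `CosW`, `CPW`, `Fe2`). Proof. `Fe2` for `W = Wi φ G`, `P = Pj φ G`; `pos`: `∑∑ a_n a_m P(n,m) =
∫ φ |∑ a_n p_n|² ≥ 0`. `CosW`, `CPW` with `8N + 12` in place of `N`. `∑∑ K K' W = ∫ φ S²`. -/
def StmtPo2 : Prop := ∀ V : Set ℂ, IsOpen V → V ⊆ H0 → ∀ φ : ℂ → ℝ, TestP V φ →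
  ∃ (ζ : ℂ → ℝ) (C : ℝ), TestP V ζ ∧ 0 ≤ C ∧ ∀ (t : ℝ) (G : ℤ → ℂ → ℂ), 1 ≤ t → Tow V t G →
    ∀ (N : ℕ) (B : ℝ), (8 * (N : ℝ) + 14) ^ 2 ≤ t → Up ζ G (8 * N + 13) B →
      ∫ z, φ z * SS G N z ^ 2 ≤
        (∫ z, φ z * (SS G N z * ‖G 0 z‖ ^ 2)) + C * (((N : ℝ) + 1) ^ 2 * B / t)

/-- **Ke2** (uses `Pos`, `Po2`, `SmS`, `Cacc.dom` to have one `ζ`). Proof. `V = Ed ρ (|G_0|²)`, `s = ∫ φ S V`, `v = ∫ φ V²`,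
`E = C B ((N+1)²/t + ρt/(N+1) + (N+1)⁻²)`. `Pos` (with `∫ φ |G_0|⁴ ≤ C B`) and `SmS`: `∫ φ |G_0|⁴ ≤ 3 s + E`; `Po2` and `SmS`:
`∫ φ S² ≤ s + E`; Cauchy–Schwarz: `s² ≤ v (s + E)`, hence `s ≤ v + E` (if `s ≥ v` then `s ≤ v + v E/s ≤ v + E`). -/
def StmtKe2 : Prop := ∀ V : Set ℂ, IsOpen V → V ⊆ H0 → ∀ φ : ℂ → ℝ, TestP V φ →
  ∃ (ζ : ℂ → ℝ) (C r0 : ℝ), TestP V ζ ∧ 0 ≤ C ∧ 0 < r0 ∧
    ∀ (t : ℝ) (G : ℤ → ℂ → ℂ), 1 ≤ t → Tow V t G →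
    ∀ (N : ℕ) (B ρ : ℝ), (8 * (N : ℝ) + 14) ^ 2 ≤ t → Up ζ G (8 * N + 13) B → 0 < ρ → ρ ≤ r0 →
      ∫ z, φ z * ‖G 0 z‖ ^ 4 ≤ 3 * (∫ z, φ z * Ed ρ (fun w => ‖G 0 w‖ ^ 2) z ^ 2) +
        C * B * (((N : ℝ) + 1) ^ 2 / t + ρ * t / ((N : ℝ) + 1) + (((N : ℝ) + 1) ^ 2)⁻¹)

/-- **Sg** the inequality for towers (uses `Ke2`, `Boo`, `Lad`). Proof. `b(φ) = ∫ φ |G_0|⁴`, `v(φ) = ∫ φ (Ed ρ |G_0|²)²`. One step: for every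
`φ` there are `ζ, C` with `b(φ) ≤ 3 v(φ) + C t^{-δ/4} (1 + b(ζ))`: for `t ≥ t0` take `N = ⌊t^{1/2-δ/2}/16⌋`, so
`(8N+14)² ≤ t`, `8N + 13 ≤ t^{1/2-δ/4}`, and `Boo` with `κ = δ/4`, `η = δ/8` for the `ζ` of `Ke2`: `B = C M² t^{δ/8} (1 + b(ζ'))`, `M = max 1 (c ·)`;
`(N+1)²/t ≤ C t^{-δ}`, `ρt/(N+1) ≤ C t^{-δ/2}`, `(N+1)⁻² ≤ C t^{-1+δ} ≤ C t^{-1/2}`, `ρ ≤ r0`; for `t ≤ t0` use `Lad`. Iterate `J` times,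
`(J-1) δ/4 ≥ 2`, and end with `b(ζ_J) ≤ C M² t²` (`Lad`): `b(φ) ≤ 3 v(φ) + C t^{-δ/4} (1 + v(ζ_1) + ... + v(ζ_{J-1}))`; `Cacc.dom` for one `ζ`.
`κ = δ/4`. -/
def StmtSg : Prop := ∀ V : Set ℂ, IsOpen V → V ⊆ H0 → ∀ (c : (ℂ → ℝ) → ℝ) (δ : ℝ), 0 < δ → δ ≤ 1 / 2 →
  ∀ φ : ℂ → ℝ, TestP V φ → ∃ (ζ : ℂ → ℝ) (C κ : ℝ), TestP V ζ ∧ 0 ≤ C ∧ 0 < κ ∧
    ∀ (t ρ : ℝ) (G : ℤ → ℂ → ℂ), 1 ≤ t → Tow V t G →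
      (∀ ζ, TestP V ζ → ∀ n : ℤ, ∫ z, ζ z * ‖G n z‖ ^ 2 ≤ c ζ) → 0 < ρ → ρ ≤ t ^ (-(1 / 2 + δ)) →
      ∫ z, φ z * ‖G 0 z‖ ^ 4 ≤ 3 * (∫ z, φ z * Ed ρ (fun w => ‖G 0 w‖ ^ 2) z ^ 2) +
        C * t ^ (-κ) * (1 + ∫ z, ζ z * Ed ρ (fun w => ‖G 0 w‖ ^ 2) z ^ 2)

/-- **SgH** the inequality for every Hecke–Maass form, with hyperbolic balls (uses `Twr`, `Sg`, `Lad`, `Pl.StmtG0`, `StmtInt`; see `Pl/G0.lean`, `Pl/G2.lean` for the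
substitution). Proof. `φ₁ = φ y⁻²`, `χ, V` from `Half.setup` for `φ₁`, tower from `Twr`, `Sg` for `φ₁` (`δ ≤ 1/2`; for larger `δ` use `δ = 1/2`, as
`t ≥ 1`). `∫_ℍ φ f⁴ = ∫ φ₁ |G_0|⁴`. With `ρ = tanh r ≤ r` and small `r` (otherwise `t` is bounded and the left side is at most a
constant, by `Sg` with `ρ = t^{-1}`-type bounds or `Lad`; simplest: `Sq.StmtLad` for `t ≤ t0`) the discs with centre in the supports lie in `V`. `G0`: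
`Ed (tanh r) F (c(z)) ≤ e^{4r} mean F z r`, `c(z) = x + i y cosh r`; substitution `w = c(z)`, `dw/(im w)² = (cosh r)⁻¹ dμ(z)`:
`∫ φ₁ (Ed ρ F)² = ∫_ℍ φ(c(z)) (cosh r)⁻¹ (Ed ρ F (c(z)))² dμ ≤ e^{8r} ∫_ℍ φ(c(z)) (mean F z r)² dμ`, and
`|φ(c(z)) - φ(z)| ≤ C r 1_K(z)`, `e^{8r} ≤ 1 + C r`: at most `∫_ℍ φ (mean)² + C r ∫_K (mean)²`, `r ≤ t^{-1/2}`. The same for `ζ` (only a constant times
`∫_K (mean)²`). -/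
def StmtSgH : Prop := ∀ (δ : ℝ) (φ : ℂ → ℝ), 0 < δ → TestP H0 φ →
  ∃ (K : Set ℍ) (C κ : ℝ), IsCompact K ∧ 0 < κ ∧ ∀ (f : ℍ → ℝ) (t r : ℝ), IsHeckeMaass f t → 1 ≤ t →
    0 < r → r ≤ t ^ (-(1 / 2 + δ)) →
    ∫ z : ℍ, φ z * f z ^ 4 ≤ 3 * (∫ z : ℍ, φ z * mean (fun w => f w ^ 2) z r ^ 2) +
      C * t ^ (-κ) * (1 + ∫ z in K, mean (fun w => f w ^ 2) z r ^ 2)

end

end Pool.Agent.A54.Sq
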