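import Pool.Agent.Lib.MP_a54f13_nt.Av.Defs

/-!
# Package `Sq`: equidistribution at the single scale `t^(-1/2-δ)` and the fourth moment

GOAL (helper54). For real normalised Hecke–Maass forms `f_i`, `t_i → ∞`: if there are `δ > 0` and radii
`0 < r_i ≤ t_i^(-1/2-δ)` with `∫_K (⨍_{ball z r_i} f_i² - 1)² dμ(z) → 0` for every compact `K`, then
`∫ ψ f_i⁴ → 3 ∫ ψ` (so QUE in mean square at one scale just below `t^(-1/2)` is equivalent to the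
fourth moment, and implies it at all scales above the wavelength).

IDEA. `G_n` (`n ∈ ℤ`) are the raised and lowered forms, normalised in `L²`. Local integrations by
parts give linear relations between `W(n,m) = ∫ φ |G_n|² |G_m|²` and
`P(n,m) = Re ∫ φ G_{n+1} Ḡ_n conj(G_{m+1} Ḡ_m)` with errors `B/t`, which can be summed up to
`n = t^(1/2-δ')`: the cosine law `W(n,m) = (w(n+m) + w(n-m))/2`, `w(n) = W(n,0)`, and the odd law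
`w(odd) = w(0)/3`. Positivity of `∫ φ (∑ (-1)^n |G_n|²)²` gives `∫ φ f⁴ ≤ 3 ∫ φ f² S + error`, where
`S = ∑ K(d) |G_d|²` (Fejér kernel of length `N`) is almost constant at the scale `N/t`.

Notation: plane `ℂ` with Lebesgue measure, `dz = ∂_x - i ∂_y`, `dzb = ∂_x + i ∂_y`, `H0 = {im > 0}`,
`TestR V φ`: real smooth `φ`, compact support in `V`. Useful library files: `Calc.lean` (rules for `dz`,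
`dzb`; `exists_cutoff`, `integral_mul_dz`, `integral_mul_dzb`, `norm_fderiv_le`), `Cacc.lean`
(`Cacc.norm_fderiv_ofReal_le`, `Cacc.norm_dz_ofReal_le`, `Cacc.dom`, `Cacc.integ`), `Rel.lean`
(`integrable_testR`, `test_bdd`), `Half.lean` (`setup`, `int_eq`, `smooth_mulR`, `smooth_mulC`),
`Pl/Defs.lean` (`lin`, `Ed`), `Pl/FC.lean`, `Pl/FB.lean`, `Pl/T2.lean` (models).

Every module: file `Pool/Agent/Lib/MP_a54f13_nt/Sq/<Name>.lean`, importing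
`Pool.Agent.Lib.MP_a54f13_nt.Sq.Spec` and what is named in the task, private names in
`namespace Pool.Agent.A54.Sq.<Name>M`, final theorem `Pool.Agent.A54.Sq.stmt<Name>`; the other Props used
are hypotheses of the theorem.
-/

set_option autoImplicit false

namespace Pool.Agent.A54.Sq

open MeasureTheory Filter Topology Set
open scoped ContDiff ComplexConjugate UpperHalfPlane MatrixGroups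
open Pool.Agent.A54.Half (H0 qq ff hh)
open Pool.Agent.A54.Pl (Ed mean)

noncomputable section

/-- nonnegative test functions -/
structure TestP (V : Set ℂ) (φ : ℂ → ℝ) : Prop where
  test : TestR V φ
  nonneg : ∀ z, 0 ≤ φ z

/-- `λ_n = √((n + 1/2)² + t²)` -/
def la (t : ℝ) (n : ℤ) : ℝ := √(((n : ℝ) + 1 / 2) ^ 2 + t ^ 2)

/-- The raised and lowered forms on `V`, normalised: `R_n G_n = λ_n G_{n+1}`,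
`L_{n+1} G_{n+1} = -λ_n G_n`, `G_{-n} = (-1)^n conj G_n` (in particular `G_0` is real). -/
structure Tow (V : Set ℂ) (t : ℝ) (G : ℤ → ℂ → ℂ) : Prop where
  smooth : ∀ n, ContDiff ℝ ∞ (G n)
  neg : ∀ n z, G (-n) z = (-1) ^ n * conj (G n z)
  up : ∀ (n : ℤ), ∀ z ∈ V, Complex.I * (z.im : ℂ) * dz (G n) z + (n : ℂ) * G n z =
    ((la t n : ℝ) : ℂ) * G (n + 1) z
  down : ∀ (n : ℤ), ∀ z ∈ V, -(Complex.I * (z.im : ℂ) * dzb (G (n + 1)) z) -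
    ((n : ℂ) + 1) * G (n + 1) z = -(((la t n : ℝ) : ℂ) * G n z)

/-- `p_n = G_{n+1} conj G_n` -/
def pp (G : ℤ → ℂ → ℂ) (n : ℤ) (z : ℂ) : ℂ := G (n + 1) z * conj (G n z)

/-- `W(n, m) = ∫ φ |G_n|² |G_m|²` -/
def Wi (φ : ℂ → ℝ) (G : ℤ → ℂ → ℂ) (n m : ℤ) : ℝ := ∫ z, φ z * (‖G n z‖ ^ 2 * ‖G m z‖ ^ 2)

/-- `P(n, m) = Re ∫ φ p_n conj p_m` -/
def Pj (φ : ℂ → ℝ) (G : ℤ → ℂ → ℂ) (n m : ℤ) : ℝ := ∫ z, φ z * (pp G n z * conj (pp G m z)).re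

/-- fourth moments up to the index `N` are at most `B` -/
def Up (ζ : ℂ → ℝ) (G : ℤ → ℂ → ℂ) (N : ℕ) (B : ℝ) : Prop :=
  ∀ n : ℤ, |n| ≤ N → ∫ z, ζ z * ‖G n z‖ ^ 4 ≤ B

/-- the Fejér kernel `K(d) = (2N + 1 - |d|)₊ / (2N+1)²` -/
def KK (N : ℕ) (d : ℤ) : ℝ := max 0 ((2 * (N : ℝ) + 1) - |(d : ℝ)|) / (2 * (N : ℝ) + 1) ^ 2

/-- `S = ∑_{|d| ≤ 2N} K(d) |G_d|²` -/
def SS (G : ℤ → ℂ → ℂ) (N : ℕ) (z : ℂ) : ℝ :=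
  ∑ d ∈ Finset.Icc (-(2 * (N : ℤ))) (2 * (N : ℤ)), KK N d * ‖G d z‖ ^ 2

/-- the abstract relations -/
structure CosH (N : ℕ) (e : ℝ) (W P : ℤ → ℤ → ℝ) : Prop where
  symW : ∀ n m, W n m = W m n
  symP : ∀ n m, P n m = P m n
  negW : ∀ n m, W (-n) m = W n m
  negP : ∀ n m, P (-n - 1) m = -P n m
  diag : ∀ n, P n n = W (n + 1) n
  rel : ∀ n m : ℤ, |n| ≤ N → |m| ≤ N → |P n m - P (n - 1) m + W n (m + 1) - W n m| ≤ e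

/-! ### Local identities -/

/-- **Rel** the local relations. Proof. On `V`, with `u_n = |G_n|²`, `p_n = G_{n+1} Ḡ_n`:
`dz (conj g) = conj (dzb g)`, so `i y dz u_n = λ_n p_n - λ_{n-1} p_{n-1}` (`up` for `G_n`, conjugate of `down` for
`G_n = G_{(n-1)+1}`; the terms `± n u_n` cancel) and `- i y dzb p_n - p_n = λ_n (u_{n+1} - u_n)` (`down` for `G_{n+1}`,
conjugate of `up` for `G_n`). For `v` smooth, `u` real smooth (everything multiplied by `φ` with support in `V`;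
`integral_mul_dz`, `dz y = -i`):
`∫ φ (i y dz u) v̄ = -∫ u dz(i y φ v̄) = -∫ u v̄ (i y dz φ + φ) - ∫ u φ conj(- i y dzb v)
= -∫ φ u conj(-i y dzb v - v) - ∫ u v̄ (i y dz φ + 2 φ)`. With `u = u_n`, `v = p_m`, real parts:
`λ_n P(n,m) - λ_{n-1} P(n-1,m) = -λ_m (W(n,m+1) - W(n,m)) - Re ∫ u_n conj(p_m) (i y dz φ + 2 φ)`. The last
integral is at most `C ∫ ζ |G_n|² |G_{m+1}| |G_m| ≤ C B` (`abcd ≤ (a⁴+b⁴+c⁴+d⁴)/4`; `ζ ∈ TestP V` equal to one on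
`tsupport φ`), and `|λ_k - t| ≤ (|k|+1)²/(2t) ≤ 1/2` for `|k| ≤ N + 1`, `|P|, |W| ≤ C B`. Divide by `t`. -/
def StmtRel : Prop := ∀ V : Set ℂ, IsOpen V → V ⊆ H0 → ∀ φ : ℂ → ℝ, TestR V φ →
  ∃ (ζ : ℂ → ℝ) (C : ℝ), TestP V ζ ∧ 0 ≤ C ∧ ∀ (t : ℝ) (G : ℤ → ℂ → ℂ), 1 ≤ t → Tow V t G →
    ∀ (N : ℕ) (B : ℝ), ((N : ℝ) + 2) ^ 2 ≤ t → Up ζ G (N + 1) B →
      ∀ n m : ℤ, |n| ≤ N → |m| ≤ N →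
        |Pj φ G n m - Pj φ G (n - 1) m + Wi φ G n (m + 1) - Wi φ G n m| ≤ C * B / t

/-- **Cos** cosine law and odd law (pure algebra). Proof. `w(k) = W(k,0)`, `U(n,m) = P(n,m) + W(n+1,m)`. `rel` for
`(m,n)` and symmetry: (b) `|P(n,m) - P(n,m-1) + W(n+1,m) - W(n,m)| ≤ e`. (b) for `(n,m)` and `rel` for `(n,m-1)`:
`|U(n,m) - U(n-1,m-1)| ≤ 2e`. (b) for `(k,0)`, `P(k,-1) = P(-1,k) = -P(0,k)`: `|2P(k,0) - (w(k) - w(k+1))| ≤ e`, so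
`|U(k,0) - (w(k)+w(k+1))/2| ≤ e/2`; with `rel` for `(k,0)`: `|W(k,1) - (w(k+1)+w(k-1))/2| ≤ 2e`, and
`|U(0,k) - (w(k)+w(k-1))/2| ≤ 3e` (`k ≥ 0`). So for `0 ≤ m ≤ n`, `k = n-m`:
`U(n,m) = (w(k)+w(k+1))/2 + O((2m+1)e)`, `U(m,n) = (w(k)+w(k-1))/2 + O((2m+3)e)`, and
`W(n+1,m) - W(n,m+1) = U(n,m) - U(m,n) = (w(k+1)-w(k-1))/2 + O((4m+4)e)`. Induction on `m` (for `n ≥ m`):
`W(n,m) = (w(n+m)+w(n-m))/2 + O(4m²e)`. Other signs by `negW`, `symW`. Odd law: `2W(n+1,n) = U(n,n) =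
(w(0)+w(1))/2 + O((2n+1)e)`; `n = 0`: `w(1) = w(0)/3 + O(e)`, so `W(n+1,n) = w(0)/3 + O((n+1)e)`, and
`W(n+1,n) = (w(2n+1)+w(1))/2 + O(4n²e)`. -/
def StmtCos : Prop := ∀ (N : ℕ) (e : ℝ) (W P : ℤ → ℤ → ℝ), 0 ≤ e → CosH N e W P →
  (∀ n m : ℤ, |n| + |m| ≤ N → |W n m - (W (n + m) 0 + W (n - m) 0) / 2| ≤
    16 * ((N : ℝ) + 1) ^ 2 * e) ∧
  ∀ n : ℤ, Odd n → |n| ≤ N → |W n 0 - W 0 0 / 3| ≤ 16 * ((N : ℝ) + 1) ^ 2 * e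

/-- **CosW** the laws for the tower (uses `Rel`, `Cos`). Proof. `CosH` for `Wi`, `Pj`: `negW`: `|G_{-n}| = |G_n|`;
`negP`: `p_{-n-1} = G_{-n} conj(G_{-n-1}) = (-1)^n Ḡ_n (-1)^{n+1} G_{n+1} = -p_n`; `diag`: `|p_n|² = |G_{n+1}|² |G_n|²`.
(`B ≥ 0` as `∫ ζ |G_0|⁴ ≥ 0`.) -/
def StmtCosW : Prop := ∀ V : Set ℂ, IsOpen V → V ⊆ H0 → ∀ φ : ℂ → ℝ, TestR V φ →
  ∃ (ζ : ℂ → ℝ) (C : ℝ), TestP V ζ ∧ 0 ≤ C ∧ ∀ (t : ℝ) (G : ℤ → ℂ → ℂ), 1 ≤ t → Tow V t G →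
    ∀ (N : ℕ) (B : ℝ), ((N : ℝ) + 2) ^ 2 ≤ t → Up ζ G (N + 1) B →
      (∀ n m : ℤ, |n| + |m| ≤ N → |Wi φ G n m - (Wi φ G (n + m) 0 + Wi φ G (n - m) 0) / 2| ≤
        C * (((N : ℝ) + 1) ^ 2 * B / t)) ∧
      ∀ n : ℤ, Odd n → |n| ≤ N → |Wi φ G n 0 - Wi φ G 0 0 / 3| ≤ C * (((N : ℝ) + 1) ^ 2 * B / t)

/-- **Fej** positivity (pure algebra). Proof. `c_n = (-1)^n/(2N+1)` for `|n| ≤ N`. Divide `hpos` by `(2N+1)²`, use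
`h1` and the substitution `m ↦ -m` in the part with `w(n+m)`:
`0 ≤ ∑∑ c_n c_m w(n-m) + e = ∑_{|d| ≤ 2N} (-1)^d K(d) w(d) + e` (`#{(n,m) : n-m = d} = 2N+1-|d|`). So
`∑ K(d) w(d) = ∑ (-1)^d K(d) w(d) + 2 ∑_{d odd} K(d) w(d) ≥ -e + 2 (w(0)/3 - e) ∑_{d odd} K(d)`, and
`2 ∑_{d odd} K(d) = ∑ K(d) - ∑ (-1)^d K(d) = 1 - (2N+1)⁻²` (the second sum is `(∑ c_n)² = (2N+1)⁻²`). -/
def StmtFej : Prop := ∀ (N : ℕ) (e : ℝ) (W : ℤ → ℤ → ℝ), 0 ≤ e →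
  (∀ n : ℤ, W (-n) 0 = W n 0) →
  (∀ n m : ℤ, |n| ≤ N → |m| ≤ N → |W n m - (W (n + m) 0 + W (n - m) 0) / 2| ≤ e) →
  (∀ n : ℤ, Odd n → |n| ≤ 2 * N → |W n 0 - W 0 0 / 3| ≤ e) →
  0 ≤ ∑ n ∈ Finset.Icc (-(N : ℤ)) N, ∑ m ∈ Finset.Icc (-(N : ℤ)) N, (-1) ^ (n + m) * W n m →
  (1 - ((2 * (N : ℝ) + 1) ^ 2)⁻¹) * W 0 0 ≤
    3 * (∑ d ∈ Finset.Icc (-(2 * (N : ℤ))) (2 * (N : ℤ)), KK N d * W d 0) + 9 * e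

/-- **KSum** the Fejér kernel: nonnegative, sum one, differences at most `(2N+1)⁻²`. Proof.
`∑_{|d| ≤ 2N} (2N+1-|d|) = (2N+1)²`. -/
def StmtKSum : Prop := ∀ N : ℕ, (∀ d : ℤ, 0 ≤ KK N d) ∧
  ∑ d ∈ Finset.Icc (-(2 * (N : ℤ))) (2 * (N : ℤ)), KK N d = 1 ∧
  (∀ d : ℤ, |KK N d - KK N (d + 1)| ≤ ((2 * (N : ℝ) + 1) ^ 2)⁻¹) ∧
  ∀ d : ℤ, 2 * (N : ℤ) < |d| → KK N d = 0

/-- **Pos** (uses `CosW`, `Fej`). Proof. `Fej` for `W = Wi φ G`; `hpos`: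
`∑∑ (-1)^{n+m} W(n,m) = ∫ φ (∑_{|n| ≤ N} (-1)^n |G_n|²)² ≥ 0`. `CosW` with `2N` in place of `N`
(`|n| + |m| ≤ 2N`), `∑ K(d) W(d,0) = ∫ φ (S |G_0|²)`; `(2N+1)² ≤ 4 (N+1)²`. -/
def StmtPos : Prop := ∀ V : Set ℂ, IsOpen V → V ⊆ H0 → ∀ φ : ℂ → ℝ, TestP V φ →
  ∃ (ζ : ℂ → ℝ) (C : ℝ), TestP V ζ ∧ 0 ≤ C ∧ ∀ (t : ℝ) (G : ℤ → ℂ → ℂ), 1 ≤ t → Tow V t G →
    ∀ (N : ℕ) (B : ℝ), (2 * (N : ℝ) + 2) ^ 2 ≤ t → Up ζ G (2 * N + 1) B →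
      (1 - ((2 * (N : ℝ) + 1) ^ 2)⁻¹) * (∫ z, φ z * ‖G 0 z‖ ^ 4) ≤
        3 * (∫ z, φ z * (SS G N z * ‖G 0 z‖ ^ 2)) + C * (((N : ℝ) + 1) ^ 2 * B / t)

/-! ### Smoothing -/

/-- **SmS** `S` is almost constant at the scale `N/t` (uses `Pl.StmtE3`, `KSum`). Proof. On `V`, summation by parts
in `i y dz S = ∑ K(d) (λ_d p_d - λ_{d-1} p_{d-1}) = ∑_{-2N-1 ≤ d ≤ 2N} (K(d) - K(d+1)) λ_d p_d` (`KSum`; formula for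
`i y dz u_d` as in `Rel`), `λ_d ≤ t + |d| + 1 ≤ 3 t` (`2N+1 ≤ t`), so
`y² |dz S|² ≤ (2N+1)⁻⁴ 9 t² (4N+2) ∑_d |p_d|²` and, `ζ` as in `E3`, `ζ₂ ∈ TestP V` with `ζ² , ζ²/y² ≤ ζ₂`,
`∫ ζ² |dz S|² ≤ 36 t² (2N+1)⁻² B` as `∫ ζ₂ |p_d|² ≤ B` (`a²b² ≤ (a⁴+b⁴)/2`); `S` is real so
`‖fderiv S‖ ≤ C |dz S|` (`Cacc.norm_fderiv_ofReal_le`). `∫ ζ² S² ≤ ∑ K(d) ∫ ζ² |G_d|⁴ ≤ B` (Jensen or Cauchy–Schwarz),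
`∫ ζ² |G_0|⁴ ≤ B`. Insert into `E3` with `F = |G_0|²`, `G = S`; `1 ≤ 2 t/(N+1)`. -/
def StmtSmS : Prop := ∀ V : Set ℂ, IsOpen V → V ⊆ H0 → ∀ φ : ℂ → ℝ, TestP V φ →
  ∃ (ζ : ℂ → ℝ) (C r0 : ℝ), TestP V ζ ∧ 0 ≤ C ∧ 0 < r0 ∧
    ∀ (t : ℝ) (G : ℤ → ℂ → ℂ), 1 ≤ t → Tow V t G →
    ∀ (N : ℕ) (B ρ : ℝ), 2 * (N : ℝ) + 1 ≤ t → Up ζ G (2 * N + 1) B → 0 < ρ → ρ ≤ r0 →
      |(∫ z, φ z * (SS G N z * Ed ρ (fun w => ‖G 0 w‖ ^ 2) z)) -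
        ∫ z, φ z * (SS G N z * ‖G 0 z‖ ^ 2)| ≤ C * (ρ * t / ((N : ℝ) + 1)) * B

/-- **MsS** the mass of `S` (uses `KSum`). Proof. `λ_n (u_{n+1} - u_n) = - i y dzb p_n - p_n` on `V` (see `Rel`), so
`λ_n ∫ φ (u_{n+1} - u_n) = ∫ (i dzb(y φ) - φ) p_n = ∫ (i y dzb φ - 2 φ) p_n` (`dzb y = i`), at most
`C ∫ ζ |G_{n+1}| |G_n| ≤ C M`; `λ_n ≥ t`. Telescope: `|∫ φ (u_d - u_0)| ≤ |d| C M/t ≤ 2 N C M/t`; `∑ K(d) = 1`. -/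
def StmtMsS : Prop := ∀ V : Set ℂ, IsOpen V → V ⊆ H0 → ∀ φ : ℂ → ℝ, TestP V φ →
  ∃ (ζ : ℂ → ℝ) (C : ℝ), TestP V ζ ∧ 0 ≤ C ∧ ∀ (t : ℝ) (G : ℤ → ℂ → ℂ), 1 ≤ t → Tow V t G →
    ∀ (N : ℕ) (M : ℝ), (∀ n : ℤ, ∫ z, ζ z * ‖G n z‖ ^ 2 ≤ M) →
      |(∫ z, φ z * SS G N z) - ∫ z, φ z * ‖G 0 z‖ ^ 2| ≤ C * ((N : ℝ) + 1) * M / t

/-- **Key** (uses `Pos`, `SmS`, `MsS`, `KSum`, `Cacc.dom` to have one `ζ`). Proof. `w(0) = ∫ φ |G_0|⁴ ≤ C B`, so by `Pos`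
`w(0) ≤ 3 ∫ φ S |G_0|² + C B ((N+1)²/t + (N+1)⁻²)`; by `SmS`
`∫ φ S |G_0|² ≤ ∫ φ S Ed + C ρ t B/(N+1)` with `Ed = Ed ρ (|G_0|²)`;
`∫ φ S Ed = a ∫ φ S + ∫ φ S (Ed - a) ≤ a ∫ φ S + √(∫ φ S²) √(∫ φ (Ed - a)²)`; `∫ φ S² ≤ ∑ K(d) W(d,d) ≤ D`; `MsS`,
`0 ≤ a ≤ 2`. -/
def StmtKey : Prop := ∀ V : Set ℂ, IsOpen V → V ⊆ H0 → ∀ φ : ℂ → ℝ, TestP V φ →
  ∃ (ζ : ℂ → ℝ) (C r0 : ℝ), TestP V ζ ∧ 0 ≤ C ∧ 0 < r0 ∧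
    ∀ (t : ℝ) (G : ℤ → ℂ → ℂ), 1 ≤ t → Tow V t G →
    ∀ (N : ℕ) (B M D ρ a : ℝ), (2 * (N : ℝ) + 2) ^ 2 ≤ t → Up ζ G (2 * N + 1) B →
      (∀ n : ℤ, ∫ z, ζ z * ‖G n z‖ ^ 2 ≤ M) → (∀ d : ℤ, |d| ≤ 2 * N → Wi φ G d d ≤ D) →
      0 < ρ → ρ ≤ r0 → 0 ≤ a → a ≤ 2 →
      ∫ z, φ z * ‖G 0 z‖ ^ 4 ≤ 3 * (a * ∫ z, φ z * ‖G 0 z‖ ^ 2) +
        3 * (√(∫ z, φ z * (Ed ρ (fun w => ‖G 0 w‖ ^ 2) z - a) ^ 2) * √D) +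
        C * (B * (((N : ℝ) + 1) ^ 2 / t + ρ * t / ((N : ℝ) + 1) + (((N : ℝ) + 1) ^ 2)⁻¹) +
          M * ((N : ℝ) + 1) / t)

/-! ### A priori bounds -/

/-- **Lad** (uses the library's `StmtLady`). Proof. `φ ≤ C₁ χ⁴` with a cutoff `χ`, `v = χ G_n`, smooth with compact
support: `∫ |v|⁴ ≤ C ∫ |v|² ∫ ‖Dv‖²`; on `tsupport χ` (`y ≥ m0`) by `up`, `down`
`‖DG_n‖ ≤ |dz G_n| + |dzb G_n| ≤ (λ_n |G_{n+1}| + λ_{n-1} |G_{n-1}| + 2|n| |G_n|)/y`, `λ ≤ t + |n| + 2 ≤ 4 t`, so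
`∫ ‖Dv‖² ≤ C t² M`, with `ζ ∈ TestP V`, `ζ ≥ 1` on `tsupport χ`. -/
def StmtLad : Prop := ∀ V : Set ℂ, IsOpen V → V ⊆ H0 → ∀ φ : ℂ → ℝ, TestP V φ →
  ∃ (ζ : ℂ → ℝ) (C : ℝ), TestP V ζ ∧ 0 ≤ C ∧ ∀ (t : ℝ) (G : ℤ → ℂ → ℂ), 1 ≤ t → Tow V t G →
    ∀ M : ℝ, (∀ n : ℤ, ∫ z, ζ z * ‖G n z‖ ^ 2 ≤ M) → ∀ n : ℤ, |(n : ℝ)| ≤ t →
      ∫ z, φ z * ‖G n z‖ ^ 4 ≤ C * M ^ 2 * t ^ 2

/-- the statement `E(κ, s)` -/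
def EE (V : Set ℂ) (κ s : ℝ) : Prop := ∀ φ : ℂ → ℝ, TestP V φ →
  ∃ (ζ : ℂ → ℝ) (C : ℝ), TestP V ζ ∧ 0 ≤ C ∧ ∀ (t : ℝ) (G : ℤ → ℂ → ℂ), 1 ≤ t → Tow V t G →
    ∀ M : ℝ, 1 ≤ M → (∀ n : ℤ, ∫ z, ζ z * ‖G n z‖ ^ 2 ≤ M) →
      ∀ n : ℤ, |(n : ℝ)| ≤ t ^ (1 / 2 - κ) →
        ∫ z, φ z * ‖G n z‖ ^ 4 ≤ C * M ^ 2 * t ^ s * (1 + ∫ z, ζ z * ‖G 0 z‖ ^ 4)

/-- **Bst** one step (uses `CosW`, `Lad`). Proof. Let `φ` be given, `ζ₁, C₁` from `CosW`; `E(κ', s)` for `ζ₁` and for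
`φ`; one `ζ` dominating all functions which occur (`Cacc.dom`), `J = 1 + ∫ ζ |G_0|⁴`. Let first `t ≥ t0(κ, κ')`, so that
`N = ⌈2 t^{1/2-κ}⌉` satisfies `(N+2)² ≤ t`, `N + 1 ≤ t^{1/2-κ'}`. For `|n| ≤ t^{1/2-κ}` by `CosW`
`W(n,n) ≤ (w(2n) + w(0))/2 + C (N+1)² B/t`, `B = C M² t^s J` (`E(κ',s)` for `ζ₁`), `(N+1)²/t ≤ C t^{-2κ}`. Here
`w(2n) ≤ √(W(2n,2n)) √(w(0)) ≤ √(C M² t^s J) √(C J) ≤ C M t^{s/2} J` (`|2n| ≤ t^{1/2-κ'}`) and `w(0) ≤ C J`. So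
`W(n,n) ≤ C M² J (1 + t^{s/2} + t^{s-2κ})`. For `1 ≤ t ≤ t0` use `Lad` (`t² ≤ t0²`, `t^{1/2-κ} ≤ t`). -/
def StmtBst : Prop := ∀ V : Set ℂ, IsOpen V → V ⊆ H0 → ∀ κ κ' s s' : ℝ, 0 < κ' → κ' < κ → κ ≤ 1 / 2 →
  0 ≤ s → s / 2 ≤ s' → s - 2 * κ ≤ s' → EE V κ' s → EE V κ s'

/-- **Boo** (uses `Bst`, `Lad`). Proof. `E(κ', 2)` for all `κ' ≥ 0` by `Lad` (`t^{1/2-κ'} ≤ t`, `M² ≤ M² J`). Let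
`a_0 = 2`, `a_{k+1} = max(a_k/2, a_k - κ)`. Claim: for all `k` and all `κ' ∈ (κ/2, 1/2]`: `E(κ', a_k)`. Induction:
apply `Bst` with `κ'' = (κ' + κ/2)/2 ∈ (κ/2, κ')`, `2 κ' ≥ κ`. And `a_k → 0` (`a_{k+1} ≤ max(a_k/2, a_k - κ)`), so
`a_k ≤ η` for some `k`; `E(κ, s)` implies `E(κ, s')` for `s ≤ s'`. -/
def StmtBoo : Prop := ∀ V : Set ℂ, IsOpen V → V ⊆ H0 → ∀ κ η : ℝ, 0 < κ → κ ≤ 1 / 2 → 0 < η →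
  EE V κ η

/-- the data: tower, local mass bounds `c`, bounds `x` for the mean square of the local means minus `a` -/
structure Dat (V : Set ℂ) (c x : (ℂ → ℝ) → ℝ) (δ t a ρ : ℝ) (G : ℤ → ℂ → ℂ) : Prop where
  one_le : 1 ≤ t
  tow : Tow V t G
  mass : ∀ ζ, TestP V ζ → ∀ n : ℤ, ∫ z, ζ z * ‖G n z‖ ^ 2 ≤ c ζ
  var : ∀ ζ, TestP V ζ → ∫ z, ζ z * (Ed ρ (fun w => ‖G 0 w‖ ^ 2) z - a) ^ 2 ≤ x ζ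
  a0 : 0 ≤ a
  a2 : a ≤ 2
  rho0 : 0 < ρ
  rho : ρ ≤ t ^ (-(1 / 2 + δ))

/-- **Ex0** the fourth moment grows slowly (uses `Key`, `Boo`, `Lad`). Proof. Claim `E'(s)`: for all `φ` there is `C`
with `∫ φ |G_0|⁴ ≤ C t^s` for all data. `E'(2)` by `Lad` (`n = 0`). Step: `E'(s) ⇒ E'(s')` if
`s' ≥ (s + η')/2`, `s' ≥ s + η' - δ/2`, `s' ≥ 0` (`η' > 0` arbitrary): let `N = ⌊t^{1/2-δ/2}/4⌋`, so `(2N+2)² ≤ t` for `t ≥ t0`,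
`2N + 1 ≤ t^{1/2-δ/4}`; by `Boo` (`κ = δ/4`, `η'`) and `E'(s)` for the function `ζ` there (with `M = max 1 (c ζ)`)
`B, D ≤ C t^{s+η'}`. `Key`: the error is `≤ C t^{s+η'} (t^{-δ} + t^{-δ/2} + t^{-1+δ}) + C t^{-δ/2}`
(`ρ t/(N+1) ≤ C t^{1-1/2-δ-1/2+δ/2} = C t^{-δ/2}`, `(N+1)⁻² ≤ C t^{-1+δ}`, `δ ≤ 1/2`), the main terms are
`≤ 6 |c φ| + 3 √(x φ) √(C t^{s+η'})`; `ρ ≤ r0` for `t ≥ t0`. For `t ≤ t0` use `E'(2)`. Take `η' = min(η/4, δ/8)`: if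
`s ≥ 3 η'`, then `s' = s - η'` is admissible; start with `s = 2` and repeat until `s < 4 η' ≤ η`. -/
def StmtEx0 : Prop := ∀ V : Set ℂ, IsOpen V → V ⊆ H0 → ∀ (c x : (ℂ → ℝ) → ℝ) (δ η : ℝ), 0 < δ → δ ≤ 1 / 2 →
  0 < η → ∀ φ : ℂ → ℝ, TestP V φ → ∃ C : ℝ, 0 ≤ C ∧ ∀ (t a ρ : ℝ) (G : ℤ → ℂ → ℂ),
    Dat V c x δ t a ρ G → ∫ z, φ z * ‖G 0 z‖ ^ 4 ≤ C * t ^ η

/-- **Exp** the same for all indices (uses `Ex0`, `Boo`). Proof. `Boo` with `η/2` and `Ex0` with `η/2` for the function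
`ζ` of `Boo`, `M = max 1 (c ζ)`. -/
def StmtExp : Prop := ∀ V : Set ℂ, IsOpen V → V ⊆ H0 → ∀ (c x : (ℂ → ℝ) → ℝ) (δ η κ : ℝ), 0 < δ →
  δ ≤ 1 / 2 → 0 < η → 0 < κ → κ ≤ 1 / 2 → ∀ φ : ℂ → ℝ, TestP V φ → ∃ C : ℝ, 0 ≤ C ∧
    ∀ (t a ρ : ℝ) (G : ℤ → ℂ → ℂ), Dat V c x δ t a ρ G → ∀ n : ℤ, |(n : ℝ)| ≤ t ^ (1 / 2 - κ) →
      ∫ z, φ z * ‖G n z‖ ^ 4 ≤ C * t ^ η

/-- **Max** the diagonal moments are at most `w(0) + o(1)` (uses `CosW`, `Exp`). Proof. Let `κ₁ = κ/2`, `t ≥ t0`,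
`N = ⌊t^{1/2-κ₁}/2⌋`, `(N+2)² ≤ t`, `N + 1 ≤ t^{1/2-κ₁/2}`; by `Exp` (`κ₁/2`, `η = κ₁/2`) for the `ζ` of `CosW`, `B ≤ C t^{κ₁/2}`, so
the error in `CosW` is `e ≤ C t^{-2κ₁+κ₁/2} ≤ C t^{-κ₁}`. For `2|d| ≤ N`: `W(d,d) ≤ (w(2d)+w(0))/2 + e` and
`0 ≤ ∫ φ (u_0 - u_d)² = w(0) - 2w(d) + W(d,d)`, so `w(d) ≤ (3w(0)+w(2d))/4 + e/2`. Iterate `k` times,
`2^k ≤ t^{κ₁/2} < 2^{k+1}` (`|d| ≤ 2 t^{1/2-κ}`, `2^k |d| ≤ N` for `t ≥ t0`):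
`w(d) ≤ w(0) + 4^{-k} w(2^k d) + e` and `w(2^k d) ≤ √(W(2^k d, 2^k d) w(0)) ≤ C t^{κ₁/2}`, `4^{-k} ≤ 4 t^{-κ₁}`. Hence
`w(d) ≤ w(0) + C t^{-κ₁/2}` for `|d| ≤ 2 t^{1/2-κ}` and `W(d,d) ≤ (w(2d)+w(0))/2 + e ≤ w(0) + C t^{-κ₁/2}` for
`|d| ≤ t^{1/2-κ}`. For `t ≤ t0` use `Exp`. `κ' = κ/4`. -/
def StmtMax : Prop := ∀ V : Set ℂ, IsOpen V → V ⊆ H0 → ∀ (c x : (ℂ → ℝ) → ℝ) (δ κ : ℝ), 0 < δ → δ ≤ 1 / 2 →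
  0 < κ → κ < 1 / 2 → ∀ φ : ℂ → ℝ, TestP V φ → ∃ C κ' : ℝ, 0 ≤ C ∧ 0 < κ' ∧
    ∀ (t a ρ : ℝ) (G : ℤ → ℂ → ℂ), Dat V c x δ t a ρ G → ∀ n : ℤ, |(n : ℝ)| ≤ t ^ (1 / 2 - κ) →
      Wi φ G n n ≤ (∫ z, φ z * ‖G 0 z‖ ^ 4) + C * t ^ (-κ')

/-- **UpB** the upper bound (uses `Key`, `Exp`, `Max`). Proof. `t ≥ t0`, `N = ⌊t^{1/2-δ/2}/4⌋`, `2N + 1 ≤ t^{1/2-δ/4}`. `Exp` with `κ = δ/4`,
`η = δ/8`: `B ≤ C t^{δ/8}`; `Max` with `κ = δ/4`: `D = w(0) + C t^{-κ'}`; `Key`: the error is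
`≤ C t^{δ/8} (t^{-δ} + t^{-δ/2} + t^{-1+δ}) + C t^{-1/2} ≤ C t^{-δ/4}` (`M = c ζ`). For `t ≤ t0`:
`w(0) ≤ C ≤ C' t^{-δ/4}` by `Exp`. -/
def StmtUpB : Prop := ∀ V : Set ℂ, IsOpen V → V ⊆ H0 → ∀ (c x : (ℂ → ℝ) → ℝ) (δ : ℝ), 0 < δ → δ ≤ 1 / 2 →
  ∀ φ : ℂ → ℝ, TestP V φ → ∃ C κ : ℝ, 0 ≤ C ∧ 0 < κ ∧ ∀ (t a ρ : ℝ) (G : ℤ → ℂ → ℂ),
    Dat V c x δ t a ρ G →
      ∫ z, φ z * ‖G 0 z‖ ^ 4 ≤ 3 * (a * ∫ z, φ z * ‖G 0 z‖ ^ 2) +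
        3 * (√(∫ z, φ z * (Ed ρ (fun w => ‖G 0 w‖ ^ 2) z - a) ^ 2) *
          √((∫ z, φ z * ‖G 0 z‖ ^ 4) + C * t ^ (-κ))) + C * t ^ (-κ)

/-! ### Hecke–Maass forms -/

/-- **Inv** local masses of the raised forms (uses `Av.StmtWf`, `Av.StmtDer`, `Av.StmtNk`, `Pl.StmtU1`, `stmtInt`). Proof.
`F(z) = ‖fk f k z‖²` is continuous on `ℍ` and invariant: `Av.Wt` gives `T`, `S` (`|τ/τ̄| = 1`), which generate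
`SL(2, ℤ)` (`SpecialLinearGroup.SL2Z_generators`). `∫_ℂ ζ F = ∫_ℍ (ζ y²) F dμ` (`IntLap.int_gen`), `= ∫_{fdo} ψ F` with `ψ` from
`Pl.StmtU1` for `φ = ζ y²`; `|ψ| ≤ C` on `fd` (`ψ` continuous, zero high in the cusp: see `Pl/U2.lean`), and
`∫_{fdo} F = ∏ μ_j ∫_{fdo} f² = ∏ μ_j π/3` (`Nk` with `g = f`, `normalised`). -/
def StmtInv : Prop := ∀ ζ : ℂ → ℝ, TestP H0 ζ → ∃ C : ℝ, 0 ≤ C ∧ ∀ (f : ℍ → ℝ) (t : ℝ),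
  IsHeckeMaass f t → ∀ k : ℕ, ∫ z, ζ z * ‖Av.fk f k z‖ ^ 2 ≤
    C * ∏ j ∈ Finset.range k, Av.mu j t

/-- **Twr** the tower of a form (uses `Inv`, `Av.StmtWf`). Proof. `G_k = χ · fk f k / √(∏_{j<k} μ_j)` for `k ≥ 0`, `G_{-k} = (-1)^k conj
G_k`; smooth by `Half.smooth_mulC`. On the open set `V`, `χ = 1`: `up` for `k ≥ 0` is the definition of `fk f (k+1) = RR k (fk f k)`,
`λ_k = √μ_k`; `down` for `k ≥ 0` is `Wf` (3). For negative indices take conjugates (`dz (conj g) = conj (dzb g)`):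
`up` at `-m-1` is the conjugate of `down` at `m`, `down` at `-m-1` is the conjugate of `up` at `m`, and `λ_{-m-1} = λ_m`.
Mass: `0 ≤ χ ≤ 1`, `Inv` for `ζ` (`TestP V ζ` gives `TestP H0 ζ`): `c ζ` is the constant of `Inv` (`Classical.choose`,
zero if `ζ` is not a test function). -/
def StmtTwr : Prop := ∀ (χ : ℂ → ℝ) (V : Set ℂ), TestR H0 χ → (∀ z, 0 ≤ χ z ∧ χ z ≤ 1) → IsOpen V →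
  V ⊆ H0 → (∀ z ∈ V, χ z = 1) → ∃ c : (ℂ → ℝ) → ℝ, ∀ (f : ℍ → ℝ) (t : ℝ), IsHeckeMaass f t →
    ∃ G : ℤ → ℂ → ℂ, Tow V t G ∧ (∀ ζ, TestP V ζ → ∀ n : ℤ, ∫ z, ζ z * ‖G n z‖ ^ 2 ≤ c ζ) ∧
      ∀ z, G 0 z = ((ff χ f z : ℝ) : ℂ)

/-- **Flt** the theorem on the plane, with a general constant (uses `Twr`, `UpB`, `Pl.StmtE3`, `Dyn.StmtRatioS`, `Dyn.StmtNAf`,
`stmtLap`). Proof. First `φ ∈ TestP H0`. `Half.setup` gives `χ, V`; `Twr` gives `c` and `G_i`. For `ζ ∈ TestP V` and large `i` the discs of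
`Ed (ρ i)` with centre in `tsupport ζ` lie in `V` (`FB.lean`, `FC.lean`: `discs`), where `ff χ f = ext f`; so
`∫ ζ (Ed ρ_i |G_{0,i}|² - a_i)² → 0`, and `x ζ` is a bound of this sequence; so `Dat V c x δ (t i) (a i) (ρ i) (G i)` for
`i ≥ i0` (`t i ≥ 1`; if `δ > 1/2` replace `δ` by `1/2`). `UpB`: `w_i ≤ 3 a_i m_i + 3 √X_i √(w_i + C t_i^{-κ}) + C t_i^{-κ}`, `m_i = ∫ φ |G_0|² ≤ c φ`, `X_i → 0`: so `w_i` is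
bounded, for every `φ ∈ TestP V`. `m_i → c₀ ∫ φ`: `∫ φ F - a_i ∫ φ = (∫ φ F - ∫ φ Ed F) + ∫ φ (Ed F - a_i)`, `F = |G_0|²`, by `E3`
with `G = 1` (fourth moments bounded, `ρ_i → 0`) and Cauchy–Schwarz. Hence `limsup w_i ≤ 3 c₀² ∫ φ`. `RatioS` for the sequence
`ff χ (f (i+N))` (`Half2.seq`, `L2Bdd` from the mass bounds, `NAloc` from `Dyn.Half3M.naloc`, as in `Pl/FC.lean`):
`3 (∫ φ F)² - ε ≤ (∫ φ) w_i`, so `w_i → 3 c₀² ∫ φ` if `∫ φ > 0`; if `∫ φ = 0` then `φ = 0`. General `φ ∈ TestR H0`: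
`φ = (φ + Z χ₁) - Z χ₁` with a cutoff `χ₁` (see the end of `Pl/T2.lean`). -/
def StmtFlt : Prop := ∀ (f : ℕ → ℍ → ℝ) (t ρ a : ℕ → ℝ) (δ c₀ : ℝ), (∀ i, IsHeckeMaass (f i) (t i)) →
  Tendsto t atTop atTop → 0 < δ → (∀ i, 0 < ρ i ∧ ρ i ≤ t i ^ (-(1 / 2 + δ))) →
  (∀ i, 0 ≤ a i ∧ a i ≤ 2) → Tendsto a atTop (𝓝 c₀) →
  (∀ φ : ℂ → ℝ, TestP H0 φ → Tendsto (fun i => ∫ z, φ z *
    (Ed (ρ i) (fun w => ext (f i) w ^ 2) z - a i) ^ 2) atTop (𝓝 0)) →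
  ∀ φ : ℂ → ℝ, TestR H0 φ →
    Tendsto (fun i => ∫ z, φ z * ext (f i) z ^ 2) atTop (𝓝 (c₀ * ∫ z, φ z)) ∧
    Tendsto (fun i => ∫ z, φ z * ext (f i) z ^ 4) atTop (𝓝 (3 * c₀ ^ 2 * ∫ z, φ z))

/-- the hypothesis at a single scale -/
def CondD (f : ℕ → ℍ → ℝ) (t : ℕ → ℝ) : Prop := ∃ (δ : ℝ) (r : ℕ → ℝ), 0 < δ ∧
  (∀ i, 0 < r i ∧ r i ≤ t i ^ (-(1 / 2 + δ))) ∧ ∀ K : Set ℍ, IsCompact K →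
    Tendsto (fun i => ∫ z in K, (mean (fun w => f i w ^ 2) z (r i) - 1) ^ 2) atTop (𝓝 0)

/-- **FD** from hyperbolic balls (uses `Flt`, `Pl.StmtG2`, `stmtInt`). Proof. `Flt` with `a = 1`, `ρ_i = tanh (r_i) ≤ r_i`; the hypothesis by
`Pl.StmtG2` (`r_i → 0`; `t^{-(1/2+δ)} → 0`). `CondH` is stated with `∫_ℍ`: replace `φ` by `φ y⁻²` (`Half.int_eq`,
`IntLap.int_gen`). -/
def StmtFD : Prop := ∀ (f : ℕ → ℍ → ℝ) (t : ℕ → ℝ), (∀ i, IsHeckeMaass (f i) (t i)) →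
  Tendsto t atTop atTop → CondD f t → Pl.CondH f

/-- **Bd** boundedness (uses `Twr`, `UpB`, `Pl.StmtE1`, `Pl.StmtG0` and the bounds in `Pl/G1.lean`, `Pl/G2.lean`). Proof. `⇐`: `φ ∈ TestP H0` equal to
one on `K`; `setup`, `Twr`, `Dat` with `a = 0` for `i ≥ i0`: `∫ ζ (Ed ρ_i F)² ≤ C ∫_{K'} mean(f²)² ≤ x ζ` (`G0`:
`Ed (tanh r) F (center) ≤ e^{4r} mean`, the substitution of `G2`); `UpB` with `a = 0`: `w_i ≤ 3 √X √(w_i + C) + C`, so `w_i` is bounded;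
finitely many `i` are harmless (`f_i` is continuous). `⇒`: `mean(f²)² ≤ e^{8r} (Ed (tanh r) F)²` at the Euclidean centre, the
substitution of `G1`, and `∫ φ (Ed ρ F)² ≤ C ∫ ζ² F²` (`E1`) for small `ρ`; `∫ ζ² F² ≤ C ∫_{K'} f_i⁴`; for the finitely many other
`i` the integrand is continuous (`G0`) on the compact `K`. -/
def StmtBd : Prop := ∀ (f : ℕ → ℍ → ℝ) (t r : ℕ → ℝ) (δ : ℝ), (∀ i, IsHeckeMaass (f i) (t i)) →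
  Tendsto t atTop atTop → 0 < δ → (∀ i, 0 < r i ∧ r i ≤ t i ^ (-(1 / 2 + δ))) →
  ((∀ K : Set ℍ, IsCompact K → ∃ C : ℝ, ∀ i, ∫ z in K, f i z ^ 4 ≤ C) ↔
    ∀ K : Set ℍ, IsCompact K → ∃ C : ℝ, ∀ i, ∫ z in K, mean (fun w => f i w ^ 2) z (r i) ^ 2 ≤ C)

/-- **Fou** the cases `n ≤ 4` (uses the library: `Dyn.finalCube` for `n = 3`, with `Av.Fin3M.control` for the
hypothesis, `Av.first_moment` for `n = 1`, `Av/Gm.lean` for the Gaussian moments; see `Av/Fin3.lean`, end of `Av/Fam.lean`). -/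
def StmtFou : Prop := ∀ (f : ℕ → ℍ → ℝ) (t : ℕ → ℝ), (∀ i, IsHeckeMaass (f i) (t i)) →
  Tendsto t atTop atTop → Pl.CondA f → ∀ ψ : ℍ → ℝ, TestX ψ → ∀ n : ℕ, 1 ≤ n → n ≤ 4 →
    Tendsto (fun i => ∫ z in ModularGroup.fdo, ψ z * f i z ^ n) atTop
      (𝓝 (1 / √(2 * Real.pi) * (∫ x : ℝ, x ^ n * Real.exp (-x ^ 2 / 2)) *
        ∫ z in ModularGroup.fdo, ψ z))

end

end Pool.Agent.A54.Sq
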